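import Pool.Agent.NBA.PFac

set_option autoImplicit false

/-! NBA-Elt. Elements of the tori.
PLAN.  `split`: `(ZMod l)ˣ` is cyclic of order `l - 1` (`IsCyclic`), take `x` of order `2 * m`... precisely: `mob (dia x) (some z) = some (x ^ 2 z)`, `act (dia x) ^ n = act (dia (x ^ n))` is `1` iff `(x ^ n) ^ 2 = 1` (evaluate at `some 1`), so `orderOf (act (dia x)) = orderOf (x ^ 2)`;
choose `x` of order `2 m` (exists as `2 m ∣ l - 1`, `IsCyclic.exists_ofOrder_eq_natCard` and a power), `x ^ 2` has order `m`.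
`nonsplit`: `K = AlgebraicClosure (ZMod l)`; `l` does not divide `n` (as `n ∣ l + 1`, `n` odd, `n ≠ l`... `l ∣ l + 1` is false), so there is a primitive `n`-th root of unity `ξ ∈ K` (`HasEnoughRootsOfUnity`, or a root of the separable polynomial, `IsSepClosed`).  `ξ ^ l = ξ⁻¹` as `n ∣ l + 1`; `t = ξ + ξ⁻¹`
satisfies `t ^ l = t` (Frobenius), so `t` is the image of `t₀ : ZMod l` (the `l` roots of `X ^ l - X`).  `B = mk2 0 (-1) 1 t₀`.  Over `K`: `B²= t B - 1`, so (if `ξ ≠ ξ⁻¹`) `B ^ k = u_k B - u_{k-1}` with `u_k = (ξ^k - ξ⁻ᵏ) / (ξ - ξ⁻¹)`.  `act (B ^ k) = 1` iff the off-diagonal entries vanish and the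
diagonal ones agree, iff `u_k = 0`, iff `ξ ^ (2k) = 1`, iff `n ∣ 2 k`, iff `n ∣ k`.  If `n = 1` take `B = 1`; `n > 1` odd gives `ξ² ≠ 1`.
`nofix`: `g = act A`; the number of fixed points is `≡ l + 1 ≡ 0 (mod q)` (`g` has order `q`: `IsPGroup.card_modEq_card_fixedPoints` for `Subgroup.zpowers g`), and it is at most `2 < q` by `fix3`: it is `0`. -/

namespace Pool.Agent.NBA

private theorem Elt_dpow {l : ℕ} [Fact l.Prime] (x : (ZMod l)ˣ) (n : ℕ) :
    act (dia x) ^ n = act (dia (x ^ n)) := by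
  induction n with
  | zero => rw [pow_zero, pow_zero, dia_one, map_one]
  | succ n ih => rw [pow_succ, ih, pow_succ, dia_mul, map_mul]

private theorem Elt_done {l : ℕ} [Fact l.Prime] (y : (ZMod l)ˣ) :
    act (dia y) = 1 ↔ y ^ 2 = 1 := by
  constructor
  · intro h
    have h1 := (act_one h).2.2.1
    have h2 : ((y⁻¹ : (ZMod l)ˣ) : ZMod l) = (y : ZMod l) := h1
    have h3 : y⁻¹ = y := Units.ext h2
    rw [pow_two]
    nth_rewrite 1 [← h3]
    rw [inv_mul_cancel]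
  · intro h
    have h3 : y⁻¹ = y := by
      rw [pow_two] at h
      exact inv_eq_of_mul_eq_one_left h
    refine act_of_entries rfl rfl ?_
    change ((y⁻¹ : (ZMod l)ˣ) : ZMod l) = (y : ZMod l)
    rw [h3]

theorem split {l : ℕ} [Fact l.Prime] {m : ℕ} (hm : 2 * m ∣ l - 1) :
    ∃ x : (ZMod l)ˣ, orderOf (act (dia x)) = m := by
  have hl : l.Prime := Fact.out
  have hl1 : 0 < l - 1 := Nat.sub_pos_of_lt hl.one_lt
  have hm0 : 0 < m := by
    rcases Nat.eq_zero_or_pos m with h | h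
    · rw [h, mul_zero, zero_dvd_iff] at hm
      omega
    · exact h
  obtain ⟨g, hg⟩ := IsCyclic.exists_ofOrder_eq_natCard (α := (ZMod l)ˣ)
  have hc : Nat.card (ZMod l)ˣ = l - 1 := by
    rw [Nat.card_eq_fintype_card, ZMod.card_units]
  rw [hc] at hg
  obtain ⟨c, hc2⟩ := hm
  have hc0 : c ≠ 0 := by
    intro h
    rw [h, mul_zero] at hc2
    omega
  refine ⟨g ^ c, ?_⟩
  have h1 : orderOf (g ^ c) = 2 * m := by
    rw [orderOf_pow_of_dvd hc0 (by rw [hg, hc2]; exact Dvd.intro_left _ rfl), hg, hc2]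
    exact Nat.mul_div_cancel _ (Nat.pos_of_ne_zero hc0)
  have h2 : orderOf ((g ^ c) ^ 2) = m := by
    rw [orderOf_pow_of_dvd two_ne_zero (by rw [h1]; exact Dvd.intro _ rfl), h1]
    exact Nat.mul_div_cancel_left _ two_pos
  rw [← h2, orderOf_eq_orderOf_iff]
  intro n
  rw [Elt_dpow, Elt_done, pow_right_comm]

private theorem Elt_root {l : ℕ} [Fact l.Prime] {K : Type} [Field K] [Algebra (ZMod l) K]
    [CharP K l] {t : K} (h : t ^ l = t) : ∃ t0 : ZMod l, algebraMap (ZMod l) K t0 = t := by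
  have hm : t ∈ (⊥ : Subfield K) := (Subfield.mem_bot_iff_pow_eq_self K l).2 h
  have hle : (⊥ : Subfield K) ≤ (algebraMap (ZMod l) K).fieldRange := bot_le
  exact RingHom.mem_fieldRange.1 (hle hm)

private theorem Elt_pow {l : ℕ} [Fact l.Prime] {K : Type} [Field K] [Algebra (ZMod l) K]
    {x : K} (hx : x ≠ 0) {t0 : ZMod l} (ht : algebraMap (ZMod l) K t0 = x + x⁻¹) (k : ℕ) :
    (x - x⁻¹) * algebraMap (ZMod l) K (((mk2 0 (-1) 1 t0 (by ring) : SL2 (ZMod l)) ^ k).1 1 0) =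
      x ^ k - x⁻¹ ^ k ∧
    (x - x⁻¹) * algebraMap (ZMod l) K (((mk2 0 (-1) 1 t0 (by ring) : SL2 (ZMod l)) ^ k).1 1 1) =
      x ^ k * x - x⁻¹ ^ k * x⁻¹ ∧
    (x - x⁻¹) * algebraMap (ZMod l) K (((mk2 0 (-1) 1 t0 (by ring) : SL2 (ZMod l)) ^ k).1 0 1) =
      -(x ^ k - x⁻¹ ^ k) ∧
    (x - x⁻¹) * algebraMap (ZMod l) K (((mk2 0 (-1) 1 t0 (by ring) : SL2 (ZMod l)) ^ k).1 0 0) =
      -(x ^ k * x⁻¹ - x⁻¹ ^ k * x) := by
  induction k with
  | zero =>
    refine ⟨?_, ?_, ?_, ?_⟩ <;> simp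
  | succ k ih =>
    obtain ⟨h1, h2, h3, h4⟩ := ih
    have hxx : x * x⁻¹ = 1 := mul_inv_cancel₀ hx
    rw [pow_succ (mk2 0 (-1) 1 t0 (by ring) : SL2 (ZMod l)) k,
      Matrix.SpecialLinearGroup.coe_mul]
    simp only [Matrix.mul_apply, Fin.sum_univ_two, mk2_00, mk2_01, mk2_10, mk2_11, map_add,
      map_mul, map_neg, map_one, map_zero, ht]
    refine ⟨?_, ?_, ?_, ?_⟩
    · linear_combination h2
    · linear_combination -h1 + (x + x⁻¹) * h2 + (x ^ k - x⁻¹ ^ k) * hxx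
    · linear_combination -h4 + (x + x⁻¹) * h3
    · linear_combination h3 + (x ^ k - x⁻¹ ^ k) * hxx

theorem nonsplit {l : ℕ} [Fact l.Prime] {n : ℕ} (hn : Odd n) (h : n ∣ l + 1) :
    ∃ B : SL2 (ZMod l), orderOf (act B) = n := by
  have hl : l.Prime := Fact.out
  rcases Nat.eq_or_lt_of_le hn.pos with h1 | h1
  · refine ⟨1, ?_⟩
    rw [map_one, orderOf_one, ← h1]
  have hcop : ¬ l ∣ n := by
    intro h2
    have h3 : l ∣ l + 1 := h2.trans h
    have h4 : l ∣ 1 := (Nat.dvd_add_right (dvd_refl l)).1 h3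
    exact hl.one_lt.ne' (Nat.dvd_one.1 h4)
  have : NeZero ((n : ℕ) : AlgebraicClosure (ZMod l)) := by
    refine ⟨?_⟩
    intro h2
    exact hcop ((CharP.cast_eq_zero_iff (AlgebraicClosure (ZMod l)) l n).1 h2)
  obtain ⟨x, hx⟩ := HasEnoughRootsOfUnity.exists_primitiveRoot (AlgebraicClosure (ZMod l)) n
  have hn0 : n ≠ 0 := hn.pos.ne'
  have hx0 : x ≠ 0 := hx.ne_zero hn0
  have hx1 : x ^ (l + 1) = 1 := by
    obtain ⟨c, hc⟩ := h
    rw [hc, pow_mul, hx.pow_eq_one, one_pow]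
  have hx2 : x ^ l = x⁻¹ := by
    rw [pow_succ] at hx1
    exact eq_inv_of_mul_eq_one_left hx1
  have ht : (x + x⁻¹) ^ l = x + x⁻¹ := by
    rw [add_pow_char, inv_pow, hx2, inv_inv, add_comm]
  obtain ⟨t0, ht0⟩ := Elt_root ht
  refine ⟨mk2 0 (-1) 1 t0 (by ring), ?_⟩
  have hcop2 : Nat.Coprime n 2 := hn.coprime_two_right
  have hxx : x - x⁻¹ ≠ 0 := by
    intro h2
    have h3 : x ^ 2 = 1 := by
      rw [pow_two]
      nth_rewrite 2 [sub_eq_zero.1 h2]
      exact mul_inv_cancel₀ hx0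
    have h4 : n ∣ 2 := hx.dvd_of_pow_eq_one 2 h3
    have h5 : n = 1 := Nat.Coprime.eq_one_of_dvd hcop2 h4
    omega
  have hinj : Function.Injective (algebraMap (ZMod l) (AlgebraicClosure (ZMod l))) :=
    (algebraMap (ZMod l) (AlgebraicClosure (ZMod l))).injective
  have key : ∀ k : ℕ, act (mk2 0 (-1) 1 t0 (by ring) : SL2 (ZMod l)) ^ k = 1 ↔ n ∣ k := by
    intro k
    obtain ⟨e1, e2, e3, e4⟩ := Elt_pow hx0 ht0 k
    rw [← map_pow]
    constructor
    · intro h2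
      have h3 := (act_one h2).1
      rw [h3, map_zero, mul_zero] at e1
      have h4 : x ^ k = x⁻¹ ^ k := (sub_eq_zero.1 e1.symm)
      have h5 : x ^ (k * 2) = 1 := by
        rw [mul_two, pow_add]
        nth_rewrite 2 [h4]
        rw [← mul_pow, mul_inv_cancel₀ hx0, one_pow]
      exact hcop2.dvd_of_dvd_mul_right (hx.dvd_of_pow_eq_one _ h5)
    · intro h2
      have h3 : x ^ k = 1 := by
        obtain ⟨c, hc⟩ := h2
        rw [hc, pow_mul, hx.pow_eq_one, one_pow]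
      have h4 : x⁻¹ ^ k = 1 := by rw [inv_pow, h3, inv_one]
      rw [h3, h4] at e1 e2 e3 e4
      refine act_of_entries ?_ ?_ ?_
      · apply hinj
        rw [map_zero]
        rw [sub_self] at e1
        exact (mul_eq_zero.1 e1).resolve_left hxx
      · apply hinj
        rw [map_zero]
        rw [sub_self, neg_zero] at e3
        exact (mul_eq_zero.1 e3).resolve_left hxx
      · apply hinj
        apply mul_left_cancel₀ hxx
        rw [e2, e4]
        ring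
  apply Nat.dvd_antisymm
  · exact orderOf_dvd_of_pow_eq_one ((key n).2 dvd_rfl)
  · exact (key _).1 (pow_orderOf_eq_one _)

theorem nofix {l q : ℕ} [Fact l.Prime] (hq : q.Prime) (hq2 : q ≠ 2) (h : q ∣ l + 1)
    (A : SL2 (ZMod l)) (h1 : act A ≠ 1) (h2 : act A ^ q = 1) (w : Option (ZMod l)) :
    act A w ≠ w := by
  classical
  intro hw
  have : Fact q.Prime := ⟨hq⟩
  have h3 := Equiv.Perm.card_compl_support_modEq (σ := act A) (p := q) (n := 1)
    (by rw [pow_one]; exact h2)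
  rw [Fintype.card_option, ZMod.card] at h3
  have h4 : q ∣ ((act A).support)ᶜ.card :=
    (Nat.modEq_zero_iff_dvd.1 (h3.trans (Nat.modEq_zero_iff_dvd.2 h)))
  have hmem : ∀ b, b ∈ ((act A).support)ᶜ ↔ act A b = b := fun b => by
    rw [Finset.mem_compl, Equiv.Perm.mem_support, not_not]
  have h5 : 0 < ((act A).support)ᶜ.card := Finset.card_pos.2 ⟨w, (hmem w).2 hw⟩
  have h6 : q ≤ ((act A).support)ᶜ.card := Nat.le_of_dvd h5 h4
  have h7 : 2 < q := lt_of_le_of_ne hq.two_le (Ne.symm hq2)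
  obtain ⟨a, b, c, ha, hb, hc, hab, hac, hbc⟩ := Finset.two_lt_card_iff.1 (h7.trans_le h6)
  exact h1 (fix3 hab hac hbc ((hmem a).1 ha) ((hmem b).1 hb) ((hmem c).1 hc))

end Pool.Agent.NBA
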