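import Pool.Agent.NBA.Defs
import Pool.Agent.Helper76.PQ.Nec

set_option autoImplicit false

/-! NBA-Idx. Supplements of normal `s`-subgroups.  The kernel `K` of `π` acts transitively on `G ⧸ R`, so the index of `R`
divides the order of `K` and is a power of `s`.  Hence `R` contains a conjugate of `a` and a conjugate of `b`. -/

namespace Pool.Agent.NBA

open Helper76.IG

private theorem Idx_trans {G Q : Type} [Group G] [Group Q] (π : G →* Q) (R : Subgroup G)
    (hR : ∀ g : G, ∃ r ∈ R, π r = π g) : MulAction.IsPretransitive π.ker (G ⧸ R) := by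
  constructor
  intro x y
  obtain ⟨x, rfl⟩ := QuotientGroup.mk_surjective x
  obtain ⟨y, rfl⟩ := QuotientGroup.mk_surjective y
  obtain ⟨r, hr, hr'⟩ := hR (y⁻¹ * x)
  have hk : y * r * x⁻¹ ∈ π.ker := by
    rw [MonoidHom.mem_ker, map_mul, map_mul, hr', map_mul, map_inv, map_inv]
    group
  refine ⟨⟨y * r * x⁻¹, hk⟩, ?_⟩
  change ((y * r * x⁻¹ * x : G) : G ⧸ R) = (y : G ⧸ R)
  rw [inv_mul_cancel_right]
  exact QuotientGroup.mk_mul_of_mem y hr

private theorem Idx_dvd {p s : ℕ} (hp : p.Prime) (hs : s.Prime) (hsp : s ≠ p) {G Q : Type} [Group G] [Group Q]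
    [Finite G] (π : G →* Q) (hker : IsPGroup s π.ker) (R : Subgroup G)
    (hR : ∀ g : G, ∃ r ∈ R, π r = π g) : ¬ p ∣ Nat.card (G ⧸ R) := by
  intro h
  have : Fact s.Prime := ⟨hs⟩
  have htr := Idx_trans π R hR
  obtain ⟨m, hm⟩ := IsPGroup.iff_card.1 hker
  have h1 := MulAction.index_stabilizer_of_transitive π.ker ((1 : G) : G ⧸ R)
  have h2 := (MulAction.stabilizer π.ker ((1 : G) : G ⧸ R)).index_dvd_card
  rw [h1, hm] at h2
  exact hsp ((Nat.prime_dvd_prime_iff_eq hp hs).1 (hp.dvd_of_dvd_pow (h.trans h2))).symm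

theorem top_of_ker {p q s : ℕ} (hp : p.Prime) (hq : q.Prime) (hs : s.Prime) (hsp : s ≠ p)
    (hsq : s ≠ q) {G Q : Type} [Group G] [Group Q] [Finite G] (π : G →* Q)
    (hker : IsPGroup s π.ker) {a b : G} (ha : a ^ p = 1) (hb : b ^ q = 1) (hab : InvGen a b)
    (R : Subgroup G) (hR : ∀ g : G, ∃ r ∈ R, π r = π g) : R = ⊤ := by
  obtain ⟨g, hg⟩ := Helper76.PQ.Nec_conj hp ha R (Idx_dvd hp hs hsp π hker R hR)
  obtain ⟨k, hk⟩ := Helper76.PQ.Nec_conj hq hb R (Idx_dvd hq hs hsq π hker R hR)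
  exact hab.eq_top hg hk

end Pool.Agent.NBA
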