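import Pool.Agent.NBA.Defs

set_option autoImplicit false

/-! NBA-Lft. Lifts through normal `s`-subgroups.
PLAN.  `lift_coprime`: `n = orderOf (π x)`; `x ^ n ∈ π.ker` has order `s ^ j`, so `x ^ (n * s ^ j) = 1`.  Choose `m` with `m ≡ 1 (mod n)`, `m ≡ 0 (mod s ^ j)`
(`Nat.chineseRemainder`), `y = x ^ m`: `π y = π x` and `y ^ n = 1` (as `n * s ^ j ∣ m * n`), so `orderOf y ∣ n`, and `n ∣ orderOf y` (`orderOf_map_dvd`).
`exists_section`: in `A × G` let `Y` be the subgroup `{(a, g) | φ a = π g}` (equaliser of `φ ∘ fst` and `π ∘ snd`), `N` the kernel of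
`fst : Y → A`: its elements are `(1, g)` with `g ∈ π.ker`: an `s`-group; `fst` is surjective (`hπ`), so `N.index = Nat.card A` is coprime to
`Nat.card N` (a power of `s`): `Subgroup.exists_right_complement'_of_coprime`, the complement maps isomorphically onto `A`; `σ` is the inverse followed by `snd`. -/

namespace Pool.Agent.NBA

theorem lift_coprime {s : ℕ} (hs : s.Prime) {G Q : Type} [Group G] [Group Q] [Finite G]
    (π : G →* Q) (hker : IsPGroup s π.ker) (x : G) (hx : (orderOf (π x)).Coprime s) :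
    ∃ y : G, π y = π x ∧ orderOf y = orderOf (π x) ∧ ∃ n : ℕ, y = x ^ n := by
  have hk : x ^ orderOf (π x) ∈ π.ker := by
    rw [MonoidHom.mem_ker, map_pow, pow_orderOf_eq_one]
  obtain ⟨j, hj⟩ := hker ⟨x ^ orderOf (π x), hk⟩
  have hj' : (x ^ orderOf (π x)) ^ s ^ j = 1 := congrArg Subtype.val hj
  obtain ⟨m, hm1, hm0⟩ := Nat.chineseRemainder (hx.pow_right j) 1 0
  have hy : π (x ^ m) = π x := by
    rw [map_pow]
    have h1 := (pow_eq_pow_iff_modEq (x := π x) (n := m) (m := 1)).2 hm1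
    rw [h1, pow_one]
  refine ⟨x ^ m, hy, ?_, m, rfl⟩
  apply Nat.dvd_antisymm
  · rw [orderOf_dvd_iff_pow_eq_one, ← pow_mul]
    obtain ⟨c, hc⟩ := (Nat.modEq_zero_iff_dvd).1 hm0
    have h2 : m * orderOf (π x) = orderOf (π x) * s ^ j * c := by rw [hc]; ring
    rw [h2, pow_mul, pow_mul, hj', one_pow]
  · have h3 := orderOf_map_dvd π (x ^ m)
    rwa [hy] at h3

theorem exists_section {s : ℕ} (hs : s.Prime) {G Q A : Type} [Group G] [Group Q] [Group A]
    [Finite G] [Finite A] (π : G →* Q) (hπ : Function.Surjective π) (hker : IsPGroup s π.ker)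
    (hA : (Nat.card A).Coprime s) (φ : A →* Q) : ∃ σ : A →* G, ∀ a, π (σ a) = φ a := by
  have hf : Fact s.Prime := ⟨hs⟩
  let Y : Subgroup (A × G) :=
    MonoidHom.eqLocus (φ.comp (MonoidHom.fst A G)) (π.comp (MonoidHom.snd A G))
  have hY : ∀ y : Y, φ y.1.1 = π y.1.2 := fun y => y.2
  let f : Y →* A := (MonoidHom.fst A G).comp Y.subtype
  have hfs : Function.Surjective f := by
    intro a
    obtain ⟨g, hg⟩ := hπ (φ a)
    exact ⟨⟨(a, g), hg.symm⟩, rfl⟩
  have hN : IsPGroup s f.ker := by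
    intro y
    have h1 : y.1.1.1 = 1 := y.2
    have h2 : y.1.1.2 ∈ π.ker := by
      rw [MonoidHom.mem_ker, ← hY y.1, h1, map_one]
    obtain ⟨k, hk⟩ := hker ⟨y.1.1.2, h2⟩
    have hk' : y.1.1.2 ^ s ^ k = 1 := congrArg Subtype.val hk
    refine ⟨k, ?_⟩
    refine Subtype.ext (Subtype.ext (Prod.ext ?_ ?_))
    · show (y.1.1.1) ^ s ^ k = 1
      rw [h1, one_pow]
    · exact hk'
  obtain ⟨k, hk⟩ := IsPGroup.iff_card.1 hN
  have hidx : f.ker.index = Nat.card A := by
    rw [Subgroup.index_ker, MonoidHom.range_eq_top.2 hfs, Subgroup.card_top]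
  have hco : (Nat.card f.ker).Coprime f.ker.index := by
    rw [hk, hidx]
    exact (hA.pow_right k).symm
  obtain ⟨K, hK⟩ := Subgroup.exists_right_complement'_of_coprime hco
  have hbij : Function.Bijective (f.comp K.subtype) := by
    constructor
    · rw [injective_iff_map_eq_one]
      intro y hy
      have h3 : (y : Y) ∈ f.ker ⊓ K := ⟨hy, y.2⟩
      rw [hK.disjoint.eq_bot, Subgroup.mem_bot] at h3
      exact Subtype.ext h3
    · intro a
      obtain ⟨y, hy⟩ := hfs a
      obtain ⟨⟨u, v⟩, huv⟩ := hK.2 y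
      refine ⟨v, ?_⟩
      have h4 : f (u * v : Y) = a := by
        rw [← hy]
        exact congrArg f huv
      rw [map_mul, (MonoidHom.mem_ker).1 u.2, one_mul] at h4
      exact h4
  let e : K ≃* A := MulEquiv.ofBijective (f.comp K.subtype) hbij
  refine ⟨((MonoidHom.snd A G).comp (Y.subtype.comp K.subtype)).comp e.symm.toMonoidHom,
    fun a => ?_⟩
  have h5 : (e (e.symm a)) = a := e.apply_symm_apply a
  have h6 := hY ((e.symm a : K) : Y)
  calc π (((e.symm a : K) : Y) : A × G).2 = φ (((e.symm a : K) : Y) : A × G).1 := h6.symm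
    _ = φ a := congrArg φ h5

end Pool.Agent.NBA
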