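import Pool.Agent.NBA.PFac

set_option autoImplicit false

/-! NBA-PGen. Generation of `PSL₂` by the upper and the lower unitriangular matrices. -/

namespace Pool.Agent.NBA

variable {K : Type} [Field K]

private theorem PGen_low (t : K) :
    (wey * tra t : SL2 K) = mk2 1 0 (-t) 1 (by ring) * wey := by
  apply Subtype.ext
  change !![(0 : K), -1; 1, 0] * !![1, t; 0, 1] = !![1, 0; -t, 1] * !![0, -1; 1, 0]
  rw [Matrix.mul_fin_two, Matrix.mul_fin_two]
  simp

private theorem PGen_one {R : Subgroup (Equiv.Perm (Option K))} (h1 : ∀ t : K, act (tra t) ∈ R)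
    (h3 : ∀ c : K, act (mk2 1 0 c 1 (by ring)) ∈ R) (A : SL2 K) (hc : A.1 1 0 ≠ 0) :
    act A ∈ R := by
  have hd := det2 A
  have hA : A = tra ((A.1 0 0 - 1) / A.1 1 0) * mk2 1 0 (A.1 1 0) 1 (by ring) *
      tra ((A.1 1 1 - 1) / A.1 1 0) := by
    apply Subtype.ext
    refine (Matrix.eta_fin_two A.1).trans ?_
    change _ = !![(1 : K), (A.1 0 0 - 1) / A.1 1 0; 0, 1] * !![1, 0; A.1 1 0, 1] *
      !![1, (A.1 1 1 - 1) / A.1 1 0; 0, 1]
    rw [Matrix.mul_fin_two, Matrix.mul_fin_two]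
    have e1 : A.1 0 0 = (1 * 1 + (A.1 0 0 - 1) / A.1 1 0 * A.1 1 0) * 1 +
        (1 * 0 + (A.1 0 0 - 1) / A.1 1 0 * 1) * 0 := by
      field_simp
      ring
    have e2 : A.1 0 1 = (1 * 1 + (A.1 0 0 - 1) / A.1 1 0 * A.1 1 0) * ((A.1 1 1 - 1) / A.1 1 0) +
        (1 * 0 + (A.1 0 0 - 1) / A.1 1 0 * 1) * 1 := by
      field_simp
      linear_combination - hd
    have e3 : A.1 1 0 = (0 * 1 + 1 * A.1 1 0) * 1 + (0 * 0 + 1 * 1) * 0 := by ring
    have e4 : A.1 1 1 = (0 * 1 + 1 * A.1 1 0) * ((A.1 1 1 - 1) / A.1 1 0) +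
        (0 * 0 + 1 * 1) * 1 := by
      field_simp
      ring
    rw [← e1, ← e2, ← e3, ← e4]
  rw [hA, map_mul, map_mul]
  exact mul_mem (mul_mem (h1 _) (h3 _)) (h1 _)

theorem gen2 (R : Subgroup (Equiv.Perm (Option K))) (h1 : ∀ t : K, act (tra t) ∈ R)
    (h2 : ∀ t : K, act wey * act (tra t) * (act wey)⁻¹ ∈ R) (A : SL2 K) : act A ∈ R := by
  have h3 : ∀ c : K, act (mk2 1 0 c 1 (by ring)) ∈ R := by
    intro c
    have h4 := h2 (-c)
    rw [← map_mul, PGen_low, map_mul, mul_inv_cancel_right] at h4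
    simpa using h4
  by_cases hc : A.1 1 0 = 0
  · have hd := det2 A
    have h00 : A.1 0 0 ≠ 0 := by
      intro h0
      rw [h0, hc] at hd
      simp at hd
    have h5 : (mk2 1 0 1 1 (by ring) * A : SL2 K).1 1 0 ≠ 0 := by
      rw [Matrix.SpecialLinearGroup.coe_mul, Matrix.mul_apply, Fin.sum_univ_two, mk2_10, mk2_11,
        hc]
      simpa using h00
    have h6 := PGen_one h1 h3 _ h5
    rw [map_mul] at h6
    exact (mul_mem_cancel_left (h3 1)).1 h6
  · exact PGen_one h1 h3 A hc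

theorem tra_add (x y : K) : tra (x + y) = tra x * tra y := by
  apply Subtype.ext
  change !![(1 : K), x + y; 0, 1] = !![1, x; 0, 1] * !![1, y; 0, 1]
  rw [Matrix.mul_fin_two]
  simp [add_comm]

private theorem PGen_zero : (tra (0 : K)) = 1 := by
  apply Subtype.ext
  change !![(1 : K), 0; 0, 1] = 1
  rw [Matrix.one_fin_two]

/-- a subgroup of `PSL₂(ℓ)`, invariant under conjugation, with the translation by `1` is everything -/
theorem nc_tra {l : ℕ} [Fact l.Prime] (R : Subgroup (Equiv.Perm (Option (ZMod l))))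
    (h1 : act (tra (1 : ZMod l)) ∈ R)
    (h2 : ∀ A : SL2 (ZMod l), ∀ x ∈ R, act A * x * (act A)⁻¹ ∈ R) (A : SL2 (ZMod l)) :
    act A ∈ R := by
  have h3 : ∀ k : ℕ, act (tra (k : ZMod l)) ∈ R := by
    intro k
    induction k with
    | zero =>
      rw [Nat.cast_zero, PGen_zero, map_one]
      exact one_mem R
    | succ k ih =>
      rw [Nat.cast_succ, tra_add, map_mul]
      exact mul_mem ih h1
  have h4 : ∀ t : ZMod l, act (tra t) ∈ R := by
    intro t
    have h5 := h3 t.val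
    rwa [ZMod.natCast_zmod_val] at h5
  exact gen2 R h4 (fun t => h2 wey _ (h4 t)) A

end Pool.Agent.NBA
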