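import Pool.Agent.NBA.PLine

set_option autoImplicit false

/-! NBA-PFac. Basic facts on `act`.
PLAN.  `act_one`: `mob A none = none` gives `A 1 0 = 0`; `mob A (some 0) = some 0`: `A 0 1 = 0` (after `A 1 1 ≠ 0`); `mob A (some 1) = some 1`: `A 0 0 = A 1 1`; with `det2`: `(A 0 0) ^ 2 = 1`.
`fix3`: for three different fixed points the vectors `vec x`, `vec y`, `vec z` are eigenvectors of `A.1` (`jj_spec`), pairwise independent (`vec_inj`), in dimension `2`: all eigenvalues agree
(`vec z = α • vec x + β • vec y` with `α, β ≠ 0`), so `A.1` is a scalar `c`, `c ^ 2 = 1`, so `act A = 1`.  Or by cases on `none`/`some` with the quadratic equation `c x² + (d - a) x - b = 0`, `c = A 1 0` etc., which has at most two roots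
unless all coefficients vanish, and `none` is fixed iff `c = 0`.
`act_eq`: `act (A * B⁻¹) = 1`, so `A = B` or `A = -B` entrywise (`act_one` for `A * B⁻¹`, or directly): `jj` changes by the sign (`jj_mul`, and `jj C w = C 0 0` if `act C = 1`).
`trans1`, `two_trans`: move `some x` to `none` by `wey * tra (-x)`; the stabiliser of `none` moves `some y` by `tra`; combine (`mob_mul`, inverses `act A⁻¹`). -/

namespace Pool.Agent.NBA

variable {K : Type} [Field K]

private theorem PFac_none {A : SL2 K} (h : mob A none = none) : A.1 1 0 = 0 := by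
  have h1 := jj_spec A none
  rw [h, mul_vec_none] at h1
  have h2 := congrFun h1 1
  simpa using h2

private theorem PFac_some {A : SL2 K} {x : K} (h : mob A (some x) = some x) :
    A.1 1 0 * x ^ 2 + (A.1 1 1 - A.1 0 0) * x - A.1 0 1 = 0 := by
  have h1 := jj_spec A (some x)
  rw [h, mul_vec_some] at h1
  have h2 : A.1 0 0 * x + A.1 0 1 = jj A (some x) * x := by
    have := congrFun h1 0
    simpa using this
  have h3 : A.1 1 0 * x + A.1 1 1 = jj A (some x) := by
    have := congrFun h1 1
    simpa using this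
  linear_combination x * h3 - h2

theorem act_one {A : SL2 K} (h : act A = 1) :
    A.1 1 0 = 0 ∧ A.1 0 1 = 0 ∧ A.1 1 1 = A.1 0 0 ∧ (A.1 0 0 = 1 ∨ A.1 0 0 = -1) := by
  have hm : ∀ x, mob A x = x := fun x => by
    rw [← act_apply, h]
    rfl
  have h1 := PFac_none (hm none)
  have h2 := PFac_some (hm (some 0))
  have h3 := PFac_some (hm (some 1))
  have h4 : A.1 0 1 = 0 := by linear_combination -h2
  have h5 : A.1 1 1 = A.1 0 0 := by linear_combination h3 + h4 - h1
  refine ⟨h1, h4, h5, ?_⟩
  have h6 := det2 A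
  rw [h1, h4, h5] at h6
  have h7 : (A.1 0 0 - 1) * (A.1 0 0 + 1) = 0 := by linear_combination h6
  rcases mul_eq_zero.1 h7 with h8 | h8
  · left
    linear_combination h8
  · right
    linear_combination h8

private theorem PFac_sc {A : SL2 K} (h1 : A.1 1 0 = 0) (h2 : A.1 0 1 = 0)
    (h3 : A.1 1 1 = A.1 0 0) (x : Option K) : mob A x = x ∧ jj A x = A.1 0 0 := by
  refine mob_jj_unique A x x (A.1 0 0) ?_
  cases x with
  | none =>
    rw [mul_vec_none, h1]
    funext i
    fin_cases i <;> simp
  | some x =>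
    rw [mul_vec_some, h1, h2, h3]
    funext i
    fin_cases i <;> simp

theorem act_of_entries {A : SL2 K} (h1 : A.1 1 0 = 0) (h2 : A.1 0 1 = 0)
    (h3 : A.1 1 1 = A.1 0 0) : act A = 1 := by
  ext1 x
  exact (PFac_sc h1 h2 h3 x).1

theorem act_eq {A B : SL2 K} (h : act A = act B) :
    ∃ e : K, (e = 1 ∨ e = -1) ∧ ∀ w, jj A w = e * jj B w := by
  have h1 : act (A * B⁻¹) = 1 := by
    rw [map_mul, h, ← map_mul, mul_inv_cancel, map_one]
  obtain ⟨h2, h3, h4, h5⟩ := act_one h1
  refine ⟨(A * B⁻¹).1 0 0, h5, fun w => ?_⟩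
  have h6 : A = (A * B⁻¹) * B := by rw [inv_mul_cancel_right]
  have h7 : jj A w = jj ((A * B⁻¹) * B) w := by rw [← h6]
  rw [h7, jj_mul, (PFac_sc h2 h3 h4 _).2]

private theorem PFac_two {A : SL2 K} (hc : A.1 1 0 = 0) {x y : K} (hxy : x ≠ y)
    (hx : mob A (some x) = some x) (hy : mob A (some y) = some y) : act A = 1 := by
  have h1 := PFac_some hx
  have h2 := PFac_some hy
  rw [hc] at h1 h2
  have h3 : (x - y) * (A.1 1 1 - A.1 0 0) = 0 := by linear_combination h1 - h2
  have h4 : A.1 1 1 - A.1 0 0 = 0 := by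
    rcases mul_eq_zero.1 h3 with h5 | h5
    · exact absurd (sub_eq_zero.1 h5) hxy
    · exact h5
  have h5 : A.1 0 1 = 0 := by
    rw [h4] at h1
    linear_combination -h1
  exact act_of_entries hc h5 (sub_eq_zero.1 h4)

theorem fix3 {A : SL2 K} {x y z : Option K} (hxy : x ≠ y) (hxz : x ≠ z) (hyz : y ≠ z)
    (hx : mob A x = x) (hy : mob A y = y) (hz : mob A z = z) : act A = 1 := by
  have hne : ∀ {a b : K}, (some a : Option K) ≠ some b → a ≠ b := fun h e => h (congrArg some e)
  cases x with
  | none =>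
    cases y with
    | none => exact absurd rfl hxy
    | some y =>
      cases z with
      | none => exact absurd rfl hxz
      | some z => exact PFac_two (PFac_none hx) (hne hyz) hy hz
  | some x =>
    cases y with
    | none =>
      cases z with
      | none => exact absurd rfl hyz
      | some z => exact PFac_two (PFac_none hy) (hne hxz) hx hz
    | some y =>
      cases z with
      | none => exact PFac_two (PFac_none hz) (hne hxy) hx hy
      | some z =>
        refine PFac_two ?_ (hne hxy) hx hy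
        have h1 := PFac_some hx
        have h2 := PFac_some hy
        have h3 := PFac_some hz
        have h4 : (x - y) * (A.1 1 0 * (x + y) + (A.1 1 1 - A.1 0 0)) = 0 := by
          linear_combination h1 - h2
        have h5 : (x - z) * (A.1 1 0 * (x + z) + (A.1 1 1 - A.1 0 0)) = 0 := by
          linear_combination h1 - h3
        have h6 := (mul_eq_zero.1 h4).resolve_left (sub_ne_zero.2 (hne hxy))
        have h7 := (mul_eq_zero.1 h5).resolve_left (sub_ne_zero.2 (hne hxz))
        have h8 : (y - z) * A.1 1 0 = 0 := by linear_combination h6 - h7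
        exact (mul_eq_zero.1 h8).resolve_left (sub_ne_zero.2 (hne hyz))

theorem trans1 (x : Option K) : ∃ A : SL2 K, mob A none = x := by
  cases x with
  | none => exact ⟨1, mob_one none⟩
  | some t =>
    refine ⟨tra t * wey, ?_⟩
    rw [mob_mul, mob_wey_none, mob_tra_some, zero_add]

private theorem PFac_std {x y : Option K} (h : x ≠ y) :
    ∃ P : SL2 K, mob P x = none ∧ mob P y = some 0 := by
  obtain ⟨A, hA⟩ := trans1 x
  have h1 : mob A⁻¹ x = none := by
    rw [← hA, ← mob_mul, inv_mul_cancel, mob_one]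
  have h2 : mob A⁻¹ y ≠ none := by
    intro h3
    apply h
    have h4 : mob A (mob A⁻¹ y) = mob A (mob A⁻¹ x) := by rw [h1, h3]
    rw [← mob_mul, ← mob_mul, mul_inv_cancel, mob_one, mob_one] at h4
    exact h4.symm
  obtain ⟨s, hs⟩ := Option.ne_none_iff_exists'.1 h2
  refine ⟨tra (-s) * A⁻¹, ?_, ?_⟩
  · rw [mob_mul, h1, mob_tra_none]
  · rw [mob_mul, hs, mob_tra_some, add_neg_cancel]

theorem two_trans {x y x' y' : Option K} (h : x ≠ y) (h' : x' ≠ y') :
    ∃ A : SL2 K, mob A x = x' ∧ mob A y = y' := by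
  obtain ⟨P, h1, h2⟩ := PFac_std h
  obtain ⟨P', h3, h4⟩ := PFac_std h'
  refine ⟨P'⁻¹ * P, ?_, ?_⟩
  · rw [mob_mul, h1, ← h3, ← mob_mul, inv_mul_cancel, mob_one]
  · rw [mob_mul, h2, ← h4, ← mob_mul, inv_mul_cancel, mob_one]

end Pool.Agent.NBA
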