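import Pool.Agent.NBA.Ext
import Pool.Agent.NBA.PFac

set_option autoImplicit false

/-! NBA-Sum. The sum over the translations: if `V` is invariant and consists of functions with sum
zero, then the sum of `v ∘ mob (tra t)` over `t` is `v(∞) ((l + 1) δ_∞ - 1)`; the point `∞` can be
moved to any point. -/

namespace Pool.Agent.NBA

private theorem sum_base {l n : ℕ} [Fact l.Prime] {V : AddSubgroup (Option (ZMod l) → ZMod n)}
    (hinv : ∀ v ∈ V, ∀ A : SL2 (ZMod l), v ∘ mob A ∈ V)
    (hsum : ∀ v ∈ V, ∑ w, v w = 0) {v : Option (ZMod l) → ZMod n} (hv : v ∈ V) :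
    (fun o => v none * (((l + 1 : ℕ) : ZMod n) *
      (Pi.single none 1 : Option (ZMod l) → ZMod n) o - 1)) ∈ V := by
  have h1 : (∑ t : ZMod l, v ∘ mob (tra t)) ∈ V := V.sum_mem fun t _ => hinv v hv (tra t)
  have h2 : (∑ t : ZMod l, v ∘ mob (tra t)) = fun o => v none * (((l + 1 : ℕ) : ZMod n) *
      (Pi.single none 1 : Option (ZMod l) → ZMod n) o - 1) := by
    funext o
    rw [Finset.sum_apply]
    cases o with
    | none =>
      rw [Pi.single_eq_same]
      have h3 : ∀ t ∈ (Finset.univ : Finset (ZMod l)), (v ∘ mob (tra t)) none = v none := by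
        intro t _
        rw [Function.comp_apply, mob_tra_none]
      rw [Finset.sum_congr rfl h3, Finset.sum_const, Finset.card_univ, ZMod.card, nsmul_eq_mul]
      push_cast
      ring
    | some x =>
      have h3 : ∀ t ∈ (Finset.univ : Finset (ZMod l)), (v ∘ mob (tra t)) (some x) =
          v (some (x + t)) := by
        intro t _
        rw [Function.comp_apply, mob_tra_some]
      rw [Finset.sum_congr rfl h3]
      have h4 : (∑ t : ZMod l, v (some (x + t))) = ∑ y : ZMod l, v (some y) :=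
        Equiv.sum_comp (Equiv.addLeft x) fun y => v (some y)
      have h5 := hsum v hv
      rw [Fintype.sum_option] at h5
      rw [h4, Pi.single_eq_of_ne (by simp)]
      linear_combination h5
  rw [← h2]
  exact h1

theorem sum_tra' {l n : ℕ} [Fact l.Prime] {V : AddSubgroup (Option (ZMod l) → ZMod n)}
    (hinv : ∀ v ∈ V, ∀ A : SL2 (ZMod l), v ∘ mob A ∈ V)
    (hsum : ∀ v ∈ V, ∑ w, v w = 0) {v : Option (ZMod l) → ZMod n} (hv : v ∈ V)
    (x y : Option (ZMod l)) :
    (fun o => v x * (((l + 1 : ℕ) : ZMod n) *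
      (Pi.single y 1 : Option (ZMod l) → ZMod n) o - 1)) ∈ V := by
  obtain ⟨A, hA⟩ := trans1 (K := ZMod l) x
  obtain ⟨C, hC⟩ := trans1 (K := ZMod l) y
  have h1 := sum_base hinv hsum (hinv v hv A)
  have h2 := hinv _ h1 C⁻¹
  have h3 : mob C⁻¹ y = none := by
    rw [← hC, ← mob_mul, inv_mul_cancel, mob_one]
  have h4 : ((fun o => (v ∘ mob A) none * (((l + 1 : ℕ) : ZMod n) *
      (Pi.single none 1 : Option (ZMod l) → ZMod n) o - 1)) ∘ mob C⁻¹) =
      fun o => v x * (((l + 1 : ℕ) : ZMod n) *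
        (Pi.single y 1 : Option (ZMod l) → ZMod n) o - 1) := by
    funext o
    simp only [Function.comp_apply, hA]
    congr 3
    by_cases ho : o = y
    · rw [ho, h3, Pi.single_eq_same, Pi.single_eq_same]
    · rw [Pi.single_eq_of_ne ho, Pi.single_eq_of_ne]
      intro h5
      apply ho
      have h6 : mob C (mob C⁻¹ o) = mob C none := by rw [h5]
      rw [← mob_mul, mul_inv_cancel, mob_one, hC] at h6
      exact h6
  rw [← h4]
  exact h2

theorem sum_tra {l n : ℕ} [Fact l.Prime] {V : AddSubgroup (Option (ZMod l) → ZMod n)}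
    (hinv : ∀ v ∈ V, ∀ A : SL2 (ZMod l), v ∘ mob A ∈ V)
    (hsum : ∀ v ∈ V, ∑ w, v w = 0) {v : Option (ZMod l) → ZMod n} (hv : v ∈ V)
    (x y z : Option (ZMod l)) :
    (fun o => v x * ((l + 1 : ℕ) : ZMod n) *
      ((Pi.single y 1 : Option (ZMod l) → ZMod n) o - (Pi.single z 1 : Option (ZMod l) → ZMod n) o))
        ∈ V := by
  have h1 := V.sub_mem (sum_tra' hinv hsum hv x y) (sum_tra' hinv hsum hv x z)
  have h2 : (fun o => v x * ((l + 1 : ℕ) : ZMod n) *
      ((Pi.single y 1 : Option (ZMod l) → ZMod n) o -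
        (Pi.single z 1 : Option (ZMod l) → ZMod n) o)) =
      (fun o => v x * (((l + 1 : ℕ) : ZMod n) *
        (Pi.single y 1 : Option (ZMod l) → ZMod n) o - 1)) -
      fun o => v x * (((l + 1 : ℕ) : ZMod n) *
        (Pi.single z 1 : Option (ZMod l) → ZMod n) o - 1) := by
    funext o
    rw [Pi.sub_apply]
    ring
  rw [h2]
  exact h1

end Pool.Agent.NBA
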