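import Pool.Agent.NBA.Tor
import Pool.Agent.NBA.Sum
import Pool.Agent.NBA.PGen
import Pool.Agent.NBA.Idx
import Pool.Agent.NBA.Lft

set_option autoImplicit false

/-! NBA-NorX. The normal closure of a lift of the translation by `1`.

The normal closure `R` of a lift `u` of the translation maps onto `PSL₂(ℓ)`. For `s ≠ p` it contains conjugates of the
invariable generators. For `s = p` odd the functions `v ∘ A - v` belong to `R`, and averages over the translations and over
the points show that `l (l + 1) v` belongs to `R`. -/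

namespace Pool.Agent.NBA

open Helper76.IG

/-- the functions `v` with `(v, 1)` in the subgroup `R` of `X` -/
private def NorX_V {L Om : Type} [AddCommGroup L] {X : Subgroup (PW L Om)} (R : Subgroup X) :
    AddSubgroup (Om → L) := vX (R.map X.subtype)

private theorem NorX_mem {L Om : Type} [AddCommGroup L] {X : Subgroup (PW L Om)} {R : Subgroup X}
    {v : Om → L} : v ∈ NorX_V R ↔ ∃ h : (⟨v, 1⟩ : PW L Om) ∈ X, (⟨⟨v, 1⟩, h⟩ : X) ∈ R := by
  constructor
  · rintro ⟨x, hx, hxv⟩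
    have h1 : (x : PW L Om) = ⟨v, 1⟩ := hxv
    refine ⟨h1 ▸ x.2, ?_⟩
    have h2 : x = (⟨⟨v, 1⟩, h1 ▸ x.2⟩ : X) := Subtype.ext h1
    rw [← h2]
    exact hx
  · rintro ⟨h, hR⟩
    exact ⟨_, hR, rfl⟩

private theorem NorX_com {L Om : Type} [AddCommGroup L] {X : Subgroup (PW L Om)} {R : Subgroup X}
    (hR : R.Normal) {v : Om → L} (hv : v ∈ vX X) {r : X} (hr : r ∈ R) :
    (fun w => v ((r : PW L Om).g w) - v w) ∈ NorX_V R := by
  have hz : (⟨v, 1⟩ : PW L Om) ∈ X := hv
  obtain ⟨z, hzdef⟩ : ∃ z : X, z = ⟨⟨v, 1⟩, hz⟩ := ⟨_, rfl⟩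
  have h1 : r⁻¹ * (z * r * z⁻¹) ∈ R := R.mul_mem (R.inv_mem hr) (hR.conj_mem r hr z)
  have h2 : ((r⁻¹ * (z * r * z⁻¹) : X) : PW L Om) = ⟨fun w => v ((r : PW L Om).g w) - v w, 1⟩ := by
    rw [hzdef]
    refine PW.ext ?_ ?_
    · funext w
      have h3 : (r : PW L Om).g⁻¹ ((r : PW L Om).g w) = w := (r : PW L Om).g.symm_apply_apply w
      simp only [Subgroup.coe_mul, Subgroup.coe_inv, PW.mul_f, PW.inv_f, PW.inv_g, PW.mul_g, inv_one, one_mul,
        mul_one, Equiv.Perm.one_apply, h3]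
      abel
    · simp only [Subgroup.coe_mul, Subgroup.coe_inv, PW.inv_g, PW.mul_g, inv_one, one_mul, mul_one, inv_mul_cancel]
  refine NorX_mem.2 ⟨h2 ▸ (r⁻¹ * (z * r * z⁻¹) : X).2, ?_⟩
  have h3 : (r⁻¹ * (z * r * z⁻¹) : X) = ⟨⟨fun w => v ((r : PW L Om).g w) - v w, 1⟩,
      h2 ▸ (r⁻¹ * (z * r * z⁻¹) : X).2⟩ := Subtype.ext h2
  rw [← h3]
  exact h1

private theorem NorX_pow {L Om : Type} [AddCommGroup L] (v : Om → L) (n : ℕ) :
    (⟨v, 1⟩ : PW L Om) ^ n = ⟨fun w => n • v w, 1⟩ := by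
  induction n with
  | zero =>
    refine PW.ext ?_ ?_
    · funext w
      simp
    · simp
  | succ n ih =>
    rw [pow_succ, ih]
    refine PW.ext ?_ ?_
    · funext w
      simp only [PW.mul_f, Equiv.Perm.one_apply, succ_nsmul]
    · simp

private theorem NorX_tra_zero {l : ℕ} [Fact l.Prime] : (tra (0 : ZMod l)) = 1 := by
  have h := tra_add (0 : ZMod l) 0
  rw [add_zero] at h
  exact left_eq_mul.1 h

private theorem NorX_tra_pow {l : ℕ} [Fact l.Prime] (n : ℕ) : (tra (1 : ZMod l)) ^ n = tra (n : ZMod l) := by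
  induction n with
  | zero => rw [pow_zero, Nat.cast_zero, NorX_tra_zero]
  | succ n ih => rw [pow_succ, ih, Nat.cast_succ, tra_add]

private theorem NorX_order {l : ℕ} [hl : Fact l.Prime] : orderOf (act (tra (1 : ZMod l))) = l := by
  refine orderOf_eq_prime ?_ ?_
  · rw [← map_pow, NorX_tra_pow, ZMod.natCast_self, NorX_tra_zero, map_one]
  · intro h
    have h1 := congrArg (fun g : Equiv.Perm (Option (ZMod l)) => g (some 0)) h
    simp only [act_apply, mob_tra_some, Equiv.Perm.one_apply, zero_add, Option.some.injEq] at h1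
    exact one_ne_zero h1

/-- the sum over the translations -/
private theorem NorX_theta {l n : ℕ} [Fact l.Prime] (v : Option (ZMod l) → ZMod n) (hv : ∑ w, v w = 0) :
    (∑ t : ZMod l, v (mob (tra t) none) = (l : ZMod n) * v none) ∧
      ∀ x : ZMod l, ∑ t : ZMod l, v (mob (tra t) (some x)) = - v none := by
  constructor
  · have h1 : ∀ t : ZMod l, v (mob (tra t) none) = v none := fun t => by rw [mob_tra_none]
    rw [Finset.sum_congr rfl fun t _ => h1 t, Finset.sum_const, Finset.card_univ, ZMod.card, nsmul_eq_mul]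
  · intro x
    have h1 : ∀ t : ZMod l, v (mob (tra t) (some x)) = v (some (Equiv.addLeft x t)) := fun t => by
      rw [mob_tra_some]
      rfl
    rw [Finset.sum_congr rfl fun t _ => h1 t, Equiv.sum_comp (Equiv.addLeft x) (fun y => v (some y))]
    rw [Fintype.sum_option] at hv
    exact (neg_eq_of_add_eq_zero_right hv).symm

private theorem NorX_sum {l n : ℕ} [Fact l.Prime] (v : Option (ZMod l) → ZMod n) (hv : ∑ w, v w = 0)
    (A : Option (ZMod l) → SL2 (ZMod l)) (hA : ∀ y, mob (A y) y = none) (o : Option (ZMod l)) :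
    ∑ y, ∑ t : ZMod l, v (mob (tra t) (mob (A y) o)) = 0 := by
  classical
  obtain ⟨h1, h2⟩ := NorX_theta v hv
  rw [← Finset.add_sum_erase _ _ (Finset.mem_univ o), hA o, h1]
  have h3 : ∀ y ∈ Finset.univ.erase o, ∑ t : ZMod l, v (mob (tra t) (mob (A y) o)) = - v none := by
    intro y hy
    have hne : mob (A y) o ≠ none := by
      intro h
      rw [← hA y] at h
      have h4 : act (A y) o = act (A y) y := h
      exact (Finset.ne_of_mem_erase hy) ((act (A y)).injective h4).symm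
    obtain ⟨x, hx⟩ := Option.ne_none_iff_exists'.1 hne
    rw [hx, h2]
  rw [Finset.sum_congr rfl h3, Finset.sum_const, Finset.card_erase_of_mem (Finset.mem_univ o), Finset.card_univ,
    Fintype.card_option, ZMod.card, Nat.add_sub_cancel, nsmul_eq_mul]
  ring

theorem norX {p q s k l : ℕ} [Fact l.Prime] (hp : p.Prime) (hq : q.Prime) (hs : s.Prime)
    (hsq : s ≠ q) (hs2 : s = p → s ≠ 2) (hsl : s ∣ l - 1)
    {χ : (ZMod l)ˣ →* Multiplicative (ZMod s)} (hχ : χ (-1) = 1)
    {X : Subgroup (PW (ZMod (s ^ (k + 1))) (Option (ZMod l)))} (hX : Xd s k l χ X)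
    {a b : X} (ha : a ^ p = 1) (hb : b ^ q = 1) (hab : InvGen a b) :
    ∃ u : X, orderOf u = l ∧ Subgroup.normalClosure {u} = ⊤ := by
  have hl : l.Prime := Fact.out
  have hn : NeZero (s ^ (k + 1)) := ⟨pow_ne_zero _ hs.ne_zero⟩
  have hslt : s < l := by
    have h1 := Nat.le_of_dvd (Nat.sub_pos_of_lt hl.one_lt) hsl
    have h2 := hl.one_lt
    omega
  have hsl' : s.Coprime l := (Nat.coprime_primes hs hl).2 hslt.ne
  obtain ⟨π, hπ⟩ : ∃ π : X →* Equiv.Perm (Option (ZMod l)), ∀ x : X, π x = (x : PW (ZMod (s ^ (k + 1))) (Option (ZMod l))).g :=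
    ⟨PW.pg.comp X.subtype, fun x => rfl⟩
  have hker : ∀ x : X, π x = 1 → (x : PW (ZMod (s ^ (k + 1))) (Option (ZMod l))) =
      ⟨(x : PW (ZMod (s ^ (k + 1))) (Option (ZMod l))).f, 1⟩ := by
    intro x hx
    rw [hπ] at hx
    exact PW.ext rfl hx
  have hker' : IsPGroup s π.ker := by
    intro x
    refine ⟨k + 1, Subtype.ext (Subtype.ext ?_)⟩
    have h1 := hker x.1 x.2
    show ((x.1 : X) : PW (ZMod (s ^ (k + 1))) (Option (ZMod l))) ^ s ^ (k + 1) = 1
    rw [h1, NorX_pow]
    refine PW.ext ?_ rfl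
    funext w
    show s ^ (k + 1) • ((x.1 : X) : PW (ZMod (s ^ (k + 1))) (Option (ZMod l))).f w = 0
    rw [nsmul_eq_mul, ZMod.natCast_self, zero_mul]
  obtain ⟨x₀, hx₀, hx₀g⟩ := hX.onto (tra 1)
  have hord : orderOf (π ⟨x₀, hx₀⟩) = l := by
    rw [hπ]
    show orderOf x₀.g = l
    rw [hx₀g, NorX_order]
  obtain ⟨u, hu, huo, -⟩ := lift_coprime hs π hker' ⟨x₀, hx₀⟩ (by rw [hord]; exact hsl'.symm)
  refine ⟨u, by rw [huo, hord], ?_⟩
  obtain ⟨R, hRdef⟩ : ∃ R : Subgroup X, R = Subgroup.normalClosure {u} := ⟨_, rfl⟩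
  have hRn : R.Normal := by
    rw [hRdef]
    exact Subgroup.normalClosure_normal
  have huR : u ∈ R := by
    rw [hRdef]
    exact Subgroup.subset_normalClosure (Set.mem_singleton u)
  rw [← hRdef]
  have hact : ∀ A : SL2 (ZMod l), ∃ r ∈ R, (r : PW (ZMod (s ^ (k + 1))) (Option (ZMod l))).g = act A := by
    intro A
    have h1 : act A ∈ R.map π := by
      refine nc_tra (R.map π) ⟨u, huR, ?_⟩ ?_ A
      · rw [hu, hπ]
        exact hx₀g
      · rintro B _ ⟨r, hr, rfl⟩
        obtain ⟨y, hy, hyg⟩ := hX.onto B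
        refine ⟨(⟨y, hy⟩ : X) * r * (⟨y, hy⟩ : X)⁻¹, hRn.conj_mem r hr _, ?_⟩
        rw [map_mul, map_mul, map_inv]
        have h2 : π ⟨y, hy⟩ = act B := by
          rw [hπ]
          exact hyg
        rw [h2]
    obtain ⟨r, hr, hrg⟩ := h1
    exact ⟨r, hr, by rw [← hrg, hπ]⟩
  have hR : ∀ g : X, ∃ r ∈ R, π r = π g := by
    intro g
    obtain ⟨A, hA, -⟩ := hX.le g.2
    obtain ⟨r, hr, hrg⟩ := hact A
    exact ⟨r, hr, by rw [hπ, hπ, hrg, hA]⟩
  by_cases hsp : s = p
  · have hs2' : s ≠ 2 := hs2 hsp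
    have hcom : ∀ v ∈ vX X, ∀ A : SL2 (ZMod l), (fun w => v (mob A w) - v w) ∈ NorX_V R := by
      intro v hv A
      obtain ⟨r, hr, hrg⟩ := hact A
      have h1 := NorX_com hRn hv hr
      rw [hrg] at h1
      exact h1
    have hall : ∀ v ∈ vX X, v ∈ NorX_V R := by
      intro v hv
      have hsum := vX_sum hX hv
      obtain ⟨θ, hθ⟩ : ∃ θ : Option (ZMod l) → ZMod (s ^ (k + 1)), θ = ∑ t : ZMod l, v ∘ mob (tra t) := ⟨_, rfl⟩
      have hθa : ∀ o, θ o = ∑ t : ZMod l, v (mob (tra t) o) := by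
        intro o
        rw [hθ, Finset.sum_apply]
        rfl
      have hθV : θ ∈ vX X := by
        rw [hθ]
        exact AddSubgroup.sum_mem _ fun t _ => vX_inv hX hv (tra t)
      have h1 : θ - l • v ∈ NorX_V R := by
        have h2 : ∑ t : ZMod l, (fun w => v (mob (tra t) w) - v w) ∈ NorX_V R :=
          AddSubgroup.sum_mem _ fun t _ => hcom v hv (tra t)
        have h3 : ∑ t : ZMod l, (fun w => v (mob (tra t) w) - v w) = θ - l • v := by
          funext o
          rw [Finset.sum_apply, Pi.sub_apply, hθa, Finset.sum_sub_distrib, Finset.sum_const, Finset.card_univ,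
            ZMod.card]
          rfl
        rwa [h3] at h2
      choose B hB using fun x : Option (ZMod l) => trans1 (K := ZMod l) x
      have hA : ∀ y, mob (B y)⁻¹ y = none := by
        intro y
        conv_lhs => rw [← hB y]
        rw [hB y]
        nth_rewrite 2 [← hB y]
        rw [← mob_mul, inv_mul_cancel, mob_one]
      have h4 : (l + 1) • θ ∈ NorX_V R := by
        have h5 : ∑ y, (fun w => θ (mob (B y)⁻¹ w) - θ w) ∈ NorX_V R :=
          AddSubgroup.sum_mem _ fun y _ => hcom θ hθV (B y)⁻¹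
        have h6 : ∑ y, (fun w => θ (mob (B y)⁻¹ w) - θ w) = - ((l + 1) • θ) := by
          funext o
          rw [Finset.sum_apply, Finset.sum_sub_distrib, Finset.sum_const, Finset.card_univ, Fintype.card_option,
            ZMod.card]
          have h7 : ∑ y, θ (mob (B y)⁻¹ o) = 0 := by
            have h8 := NorX_sum v hsum (fun y => (B y)⁻¹) hA o
            rw [← h8]
            exact Finset.sum_congr rfl fun y _ => hθa _
          rw [h7, zero_sub]
          rfl
        rw [h6] at h5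
        exact (AddSubgroup.neg_mem_iff _).1 h5
      have h9 : ((l + 1) * l) • v ∈ NorX_V R := by
        have h10 := AddSubgroup.sub_mem _ h4 (AddSubgroup.nsmul_mem _ h1 (l + 1))
        rw [smul_sub, sub_sub_cancel, smul_smul] at h10
        exact h10
      have hco : ((l + 1) * l).Coprime (s ^ (k + 1)) := by
        refine Nat.Coprime.pow_right _ (Nat.Coprime.mul_left ?_ hsl'.symm)
        refine Nat.Coprime.symm ((Nat.Prime.coprime_iff_not_dvd hs).2 fun h => ?_)
        have h11 : s ∣ (l + 1) - (l - 1) := Nat.dvd_sub h hsl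
        have h12 : (l + 1) - (l - 1) = 2 := by
          have := hl.one_lt
          omega
        rw [h12] at h11
        exact hs2' ((Nat.prime_dvd_prime_iff_eq hs Nat.prime_two).1 h11)
      have h13 := ZMod.coe_mul_inv_eq_one _ hco
      have h14 := AddSubgroup.nsmul_mem _ h9 ((((l + 1) * l : ℕ) : ZMod (s ^ (k + 1)))⁻¹).val
      have h15 : ((((l + 1) * l : ℕ) : ZMod (s ^ (k + 1)))⁻¹).val • (((l + 1) * l) • v) = v := by
        funext w
        rw [Pi.smul_apply, Pi.smul_apply, nsmul_eq_mul, nsmul_eq_mul, ZMod.natCast_val, ZMod.cast_id', id,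
          ← mul_assoc, mul_comm (_⁻¹), h13, one_mul]
      rwa [h15] at h14
    rw [eq_top_iff]
    intro g _
    obtain ⟨r, hr, hrg⟩ := hR g
    have h1 : π (g * r⁻¹) = 1 := by rw [map_mul, map_inv, hrg, mul_inv_cancel]
    have h2 := hker _ h1
    obtain ⟨v, hv⟩ : ∃ v, v = ((g * r⁻¹ : X) : PW (ZMod (s ^ (k + 1))) (Option (ZMod l))).f := ⟨_, rfl⟩
    rw [← hv] at h2
    have h3 : v ∈ vX X := by
      rw [mem_vX, ← h2]
      exact (g * r⁻¹ : X).2
    obtain ⟨h4, h5⟩ := NorX_mem.1 (hall v h3)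
    have h6 : (g * r⁻¹ : X) = ⟨⟨v, 1⟩, h4⟩ := Subtype.ext h2
    rw [← h6] at h5
    have h7 := R.mul_mem h5 hr
    rwa [inv_mul_cancel_right] at h7
  · exact top_of_ker hp hq hs hsp hsq π hker' ha hb hab R hR

end Pool.Agent.NBA
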