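import Pool.Agent.NBA.PFac

set_option autoImplicit false

/-! NBA-Stab. The stabiliser of two finite sets of points.
PLAN.  `mob A none`, `mob A (some 0)` are in `{none, some 0}` and different.  Case 1: `mob A none = none`: `A 1 0 = 0`, `mob A (some 0) = some 0`: `A 0 1 = 0`; `mob A (some z) = some (κ z)`, `κ = A 0 0 / A 1 1`.  The map permutes the four different points `some 1, some 2, some 3, some 7`
(injective): the sum of the images is the sum: `13 κ = 13` in `ZMod l`, `κ = 1`, so `A 0 0 = A 1 1`: `act_of_entries`.  Case 2: `mob A none = some 0`: `A 0 0 = 0`, `mob A (some 0) = none`: `A 1 1 = 0`, `mob A (some z) = some (κ / z)`, `κ = A 0 1 / A 1 0`.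
Sum: `κ (1 + 1/2 + 1/3 + 1/7) = 13`, i.e. `83 κ = 546`; sum of squares: `κ² (1 + 1/4 + 1/9 + 1/49) = 63`, i.e. `2437 κ² = 63 * 1764`.  So `2437 * 546² = 63 * 1764 * 83²` in `ZMod l`; the difference of the two integers is `±1764 * 22154`, and `l` is a prime
bigger than `22154`: contradiction (`(n : ZMod l) = 0` iff `l ∣ n`, `Nat.le_of_dvd`, `Nat.Prime.dvd_mul`). -/

namespace Pool.Agent.NBA

private theorem Stab_sum {K : Type} [Field K] (S : Finset K) (f : K → K)
    (hm : ∀ z ∈ S, f z ∈ S) (hi : Set.InjOn f S) (g : K → K) :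
    ∑ z ∈ S, g (f z) = ∑ z ∈ S, g z := by
  classical
  have h1 : S.image f = S := by
    refine Finset.eq_of_subset_of_card_le ?_ ?_
    · intro w hw
      obtain ⟨z, hz, rfl⟩ := Finset.mem_image.1 hw
      exact hm z hz
    · rw [Finset.card_image_of_injOn hi]
  have h2 : ∑ z ∈ S.image f, g z = ∑ z ∈ S, g (f z) := Finset.sum_image hi
  rw [← h2, h1]

private theorem Stab_ne {l : ℕ} [Fact l.Prime] (n : ℕ) (h0 : 0 < n) (h : n < l) :
    ((n : ℕ) : ZMod l) ≠ 0 := by
  intro h1
  rw [ZMod.natCast_eq_zero_iff] at h1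
  exact absurd (Nat.le_of_dvd h0 h1) (not_le.2 h)

theorem stab {l : ℕ} [Fact l.Prime] (hl : 22154 < l) (A : SL2 (ZMod l))
    (h1 : ∀ x ∈ ({none, some 0} : Set (Option (ZMod l))), mob A x ∈ ({none, some 0} : Set (Option (ZMod l))))
    (h2 : ∀ x ∈ ({some 1, some 2, some 3, some 7} : Set (Option (ZMod l))),
      mob A x ∈ ({some 1, some 2, some 3, some 7} : Set (Option (ZMod l)))) : act A = 1 := by
  classical
  have hne : ∀ n : ℕ, 0 < n → n ≤ 22154 → ((n : ℕ) : ZMod l) ≠ 0 := fun n h0 h =>
    Stab_ne n h0 (lt_of_le_of_lt h hl)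
  have n1 : (1 : ZMod l) ≠ 0 := one_ne_zero
  have n2 : (2 : ZMod l) ≠ 0 := by exact_mod_cast hne 2 (by norm_num) (by norm_num)
  have n3 : (3 : ZMod l) ≠ 0 := by exact_mod_cast hne 3 (by norm_num) (by norm_num)
  have n4 : (4 : ZMod l) ≠ 0 := by exact_mod_cast hne 4 (by norm_num) (by norm_num)
  have n5 : (5 : ZMod l) ≠ 0 := by exact_mod_cast hne 5 (by norm_num) (by norm_num)
  have n6 : (6 : ZMod l) ≠ 0 := by exact_mod_cast hne 6 (by norm_num) (by norm_num)
  have n7 : (7 : ZMod l) ≠ 0 := by exact_mod_cast hne 7 (by norm_num) (by norm_num)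
  have n13 : (13 : ZMod l) ≠ 0 := by exact_mod_cast hne 13 (by norm_num) (by norm_num)
  have d12 : (1 : ZMod l) ≠ 2 := fun h => n1 (by linear_combination -h)
  have d13 : (1 : ZMod l) ≠ 3 := fun h => n2 (by linear_combination -h)
  have d17 : (1 : ZMod l) ≠ 7 := fun h => n6 (by linear_combination -h)
  have d23 : (2 : ZMod l) ≠ 3 := fun h => n1 (by linear_combination -h)
  have d27 : (2 : ZMod l) ≠ 7 := fun h => n5 (by linear_combination -h)
  have d37 : (3 : ZMod l) ≠ 7 := fun h => n4 (by linear_combination -h)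
  let S : Finset (ZMod l) := {1, 2, 3, 7}
  have hS : ∀ g : ZMod l → ZMod l, ∑ z ∈ S, g z = g 1 + (g 2 + (g 3 + g 7)) := by
    intro g
    have e1 : (1 : ZMod l) ∉ ({2, 3, 7} : Finset (ZMod l)) := by
      simp only [Finset.mem_insert, Finset.mem_singleton, not_or]
      exact ⟨d12, d13, d17⟩
    have e2 : (2 : ZMod l) ∉ ({3, 7} : Finset (ZMod l)) := by
      simp only [Finset.mem_insert, Finset.mem_singleton, not_or]
      exact ⟨d23, d27⟩
    have e3 : (3 : ZMod l) ∉ ({7} : Finset (ZMod l)) := by
      simp only [Finset.mem_singleton]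
      exact d37
    rw [Finset.sum_insert e1, Finset.sum_insert e2, Finset.sum_insert e3, Finset.sum_singleton]
  have hinj : ∀ x y, mob A x = mob A y → x = y := by
    intro x y h
    have := congrArg (mob A⁻¹) h
    rwa [← mob_mul, ← mob_mul, inv_mul_cancel, mob_one, mob_one] at this
  have key : ∀ f : ZMod l → ZMod l, (∀ z ∈ S, mob A (some z) = some (f z)) →
      ∀ g : ZMod l → ZMod l, ∑ z ∈ S, g (f z) = ∑ z ∈ S, g z := by
    intro f hf g
    refine Stab_sum S f ?_ ?_ g
    · intro z hz
      have hz' : (some z : Option (ZMod l)) ∈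
          ({some 1, some 2, some 3, some 7} : Set (Option (ZMod l))) := by
        simpa [S] using hz
      have h3 := h2 _ hz'
      rw [hf z hz] at h3
      simpa [S] using h3
    · intro z hz w hw h
      have h3 := hinj (some z) (some w) (by
        rw [hf z (by exact_mod_cast hz), hf w (by exact_mod_cast hw), h])
      exact Option.some.inj h3
  have hn := h1 none (by simp)
  have hz := h1 (some 0) (by simp)
  simp only [Set.mem_insert_iff, Set.mem_singleton_iff] at hn hz
  rcases hn with hn | hn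
  · -- case 1
    have h0 : mob A (some 0) = some 0 := by
      rcases hz with hz | hz
      · exact absurd (hinj _ _ (hz.trans hn.symm)) (by simp)
      · exact hz
    have a10 : A.1 1 0 = 0 := by
      by_contra h
      simp [mob, h] at hn
    have a11 : A.1 1 1 ≠ 0 := by
      intro h
      have := det2 A
      rw [a10, h] at this
      simp at this
    have a01 : A.1 0 1 = 0 := by
      have h3 := h0
      simp only [mob, a10, zero_add, a11, if_false, mul_zero, Option.some.injEq] at h3
      rcases div_eq_zero_iff.1 h3 with h4 | h4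
      · exact h4
      · exact absurd h4 a11
    have hf : ∀ z ∈ S, mob A (some z) = some (A.1 0 0 / A.1 1 1 * z) := by
      intro z _
      simp only [mob, a10, a01, zero_mul, zero_add, a11, if_false, add_zero, Option.some.injEq]
      ring
    have h3 := key _ hf (fun z => z)
    rw [hS, hS] at h3
    have h4 : 13 * (A.1 0 0 / A.1 1 1 - 1) = 0 := by linear_combination h3
    have h5 := (mul_eq_zero.1 h4).resolve_left n13
    have h6 : A.1 0 0 / A.1 1 1 = 1 := by linear_combination h5
    rw [div_eq_one_iff_eq a11] at h6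
    exact act_of_entries a10 a01 h6.symm
  · -- case 2
    exfalso
    have a10 : A.1 1 0 ≠ 0 := by
      intro h
      simp [mob, h] at hn
    have a00 : A.1 0 0 = 0 := by
      have h3 := hn
      simp only [mob, a10, if_false, Option.some.injEq] at h3
      rcases div_eq_zero_iff.1 h3 with h4 | h4
      · exact h4
      · exact absurd h4 a10
    have h0 : mob A (some 0) = none := by
      rcases hz with hz | hz
      · exact hz
      · exact absurd (hinj _ _ (hz.trans hn.symm)) (by simp)
    have a11 : A.1 1 1 = 0 := by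
      by_contra h
      simp [mob, h] at h0
    have hf : ∀ z ∈ S, mob A (some z) = some (A.1 0 1 / A.1 1 0 * z⁻¹) := by
      intro z hz
      have hz0 : z ≠ 0 := by
        have : z = 1 ∨ z = 2 ∨ z = 3 ∨ z = 7 := by simpa [S] using hz
        rcases this with h | h | h | h
        · rw [h]; exact n1
        · rw [h]; exact n2
        · rw [h]; exact n3
        · rw [h]; exact n7
      have h5 : A.1 1 0 * z ≠ 0 := mul_ne_zero a10 hz0
      simp only [mob, a00, a11, zero_mul, zero_add, add_zero, h5, if_false, Option.some.injEq]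
      field_simp
    have h3 := key _ hf (fun z => z)
    have h4 := key _ hf (fun z => z ^ 2)
    rw [hS, hS] at h3 h4
    set κ : ZMod l := A.1 0 1 / A.1 1 0 with hκ
    have h5 : 83 * κ = 546 := by
      have i2 : (2 : ZMod l) * 2⁻¹ = 1 := mul_inv_cancel₀ n2
      have i3 : (3 : ZMod l) * 3⁻¹ = 1 := mul_inv_cancel₀ n3
      have i7 : (7 : ZMod l) * 7⁻¹ = 1 := mul_inv_cancel₀ n7
      have i1 : (1 : ZMod l)⁻¹ = 1 := inv_one
      rw [i1] at h3
      linear_combination 42 * h3 - 21 * κ * i2 - 14 * κ * i3 - 6 * κ * i7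
    have h6 : 2437 * κ ^ 2 = 63 * 1764 := by
      have i2 : (4 : ZMod l) * (2⁻¹ * 2⁻¹) = 1 := by
        have : (2 : ZMod l) * 2⁻¹ = 1 := mul_inv_cancel₀ n2
        linear_combination (2 * 2⁻¹ + 1) * this
      have i3 : (9 : ZMod l) * (3⁻¹ * 3⁻¹) = 1 := by
        have : (3 : ZMod l) * 3⁻¹ = 1 := mul_inv_cancel₀ n3
        linear_combination (3 * 3⁻¹ + 1) * this
      have i7 : (49 : ZMod l) * (7⁻¹ * 7⁻¹) = 1 := by
        have : (7 : ZMod l) * 7⁻¹ = 1 := mul_inv_cancel₀ n7
        linear_combination (7 * 7⁻¹ + 1) * this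
      have i1 : (1 : ZMod l)⁻¹ = 1 := inv_one
      rw [i1] at h4
      linear_combination 1764 * h4 - 441 * κ ^ 2 * i2 - 196 * κ ^ 2 * i3 - 36 * κ ^ 2 * i7
    have h7 : ((39079656 : ℕ) : ZMod l) = 0 := by
      push_cast
      linear_combination (2437 * (83 * κ + 546)) * h5 - 83 ^ 2 * h6
    rw [ZMod.natCast_eq_zero_iff] at h7
    have h8 : l ∣ 1764 * 22154 := by
      have : (1764 * 22154 : ℕ) = 39079656 := by norm_num
      rw [this]
      exact h7
    rcases (Nat.Prime.dvd_mul (Fact.out : l.Prime)).1 h8 with h9 | h9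
    · exact absurd (Nat.le_of_dvd (by norm_num) h9) (by omega)
    · exact absurd (Nat.le_of_dvd (by norm_num) h9) (by omega)

end Pool.Agent.NBA
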