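import Pool.Agent.NBA.Dv
import Pool.Agent.NBA.Stab

set_option autoImplicit false

/-! NBA-Sep. Surjectivity and the stabiliser of `μ`.
PLAN.  Write `φᵢ v = pr m (wᵢ) none v`, additive on `V`.  `mu_surj`: if `(φ₁, φ₂)` is not onto `(ZMod s)²` there are `(α, β) ≠ 0` with `α φ₁ + β φ₂ = 0` on `V` (a proper additive subgroup of `(ZMod s)²`), so by `hV.nondeg` the weight `α w₁ + β w₂` (sum `0`) is constant; it vanishes at a point outside of the
supports (`l > 22154`: e.g. `some 4`), so it is `0`: the value at `none` is `α`, at `some 1` it is `β`: contradiction.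
`sep`: choose `v₁, v₂ ∈ V` with `φᵢ (vⱼ) = δᵢⱼ` (`mu_surj`).  For `ψ v = pr m wᵢ none (v ∘ mob A)` (additive on `V`) and `v ∈ V`: `v - (φ₁ v) v₁ - (φ₂ v) v₂` (multiples by natural numbers representing the classes) is in both kernels, so `ψ v = φ₁ v * ψ v₁ + φ₂ v * ψ v₂`.  With `pr_inv`:
`pr m (wᵢ ∘ (act A)⁻¹ - α w₁ - β w₂) none v = 0` for all `v ∈ V`, so this weight (sum `0`) is constant, and `0` at a point outside of the supports (at most `12` points, `l + 1 > 12`), so `wᵢ ∘ (act A)⁻¹ = αᵢ w₁ + βᵢ w₂`.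
Supports: `w₁` has support `S₁ = {none, some 0}` (2 points), `w₂` has support `S₂ = {some 1, some 2, some 3, some 7}` (4 points, different as `l > 7`), disjoint.  `α w₁ + β w₂` has a support of 2 points only if `β = 0`, then it is `S₁`; of 4 points only if `α = 0`: `S₂`.  The support of
`wᵢ ∘ (act A)⁻¹` is `act A (Sᵢ)`.  So `mob A` maps `S₁` to `S₁` and `S₂` to `S₂`: `stab`. -/

namespace Pool.Agent.NBA

private theorem Sep_ne {l : ℕ} (hl : 22154 < l) {a b : ℕ} (ha : a < 8) (hb : b < 8)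
    (hab : a ≠ b) : (a : ZMod l) ≠ (b : ZMod l) := by
  intro h
  rw [ZMod.natCast_eq_natCast_iff', Nat.mod_eq_of_lt (by omega), Nat.mod_eq_of_lt (by omega)] at h
  exact hab h

private theorem Sep_sn {l : ℕ} (hl : 22154 < l) {a b : ℕ} (ha : a < 8) (hb : b < 8)
    (hab : a ≠ b) : (some (a : ZMod l) : Option (ZMod l)) ≠ some (b : ZMod l) := fun h =>
  Sep_ne hl ha hb hab (Option.some.inj h)

private theorem Sep_w1 (s l : ℕ) (z : Option (ZMod l)) : w1 s l z =
    (if z = none then 1 else 0) - (if z = some 0 then 1 else 0) := by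
  unfold w1
  rw [Pi.sub_apply, Pi.single_apply, Pi.single_apply]

private theorem Sep_w2 (s l : ℕ) (z : Option (ZMod l)) : w2 s l z =
    (if z = some 1 then 1 else 0) - (if z = some 2 then 1 else 0) +
      (if z = some 3 then 1 else 0) - (if z = some 7 then 1 else 0) := by
  unfold w2
  rw [Pi.sub_apply, Pi.add_apply, Pi.sub_apply, Pi.single_apply, Pi.single_apply,
    Pi.single_apply, Pi.single_apply]

theorem sum_w1 (s l : ℕ) [Fact l.Prime] : ∑ z, w1 s l z = 0 := by
  simp only [Sep_w1, Finset.sum_sub_distrib, Finset.sum_ite_eq', Finset.mem_univ, if_true, sub_self]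

theorem sum_w2 (s l : ℕ) [Fact l.Prime] : ∑ z, w2 s l z = 0 := by
  simp only [Sep_w2, Finset.sum_sub_distrib, Finset.sum_add_distrib, Finset.sum_ite_eq',
    Finset.mem_univ, if_true, sub_self, zero_add]

private theorem Sep_v1 {s l : ℕ} (hs : s.Prime) (z : Option (ZMod l)) :
    w1 s l z ≠ 0 ↔ (z = none ∨ z = some 0) := by
  have : Fact s.Prime := ⟨hs⟩
  rw [Sep_w1]
  by_cases h1 : z = none
  · subst h1
    simp
  · by_cases h2 : z = some 0
    · subst h2
      simp
    · rw [if_neg h1, if_neg h2, sub_self]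
      simp [h1, h2]

private theorem Sep_v2 {s l : ℕ} (hs : s.Prime) (hl : 22154 < l) (z : Option (ZMod l)) :
    w2 s l z ≠ 0 ↔ (z = some 1 ∨ z = some 2 ∨ z = some 3 ∨ z = some 7) := by
  have : Fact s.Prime := ⟨hs⟩
  have h12 : (some 1 : Option (ZMod l)) ≠ some 2 := by
    simpa using Sep_sn hl (a := 1) (b := 2) (by norm_num) (by norm_num) (by norm_num)
  have h13 : (some 1 : Option (ZMod l)) ≠ some 3 := by
    simpa using Sep_sn hl (a := 1) (b := 3) (by norm_num) (by norm_num) (by norm_num)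
  have h17 : (some 1 : Option (ZMod l)) ≠ some 7 := by
    simpa using Sep_sn hl (a := 1) (b := 7) (by norm_num) (by norm_num) (by norm_num)
  have h23 : (some 2 : Option (ZMod l)) ≠ some 3 := by
    simpa using Sep_sn hl (a := 2) (b := 3) (by norm_num) (by norm_num) (by norm_num)
  have h27 : (some 2 : Option (ZMod l)) ≠ some 7 := by
    simpa using Sep_sn hl (a := 2) (b := 7) (by norm_num) (by norm_num) (by norm_num)
  have h37 : (some 3 : Option (ZMod l)) ≠ some 7 := by
    simpa using Sep_sn hl (a := 3) (b := 7) (by norm_num) (by norm_num) (by norm_num)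
  rw [Sep_w2]
  by_cases h1 : z = some 1
  · subst h1
    rw [if_pos rfl, if_neg h12, if_neg h13, if_neg h17]
    simp
  by_cases h2 : z = some 2
  · subst h2
    rw [if_neg h12.symm, if_pos rfl, if_neg h23, if_neg h27]
    simp
  by_cases h3 : z = some 3
  · subst h3
    rw [if_neg h13.symm, if_neg h23.symm, if_pos rfl, if_neg h37]
    simp
  by_cases h7 : z = some 7
  · subst h7
    rw [if_neg h17.symm, if_neg h27.symm, if_neg h37.symm, if_pos rfl]
    simp
  rw [if_neg h1, if_neg h2, if_neg h3, if_neg h7]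
  simp [h1, h2, h3, h7]

private theorem Sep_dual {s k l m : ℕ} [Fact l.Prime] (hs : s.Prime) (hl : 22154 < l)
    {V : AddSubgroup (Option (ZMod l) → ZMod (s ^ (k + 1)))} (hV : Pair s k V m none)
    (α β : ZMod s) (h : ∀ v ∈ V, α * pr m (w1 s l) none v + β * pr m (w2 s l) none v = 0) :
    α = 0 ∧ β = 0 := by
  have : Fact s.Prime := ⟨hs⟩
  have h4a : (some 4 : Option (ZMod l)) ≠ some 0 := by
    simpa using Sep_sn hl (a := 4) (b := 0) (by norm_num) (by norm_num) (by norm_num)
  have h41 : (some 4 : Option (ZMod l)) ≠ some 1 := by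
    simpa using Sep_sn hl (a := 4) (b := 1) (by norm_num) (by norm_num) (by norm_num)
  have h42 : (some 4 : Option (ZMod l)) ≠ some 2 := by
    simpa using Sep_sn hl (a := 4) (b := 2) (by norm_num) (by norm_num) (by norm_num)
  have h43 : (some 4 : Option (ZMod l)) ≠ some 3 := by
    simpa using Sep_sn hl (a := 4) (b := 3) (by norm_num) (by norm_num) (by norm_num)
  have h47 : (some 4 : Option (ZMod l)) ≠ some 7 := by
    simpa using Sep_sn hl (a := 4) (b := 7) (by norm_num) (by norm_num) (by norm_num)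
  have h12 : (some 1 : Option (ZMod l)) ≠ some 2 := by
    simpa using Sep_sn hl (a := 1) (b := 2) (by norm_num) (by norm_num) (by norm_num)
  have h13 : (some 1 : Option (ZMod l)) ≠ some 3 := by
    simpa using Sep_sn hl (a := 1) (b := 3) (by norm_num) (by norm_num) (by norm_num)
  have h17 : (some 1 : Option (ZMod l)) ≠ some 7 := by
    simpa using Sep_sn hl (a := 1) (b := 7) (by norm_num) (by norm_num) (by norm_num)
  have h10 : (some 1 : Option (ZMod l)) ≠ some 0 := by
    simp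
  have hsum : ∑ z, (α • w1 s l + β • w2 s l) z = 0 := by
    simp only [Pi.add_apply, Pi.smul_apply, smul_eq_mul]
    rw [Finset.sum_add_distrib, ← Finset.mul_sum, ← Finset.mul_sum, sum_w1, sum_w2, mul_zero,
      mul_zero, add_zero]
  have hc := hV.nondeg (α • w1 s l + β • w2 s l) hsum fun v hv => by
    rw [pr_w_add, pr_w_smul, pr_w_smul]
    exact h v hv
  have e4 : (α • w1 s l + β • w2 s l) (some 4) = 0 := by
    rw [Pi.add_apply, Pi.smul_apply, Pi.smul_apply, Sep_w1, Sep_w2, if_neg h4a, if_neg h41,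
      if_neg h42, if_neg h43, if_neg h47]
    simp
  constructor
  · have e := hc none (some 4)
    rw [e4, Pi.add_apply, Pi.smul_apply, Pi.smul_apply, Sep_w1, Sep_w2] at e
    simpa using e
  · have e := hc (some 1) (some 4)
    rw [e4, Pi.add_apply, Pi.smul_apply, Pi.smul_apply, Sep_w1, Sep_w2, if_neg h10, if_pos rfl,
      if_neg h12, if_neg h13, if_neg h17] at e
    simpa using e

/-- the pairing as an additive map on `V` -/
private noncomputable def Sep_phi {s k l m : ℕ} [Fact l.Prime] (hs : s.Prime)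
    {V : AddSubgroup (Option (ZMod l) → ZMod (s ^ (k + 1)))} (hV : Pair s k V m none)
    (w : Option (ZMod l) → ZMod s) : V →+ ZMod s :=
  AddMonoidHom.mk' (fun v => pr m w none v.1) fun v v' => pr_add hs hV w v.2 v'.2

theorem mu_surj {s k l m : ℕ} [Fact l.Prime] (hs : s.Prime) (hl : 22154 < l)
    {V : AddSubgroup (Option (ZMod l) → ZMod (s ^ (k + 1)))} (hV : Pair s k V m none)
    (α β : ZMod s) : ∃ v ∈ V, pr m (w1 s l) none v = α ∧ pr m (w2 s l) none v = β := by
  have : Fact s.Prime := ⟨hs⟩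
  obtain ⟨W, hW⟩ : ∃ W : Submodule (ZMod s) (ZMod s × ZMod s),
      W = AddSubgroup.toZModSubmodule s
        ((Sep_phi hs hV (w1 s l)).prod (Sep_phi hs hV (w2 s l))).range := ⟨_, rfl⟩
  have hmem : ∀ p, p ∈ W ↔ ∃ v ∈ V, pr m (w1 s l) none v = p.1 ∧ pr m (w2 s l) none v = p.2 := by
    intro p
    rw [hW, AddSubgroup.mem_toZModSubmodule, AddMonoidHom.mem_range]
    constructor
    · rintro ⟨v, rfl⟩
      exact ⟨v.1, v.2, rfl, rfl⟩
    · rintro ⟨v, hv, h1, h2⟩
      exact ⟨⟨v, hv⟩, Prod.ext h1 h2⟩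
  by_contra hno
  have hlt : W < ⊤ := by
    rw [lt_top_iff_ne_top]
    intro h
    apply hno
    have h1 : ((α, β) : ZMod s × ZMod s) ∈ W := by
      rw [h]
      trivial
    exact (hmem _).1 h1
  obtain ⟨f, hf, hle⟩ := Submodule.exists_le_ker_of_lt_top W hlt
  have hfv : ∀ x y : ZMod s, f (x, y) = f (1, 0) * x + f (0, 1) * y := by
    intro x y
    have h1 : ((x, y) : ZMod s × ZMod s) = x • (1, 0) + y • (0, 1) := by
      ext <;> simp
    rw [h1, map_add, map_smul, map_smul, smul_eq_mul, smul_eq_mul, mul_comm x, mul_comm y]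
  have h0 := Sep_dual hs hl hV (f (1, 0)) (f (0, 1)) fun v hv => by
    have h1 : ((pr m (w1 s l) none v, pr m (w2 s l) none v) : ZMod s × ZMod s) ∈ W :=
      (hmem _).2 ⟨v, hv, rfl, rfl⟩
    have h2 := LinearMap.mem_ker.1 (hle h1)
    rwa [hfv] at h2
  apply hf
  apply LinearMap.ext
  rintro ⟨x, y⟩
  rw [hfv, h0.1, h0.2, zero_mul, zero_mul, add_zero, LinearMap.zero_apply]

private theorem Sep_card {l : ℕ} [Fact l.Prime] (hl : 22154 < l) (F : Finset (Option (ZMod l)))
    (hF : F.card ≤ 12) : ∃ x, x ∉ F := by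
  by_contra h
  have h1 : ∀ x, x ∈ F := fun x => by
    by_contra hx
    exact h ⟨x, hx⟩
  have h2 : F = Finset.univ := Finset.eq_univ_iff_forall.2 h1
  rw [h2, Finset.card_univ, Fintype.card_option, ZMod.card] at hF
  omega

private theorem Sep_lin {s k l m : ℕ} [Fact l.Prime] (hs : s.Prime) (hl : 22154 < l)
    {V : AddSubgroup (Option (ZMod l) → ZMod (s ^ (k + 1)))} (hV : Pair s k V m none)
    (hinv : ∀ v ∈ V, ∀ A : SL2 (ZMod l), v ∘ mob A ∈ V) (A : SL2 (ZMod l))
    (w : Option (ZMod l) → ZMod s) (hw0 : ∑ z, w z = 0)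
    (hws : ∀ z, w z ≠ 0 → z ∈ ({none, some 0, some 1, some 2, some 3, some 7} :
      Finset (Option (ZMod l))))
    (h : ∀ v ∈ V, pr m (w1 s l) none v = 0 → pr m (w2 s l) none v = 0 →
      pr m w none (v ∘ mob A) = 0) :
    ∃ α β : ZMod s, ∀ z, w ((act A)⁻¹ z) = α * w1 s l z + β * w2 s l z := by
  have : Fact s.Prime := ⟨hs⟩
  obtain ⟨v1, hv1, h11, h12⟩ := mu_surj hs hl hV 1 0
  obtain ⟨v2, hv2, h21, h22⟩ := mu_surj hs hl hV 0 1
  obtain ⟨φ1, hφ1⟩ : ∃ φ1, φ1 = Sep_phi hs hV (w1 s l) := ⟨_, rfl⟩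
  obtain ⟨φ2, hφ2⟩ : ∃ φ2, φ2 = Sep_phi hs hV (w2 s l) := ⟨_, rfl⟩
  have hφ1v : ∀ v : V, φ1 v = pr m (w1 s l) none v.1 := fun v => by rw [hφ1]; rfl
  have hφ2v : ∀ v : V, φ2 v = pr m (w2 s l) none v.1 := fun v => by rw [hφ2]; rfl
  obtain ⟨ψ, hψ⟩ : ∃ ψ : V →+ ZMod s, ∀ v : V, ψ v = pr m w none (v.1 ∘ mob A) :=
    ⟨AddMonoidHom.mk' (fun v => pr m w none (v.1 ∘ mob A)) fun v v' =>
      pr_add hs hV w (hinv _ v.2 A) (hinv _ v'.2 A), fun v => rfl⟩
  have hlin : ∀ v : V, ψ v = φ1 v * ψ ⟨v1, hv1⟩ + φ2 v * ψ ⟨v2, hv2⟩ := by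
    intro v
    obtain ⟨u, hu⟩ : ∃ u : V, u = v - (φ1 v).val • (⟨v1, hv1⟩ : V) -
      (φ2 v).val • (⟨v2, hv2⟩ : V) := ⟨_, rfl⟩
    have g11 : φ1 (⟨v1, hv1⟩ : V) = 1 := by rw [hφ1v]; exact h11
    have g12 : φ2 (⟨v1, hv1⟩ : V) = 0 := by rw [hφ2v]; exact h12
    have g21 : φ1 (⟨v2, hv2⟩ : V) = 0 := by rw [hφ1v]; exact h21
    have g22 : φ2 (⟨v2, hv2⟩ : V) = 1 := by rw [hφ2v]; exact h22
    have u1 : φ1 u = 0 := by
      rw [hu, map_sub, map_sub, map_nsmul, map_nsmul, g11, g21, smul_zero, sub_zero, nsmul_eq_mul,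
        mul_one, ZMod.natCast_zmod_val, sub_self]
    have u2 : φ2 u = 0 := by
      rw [hu, map_sub, map_sub, map_nsmul, map_nsmul, g12, g22, smul_zero, sub_zero, nsmul_eq_mul,
        mul_one, ZMod.natCast_zmod_val, sub_self]
    rw [hφ1v] at u1
    rw [hφ2v] at u2
    have u3 : ψ u = 0 := by
      rw [hψ]
      exact h u.1 u.2 u1 u2
    rw [hu, map_sub, map_sub, map_nsmul, map_nsmul, nsmul_eq_mul, nsmul_eq_mul,
      ZMod.natCast_zmod_val, ZMod.natCast_zmod_val] at u3
    linear_combination u3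
  obtain ⟨α, hα⟩ : ∃ α, α = ψ ⟨v1, hv1⟩ := ⟨_, rfl⟩
  obtain ⟨β, hβ⟩ : ∃ β, β = ψ ⟨v2, hv2⟩ := ⟨_, rfl⟩
  rw [← hα, ← hβ] at hlin
  refine ⟨α, β, ?_⟩
  obtain ⟨ω, hω⟩ : ∃ ω : Option (ZMod l) → ZMod s,
      ω = (w ∘ ⇑(act A)⁻¹) + ((-α) • w1 s l + (-β) • w2 s l) := ⟨_, rfl⟩
  have hωz : ∀ z, ω z = w ((act A)⁻¹ z) - (α * w1 s l z + β * w2 s l z) := by
    intro z
    rw [hω]
    simp only [Pi.add_apply, Pi.smul_apply, smul_eq_mul, Function.comp_apply]
    ring
  have hsum : ∑ z, ω z = 0 := by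
    have e1 : ∑ z, w ((act A)⁻¹ z) = 0 := by
      rw [Equiv.sum_comp (act A)⁻¹ w]
      exact hw0
    simp only [hωz]
    rw [Finset.sum_sub_distrib, Finset.sum_add_distrib, ← Finset.mul_sum, ← Finset.mul_sum, e1,
      sum_w1, sum_w2, mul_zero, mul_zero, add_zero, sub_zero]
  have hc := hV.nondeg ω hsum fun v hv => by
    have e1 := hlin ⟨v, hv⟩
    rw [hψ, hφ1v, hφ2v] at e1
    have e2 := pr_inv hs hV hw0 hv (act A)
    have e3 : pr m w none (v ∘ mob A) = pr m w none (v ∘ ⇑(act A)) := rfl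
    rw [hω, pr_w_add, pr_w_add, pr_w_smul, pr_w_smul, ← e2, ← e3, e1]
    ring
  classical
  obtain ⟨S, hS⟩ : ∃ S : Finset (Option (ZMod l)),
    S = {none, some 0, some 1, some 2, some 3, some 7} := ⟨_, rfl⟩
  have hScard : S.card ≤ 6 := by
    rw [hS]
    exact Finset.card_le_six
  obtain ⟨x0, hx0⟩ := Sep_card hl (S ∪ S.image (act A)) (by
    have e1 := Finset.card_union_le S (S.image (act A))
    have e2 := Finset.card_image_le (s := S) (f := act A)
    omega)
  rw [Finset.mem_union, not_or] at hx0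
  have e0 : ω x0 = 0 := by
    have a1 : w ((act A)⁻¹ x0) = 0 := by
      by_contra hne
      have := hws _ hne
      rw [← hS] at this
      exact hx0.2 (Finset.mem_image.2 ⟨_, this, by simp⟩)
    have a2 : w1 s l x0 = 0 := by
      by_contra hne
      rcases (Sep_v1 hs x0).1 hne with h1 | h1 <;>
      · apply hx0.1
        rw [hS, h1]
        simp
    have a3 : w2 s l x0 = 0 := by
      by_contra hne
      rcases (Sep_v2 hs hl x0).1 hne with h1 | h1 | h1 | h1 <;>
      · apply hx0.1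
        rw [hS, h1]
        simp
    rw [hωz, a1, a2, a3]
    ring
  intro z
  have e1 := hc z x0
  rw [e0, hωz] at e1
  exact sub_eq_zero.1 e1

theorem sep {s k l m : ℕ} [Fact l.Prime] (hs : s.Prime) (hl : 22154 < l)
    {V : AddSubgroup (Option (ZMod l) → ZMod (s ^ (k + 1)))} (hV : Pair s k V m none)
    (hinv : ∀ v ∈ V, ∀ A : SL2 (ZMod l), v ∘ mob A ∈ V) (A : SL2 (ZMod l))
    (h : ∀ v ∈ V, pr m (w1 s l) none v = 0 → pr m (w2 s l) none v = 0 →
      pr m (w1 s l) none (v ∘ mob A) = 0 ∧ pr m (w2 s l) none (v ∘ mob A) = 0) :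
    act A = 1 := by
  classical
  have : Fact s.Prime := ⟨hs⟩
  have h01 : (some 0 : Option (ZMod l)) ≠ some 1 := by
    simp
  have h02 : (some 0 : Option (ZMod l)) ≠ some 2 := by
    simpa using Sep_sn hl (a := 0) (b := 2) (by norm_num) (by norm_num) (by norm_num)
  have h03 : (some 0 : Option (ZMod l)) ≠ some 3 := by
    simpa using Sep_sn hl (a := 0) (b := 3) (by norm_num) (by norm_num) (by norm_num)
  have h07 : (some 0 : Option (ZMod l)) ≠ some 7 := by
    simpa using Sep_sn hl (a := 0) (b := 7) (by norm_num) (by norm_num) (by norm_num)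
  have h12 : (some 1 : Option (ZMod l)) ≠ some 2 := by
    simpa using Sep_sn hl (a := 1) (b := 2) (by norm_num) (by norm_num) (by norm_num)
  have h13 : (some 1 : Option (ZMod l)) ≠ some 3 := by
    simpa using Sep_sn hl (a := 1) (b := 3) (by norm_num) (by norm_num) (by norm_num)
  have h17 : (some 1 : Option (ZMod l)) ≠ some 7 := by
    simpa using Sep_sn hl (a := 1) (b := 7) (by norm_num) (by norm_num) (by norm_num)
  have h23 : (some 2 : Option (ZMod l)) ≠ some 3 := by
    simpa using Sep_sn hl (a := 2) (b := 3) (by norm_num) (by norm_num) (by norm_num)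
  have h27 : (some 2 : Option (ZMod l)) ≠ some 7 := by
    simpa using Sep_sn hl (a := 2) (b := 7) (by norm_num) (by norm_num) (by norm_num)
  have h37 : (some 3 : Option (ZMod l)) ≠ some 7 := by
    simpa using Sep_sn hl (a := 3) (b := 7) (by norm_num) (by norm_num) (by norm_num)
  obtain ⟨S1, hS1⟩ : ∃ S1 : Finset (Option (ZMod l)), S1 = {none, some 0} := ⟨_, rfl⟩
  obtain ⟨S2, hS2⟩ : ∃ S2 : Finset (Option (ZMod l)),
    S2 = {some 1, some 2, some 3, some 7} := ⟨_, rfl⟩
  have m1 : ∀ z, z ∈ S1 ↔ w1 s l z ≠ 0 := fun z => by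
    rw [Sep_v1 hs, hS1, Finset.mem_insert, Finset.mem_singleton]
  have m2 : ∀ z, z ∈ S2 ↔ w2 s l z ≠ 0 := fun z => by
    rw [Sep_v2 hs hl, hS2, Finset.mem_insert, Finset.mem_insert, Finset.mem_insert,
      Finset.mem_singleton]
  have c1 : S1.card = 2 := by
    rw [hS1]
    exact Finset.card_pair (by simp)
  have c2 : S2.card = 4 := by
    rw [hS2, Finset.card_insert_of_notMem, Finset.card_insert_of_notMem,
      Finset.card_insert_of_notMem, Finset.card_singleton]
    · rw [Finset.mem_singleton]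
      exact h37
    · rw [Finset.mem_insert, Finset.mem_singleton, not_or]
      exact ⟨h23, h27⟩
    · rw [Finset.mem_insert, Finset.mem_insert, Finset.mem_singleton, not_or, not_or]
      exact ⟨h12, h13, h17⟩
  have hdis : ∀ z, z ∈ S1 → z ∉ S2 := by
    intro z h1 h2
    rw [hS1, Finset.mem_insert, Finset.mem_singleton] at h1
    rw [hS2, Finset.mem_insert, Finset.mem_insert, Finset.mem_insert, Finset.mem_singleton] at h2
    rcases h1 with rfl | rfl
    · rcases h2 with h2 | h2 | h2 | h2 <;> cases h2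
    · rcases h2 with h2 | h2 | h2 | h2
      · exact h01 h2
      · exact h02 h2
      · exact h03 h2
      · exact h07 h2
  have z12 : ∀ z, z ∈ S1 → w2 s l z = 0 := fun z hz => by
    by_contra hne
    exact hdis z hz ((m2 z).2 hne)
  have z21 : ∀ z, z ∈ S2 → w1 s l z = 0 := fun z hz => by
    by_contra hne
    exact hdis z ((m1 z).2 hne) hz
  have hg : ∀ x, (act A)⁻¹ ((act A) x) = x := fun x => by
    rw [← Equiv.Perm.mul_apply, inv_mul_cancel, Equiv.Perm.one_apply]
  have hg' : ∀ x, (act A) ((act A)⁻¹ x) = x := fun x => by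
    rw [← Equiv.Perm.mul_apply, mul_inv_cancel, Equiv.Perm.one_apply]
  obtain ⟨α, β, hαβ⟩ := Sep_lin hs hl hV hinv A (w1 s l) (sum_w1 s l) (fun z hz => by
    rcases (Sep_v1 hs z).1 hz with h1 | h1 <;>
    · rw [h1]
      simp) fun v hv a b => (h v hv a b).1
  obtain ⟨γ, δ, hγδ⟩ := Sep_lin hs hl hV hinv A (w2 s l) (sum_w2 s l) (fun z hz => by
    rcases (Sep_v2 hs hl z).1 hz with h1 | h1 | h1 | h1 <;>
    · rw [h1]
      simp) fun v hv a b => (h v hv a b).2
  have i1 : (S1.image (act A)).card = 2 := by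
    rw [Finset.card_image_of_injective _ (act A).injective, c1]
  have i2 : (S2.image (act A)).card = 4 := by
    rw [Finset.card_image_of_injective _ (act A).injective, c2]
  have hβ : β = 0 := by
    by_contra hne
    have hsub : S2 ⊆ S1.image (act A) := by
      intro z hz
      have e := hαβ z
      rw [z21 z hz, mul_zero, zero_add] at e
      have e2 : w1 s l ((act A)⁻¹ z) ≠ 0 := by
        rw [e]
        exact mul_ne_zero hne ((m2 z).1 hz)
      exact Finset.mem_image.2 ⟨_, (m1 _).2 e2, hg' z⟩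
    have := Finset.card_le_card hsub
    omega
  have r1 : ∀ x ∈ S1, act A x ∈ S1 := by
    intro x hx
    have e := hαβ (act A x)
    rw [hg, hβ, zero_mul, add_zero] at e
    rw [m1]
    intro h0
    rw [h0, mul_zero] at e
    exact (m1 x).1 hx e
  have hγ : γ = 0 := by
    by_contra hne
    have hsub : S1 ⊆ S2.image (act A) := by
      intro z hz
      have e := hγδ z
      rw [z12 z hz, mul_zero, add_zero] at e
      have e2 : w2 s l ((act A)⁻¹ z) ≠ 0 := by
        rw [e]
        exact mul_ne_zero hne ((m1 z).1 hz)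
      exact Finset.mem_image.2 ⟨_, (m2 _).2 e2, hg' z⟩
    by_cases hδ : δ = 0
    · have hsub2 : S2.image (act A) ⊆ S1 := by
        intro z hz
        obtain ⟨x, hx, rfl⟩ := Finset.mem_image.1 hz
        have e := hγδ (act A x)
        rw [hg, hδ, zero_mul, add_zero] at e
        rw [m1]
        intro h0
        rw [h0, mul_zero] at e
        exact (m2 x).1 hx e
      have := Finset.card_le_card hsub2
      omega
    · have hsub2 : S2 ⊆ S2.image (act A) := by
        intro z hz
        have e := hγδ z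
        rw [z21 z hz, mul_zero, zero_add] at e
        have e2 : w2 s l ((act A)⁻¹ z) ≠ 0 := by
          rw [e]
          exact mul_ne_zero hδ ((m2 z).1 hz)
        exact Finset.mem_image.2 ⟨_, (m2 _).2 e2, hg' z⟩
      have hdj : Disjoint S1 S2 := Finset.disjoint_left.2 fun z hz => hdis z hz
      have h6 := Finset.card_le_card (Finset.union_subset hsub hsub2)
      rw [Finset.card_union_of_disjoint hdj] at h6
      omega
  have r2 : ∀ x ∈ S2, act A x ∈ S2 := by
    intro x hx
    have e := hγδ (act A x)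
    rw [hg, hγ, zero_mul, zero_add] at e
    rw [m2]
    intro h0
    rw [h0, mul_zero] at e
    exact (m2 x).1 hx e
  refine stab hl A ?_ ?_
  · intro x hx
    have h1 : x ∈ S1 := by
      rw [hS1]
      simpa using hx
    have h2 := r1 x h1
    rw [hS1] at h2
    simpa using h2
  · intro x hx
    have h1 : x ∈ S2 := by
      rw [hS2]
      simpa using hx
    have h2 := r2 x h1
    rw [hS2] at h2
    simpa using h2

end Pool.Agent.NBA
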