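import Pool.Agent.NBA.Ext
import Pool.Agent.NBA.PFac

set_option autoImplicit false

/-! NBA-Tor. First facts on `V = vX X`.
PLAN.  `vX_inv`: for `x ∈ X` with `x.g = act A` the conjugate `x⁻¹ * ⟨v, 1⟩ * x = ⟨v ∘ act A, 1⟩` (`PW.ext`, abelian).  `vX_red`: `⟨v, 1⟩ ∈ EE`: there is `A` with `act A = 1` and `red (v w) = cj χ A w`; by `act_one`
`jj A w = A 0 0 = ± 1`, and `χ 1 = χ (-1) = 1`.  `vX_sum`: `hX.sum`.
`tor`: `x ∈ X` with `x.g = act (dia g₀)`; `(x ^ n).f none = n • x.f none` by induction (`x.g` fixes `none`: `mob_dia_none`), `(x ^ h).g = act (dia (g₀ ^ h)) = 1` for `h = (l - 1) / 2`: `g₀ ^ h = ± 1`, as its square is `1` (`act_of_entries`).  `red (x.f none) = cj χ A none`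
with `act A = act (dia g₀)`: by `act_eq` `jj A none = ± g₀`, so `cj χ A none = toAdd (χ g₀)` (`χ (-1) = 1`). -/

namespace Pool.Agent.NBA

variable {s k l : ℕ} [Fact l.Prime] {χ : (ZMod l)ˣ →* Multiplicative (ZMod s)}
  {X : Subgroup (PW (ZMod (s ^ (k + 1))) (Option (ZMod l)))}

private theorem Tor_cj {A B : SL2 (ZMod l)} (hχ : χ (-1) = 1) (h : act A = act B)
    (w : Option (ZMod l)) : cj χ A w = cj χ B w := by
  obtain ⟨e, he, h1⟩ := act_eq h
  unfold cj
  rcases he with he | he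
  · have h2 : Units.mk0 (jj A w) (jj_ne A w) = Units.mk0 (jj B w) (jj_ne B w) := by
      apply Units.ext
      rw [Units.val_mk0, Units.val_mk0, h1 w, he, one_mul]
    rw [h2]
  · have h2 : Units.mk0 (jj A w) (jj_ne A w) = (-1) * Units.mk0 (jj B w) (jj_ne B w) := by
      apply Units.ext
      rw [Units.val_mul, Units.val_mk0, Units.val_mk0, h1 w, he, Units.val_neg, Units.val_one]
    rw [h2, map_mul, hχ, one_mul]

theorem vX_inv (hX : Xd s k l χ X) {v : Option (ZMod l) → ZMod (s ^ (k + 1))} (hv : v ∈ vX X)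
    (A : SL2 (ZMod l)) : v ∘ mob A ∈ vX X := by
  obtain ⟨x, hx, hg⟩ := hX.onto A
  have h1 : (⟨v, 1⟩ : PW (ZMod (s ^ (k + 1))) (Option (ZMod l))) ∈ X := hv
  have h2 := X.mul_mem (X.mul_mem (X.inv_mem hx) h1) hx
  have h3 : x⁻¹ * (⟨v, 1⟩ : PW (ZMod (s ^ (k + 1))) (Option (ZMod l))) * x =
      ⟨v ∘ mob A, 1⟩ := by
    refine PW.ext ?_ ?_
    · funext w
      rw [PW.mul_f, PW.mul_f, PW.inv_f]
      have h4 : x.g⁻¹ ((1 : Equiv.Perm (Option (ZMod l))) (x.g w)) = w := by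
        rw [Equiv.Perm.one_apply, ← Equiv.Perm.mul_apply, inv_mul_cancel, Equiv.Perm.one_apply]
      change -x.f (x.g⁻¹ ((1 : Equiv.Perm (Option (ZMod l))) (x.g w))) + v (x.g w) + x.f w =
        v (mob A w)
      rw [h4, hg, act_apply]
      abel
    · rw [PW.mul_g, PW.mul_g, PW.inv_g]
      change x.g⁻¹ * 1 * x.g = 1
      rw [mul_one, inv_mul_cancel]
  rw [h3] at h2
  exact h2

theorem vX_red (hX : Xd s k l χ X) (hχ : χ (-1) = 1)
    {v : Option (ZMod l) → ZMod (s ^ (k + 1))} (hv : v ∈ vX X) (w : Option (ZMod l)) :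
    red s k (v w) = 0 := by
  obtain ⟨A, hA, hA'⟩ := hX.le hv
  have h1 : act A = act 1 := by
    rw [map_one]
    exact hA.symm
  have h2 := hA' w
  rw [Tor_cj hχ h1 w, cj_one] at h2
  exact h2

theorem vX_sum (hX : Xd s k l χ X) {v : Option (ZMod l) → ZMod (s ^ (k + 1))}
    (hv : v ∈ vX X) : ∑ w, v w = 0 :=
  hX.sum _ hv

private theorem Tor_half (g₀ : (ZMod l)ˣ) :
    g₀ ^ ((l - 1) / 2) = 1 ∨ g₀ ^ ((l - 1) / 2) = -1 := by
  have hl : l.Prime := Fact.out
  rcases hl.eq_two_or_odd' with h | h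
  · left
    have h1 : (l - 1) / 2 = 0 := by
      rw [h]
    rw [h1, pow_zero]
  · have h1 : (g₀ ^ ((l - 1) / 2)) ^ 2 = 1 := by
      rw [← pow_mul]
      obtain ⟨m, hm⟩ := h
      have h2 : (l - 1) / 2 * 2 = l - 1 := by omega
      rw [h2]
      exact ZMod.units_pow_card_sub_one_eq_one l g₀
    have h3 : ((g₀ ^ ((l - 1) / 2) : (ZMod l)ˣ) : ZMod l) ^ 2 = 1 := by
      rw [← Units.val_pow_eq_pow_val, h1, Units.val_one]
    rcases sq_eq_one_iff.1 h3 with h4 | h4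
    · left
      exact Units.ext h4
    · right
      exact Units.ext h4

private theorem Tor_pow (x : PW (ZMod (s ^ (k + 1))) (Option (ZMod l)))
    (hx : x.g none = none) (n : ℕ) :
    (x ^ n).f none = n • x.f none ∧ (x ^ n).g = x.g ^ n := by
  induction n with
  | zero =>
    rw [pow_zero, pow_zero, zero_smul]
    exact ⟨rfl, rfl⟩
  | succ n ih =>
    have h1 : x ^ (n + 1) = x ^ n * x := pow_succ x n
    rw [h1, PW.mul_f, PW.mul_g, hx, ih.1, ih.2]
    exact ⟨(succ_nsmul (x.f none) n).symm, (pow_succ x.g n).symm⟩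

theorem tor (hX : Xd s k l χ X) (hχ : χ (-1) = 1) (g₀ : (ZMod l)ˣ) :
    ∃ v ∈ vX X, ∃ c : ZMod (s ^ (k + 1)), red s k c = (χ g₀).toAdd ∧
      v none = ((l - 1) / 2 : ℕ) • c := by
  obtain ⟨x, hx, hg⟩ := hX.onto (dia g₀)
  have hn : x.g none = none := by
    rw [hg, act_apply, mob_dia_none]
  have hp := Tor_pow x hn ((l - 1) / 2)
  have hpow : ∀ n : ℕ, (act (dia g₀) : Equiv.Perm (Option (ZMod l))) ^ n = act (dia (g₀ ^ n)) := by
    intro n
    induction n with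
    | zero => rw [pow_zero, pow_zero, dia_one, map_one]
    | succ n ih => rw [pow_succ, ih, pow_succ, dia_mul, map_mul]
  have h1 : (x ^ ((l - 1) / 2)).g = 1 := by
    rw [hp.2, hg, hpow]
    rcases Tor_half g₀ with h | h
    · rw [h, dia_one, map_one]
    · rw [h]
      apply act_of_entries
      · rfl
      · rfl
      · change (((-1 : (ZMod l)ˣ)⁻¹ : (ZMod l)ˣ) : ZMod l) = ((-1 : (ZMod l)ˣ) : ZMod l)
        rw [inv_neg, inv_one]
  refine ⟨(x ^ ((l - 1) / 2)).f, ?_, x.f none, ?_, hp.1⟩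
  · have h2 := X.pow_mem hx ((l - 1) / 2)
    have h3 : x ^ ((l - 1) / 2) = ⟨(x ^ ((l - 1) / 2)).f, 1⟩ := PW.ext rfl h1
    rw [h3] at h2
    exact h2
  · obtain ⟨A, hA, hA'⟩ := hX.le hx
    have h2 : act A = act (dia g₀) := by
      rw [← hA, hg]
    rw [hA' none, Tor_cj hχ h2 none]
    unfold cj
    have h3 : Units.mk0 (jj (dia g₀) none) (jj_ne (dia g₀) none) = g₀ := by
      apply Units.ext
      rw [Units.val_mk0, jj_dia_none]
    rw [h3]

end Pool.Agent.NBA
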