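import Pool.Agent.NBA.Ext

set_option autoImplicit false

/-! NBA-Dv. Division by `s ^ m` (of the multiples of `s ^ m`) is reduction mod `s` of the quotient,
hence additive; the pairing `pr` is additive in both arguments and invariant under permutations for
weights of sum zero. -/

namespace Pool.Agent.NBA

variable {s k m : ℕ}

theorem dv_smul (hs : s.Prime) (hm : m ≤ k) (c : ZMod (s ^ (k + 1))) :
    dv s k m ((s ^ m : ℕ) • c) = red s k c := by
  have hspos : 0 < s := hs.pos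
  have : NeZero (s ^ (k + 1)) := ⟨(pow_pos hspos _).ne'⟩
  have hsplit : s ^ (k + 1) = s ^ m * s ^ (k + 1 - m) := by
    rw [← pow_add]
    congr 1
    omega
  have hval : ((s ^ m : ℕ) • c).val = s ^ m * (c.val % s ^ (k + 1 - m)) := by
    have h1 : ((s ^ m : ℕ) • c) = ((s ^ m * c.val : ℕ) : ZMod (s ^ (k + 1))) := by
      rw [nsmul_eq_mul, Nat.cast_mul, ZMod.natCast_zmod_val]
    rw [h1, ZMod.val_natCast]
    generalize c.val = x
    rw [hsplit, Nat.mul_mod_mul_left]
  have hdvd : s ∣ s ^ (k + 1 - m) := dvd_pow_self s (by omega)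
  unfold dv red
  rw [hval, Nat.mul_div_cancel_left _ (pow_pos hspos m), ZMod.castHom_apply,
    ← ZMod.natCast_val]
  rw [ZMod.natCast_eq_natCast_iff]
  exact (Nat.mod_modEq _ _).of_dvd hdvd

private theorem Dv_add (hs : s.Prime) (hm : m ≤ k) {a b : ZMod (s ^ (k + 1))}
    (ha : ∃ c : ZMod (s ^ (k + 1)), a = (s ^ m : ℕ) • c)
    (hb : ∃ c : ZMod (s ^ (k + 1)), b = (s ^ m : ℕ) • c) :
    dv s k m (a + b) = dv s k m a + dv s k m b := by
  obtain ⟨c, rfl⟩ := ha
  obtain ⟨d, rfl⟩ := hb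
  rw [← nsmul_add, dv_smul hs hm, dv_smul hs hm, dv_smul hs hm, map_add]

variable {Om : Type} [Fintype Om] {V : AddSubgroup (Om → ZMod (s ^ (k + 1)))} {o : Om}

theorem pr_add (hs : s.Prime) (hV : Pair s k V m o) (w : Om → ZMod s)
    {v v' : Om → ZMod (s ^ (k + 1))} (h : v ∈ V) (h' : v' ∈ V) :
    pr m w o (v + v') = pr m w o v + pr m w o v' := by
  unfold pr
  rw [← Finset.sum_add_distrib]
  refine Finset.sum_congr rfl fun z _ => ?_
  have e : (v + v') z - (v + v') o = (v z - v o) + (v' z - v' o) := by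
    simp only [Pi.add_apply]
    abel
  rw [e, Dv_add hs hV.le (hV.dvd v h z o) (hV.dvd v' h' z o), mul_add]

theorem pr_w_add (w w' : Om → ZMod s) (v : Om → ZMod (s ^ (k + 1))) :
    pr m (w + w') o v = pr m w o v + pr m w' o v := by
  unfold pr
  rw [← Finset.sum_add_distrib]
  refine Finset.sum_congr rfl fun z _ => ?_
  rw [Pi.add_apply, add_mul]

theorem pr_w_smul (c : ZMod s) (w : Om → ZMod s) (v : Om → ZMod (s ^ (k + 1))) :
    pr m (c • w) o v = c * pr m w o v := by
  unfold pr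
  rw [Finset.mul_sum]
  refine Finset.sum_congr rfl fun z _ => ?_
  rw [Pi.smul_apply, smul_eq_mul, mul_assoc]

theorem pr_inv (hs : s.Prime) (hV : Pair s k V m o) {w : Om → ZMod s} (hw : ∑ z, w z = 0)
    {v : Om → ZMod (s ^ (k + 1))} (h : v ∈ V) (g : Equiv.Perm Om) :
    pr m w o (v ∘ g) = pr m (w ∘ ⇑g⁻¹) o v := by
  have h1 : pr m (w ∘ ⇑g⁻¹) o v = ∑ z, w z * dv s k m (v (g z) - v o) := by
    unfold pr
    rw [← Equiv.sum_comp g (fun z => (w ∘ ⇑g⁻¹) z * dv s k m (v z - v o))]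
    refine Finset.sum_congr rfl fun z _ => ?_
    rw [Function.comp_apply, ← Equiv.Perm.mul_apply, inv_mul_cancel, Equiv.Perm.one_apply]
  have h2 : ∀ z, dv s k m (v (g z) - v o) =
      dv s k m (v (g z) - v (g o)) + dv s k m (v (g o) - v o) := by
    intro z
    rw [← Dv_add hs hV.le (hV.dvd v h (g z) (g o)) (hV.dvd v h (g o) o)]
    congr 1
    abel
  have h3 : ∑ z, w z * dv s k m (v (g z) - v o) =
      ∑ z, (w z * dv s k m (v (g z) - v (g o)) + w z * dv s k m (v (g o) - v o)) :=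
    Finset.sum_congr rfl fun z _ => by rw [h2 z, mul_add]
  rw [h1, h3, Finset.sum_add_distrib, ← Finset.sum_mul, hw, zero_mul, add_zero]
  rfl

end Pool.Agent.NBA
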