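import Pool.Agent.NBA.Sum
import Pool.Agent.NBA.Dv

set_option autoImplicit false

/-! NBA-VOdd. The pairing for odd `s`.
PLAN.  `L = ZMod (s ^ (k + 1))`: every nonzero `c : L` is `s ^ j • unit` with `j ≤ k`, a unit is an element with `red ≠ 0`.  Let `m` be minimal such that some `v ∈ V`, `x` have `v x = s ^ m • c`, `red c ≠ 0` (exists by `hne`).  All values of elements of `V` are multiples of `s ^ m`
(every element is `s ^ j • unit` or `0`).  `dvd`: clear.  By `sum_tra` for this `v`, `x`: `s ^ m * c * (l + 1) * (δ_y - δ_z) ∈ V`; `c * (l + 1)` is a unit of `L` (`red` of it is nonzero: `red (l + 1) = (l : ZMod s) + 1 = 2 ≠ 0`), multiply by the inverse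
(a natural number multiple): `s ^ m • (δ_y - δ_z) ∈ V`.  Its pairing with `w` (`∑ w = 0`) is `w y - w z` (`dv_smul`, base point terms cancel because `∑ w = 0`, or treat the cases `o = y`, `o = z`). -/

namespace Pool.Agent.NBA

/-- every nonzero element is a power of `s` times a unit -/
private theorem VOdd_str {s k : ℕ} (hs : s.Prime) (c : ZMod (s ^ (k + 1))) (hc : c ≠ 0) :
    ∃ j, j ≤ k ∧ ∃ c' : ZMod (s ^ (k + 1)), c = (s ^ j : ℕ) • c' ∧ red s k c' ≠ 0 := by
  haveI : NeZero (s ^ (k + 1)) := ⟨pow_ne_zero _ hs.ne_zero⟩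
  have hv : c.val ≠ 0 := by
    intro h
    exact hc ((ZMod.val_eq_zero c).1 h)
  obtain ⟨j, m, hm, hjm⟩ := Nat.exists_eq_pow_mul_and_not_dvd hv s hs.ne_one
  have hm0 : 0 < m := by
    rcases Nat.eq_zero_or_pos m with h | h
    · exact absurd (h ▸ dvd_zero s) hm
    · exact h
  have hlt : s ^ j < s ^ (k + 1) := by
    calc s ^ j ≤ s ^ j * m := Nat.le_mul_of_pos_right _ hm0
      _ = c.val := hjm.symm
      _ < s ^ (k + 1) := ZMod.val_lt c
  have hj : j < k + 1 := (Nat.pow_lt_pow_iff_right hs.one_lt).1 hlt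
  refine ⟨j, Nat.lt_succ_iff.1 hj, (m : ZMod (s ^ (k + 1))), ?_, ?_⟩
  · rw [nsmul_eq_mul, ← Nat.cast_mul, ← hjm]
    exact (ZMod.natCast_zmod_val c).symm
  · rw [map_natCast]
    intro h
    exact hm ((ZMod.natCast_eq_zero_iff m s).1 h)

/-- an element with nonzero reduction has an inverse which is a natural number -/
private theorem VOdd_inv {s k : ℕ} (hs : s.Prime) (c : ZMod (s ^ (k + 1)))
    (hc : red s k c ≠ 0) : ∃ n : ℕ, (n : ZMod (s ^ (k + 1))) * c = 1 := by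
  haveI : NeZero (s ^ (k + 1)) := ⟨pow_ne_zero _ hs.ne_zero⟩
  have h1 : red s k c = (c.val : ZMod s) := by
    conv_lhs => rw [← ZMod.natCast_zmod_val c]
    rw [map_natCast]
  have h2 : ¬ s ∣ c.val := by
    intro h
    apply hc
    rw [h1]
    exact (ZMod.natCast_eq_zero_iff _ _).2 h
  have h3 : Nat.Coprime c.val (s ^ (k + 1)) :=
    (Nat.Coprime.pow_left (k + 1) ((Nat.Prime.coprime_iff_not_dvd hs).2 h2)).symm
  have h4 : c * c⁻¹ = 1 := by
    have h := ZMod.coe_mul_inv_eq_one c.val h3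
    rwa [ZMod.natCast_zmod_val c] at h
  refine ⟨(c⁻¹).val, ?_⟩
  rw [ZMod.natCast_zmod_val, mul_comm]
  exact h4

private theorem VOdd_red {s l k : ℕ} [Fact l.Prime] (hs : s.Prime) (hs2 : s ≠ 2)
    (hsl : s ∣ l - 1) : red s k ((l + 1 : ℕ) : ZMod (s ^ (k + 1))) ≠ 0 := by
  rw [map_natCast]
  intro h
  have h1 : s ∣ l + 1 := (ZMod.natCast_eq_zero_iff _ _).1 h
  have hl : 1 < l := (Fact.out : l.Prime).one_lt
  have h2 : s ∣ (l + 1) - (l - 1) := Nat.dvd_sub h1 hsl
  have h3 : (l + 1) - (l - 1) = 2 := by omega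
  rw [h3] at h2
  exact hs2 ((Nat.prime_dvd_prime_iff_eq hs Nat.prime_two).1 h2)

private theorem VOdd_single {s k : ℕ} {Om : Type} [DecidableEq Om] (y o : Om) :
    red s k ((Pi.single y 1 : Om → ZMod (s ^ (k + 1))) o) = (Pi.single y 1 : Om → ZMod s) o := by
  rcases eq_or_ne o y with h | h
  · rw [h, Pi.single_eq_same, Pi.single_eq_same, map_one]
  · rw [Pi.single_eq_of_ne h, Pi.single_eq_of_ne h, map_zero]

theorem vOdd {s k l : ℕ} [Fact l.Prime] (hs : s.Prime) (hs2 : s ≠ 2) (hsl : s ∣ l - 1)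
    {V : AddSubgroup (Option (ZMod l) → ZMod (s ^ (k + 1)))}
    (hinv : ∀ v ∈ V, ∀ A : SL2 (ZMod l), v ∘ mob A ∈ V) (hsum : ∀ v ∈ V, ∑ w, v w = 0)
    (hne : ∃ v ∈ V, ∃ x, v x ≠ 0) : ∃ m, Pair s k V m none := by
  classical
  haveI : Fact s.Prime := ⟨hs⟩
  have hex : ∃ j, j ≤ k ∧ ∃ v ∈ V, ∃ x, ∃ c : ZMod (s ^ (k + 1)), v x = (s ^ j : ℕ) • c ∧
      red s k c ≠ 0 := by
    obtain ⟨v, hv, x, hx⟩ := hne
    obtain ⟨j, hj, c, hc, hc'⟩ := VOdd_str hs (v x) hx
    exact ⟨j, hj, v, hv, x, c, hc, hc'⟩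
  obtain ⟨hmk, v, hv, x, c, hc, hc'⟩ := Nat.find_spec hex
  have hmin : ∀ j, j < Nat.find hex → ¬ (j ≤ k ∧ ∃ v ∈ V, ∃ x, ∃ c : ZMod (s ^ (k + 1)),
      v x = (s ^ j : ℕ) • c ∧ red s k c ≠ 0) := fun j hj => Nat.find_min hex hj
  generalize Nat.find hex = m at hmk hc hmin
  have hmul : ∀ u ∈ V, ∀ z, ∃ d : ZMod (s ^ (k + 1)), u z = (s ^ m : ℕ) • d := by
    intro u hu z
    rcases eq_or_ne (u z) 0 with h | h
    · exact ⟨0, by rw [h, smul_zero]⟩
    · obtain ⟨j, hj, d, hd, hd'⟩ := VOdd_str hs (u z) h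
      have hmj : m ≤ j := by
        by_contra hlt
        exact hmin j (not_le.1 hlt) ⟨hj, u, hu, z, d, hd, hd'⟩
      refine ⟨(s ^ (j - m) : ℕ) • d, ?_⟩
      rw [hd, smul_smul, ← pow_add]
      congr 2
      omega
  refine ⟨m, hmk, ?_, ?_⟩
  · intro u hu y z
    obtain ⟨a, ha⟩ := hmul u hu y
    obtain ⟨b, hb⟩ := hmul u hu z
    exact ⟨a - b, by rw [ha, hb, smul_sub]⟩
  · intro w hw hpr y z
    have hred : red s k (c * ((l + 1 : ℕ) : ZMod (s ^ (k + 1)))) ≠ 0 := by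
      rw [map_mul]
      exact mul_ne_zero hc' (VOdd_red hs hs2 hsl)
    obtain ⟨n, hn⟩ := VOdd_inv hs _ hred
    have hf := V.nsmul_mem (sum_tra hinv hsum hv x y z) n
    have hfe : (n • (fun o => v x * ((l + 1 : ℕ) : ZMod (s ^ (k + 1))) *
        ((Pi.single y 1 : Option (ZMod l) → ZMod (s ^ (k + 1))) o -
          (Pi.single z 1 : Option (ZMod l) → ZMod (s ^ (k + 1))) o))) =
        fun o => (s ^ m : ℕ) • ((Pi.single y 1 : Option (ZMod l) → ZMod (s ^ (k + 1))) o -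
          (Pi.single z 1 : Option (ZMod l) → ZMod (s ^ (k + 1))) o) := by
      funext o
      rw [Pi.smul_apply, hc, nsmul_eq_mul, nsmul_eq_mul, nsmul_eq_mul]
      have e : ∀ a b : ZMod (s ^ (k + 1)), (n : ZMod (s ^ (k + 1))) *
          (a * c * ((l + 1 : ℕ) : ZMod (s ^ (k + 1))) * b) =
          ((n : ZMod (s ^ (k + 1))) * (c * ((l + 1 : ℕ) : ZMod (s ^ (k + 1))))) * (a * b) := by
        intro a b
        ring
      rw [e, hn, one_mul]
    rw [hfe] at hf
    have hp := hpr _ hf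
    unfold pr at hp
    have hterm : ∀ o : Option (ZMod l), w o * dv s k m
        ((s ^ m : ℕ) • ((Pi.single y 1 : Option (ZMod l) → ZMod (s ^ (k + 1))) o -
          (Pi.single z 1 : Option (ZMod l) → ZMod (s ^ (k + 1))) o) -
        (s ^ m : ℕ) • ((Pi.single y 1 : Option (ZMod l) → ZMod (s ^ (k + 1))) none -
          (Pi.single z 1 : Option (ZMod l) → ZMod (s ^ (k + 1))) none)) =
        (w o * (Pi.single y 1 : Option (ZMod l) → ZMod s) o -
          w o * (Pi.single z 1 : Option (ZMod l) → ZMod s) o) -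
        w o * ((Pi.single y 1 : Option (ZMod l) → ZMod s) none -
          (Pi.single z 1 : Option (ZMod l) → ZMod s) none) := by
      intro o
      rw [← smul_sub, dv_smul hs hmk, map_sub, map_sub, map_sub, VOdd_single, VOdd_single,
        VOdd_single, VOdd_single]
      ring
    rw [Finset.sum_congr rfl (fun o _ => hterm o), Finset.sum_sub_distrib, ← Finset.sum_mul, hw,
      zero_mul, sub_zero, Finset.sum_sub_distrib] at hp
    have hs1 : ∀ t : Option (ZMod l), ∑ o, w o * (Pi.single t 1 : Option (ZMod l) → ZMod s) o =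
        w t := by
      intro t
      rw [Finset.sum_eq_single t]
      · rw [Pi.single_eq_same, mul_one]
      · intro b _ hb
        rw [Pi.single_eq_of_ne hb, mul_zero]
      · intro h
        exact absurd (Finset.mem_univ t) h
    rw [hs1, hs1] at hp
    exact sub_eq_zero.1 hp

end Pool.Agent.NBA
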