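import Pool.Agent.NBA.Ext
import Pool.Agent.NBA.PFac

set_option autoImplicit false

/-! NBA-Sub2. Invariant subspaces of `F₂ ^ (ℓ + 1)`, `ℓ ≡ 5 mod 8`. -/

namespace Pool.Agent.NBA

/-- extension by zero at the point at infinity -/
private def sub2E {l : ℕ} (g : ZMod l → ZMod 2) : Option (ZMod l) → ZMod 2
  | none => 0
  | some z => g z

private theorem sub2_ne {a b : ZMod 2} (h : a ≠ b) : a + b = 1 := by
  revert a b
  decide

private theorem sub2_sq (a : ZMod 2) : a * a = a := by
  revert a
  decide

private theorem sub2_two (a : ZMod 2) : a + a = 0 := by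
  revert a
  decide

variable {l : ℕ} [Fact l.Prime]

private theorem sub2_tr {V : AddSubgroup (Option (ZMod l) → ZMod 2)}
    (hinv : ∀ v ∈ V, ∀ A : SL2 (ZMod l), v ∘ mob A ∈ V) {g : ZMod l → ZMod 2}
    (hg : sub2E g ∈ V) (t : ZMod l) : sub2E (fun z => g (z + t)) ∈ V := by
  have h := hinv _ hg (tra t)
  have e : sub2E g ∘ mob (tra t) = sub2E (fun z => g (z + t)) := by
    funext w
    cases w with
    | none => simp only [Function.comp, mob_tra_none]; rfl
    | some z => simp only [Function.comp, mob_tra_some]; rfl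
  rwa [e] at h

private theorem sub2_di {V : AddSubgroup (Option (ZMod l) → ZMod 2)}
    (hinv : ∀ v ∈ V, ∀ A : SL2 (ZMod l), v ∘ mob A ∈ V) {g : ZMod l → ZMod 2}
    (hg : sub2E g ∈ V) (t : (ZMod l)ˣ) : sub2E (fun z => g ((t : ZMod l) ^ 2 * z)) ∈ V := by
  have h := hinv _ hg (dia t)
  have e : sub2E g ∘ mob (dia t) = sub2E (fun z => g ((t : ZMod l) ^ 2 * z)) := by
    funext w
    cases w with
    | none => simp only [Function.comp, mob_dia_none]; rfl
    | some z => simp only [Function.comp, mob_dia_some]; rfl
  rwa [e] at h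

omit [Fact l.Prime] in
private theorem sub2_smul {V : AddSubgroup (Option (ZMod l) → ZMod 2)}
    {v : Option (ZMod l) → ZMod 2} (hv : v ∈ V) (c : ZMod 2) :
    (fun w => c * v w) ∈ V := by
  have h : c = 0 ∨ c = 1 := by
    revert c
    decide
  rcases h with h | h
  · have e : (fun w => c * v w) = 0 := by
      funext w
      simp [h]
    rw [e]
    exact V.zero_mem
  · have e : (fun w => c * v w) = v := by
      funext w
      simp [h]
    rw [e]
    exact hv

private theorem sub2_half (h2 : (2 : ZMod l) ≠ 0) {V : AddSubgroup (Option (ZMod l) → ZMod 2)}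
    (hinv : ∀ v ∈ V, ∀ A : SL2 (ZMod l), v ∘ mob A ∈ V) {g : ZMod l → ZMod 2}
    (hg : sub2E g ∈ V) : sub2E (fun z => g (z / 2)) ∈ V := by
  classical
  have h : (∑ y : ZMod l, fun w => g y * sub2E (fun z => g (z + -y)) w) ∈ V :=
    AddSubgroup.sum_mem _ fun y _ => sub2_smul (sub2_tr hinv hg (-y)) (g y)
  have e : (∑ y : ZMod l, fun w => g y * sub2E (fun z => g (z + -y)) w) =
      sub2E (fun z => g (z / 2)) := by
    funext w
    rw [Finset.sum_apply]
    cases w with
    | none =>
      simp only [sub2E, mul_zero, Finset.sum_const_zero]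
    | some x =>
      simp only [sub2E]
      rw [← Finset.add_sum_erase Finset.univ (fun y => g y * g (x + -y)) (Finset.mem_univ (x / 2))]
      have h3 : x + -(x / 2) = x / 2 := by
        field_simp
        ring
      have h4 : ∑ y ∈ Finset.univ.erase (x / 2), g y * g (x + -y) = 0 := by
        refine Finset.sum_involution (fun y _ => x + -y) ?_ ?_ ?_ ?_
        · intro y _
          have h5 : x + -(x + -y) = y := by ring
          rw [h5, mul_comm (g (x + -y)) (g y)]
          exact sub2_two _
        · intro y hy _ h6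
          apply (Finset.mem_erase.1 hy).1
          rw [eq_div_iff h2]
          linear_combination -h6
        · intro y hy
          refine Finset.mem_erase.2 ⟨?_, Finset.mem_univ _⟩
          intro h6
          apply (Finset.mem_erase.1 hy).1
          have h7 : y = x - x / 2 := by linear_combination -h6
          rw [h7, eq_div_iff h2]
          field_simp
          ring
        · intro y _
          ring
      rw [h3, h4, add_zero]
      exact sub2_sq _
  rwa [e] at h

private theorem sub2_all (hl : l % 8 = 5) {V : AddSubgroup (Option (ZMod l) → ZMod 2)}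
    (hinv : ∀ v ∈ V, ∀ A : SL2 (ZMod l), v ∘ mob A ∈ V) {g : ZMod l → ZMod 2}
    (hg : sub2E g ∈ V) {t : ZMod l} (ht : t ≠ 0) : sub2E (fun z => g (t * z)) ∈ V := by
  have hp : l ≠ 2 := by
    rintro rfl
    omega
  have h2 : (2 : ZMod l) ≠ 0 := by
    intro h
    have h3 : ((2 : ℕ) : ZMod l) = 0 := by exact_mod_cast h
    rw [ZMod.natCast_eq_zero_iff] at h3
    have h4 := (Nat.prime_dvd_prime_iff_eq (Fact.out : l.Prime) Nat.prime_two).1 h3
    exact hp h4
  have hns : ¬ IsSquare (2 : ZMod l) := by
    rw [ZMod.exists_sq_eq_two_iff hp]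
    omega
  by_cases hs : IsSquare t
  · obtain ⟨r, hr⟩ := hs
    have hr0 : r ≠ 0 := by
      rintro rfl
      apply ht
      rw [hr, mul_zero]
    have h := sub2_di hinv hg (Units.mk0 r hr0)
    have e : (fun z => g (((Units.mk0 r hr0 : (ZMod l)ˣ) : ZMod l) ^ 2 * z)) =
        fun z => g (t * z) := by
      funext z
      rw [Units.val_mk0, hr, pow_two]
    rwa [e] at h
  · have hs2 : IsSquare (2 * t) := by
      have h5 : quadraticChar (ZMod l) (2 * t) = 1 := by
        rw [map_mul, quadraticChar_neg_one_iff_not_isSquare.2 hns,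
          quadraticChar_neg_one_iff_not_isSquare.2 hs]
        norm_num
      exact (quadraticChar_one_iff_isSquare (mul_ne_zero h2 ht)).1 h5
    obtain ⟨r, hr⟩ := hs2
    have hr0 : r ≠ 0 := by
      rintro rfl
      apply mul_ne_zero h2 ht
      rw [hr, mul_zero]
    have h := sub2_half h2 hinv (sub2_di hinv hg (Units.mk0 r hr0))
    have e : (fun z => g (((Units.mk0 r hr0 : (ZMod l)ˣ) : ZMod l) ^ 2 * (z / 2))) =
        fun z => g (t * z) := by
      funext z
      rw [Units.val_mk0, pow_two, ← hr]
      congr 1
      field_simp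
    rwa [e] at h

theorem sub2 {l : ℕ} [Fact l.Prime] (hl : l % 8 = 5)
    {V : AddSubgroup (Option (ZMod l) → ZMod 2)}
    (hinv : ∀ v ∈ V, ∀ A : SL2 (ZMod l), v ∘ mob A ∈ V) (hsum : ∀ v ∈ V, ∑ w, v w = 0)
    (hne : ∃ v ∈ V, ∃ x y, v x ≠ v y) {x y : Option (ZMod l)} (hxy : x ≠ y) :
    (Pi.single x 1 + Pi.single y 1 : Option (ZMod l) → ZMod 2) ∈ V := by
  classical
  obtain ⟨n, hn, a, b, hab⟩ := hne
  have hab' : a ≠ b := fun h => hab (by rw [h])
  have h01 : (some 0 : Option (ZMod l)) ≠ some 1 := by
    intro h
    exact zero_ne_one (Option.some.inj h)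
  obtain ⟨A, hA1, hA2⟩ := two_trans h01 hab'
  have hm := hinv n hn A
  set m := n ∘ mob A with hmdef
  have hm01 : m (some 0) ≠ m (some 1) := by
    simp only [hmdef, Function.comp, hA1, hA2]
    exact hab
  have hf := V.add_mem hm (hinv m hm (tra 1))
  set f := m + m ∘ mob (tra 1) with hfdef
  have hf0 : f none = 0 := by
    simp only [hfdef, Pi.add_apply, Function.comp, mob_tra_none]
    exact sub2_two _
  have hf1 : f (some 0) = 1 := by
    simp only [hfdef, Pi.add_apply, Function.comp, mob_tra_some, zero_add]
    exact sub2_ne hm01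
  have hfe : sub2E (fun z => f (some z)) = f := by
    funext w
    cases w with
    | none => rw [hf0]; rfl
    | some z => rfl
  have hg : sub2E (fun z => f (some z)) ∈ V := by rw [hfe]; exact hf
  have hs := hsum f hf
  rw [Fintype.sum_option, hf0, zero_add] at hs
  have hS : (∑ t ∈ Finset.univ.erase (0 : ZMod l),
      sub2E (fun z => f (some (t * z)))) ∈ V :=
    AddSubgroup.sum_mem _ fun t ht => sub2_all hl hinv hg (Finset.mem_erase.1 ht).1
  have hSe : (∑ t ∈ Finset.univ.erase (0 : ZMod l), sub2E (fun z => f (some (t * z)))) =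
      sub2E (fun z => if z = 0 then 0 else 1) := by
    funext w
    rw [Finset.sum_apply]
    cases w with
    | none => simp only [sub2E, Finset.sum_const_zero]
    | some z =>
      simp only [sub2E]
      by_cases hz : z = 0
      · rw [if_pos hz, hz]
        simp only [mul_zero, hf1]
        rw [Finset.sum_const, Finset.card_erase_of_mem (Finset.mem_univ _), Finset.card_univ,
          ZMod.card, nsmul_eq_mul, mul_one]
        rw [ZMod.natCast_eq_zero_iff]
        omega
      · rw [if_neg hz]
        have h1 : ∑ t : ZMod l, f (some (t * z)) = 0 := by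
          rw [← hs]
          exact Fintype.sum_equiv (Equiv.mulRight₀ z hz) _ _ (fun t => rfl)
        rw [← Finset.add_sum_erase Finset.univ (fun t => f (some (t * z)))
          (Finset.mem_univ (0 : ZMod l)), zero_mul, hf1] at h1
        have h2 : ∀ c : ZMod 2, 1 + c = 0 → c = 1 := by decide
        exact h2 _ h1
  rw [hSe] at hS
  have hT := V.add_mem hS (sub2_tr hinv hS 1)
  have hne2 : (some 0 : Option (ZMod l)) ≠ some (-1) := by
    intro h
    have h3 := Option.some.inj h
    exact one_ne_zero (neg_eq_zero.1 h3.symm)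
  have hTe : (sub2E (fun z : ZMod l => if z = 0 then (0 : ZMod 2) else 1) +
      sub2E (fun z : ZMod l => if z + 1 = 0 then (0 : ZMod 2) else 1)) =
      Pi.single (some 0) 1 + Pi.single (some (-1)) 1 := by
    funext w
    cases w with
    | none => simp [sub2E]
    | some z =>
      simp only [Pi.add_apply, sub2E]
      by_cases h3 : z = 0
      · have h4 : z + 1 ≠ 0 := by
          rw [h3, zero_add]
          exact one_ne_zero
        rw [if_pos h3, if_neg h4, h3, Pi.single_eq_same, Pi.single_eq_of_ne hne2, add_zero,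
          zero_add]
      · by_cases h4 : z + 1 = 0
        · have h5 : z = -1 := eq_neg_of_add_eq_zero_left h4
          rw [if_neg h3, if_pos h4, h5, Pi.single_eq_same, Pi.single_eq_of_ne hne2.symm, add_zero,
            zero_add]
        · have h5 : (some z : Option (ZMod l)) ≠ some 0 := fun h => h3 (Option.some.inj h)
          have h6 : (some z : Option (ZMod l)) ≠ some (-1) := fun h =>
            h4 (by rw [Option.some.inj h, neg_add_cancel])
          rw [if_neg h3, if_neg h4, Pi.single_eq_of_ne h5, Pi.single_eq_of_ne h6, add_zero]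
          exact sub2_two 1
  rw [hTe] at hT
  obtain ⟨B, hB1, hB2⟩ := two_trans hxy hne2
  have hF := hinv _ hT B
  have hinj : ∀ u v, mob B u = mob B v → u = v := by
    intro u v h
    have h7 : act B u = act B v := h
    exact (act B).injective h7
  have hFe : (Pi.single (some 0) 1 + Pi.single (some (-1)) 1 :
      Option (ZMod l) → ZMod 2) ∘ mob B = Pi.single x 1 + Pi.single y 1 := by
    funext w
    simp only [Function.comp, Pi.add_apply, Pi.single_apply]
    have h8 : (mob B w = some 0) ↔ w = x := by
      rw [← hB1]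
      exact ⟨hinj w x, fun h => by rw [h]⟩
    have h9 : (mob B w = some (-1)) ↔ w = y := by
      rw [← hB2]
      exact ⟨hinj w y, fun h => by rw [h]⟩
    simp only [h8, h9]
  rwa [hFe] at hF

end Pool.Agent.NBA
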