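import Pool.Agent.NBA.Sum
import Pool.Agent.NBA.Dv
import Pool.Agent.NBA.Sub2

set_option autoImplicit false

/-! NBA-VTwo. The pairing for `s = 2`.
Either some value of an element of `V` is odd (`m₀ = 0`) or all values are even and some value is `2` times an odd
number (`m₀ = 1`, the value `v none = h • c`, `h = (l - 1) / 2`).  All values of elements of `V` are multiples of `2 ^ m₀`; by `sum_tra` (`l + 1` is `2` times an odd number)
`2 ^ (m₀ + 1) • (δ_y - δ_z) ∈ V`.  The residues mod `2` of the functions `v / 2 ^ m₀` form an invariant subgroup `V'`.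
Case A: `V'` has a nonconstant element: by `sub2` all `δ_x + δ_y ∈ V'`, and `m = m₀` works.
Case B: all elements of `V'` are constant, and `m = m₀ + 1` works by the elements `2 ^ m • (δ_x - δ_y)`. -/

namespace Pool.Agent.NBA

private theorem vTwo_red0 {k : ℕ} {c : ZMod (2 ^ (k + 1))} (h : red 2 k c = 0) :
    ∃ c' : ZMod (2 ^ (k + 1)), c = (2 : ℕ) • c' := by
  have h1 : ((c.val : ℕ) : ZMod 2) = 0 := by
    have h2 : red 2 k c = ((c.val : ℕ) : ZMod 2) := by
      unfold red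
      rw [ZMod.castHom_apply, ZMod.cast_eq_val]
    rw [← h2, h]
  rw [ZMod.natCast_eq_zero_iff] at h1
  obtain ⟨t, ht⟩ := h1
  refine ⟨(t : ZMod (2 ^ (k + 1))), ?_⟩
  have h3 : c = ((c.val : ℕ) : ZMod (2 ^ (k + 1))) := (ZMod.natCast_zmod_val c).symm
  rw [h3, ht, nsmul_eq_mul]
  push_cast
  rfl

private theorem vTwo_inv {k : ℕ} {c : ZMod (2 ^ (k + 1))} (h : red 2 k c ≠ 0) :
    ∃ t : ℕ, (t : ZMod (2 ^ (k + 1))) * c = 1 := by
  have h1 : ((c.val : ℕ) : ZMod 2) ≠ 0 := by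
    have h2 : red 2 k c = ((c.val : ℕ) : ZMod 2) := by
      unfold red
      rw [ZMod.castHom_apply, ZMod.cast_eq_val]
    rw [← h2]
    exact h
  have h2 : ¬ 2 ∣ c.val := fun h3 => h1 ((ZMod.natCast_eq_zero_iff _ _).2 h3)
  have h3 : c.val.Coprime (2 ^ (k + 1)) :=
    Nat.Coprime.pow_right _ ((Nat.Prime.coprime_iff_not_dvd Nat.prime_two).2 h2).symm
  have h4 : IsUnit ((c.val : ℕ) : ZMod (2 ^ (k + 1))) := (ZMod.isUnit_iff_coprime _ _).2 h3
  rw [ZMod.natCast_zmod_val] at h4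
  obtain ⟨u, hu⟩ := h4
  refine ⟨((u⁻¹ : (ZMod (2 ^ (k + 1)))ˣ) : ZMod (2 ^ (k + 1))).val, ?_⟩
  rw [ZMod.natCast_zmod_val, ← hu, Units.inv_mul]

private theorem vTwo_pr {k m : ℕ} (hm : m ≤ k) {Om : Type} [Fintype Om] {o : Om} {w : Om → ZMod 2}
    (hw : ∑ z, w z = 0) {v c : Om → ZMod (2 ^ (k + 1))} (hv : ∀ z, v z = (2 ^ m : ℕ) • c z) :
    pr m w o v = ∑ z, w z * red 2 k (c z) := by
  unfold pr
  have h1 : ∀ z, w z * dv 2 k m (v z - v o) = w z * red 2 k (c z) - w z * red 2 k (c o) := by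
    intro z
    rw [hv z, hv o, ← smul_sub, dv_smul Nat.prime_two hm, map_sub, mul_sub]
  rw [Finset.sum_congr rfl fun z _ => h1 z, Finset.sum_sub_distrib, ← Finset.sum_mul, hw, zero_mul, sub_zero]

private theorem vTwo_main {k l m : ℕ} [Fact l.Prime] (hl : l % 8 = 5) (hm : m + 1 ≤ k)
    {V : AddSubgroup (Option (ZMod l) → ZMod (2 ^ (k + 1)))}
    (hinv : ∀ v ∈ V, ∀ A : SL2 (ZMod l), v ∘ mob A ∈ V) (hsum : ∀ v ∈ V, ∑ w, v w = 0)
    (H1 : ∀ v ∈ V, ∀ x, ∃ c : ZMod (2 ^ (k + 1)), v x = (2 ^ m : ℕ) • c)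
    (H2 : ∃ v ∈ V, ∃ x, ∃ c : ZMod (2 ^ (k + 1)), v x = (2 ^ m : ℕ) • c ∧ red 2 k c ≠ 0) :
    ∃ m, Pair 2 k V m none := by
  classical
  -- the differences of delta functions
  have hdel : ∀ y z : Option (ZMod l), (fun o => (2 ^ (m + 1) : ℕ) •
      ((Pi.single y 1 : Option (ZMod l) → ZMod (2 ^ (k + 1))) o - (Pi.single z 1 : Option (ZMod l) → ZMod (2 ^ (k + 1))) o)) ∈ V := by
    intro y z
    obtain ⟨v, hv, x, c, hc, hr⟩ := H2
    obtain ⟨j, hj, hj'⟩ : ∃ j : ℕ, l + 1 = 2 * j ∧ j % 2 = 1 := ⟨(l + 1) / 2, by omega, by omega⟩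
    have hr' : red 2 k (c * (j : ZMod (2 ^ (k + 1)))) ≠ 0 := by
      rw [map_mul, map_natCast]
      have h1 : ((j : ℕ) : ZMod 2) = 1 := by
        rw [← Nat.cast_one, ZMod.natCast_eq_natCast_iff]
        exact hj'
      rw [h1, mul_one]
      exact hr
    obtain ⟨t, ht⟩ := vTwo_inv hr'
    have h2 := V.nsmul_mem (sum_tra hinv hsum hv x y z) t
    have h3 : (t • fun o => v x * ((l + 1 : ℕ) : ZMod (2 ^ (k + 1))) *
        ((Pi.single y 1 : Option (ZMod l) → ZMod (2 ^ (k + 1))) o - (Pi.single z 1 : Option (ZMod l) → ZMod (2 ^ (k + 1))) o)) =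
        fun o => (2 ^ (m + 1) : ℕ) •
      ((Pi.single y 1 : Option (ZMod l) → ZMod (2 ^ (k + 1))) o - (Pi.single z 1 : Option (ZMod l) → ZMod (2 ^ (k + 1))) o) := by
      funext o
      rw [Pi.smul_apply, nsmul_eq_mul, nsmul_eq_mul, hc, hj, nsmul_eq_mul]
      push_cast
      linear_combination (2 ^ (m + 1) * ((Pi.single y 1 : Option (ZMod l) → ZMod (2 ^ (k + 1))) o -
        (Pi.single z 1 : Option (ZMod l) → ZMod (2 ^ (k + 1))) o)) * ht
    rw [h3] at h2
    exact h2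
  -- the residues
  let V' : AddSubgroup (Option (ZMod l) → ZMod 2) :=
    { carrier := {v' | ∃ v ∈ V, ∃ c : Option (ZMod l) → ZMod (2 ^ (k + 1)),
        (∀ w, v w = (2 ^ m : ℕ) • c w) ∧ ∀ w, v' w = red 2 k (c w)}
      zero_mem' := ⟨0, V.zero_mem, 0, fun w => by simp, fun w => by simp⟩
      add_mem' := by
        rintro a b ⟨v, hv, c, h1, h2⟩ ⟨v', hv', c', h1', h2'⟩
        refine ⟨v + v', V.add_mem hv hv', c + c', fun w => ?_, fun w => ?_⟩
        · rw [Pi.add_apply, Pi.add_apply, h1, h1', smul_add]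
        · rw [Pi.add_apply, Pi.add_apply, h2, h2', map_add]
      neg_mem' := by
        rintro a ⟨v, hv, c, h1, h2⟩
        refine ⟨-v, V.neg_mem hv, -c, fun w => ?_, fun w => ?_⟩
        · rw [Pi.neg_apply, Pi.neg_apply, h1, smul_neg]
        · rw [Pi.neg_apply, Pi.neg_apply, h2, map_neg] }
  have hinv' : ∀ v ∈ V', ∀ A : SL2 (ZMod l), v ∘ mob A ∈ V' := by
    rintro a ⟨v, hv, c, h1, h2⟩ A
    exact ⟨v ∘ mob A, hinv v hv A, c ∘ mob A, fun w => h1 _, fun w => h2 _⟩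
  have hsum' : ∀ v ∈ V', ∑ w, v w = 0 := by
    rintro a ⟨v, hv, c, h1, h2⟩
    rw [Finset.sum_congr rfl fun w _ => h2 w, ← map_sum, ← dv_smul Nat.prime_two (by omega : m ≤ k), Finset.smul_sum,
      ← Finset.sum_congr rfl fun w _ => h1 w, hsum v hv]
    simp [dv]
  by_cases hA : ∃ v ∈ V', ∃ x y, v x ≠ v y
  · refine ⟨m, by omega, fun v hv x y => ?_, fun w hw hpr x y => ?_⟩
    · obtain ⟨c, hc⟩ := H1 v hv x
      obtain ⟨c', hc'⟩ := H1 v hv y
      exact ⟨c - c', by rw [hc, hc', smul_sub]⟩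
    · by_cases hxy : x = y
      · rw [hxy]
      obtain ⟨v, hv, c, h1, h2⟩ := sub2 hl hinv' hsum' hA hxy
      have h3 := hpr v hv
      rw [vTwo_pr (by omega) hw h1] at h3
      have h4 : ∀ z, w z * red 2 k (c z) = w z * (Pi.single x 1 : Option (ZMod l) → ZMod 2) z +
          w z * (Pi.single y 1 : Option (ZMod l) → ZMod 2) z := by
        intro z
        rw [← h2 z, Pi.add_apply, mul_add]
      rw [Finset.sum_congr rfl fun z _ => h4 z, Finset.sum_add_distrib] at h3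
      have h5 : ∀ u : Option (ZMod l), ∑ z, w z * (Pi.single u 1 : Option (ZMod l) → ZMod 2) z = w u := by
        intro u
        rw [Finset.sum_eq_single u]
        · rw [Pi.single_eq_same, mul_one]
        · intro b _ hb
          rw [Pi.single_eq_of_ne hb, mul_zero]
        · intro hu
          exact absurd (Finset.mem_univ u) hu
      rw [h5, h5] at h3
      have h6 : ∀ a b : ZMod 2, a + b = 0 → a = b := by decide
      exact h6 _ _ h3
  · refine ⟨m + 1, hm, fun v hv x y => ?_, fun w hw hpr x y => ?_⟩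
    · choose c hc using H1 v hv
      have h1 : red 2 k (c x) = red 2 k (c y) := by
        by_contra h2
        exact hA ⟨fun w => red 2 k (c w), ⟨v, hv, c, hc, fun w => rfl⟩, x, y, h2⟩
      have h3 : red 2 k (c x - c y) = 0 := by rw [map_sub, h1, sub_self]
      obtain ⟨c', hc'⟩ := vTwo_red0 h3
      refine ⟨c', ?_⟩
      rw [hc x, hc y, ← smul_sub, hc', smul_smul, ← pow_succ]
    · have h3 := hpr _ (hdel x y)
      rw [vTwo_pr (c := fun o => (Pi.single x 1 : Option (ZMod l) → ZMod (2 ^ (k + 1))) o -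
        (Pi.single y 1 : Option (ZMod l) → ZMod (2 ^ (k + 1))) o) hm hw fun z => rfl] at h3
      have h5 : ∀ u : Option (ZMod l), ∑ z, w z * red 2 k ((Pi.single u 1 : Option (ZMod l) → ZMod (2 ^ (k + 1))) z) = w u := by
        intro u
        rw [Finset.sum_eq_single u]
        · rw [Pi.single_eq_same, map_one, mul_one]
        · intro b _ hb
          rw [Pi.single_eq_of_ne hb, map_zero, mul_zero]
        · intro hu
          exact absurd (Finset.mem_univ u) hu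
      have h6 : ∑ z, w z * red 2 k ((Pi.single x 1 : Option (ZMod l) → ZMod (2 ^ (k + 1))) z -
          (Pi.single y 1 : Option (ZMod l) → ZMod (2 ^ (k + 1))) z) = w x - w y := by
        rw [← h5 x, ← h5 y, ← Finset.sum_sub_distrib]
        refine Finset.sum_congr rfl fun z _ => ?_
        rw [map_sub, mul_sub]
      rw [h6] at h3
      exact sub_eq_zero.1 h3

theorem vTwo {k l : ℕ} [Fact l.Prime] (hl : l % 8 = 5) (hk : 2 ≤ k)
    {V : AddSubgroup (Option (ZMod l) → ZMod (2 ^ (k + 1)))}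
    (hinv : ∀ v ∈ V, ∀ A : SL2 (ZMod l), v ∘ mob A ∈ V) (hsum : ∀ v ∈ V, ∑ w, v w = 0)
    (hne : ∃ v ∈ V, ∃ c : ZMod (2 ^ (k + 1)), red 2 k c ≠ 0 ∧
      v none = ((l - 1) / 2 : ℕ) • c) : ∃ m, Pair 2 k V m none := by
  by_cases h0 : ∃ v ∈ V, ∃ x, red 2 k (v x) ≠ 0
  · obtain ⟨v, hv, x, hx⟩ := h0
    refine vTwo_main (m := 0) hl (by omega) hinv hsum (fun v _ x => ⟨v x, by rw [pow_zero, one_smul]⟩)
      ⟨v, hv, x, v x, by rw [pow_zero, one_smul], hx⟩
  · push Not at h0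
    refine vTwo_main (m := 1) hl (by omega) hinv hsum (fun v hv x => ?_) ?_
    · obtain ⟨c, hc⟩ := vTwo_red0 (h0 v hv x)
      exact ⟨c, by rw [pow_one]; exact hc⟩
    · obtain ⟨v, hv, c, hc, hvc⟩ := hne
      obtain ⟨j, hj, hj'⟩ : ∃ j : ℕ, (l - 1) / 2 = 2 * j ∧ j % 2 = 1 := ⟨(l - 1) / 2 / 2, by omega, by omega⟩
      refine ⟨v, hv, none, (j : ZMod (2 ^ (k + 1))) * c, ?_, ?_⟩
      · rw [hvc, hj, nsmul_eq_mul, nsmul_eq_mul]
        push_cast
        ring
      · rw [map_mul, map_natCast]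
        have h1 : ((j : ℕ) : ZMod 2) = 1 := by
          rw [← Nat.cast_one, ZMod.natCast_eq_natCast_iff]
          exact hj'
        rw [h1, one_mul]
        exact hc

end Pool.Agent.NBA
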