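import Pool.Agent.NBA.ExX
import Pool.Agent.NBA.Tor
import Pool.Agent.NBA.VOdd
import Pool.Agent.NBA.VTwo
import Pool.Agent.NBA.Sep
import Pool.Agent.NBA.NorX
import Pool.Agent.NBA.Elt

set_option autoImplicit false

/-! NBA-Base. First-level data for one prime `ℓ`: the group `X` of `exX` over `PSL₂(ℓ)`, with the
pairing of `vOdd`, `vTwo`. -/

namespace Pool.Agent.NBA

open Helper76.IG

private theorem Base_emb {Q : Type} [Group Q] {n : ℕ} (y : Q) (h : orderOf y = n) :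
    Embeds (Multiplicative (ZMod n)) Q := by
  have h1 : Nat.card (Subgroup.zpowers y) = n := by rw [Nat.card_zpowers, h]
  subst h1
  let e := zmodCyclicMulEquiv (G := Subgroup.zpowers y) inferInstance
  exact ⟨(Subgroup.zpowers y).subtype.comp e.toMonoidHom,
    Subtype.val_injective.comp e.injective⟩

private theorem Base_neg {s l : ℕ} [Fact l.Prime] (hs : s.Prime) (h2 : s = 2 → l % 4 ≠ 3)
    (χ : (ZMod l)ˣ →* Multiplicative (ZMod s)) : χ (-1) = 1 := by
  have hpow : ∀ y : Multiplicative (ZMod s), y ^ s = 1 := by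
    intro y
    apply Multiplicative.toAdd.injective
    rw [toAdd_pow, toAdd_one, nsmul_eq_mul, CharP.cast_eq_zero, zero_mul]
  have hex : ∃ y : (ZMod l)ˣ, y ^ s = -1 := by
    by_cases h : s = 2
    · subst h
      obtain ⟨r, hr⟩ := ZMod.exists_sq_eq_neg_one_iff.2 (h2 rfl)
      have hr0 : r ≠ 0 := by
        rintro rfl
        simp at hr
      refine ⟨Units.mk0 r hr0, ?_⟩
      apply Units.ext
      rw [Units.val_pow_eq_pow_val, Units.val_mk0, Units.val_neg, Units.val_one, hr, pow_two]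
    · exact ⟨-1, (hs.odd_of_ne_two h).neg_one_pow⟩
  obtain ⟨y, hy⟩ := hex
  rw [← hy, map_pow, hpow]

private theorem Base_chi {s l : ℕ} [Fact l.Prime] (hsl : s ∣ l - 1) :
    ∃ (χ : (ZMod l)ˣ →* Multiplicative (ZMod s)) (g₀ : (ZMod l)ˣ), (χ g₀).toAdd = 1 := by
  have hd : s ∣ Nat.card (ZMod l)ˣ := by
    rw [Nat.card_eq_fintype_card, ZMod.card_units]
    exact hsl
  let e := zmodCyclicMulEquiv (G := (ZMod l)ˣ) inferInstance
  let f : Multiplicative (ZMod (Nat.card (ZMod l)ˣ)) →* Multiplicative (ZMod s) :=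
    AddMonoidHom.toMultiplicative (ZMod.castHom hd (ZMod s)).toAddMonoidHom
  refine ⟨f.comp e.symm.toMonoidHom, e (Multiplicative.ofAdd 1), ?_⟩
  have h1 : (f.comp e.symm.toMonoidHom) (e (Multiplicative.ofAdd 1)) =
      f (Multiplicative.ofAdd 1) := congrArg f (e.symm_apply_apply _)
  rw [h1]
  exact map_one (ZMod.castHom hd (ZMod s))

private theorem Base_ne {s k h : ℕ} (hs : s.Prime) {c : ZMod (s ^ (k + 1))}
    (hc : red s k c ≠ 0) (h0 : 0 < h) (h1 : h < s ^ (k + 1)) : (h : ℕ) • c ≠ 0 := by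
  have : NeZero s := ⟨hs.ne_zero⟩
  intro hh
  rw [nsmul_eq_mul] at hh
  have hv : ((c.val : ℕ) : ZMod (s ^ (k + 1))) = c := ZMod.natCast_zmod_val c
  have hco : Nat.Coprime (s ^ (k + 1)) c.val := by
    apply Nat.Coprime.pow_left
    rw [hs.coprime_iff_not_dvd]
    intro hd
    apply hc
    rw [← hv, map_natCast]
    exact (ZMod.natCast_eq_zero_iff _ _).2 hd
  rw [← hv, ← Nat.cast_mul, ZMod.natCast_eq_zero_iff] at hh
  exact absurd (Nat.le_of_dvd h0 (hco.dvd_of_dvd_mul_right hh)) (not_le.2 h1)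

private theorem Base_main {p q s l N : ℕ} [Fact l.Prime] (hp : p.Prime) (hq : q.Prime)
    (hs : s.Prime) (hpq : 2 * (p + q) < p * q) (hsq : s ≠ q) (hl : 22154 < l) (hN : 0 < N)
    (hNl : N < l) (hpl : p ∣ l - 1) (hql : q ∣ l + 1) (h2 : s = 2 → l % 8 = 5)
    (hodd : s ≠ 2 → s ^ 2 ∣ l - 1) {A : Type} [Group A] (hA : Embeds A (PSL (ZMod l))) :
    HasDat p q s N A := by
  classical
  have hlp : l.Prime := Fact.out
  have : NeZero s := ⟨hs.ne_zero⟩
  have hp2 : p ≠ 2 := by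
    rintro rfl
    omega
  have hsl : s ∣ l - 1 := by
    by_cases h : s = 2
    · have h8 := h2 h
      subst h
      omega
    · exact (dvd_pow_self s two_ne_zero).trans (hodd h)
  obtain ⟨χ, g₀, hg₀⟩ := Base_chi (l := l) hsl
  have hχ : χ (-1) = 1 := Base_neg hs (fun h => by
    have h8 := h2 h
    omega) χ
  obtain ⟨X, a, b, hX, hab, ha, hb, ha1, hb1⟩ :=
    exX (k := l) hp hq hs hpq hsq hpl hql (fun h => by
      subst h
      exact hodd hp2) χ
  obtain ⟨v₀, hv₀, c, hc, hvc⟩ := tor hX hχ g₀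
  have : Fact s.Prime := ⟨hs⟩
  have hc0 : red s l c ≠ 0 := by
    rw [hc, hg₀]
    exact one_ne_zero
  have hinv : ∀ v ∈ vX X, ∀ A : SL2 (ZMod l), v ∘ mob A ∈ vX X :=
    fun v hv A => vX_inv hX hv A
  have hsum : ∀ v ∈ vX X, ∑ w, v w = 0 := fun v hv => vX_sum hX hv
  obtain ⟨m, hP⟩ : ∃ m, Pair s l (vX X) m none := by
    by_cases h : s = 2
    · have h8 := h2 h
      subst h
      exact vTwo h8 (by omega) hinv hsum ⟨v₀, hv₀, c, hc0, hvc⟩
    · refine vOdd hs h hsl hinv hsum ⟨v₀, hv₀, none, ?_⟩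
      rw [hvc]
      refine Base_ne hs hc0 (by omega) ?_
      have h5 : l + 1 < s ^ (l + 1) := Nat.lt_pow_self hs.one_lt
      omega
  obtain ⟨u, hu, hnc⟩ := norX (p := p) (q := q) hp hq hs hsq (fun h => by
    rw [h]
    exact hp2) hsl hχ hX ha hb hab
  have hgA : ∀ x : X, ∃ B : SL2 (ZMod l),
      (x : PW (ZMod (s ^ (l + 1))) (Option (ZMod l))).g = act B := by
    intro x
    obtain ⟨B, hB, -⟩ := hX.le x.2
    exact ⟨B, hB⟩
  let π : X →* PSL (ZMod l) := (PW.pg.comp X.subtype).codRestrict (PSL (ZMod l)) (by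
    intro x
    obtain ⟨B, hB⟩ := hgA x
    exact ⟨B, hB.symm⟩)
  have hπ : ∀ x : X, ((π x : PSL (ZMod l)) : Equiv.Perm (Option (ZMod l))) = x.1.g :=
    fun x => rfl
  have hker : ∀ x : X, x ∈ π.ker ↔ x.1.g = 1 := by
    intro x
    rw [MonoidHom.mem_ker, Subtype.ext_iff, hπ]
    rfl
  have hkV : ∀ x : π.ker, x.1.1.f ∈ vX X := by
    intro x
    have h1 : x.1.1.g = 1 := (hker x.1).1 x.2
    rw [mem_vX]
    have h2 : (⟨x.1.1.f, 1⟩ : PW (ZMod (s ^ (l + 1))) (Option (ZMod l))) = x.1.1 :=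
      PW.ext rfl h1.symm
    rw [h2]
    exact x.1.2
  have hkm : ∀ x y : π.ker, (x * y).1.1.f = x.1.1.f + y.1.1.f := by
    intro x y
    have h1 : y.1.1.g = 1 := (hker y.1).1 y.2
    funext w
    change x.1.1.f (y.1.1.g w) + y.1.1.f w = x.1.1.f w + y.1.1.f w
    rw [h1]
    rfl
  let kx : (v : Option (ZMod l) → ZMod (s ^ (l + 1))) → v ∈ vX X → π.ker :=
    fun v hv => ⟨⟨⟨v, 1⟩, hv⟩, (hker _).2 rfl⟩
  let ψ : π.ker →* Multiplicative (Option (ZMod l) → ZMod (s ^ (l + 1))) :=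
    MonoidHom.mk' (fun x => Multiplicative.ofAdd x.1.1.f) (by
      intro x y
      rw [hkm, ofAdd_add])
  have hψ : Function.Injective ψ := by
    intro x y h
    have h1 : x.1.1.f = y.1.1.f := Multiplicative.ofAdd.injective h
    have hx : x.1.1.g = 1 := (hker x.1).1 x.2
    have hy : y.1.1.g = 1 := (hker y.1).1 y.2
    exact Subtype.ext (Subtype.ext (PW.ext h1 (hx.trans hy.symm)))
  have hpg : IsPGroup s π.ker := by
    intro x
    refine ⟨l + 1, hψ ?_⟩
    rw [map_pow, map_one]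
    apply Multiplicative.toAdd.injective
    rw [toAdd_pow, toAdd_one]
    funext w
    rw [Pi.smul_apply, nsmul_eq_mul, CharP.cast_eq_zero, zero_mul]
    rfl
  let μ : π.ker →* M2 s :=
    MonoidHom.mk' (fun x => Multiplicative.ofAdd
      (pr m (w1 s l) none x.1.1.f, pr m (w2 s l) none x.1.1.f)) (by
      intro x y
      rw [hkm, pr_add hs hP _ (hkV x) (hkV y), pr_add hs hP _ (hkV x) (hkV y), ← ofAdd_add]
      rfl)
  have hμ : ∀ x : π.ker, μ x = Multiplicative.ofAdd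
      (pr m (w1 s l) none x.1.1.f, pr m (w2 s l) none x.1.1.f) := fun x => rfl
  have hμ1 : ∀ x : π.ker, μ x = 1 ↔
      pr m (w1 s l) none x.1.1.f = 0 ∧ pr m (w2 s l) none x.1.1.f = 0 := by
    intro x
    rw [hμ, ofAdd_eq_one, Prod.mk_eq_zero]
  refine ⟨X, PSL (ZMod l), inferInstance, inferInstance, inferInstance, inferInstance, π, μ,
    a, b, u, ⟨hab, ha, hb, ?_, ?_, ?_, hpg, ?_, ?_, hnc⟩, ?_, hA⟩
  · intro h
    exact ha1 ((hker a).1 h)
  · intro h
    exact hb1 ((hker b).1 h)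
  · rintro ⟨_, B, rfl⟩
    obtain ⟨x, hx, hxB⟩ := hX.onto B
    exact ⟨⟨x, hx⟩, Subtype.ext hxB⟩
  · intro y
    obtain ⟨v, hv, h1, h2⟩ := mu_surj hs hl hP y.toAdd.1 y.toAdd.2
    refine ⟨kx v hv, ?_⟩
    rw [hμ]
    change Multiplicative.ofAdd (pr m (w1 s l) none v, pr m (w2 s l) none v) = y
    rw [h1, h2]
    rfl
  · intro g hg
    obtain ⟨B, hB⟩ := hgA g
    have h1 : act B = 1 := by
      refine sep hs hl hP hinv B ?_
      intro v hv hv1 hv2
      have hv' : v ∘ mob B ∈ vX X := hinv v hv B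
      have h3 := hg (kx v hv) (kx (v ∘ mob B) hv') ?_ ((hμ1 (kx v hv)).2 ⟨hv1, hv2⟩)
      · exact (hμ1 (kx (v ∘ mob B) hv')).1 h3
      · apply Subtype.ext
        refine PW.ext ?_ ?_
        · funext w
          change v (mob B w) = -g.1.f (g.1.g⁻¹ (g.1.g w)) + v (g.1.g w) + g.1.f w
          rw [show g.1.g⁻¹ (g.1.g w) = w from g.1.g.symm_apply_apply w, hB]
          change v (mob B w) = -g.1.f w + v (mob B w) + g.1.f w
          abel
        · change (1 : Equiv.Perm (Option (ZMod l))) = g.1.g⁻¹ * 1 * g.1.g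
          rw [mul_one, inv_mul_cancel]
    rw [Subtype.ext_iff, hπ, hB, h1]
    rfl
  · rw [hu]
    exact (Nat.Prime.coprime_iff_not_dvd hlp).2 fun h => absurd (Nat.le_of_dvd hN h) (not_le.2 hNl)

theorem base {p q s l t e N : ℕ} [Fact l.Prime] (hp : p.Prime) (hq : q.Prime) (hs : s.Prime)
    (ht : t.Prime) (hpq : 2 * (p + q) < p * q) (hsq : s ≠ q) (hl : 22154 < l) (hN : 0 < N)
    (hNl : N < l) (hpl : p ∣ l - 1) (hql : q ∣ l + 1) (h2 : s = 2 → l % 8 = 5)
    (hodd : s ≠ 2 → s ^ 2 ∣ l - 1)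
    (hte : 2 * t ^ e ∣ l - 1 ∨ (Odd t ∧ t ^ e ∣ l + 1)) :
    HasDat p q s N (Multiplicative (ZMod (t ^ e))) := by
  have hel : ∃ B : SL2 (ZMod l), orderOf (act B) = t ^ e := by
    rcases hte with h | ⟨h1, h⟩
    · obtain ⟨x, hx⟩ := split h
      exact ⟨dia x, hx⟩
    · exact nonsplit h1.pow h
  obtain ⟨B, hB⟩ := hel
  refine Base_main hp hq hs hpq hsq hl hN hNl hpl hql h2 hodd
    (Base_emb (⟨act B, B, rfl⟩ : PSL (ZMod l)) ?_)
  rw [← hB]
  exact Subgroup.orderOf_mk _ _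

end Pool.Agent.NBA
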