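import Pool.Agent.NBA.Defs

set_option autoImplicit false

/-! NBA-Cnt. Counting fixed points (replaces the classification of the finite subgroups of `PGL₂`).
The pairs (nontrivial group element, fixed point) are counted by the elements and by the orbits. -/

namespace Pool.Agent.NBA

open Classical in
/-- the number of the nontrivial elements which fix `w` -/
private noncomputable def cnt_c (X : Type) {Om : Type} [Group X] [Fintype X] [MulAction X Om] (w : Om) : ℕ :=
  (Finset.univ.filter fun x : X => x ≠ 1 ∧ x • w = w).card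

private theorem cnt_stab {X Om : Type} [Group X] [Fintype X] [MulAction X Om] (w : Om) :
    Nat.card (MulAction.stabilizer X w) = cnt_c X w + 1 := by
  classical
  rw [Nat.card_eq_fintype_card, Fintype.card_subtype]
  have h : (Finset.univ.filter fun x : X => x ∈ MulAction.stabilizer X w) =
      insert 1 (Finset.univ.filter fun x : X => x ≠ 1 ∧ x • w = w) := by
    ext x
    simp only [Finset.mem_filter, Finset.mem_univ, true_and, Finset.mem_insert,
      MulAction.mem_stabilizer_iff]
    constructor
    · intro hx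
      by_cases h1 : x = 1
      · exact Or.inl h1
      · exact Or.inr ⟨h1, hx⟩
    · rintro (h1 | h1)
      · rw [h1, one_smul]
      · exact h1.2
  rw [h, Finset.card_insert_of_notMem]
  · rfl
  · simp

/-- orbits and stabilisers -/
private theorem cnt_os {X Om : Type} [Group X] [Fintype X] [MulAction X Om] (w : Om)
    (O : Finset Om) (hO : (O : Set Om) = MulAction.orbit X w) :
    O.card * Nat.card (MulAction.stabilizer X w) = Nat.card X := by
  classical
  have : Fintype (MulAction.orbit X w) := (Set.finite_range _).fintype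
  have h1 := MulAction.card_orbit_mul_card_stabilizer_eq_card_group X w
  rw [← Nat.card_eq_fintype_card, ← Nat.card_eq_fintype_card, ← Nat.card_eq_fintype_card] at h1
  rw [← h1, Nat.card_coe_set_eq, ← hO, Set.ncard_coe_finset]

/-- the sum over an orbit -/
private theorem cnt_orb {X Om : Type} [Group X] [Fintype X] [MulAction X Om] (w : Om)
    (O : Finset Om) (hO : (O : Set Om) = MulAction.orbit X w) :
    ∑ v ∈ O, cnt_c X v + O.card = Nat.card X := by
  classical
  have hw : w ∈ O := by
    have h1 : w ∈ (O : Set Om) := by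
      rw [hO]
      exact MulAction.mem_orbit_self w
    exact h1
  have hpos : 0 < O.card := Finset.card_pos.2 ⟨w, hw⟩
  have hcard : ∀ v ∈ O, O.card * (cnt_c X v + 1) = Nat.card X := by
    intro v hv
    have hv1 : v ∈ MulAction.orbit X w := by
      rw [← hO]
      exact hv
    have hv2 : MulAction.orbit X v = MulAction.orbit X w := MulAction.orbit_eq_iff.2 hv1
    rw [← cnt_stab v]
    exact cnt_os v O (by rw [hO, hv2])
  have h2 : O.card * (∑ v ∈ O, (cnt_c X v + 1)) = O.card * Nat.card X := by
    rw [Finset.mul_sum, Finset.sum_congr rfl hcard, Finset.sum_const, smul_eq_mul]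
  have h3 := Nat.eq_of_mul_eq_mul_left hpos h2
  rw [Finset.sum_add_distrib] at h3
  simpa using h3

/-- the sum over everything -/
private theorem cnt_all {X Om : Type} [Group X] [Fintype X] [MulAction X Om]
    (hfix : ∀ x : X, x ≠ 1 → {w : Om | x • w = w}.ncard = 2) (U : Finset Om)
    (hU : ∀ x : X, x ≠ 1 → ∀ w : Om, x • w = w → w ∈ U) :
    ∑ w ∈ U, cnt_c X w + 2 = 2 * Nat.card X := by
  classical
  have h1 : ∑ w ∈ U, cnt_c X w = ∑ x ∈ Finset.univ.erase (1 : X), 2 := by
    have h2 : ∀ w : Om, cnt_c X w = ∑ x ∈ Finset.univ.erase (1 : X), if x • w = w then 1 else 0 := by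
      intro w
      rw [cnt_c, Finset.card_filter]
      rw [← Finset.sum_subset (Finset.erase_subset (1 : X) Finset.univ)]
      · refine Finset.sum_congr rfl fun x hx => ?_
        have hx1 : x ≠ 1 := Finset.ne_of_mem_erase hx
        simp [hx1]
      · intro x _ hx
        have hx1 : x = 1 := by
          by_contra h
          exact hx (Finset.mem_erase.2 ⟨h, Finset.mem_univ x⟩)
        simp [hx1]
    rw [Finset.sum_congr rfl fun w _ => h2 w, Finset.sum_comm]
    refine Finset.sum_congr rfl fun x hx => ?_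
    have hx1 : x ≠ 1 := Finset.ne_of_mem_erase hx
    rw [← Finset.card_filter, ← Set.ncard_coe_finset]
    rw [← hfix x hx1]
    congr 1
    ext w
    simp only [Finset.coe_filter, Set.mem_ofPred_eq]
    exact ⟨fun h => h.2, fun h => ⟨hU x hx1 w h, h⟩⟩
  rw [h1, Finset.sum_const, smul_eq_mul, Finset.card_erase_of_mem (Finset.mem_univ _),
    Finset.card_univ, Nat.card_eq_fintype_card]
  have h3 : 0 < Fintype.card X := Fintype.card_pos
  omega

theorem cnt {X Om : Type} [Group X] [Finite X] [MulAction X Om] {p q : ℕ}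
    (hpq : 2 * (p + q) < p * q) (hfix : ∀ x : X, x ≠ 1 → {w : Om | x • w = w}.ncard = 2)
    (w₁ w₂ : Om) (h12 : w₂ ∉ MulAction.orbit X w₁)
    (h₁ : p ≤ Nat.card (MulAction.stabilizer X w₁))
    (h₂ : q ≤ Nat.card (MulAction.stabilizer X w₂)) (g : X) : g • w₁ = w₁ := by
  classical
  have := Fintype.ofFinite X
  have hfin : ∀ w : Om, (MulAction.orbit X w).Finite := fun w => Set.finite_range _
  have hdis : ∀ v w : Om, w ∉ MulAction.orbit X v → Disjoint (hfin v).toFinset (hfin w).toFinset := by
    intro v w hvw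
    rw [Finset.disjoint_left]
    intro u hu hu'
    rw [Set.Finite.mem_toFinset] at hu hu'
    apply hvw
    rw [← MulAction.orbit_eq_iff.2 hu, MulAction.orbit_eq_iff.2 hu']
    exact MulAction.mem_orbit_self w
  have horb : ∀ w : Om, ∑ v ∈ (hfin w).toFinset, cnt_c X v + (hfin w).toFinset.card = Nat.card X :=
    fun w => cnt_orb w _ (Set.Finite.coe_toFinset _)
  have hmul : ∀ w : Om, (hfin w).toFinset.card * Nat.card (MulAction.stabilizer X w) =
      Nat.card X := by
    intro w
    exact cnt_os w _ (Set.Finite.coe_toFinset _)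
  have hpos : ∀ w : Om, 0 < (hfin w).toFinset.card := by
    intro w
    refine Finset.card_pos.2 ⟨w, ?_⟩
    rw [Set.Finite.mem_toFinset]
    exact MulAction.mem_orbit_self w
  set O₁ := (hfin w₁).toFinset with hO₁
  set O₂ := (hfin w₂).toFinset with hO₂
  have d12 : Disjoint O₁ O₂ := hdis w₁ w₂ h12
  have e1 := horb w₁
  have e2 := horb w₂
  have m1 := hmul w₁
  have m2 := hmul w₂
  have b1 := hpos w₁
  have b2 := hpos w₂
  rw [← hO₁] at e1 m1 b1
  rw [← hO₂] at e2 m2 b2
  by_cases hA : ∀ x : X, x ≠ 1 → ∀ w : Om, x • w = w → w ∈ O₁ ∪ O₂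
  · have h3 := cnt_all hfix (O₁ ∪ O₂) hA
    rw [Finset.sum_union d12] at h3
    have h4 : O₁.card = 1 := by omega
    obtain ⟨a, ha⟩ := Finset.card_eq_one.1 h4
    have h5 : w₁ ∈ O₁ := by
      rw [hO₁, Set.Finite.mem_toFinset]
      exact MulAction.mem_orbit_self w₁
    have h6 : g • w₁ ∈ O₁ := by
      rw [hO₁, Set.Finite.mem_toFinset]
      exact MulAction.mem_orbit w₁ g
    rw [ha, Finset.mem_singleton] at h5 h6
    rw [h6, h5]
  · exfalso
    push Not at hA
    obtain ⟨x, hx, w, hxw, hw⟩ := hA
    rw [Finset.mem_union, not_or] at hw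
    set O₃ := (hfin w).toFinset with hO₃
    have d13 : Disjoint O₁ O₃ := hdis w₁ w (by
      intro h
      apply hw.1
      rw [hO₁, Set.Finite.mem_toFinset]
      exact h)
    have d23 : Disjoint O₂ O₃ := hdis w₂ w (by
      intro h
      apply hw.2
      rw [hO₂, Set.Finite.mem_toFinset]
      exact h)
    have e3 := horb w
    have m3 := hmul w
    rw [← hO₃] at e3 m3
    have hfx : ∀ y : X, y ≠ 1 → {v : Om | y • v = v}.Finite := by
      intro y hy
      apply Set.finite_of_ncard_ne_zero
      rw [hfix y hy]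
      norm_num
    set W : Finset Om := Finset.univ.biUnion fun y : X =>
      if h : y ≠ 1 then (hfx y h).toFinset else ∅ with hW
    have hWm : ∀ y : X, y ≠ 1 → ∀ v : Om, y • v = v → v ∈ W := by
      intro y hy v hv
      rw [hW, Finset.mem_biUnion]
      refine ⟨y, Finset.mem_univ y, ?_⟩
      rw [dif_pos hy, Set.Finite.mem_toFinset]
      exact hv
    have h3 := cnt_all hfix (W ∪ (O₁ ∪ O₂ ∪ O₃)) fun y hy v hv =>
      Finset.mem_union_left _ (hWm y hy v hv)
    have h4 : ∑ v ∈ O₁ ∪ O₂ ∪ O₃, cnt_c X v ≤ ∑ v ∈ W ∪ (O₁ ∪ O₂ ∪ O₃), cnt_c X v :=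
      Finset.sum_le_sum_of_subset Finset.subset_union_right
    rw [Finset.sum_union (Finset.disjoint_union_left.2 ⟨d13, d23⟩), Finset.sum_union d12] at h4
    have h5 : 2 ≤ Nat.card (MulAction.stabilizer X w) := by
      rw [cnt_stab w]
      have h6 : 0 < cnt_c X w := by
        rw [cnt_c]
        refine Finset.card_pos.2 ⟨x, ?_⟩
        simp [hx, hxw]
      omega
    have q1 : O₁.card * p ≤ Nat.card X := by
      rw [← m1]
      exact Nat.mul_le_mul_left _ h₁
    have q2 : O₂.card * q ≤ Nat.card X := by
      rw [← m2]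
      exact Nat.mul_le_mul_left _ h₂
    have q3 : O₃.card * 2 ≤ Nat.card X := by
      rw [← m3]
      exact Nat.mul_le_mul_left _ h5
    have q4 : Nat.card X + 2 ≤ O₁.card + O₂.card + O₃.card := by omega
    have r1 := Nat.mul_le_mul_right (2 * q) q1
    have r2 := Nat.mul_le_mul_right (2 * p) q2
    have r3 := Nat.mul_le_mul_right (p * q) q3
    have r4 := Nat.mul_le_mul_right (2 * (p * q)) q4
    have r5 := Nat.mul_le_mul_left (Nat.card X) hpq.le
    have hp : 0 < p * q := by omega
    nlinarith [r1, r2, r3, r4, r5, hp]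

end Pool.Agent.NBA
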