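import Pool.Agent.NBA.Defs

set_option autoImplicit false

/-! NBA-Core. The core of the proof.
PLAN.  `Z` = the `z ∈ X` with `z.r = 1`; for these `l` is multiplicative coordinatewise.
(1) For each `w` the set `{z.l w | z ∈ Z}` is a subgroup of `P₀`, by `h1` its image under `π₀` is `⊤`: so by `hF.top` for every `y` there is `z ∈ Z` with `z.l w = y`.
(2) For `v ≠ w` let `D = {z.l w | z ∈ Z, z.l v = 1}`, a subgroup, normal by (1).  Claim `¬ D ≤ π₀.ker`.  Suppose `D ≤ π₀.ker`.  Define `φ : P₀ →* M2 s` by `φ y = π₀ (z.l w)` for any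
`z ∈ Z` with `z.l v = y` (exists by (1); well defined: two such `z` differ by an element with `l v = 1`, so with `l w ∈ D ≤ ker π₀`).  `hF.hom`: `φ` kills `π₀.ker`.  Take `z` from `h2 w v`: `π₀ (z.l v) = 1`,
so `1 = φ (z.l v) = π₀ (z.l w) ≠ 1`: contradiction.  So by `hF.com`: `commutator P₀ ≤ D`.
(3) Fix `w`.  For a finset `S` of `Q` without `w`: for all `x ∈ derivedSeries P₀ S.card` there is `z ∈ Z` with `z.l w = x` and `z.l v = 1` for `v ∈ S`.  Induction on `S`: empty: (1).  `insert v S`: if `S = ∅` it is (2)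
(`derivedSeries_one`).  Otherwise `derivedSeries (j + 1) = ⁅D_j, D_j⁆`, `j ≥ 1`; the set of the good `x` is a subgroup, for `x, y ∈ D_j`: `z_x` from the induction hypothesis, `z_y ∈ Z` with `z_y.l w = y`, `z_y.l v = 1` from (2)
(`y ∈ D_j ≤ commutator`, `derivedSeries_antitone`): `⁅z_x, z_y⁆` works.
(4) `S = univ.erase w`, `S.card = Nat.card Q - 1`, `derivedSeries_antitone`: `z = Wr.sg w x`. -/

namespace Pool.Agent.NBA

/-- evaluation on the base group -/
private def coreEv {T Q : Type} [Group T] [Group Q] (w : Q) :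
    (Wr.rt : Wr T Q →* Q).ker →* T where
  toFun z := (z : Wr T Q).l w
  map_one' := rfl
  map_mul' x y := by
    have hx : (x : Wr T Q).r = 1 := x.2
    show ((x : Wr T Q) * (y : Wr T Q)).l w = (x : Wr T Q).l w * (y : Wr T Q).l w
    rw [Wr.mul_l, hx, inv_one, one_mul]

/-- the elements of the base group in `X` which are trivial on `S` -/
private def coreK {T Q : Type} [Group T] [Group Q] (X : Subgroup (Wr T Q)) (S : Finset Q) :
    Subgroup (Wr.rt : Wr T Q →* Q).ker where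
  carrier := {z | (z : Wr T Q) ∈ X ∧ ∀ v ∈ S, coreEv v z = 1}
  one_mem' := ⟨X.one_mem, fun v _ => map_one _⟩
  mul_mem' := by
    rintro a b ⟨h1, h2⟩ ⟨h3, h4⟩
    exact ⟨X.mul_mem h1 h3, fun v hv => by rw [map_mul, h2 v hv, h4 v hv, one_mul]⟩
  inv_mem' := by
    rintro a ⟨h1, h2⟩
    exact ⟨X.inv_mem h1, fun v hv => by rw [map_inv, h2 v hv, inv_one]⟩

private theorem core_one {s : ℕ} {P₀ Q : Type} [Group P₀] [Group Q] {π₀ : P₀ →* M2 s}
    (hF : Fr s P₀ π₀) (X : Subgroup (Wr P₀ Q))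
    (h1 : ∀ (w : Q) (m : M2 s), ∃ z ∈ X, z.r = 1 ∧ π₀ (z.l w) = m) (w : Q) (y : P₀) :
    ∃ z ∈ coreK X ∅, coreEv w z = y := by
  have h : ((coreK X ∅).map (coreEv w)).map π₀ = ⊤ := by
    rw [eq_top_iff]
    rintro m -
    obtain ⟨z, hz, hr, hm⟩ := h1 w m
    exact ⟨z.l w, ⟨⟨z, hr⟩, ⟨hz, fun v hv => absurd hv (Finset.notMem_empty v)⟩, rfl⟩, hm⟩
  have h2 : y ∈ (coreK X ∅).map (coreEv w) := by
    rw [hF.top _ h]
    exact Subgroup.mem_top y
  obtain ⟨z, hz, hy⟩ := h2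
  exact ⟨z, hz, hy⟩

private theorem core_two {s : ℕ} {P₀ Q : Type} [Group P₀] [Group Q] {π₀ : P₀ →* M2 s}
    (hF : Fr s P₀ π₀) (X : Subgroup (Wr P₀ Q))
    (h1 : ∀ (w : Q) (m : M2 s), ∃ z ∈ X, z.r = 1 ∧ π₀ (z.l w) = m)
    (h2 : ∀ w v : Q, w ≠ v → ∃ z ∈ X, z.r = 1 ∧ π₀ (z.l v) = 1 ∧ π₀ (z.l w) ≠ 1) (w v : Q)
    (hwv : w ≠ v) : commutator P₀ ≤ (coreK X {v}).map (coreEv w) := by
  refine hF.com _ ⟨?_⟩ fun hD => ?_
  · rintro _ ⟨d, ⟨hd1, hd2⟩, rfl⟩ g
    obtain ⟨z, ⟨hz1, -⟩, rfl⟩ := core_one hF X h1 w g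
    refine ⟨z * d * z⁻¹, ⟨X.mul_mem (X.mul_mem hz1 hd1) (X.inv_mem hz1), fun u hu => ?_⟩, ?_⟩
    · rw [map_mul, map_mul, map_inv, hd2 u hu, mul_one, mul_inv_cancel]
    · rw [map_mul, map_mul, map_inv]
  · have hwd : ∀ z ∈ coreK X ∅, ∀ z' ∈ coreK X ∅, coreEv v z = coreEv v z' →
        π₀ (coreEv w z) = π₀ (coreEv w z') := by
      rintro z ⟨hz, -⟩ z' ⟨hz', -⟩ he
      have h3 : coreEv w (z * z'⁻¹) ∈ π₀.ker := by
        apply hD
        refine ⟨z * z'⁻¹, ⟨X.mul_mem hz (X.inv_mem hz'), fun u hu => ?_⟩, rfl⟩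
        rw [Finset.mem_singleton.1 hu, map_mul, map_inv, he, mul_inv_cancel]
      rw [MonoidHom.mem_ker, map_mul, map_inv, map_mul, map_inv, mul_inv_eq_one] at h3
      exact h3
    choose f hf1 hf2 using core_one hF X h1 v
    obtain ⟨z, hz, hr, hv, hw⟩ := h2 w v hwv
    have h4 := hF.hom (MonoidHom.mk' (fun y => π₀ (coreEv w (f y))) (fun x y => by
      rw [← map_mul, ← map_mul]
      refine hwd _ (hf1 _) _ ((coreK X ∅).mul_mem (hf1 x) (hf1 y)) ?_
      rw [hf2, map_mul, hf2, hf2])) (z.l v) hv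
    apply hw
    have h5 : π₀ (coreEv w (f (z.l v))) = 1 := h4
    rw [← h5]
    exact hwd ⟨z, hr⟩ ⟨hz, fun u hu => absurd hu (Finset.notMem_empty u)⟩ _ (hf1 _)
      (hf2 (z.l v)).symm

theorem core {s : ℕ} {P₀ Q : Type} [Group P₀] [Group Q] [Finite Q] {π₀ : P₀ →* M2 s}
    (hF : Fr s P₀ π₀) (X : Subgroup (Wr P₀ Q))
    (h1 : ∀ (w : Q) (m : M2 s), ∃ z ∈ X, z.r = 1 ∧ π₀ (z.l w) = m)
    (h2 : ∀ w v : Q, w ≠ v → ∃ z ∈ X, z.r = 1 ∧ π₀ (z.l v) = 1 ∧ π₀ (z.l w) ≠ 1) (w : Q)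
    (x : P₀) (hx : x ∈ derivedSeries P₀ (Nat.card Q)) : Wr.sg w x ∈ X := by
  classical
  have := Fintype.ofFinite Q
  have key : ∀ S : Finset Q, w ∉ S →
      derivedSeries P₀ S.card ≤ (coreK X S).map (coreEv w) := by
    intro S
    induction S using Finset.induction_on with
    | empty =>
      rintro - y -
      obtain ⟨z, hz, hy⟩ := core_one hF X h1 w y
      exact ⟨z, hz, hy⟩
    | insert v S hv ih =>
      intro hw
      have hwv : w ≠ v := fun h => hw (h ▸ Finset.mem_insert_self v S)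
      have hwS : w ∉ S := fun h => hw (Finset.mem_insert_of_mem h)
      have h3 := core_two hF X h1 h2 w v hwv
      rw [Finset.card_insert_of_notMem hv]
      rcases S.eq_empty_or_nonempty with hS | hS
      · subst hS
        rw [Finset.card_empty, zero_add, derivedSeries_one]
        exact h3
      · have hj : 1 ≤ S.card := hS.card_pos
        rw [derivedSeries_succ, Subgroup.commutator_le]
        intro x hx y hy
        obtain ⟨zx, ⟨hx1, hx2⟩, hxe⟩ := ih hwS hx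
        have hy' : y ∈ commutator P₀ := by
          rw [← derivedSeries_one]
          exact derivedSeries_antitone P₀ hj hy
        obtain ⟨zy, ⟨hy1, hy2⟩, hye⟩ := h3 hy'
        refine ⟨zx * zy * zx⁻¹ * zy⁻¹, ⟨?_, fun u hu => ?_⟩, ?_⟩
        · exact X.mul_mem (X.mul_mem (X.mul_mem hx1 hy1) (X.inv_mem hx1)) (X.inv_mem hy1)
        · rw [map_mul, map_mul, map_mul, map_inv, map_inv]
          rcases Finset.mem_insert.1 hu with rfl | hu
          · rw [hy2 u (Finset.mem_singleton_self u), inv_one, mul_one, mul_one, mul_inv_cancel]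
          · rw [hx2 u hu, inv_one, mul_one, one_mul, mul_inv_cancel]
        · rw [map_mul, map_mul, map_mul, map_inv, map_inv, hxe, hye]
          rfl
  have hc : (Finset.univ.erase w).card ≤ Nat.card Q := by
    rw [Nat.card_eq_fintype_card]
    exact (Finset.card_le_univ _)
  obtain ⟨z, ⟨hz1, hz2⟩, hz3⟩ := key (Finset.univ.erase w) (Finset.notMem_erase w _)
    (derivedSeries_antitone P₀ hc hx)
  have h3 : (z : Wr P₀ Q) = Wr.sg w x := by
    refine Wr.ext ?_ z.2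
    funext u
    by_cases hu : u = w
    · rw [hu, Wr.sg_l_same]
      exact hz3
    · rw [Wr.sg_l_ne hu]
      exact hz2 u (Finset.mem_erase.2 ⟨hu, Finset.mem_univ u⟩)
  rw [← h3]
  exact hz1

end Pool.Agent.NBA
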