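import Pool.Agent.NBA.DPrd

set_option autoImplicit false

/-! NBA-DInd. First-level data for all abelian groups.
A finite abelian group embeds in a finite product of cyclic groups of prime power orders
`t i ^ e i`; if `e i = 0` the factor is trivial, if `e i > 0` then `t i` divides the order of `A`, so
`t i ≠ s`.  Induction over the finite index set with `hasDat_prod` and `hasDat_mono`. -/

namespace Pool.Agent.NBA

open Helper76.IG

private theorem DInd_triv {p q s : ℕ}
    (hbase : ∀ t e N : ℕ, t.Prime → t ≠ s → 0 < N →
      HasDat p q s N (Multiplicative (ZMod (t ^ e)))) {A : Type} [Group A] [Subsingleton A]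
    {N : ℕ} (hN : 0 < N) : HasDat p q s N A := by
  by_cases h2 : (2 : ℕ) = s
  · exact hasDat_mono (hbase 3 0 N Nat.prime_three (by omega) hN) 1
      (Function.injective_of_subsingleton _)
  · exact hasDat_mono (hbase 2 0 N Nat.prime_two h2 hN) 1
      (Function.injective_of_subsingleton _)

private theorem DInd_pi {p q s : ℕ} (hp : p.Prime) (hq : q.Prime) (hs : s.Prime)
    (hbase : ∀ t e N : ℕ, t.Prime → t ≠ s → 0 < N →
      HasDat p q s N (Multiplicative (ZMod (t ^ e)))) (ι : Type) [Finite ι] :
    ∀ t e : ι → ℕ, (∀ i, (t i).Prime) → (∀ i, 0 < e i → t i ≠ s) → ∀ N, 0 < N →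
      HasDat p q s N (∀ i, Multiplicative (ZMod (t i ^ e i))) := by
  induction ι using Finite.induction_empty_option with
  | of_equiv f ih =>
    intro t e ht he N hN
    have h := ih (fun i => t (f i)) (fun i => e (f i)) (fun i => ht (f i)) (fun i => he (f i)) N hN
    refine hasDat_mono h
      { toFun := fun x i => x (f i)
        map_one' := rfl
        map_mul' := fun _ _ => rfl } ?_
    intro x y hxy
    funext j
    obtain ⟨i, rfl⟩ := f.surjective j
    exact congrFun hxy i
  | h_empty =>
    intro t e ht he N hN
    exact DInd_triv hbase hN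
  | h_option ih =>
    intro t e ht he N hN
    have h₁ := ih (fun i => t (some i)) (fun i => e (some i)) (fun i => ht (some i))
      (fun i => he (some i)) N hN
    have h₂ : ∀ N', 0 < N' → HasDat p q s N' (Multiplicative (ZMod (t none ^ e none))) := by
      intro N' hN'
      rcases Nat.eq_zero_or_pos (e none) with h0 | h0
      · have hs1 : Subsingleton (ZMod (t none ^ e none)) := by
          rw [h0, pow_zero]
          infer_instance
        have hs2 : Subsingleton (Multiplicative (ZMod (t none ^ e none))) := hs1
        exact DInd_triv hbase hN'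
      · exact hbase _ _ _ (ht none) (he none h0) hN'
    refine hasDat_mono (hasDat_prod hp hq hs h₁ h₂ hN)
      { toFun := fun x => (fun i => x (some i), x none)
        map_one' := rfl
        map_mul' := fun _ _ => rfl } ?_
    intro x y hxy
    have e1 := congrArg Prod.fst hxy
    have e2 := congrArg Prod.snd hxy
    funext o
    cases o with
    | none => exact e2
    | some i => exact congrFun e1 i

theorem hasDat_ab {p q s : ℕ} (hp : p.Prime) (hq : q.Prime) (hs : s.Prime)
    (hbase : ∀ t e N : ℕ, t.Prime → t ≠ s → 0 < N →
      HasDat p q s N (Multiplicative (ZMod (t ^ e)))) {A : Type} [CommGroup A] [Finite A]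
    (hA : (Nat.card A).Coprime s) {N : ℕ} (hN : 0 < N) : HasDat p q s N A := by
  classical
  obtain ⟨ι, hι, t, ht, e, ⟨ψ⟩⟩ := AddCommGroup.equiv_directSum_zmod_of_finite (Additive A)
  let φ : Additive A ≃+ ∀ i, ZMod (t i ^ e i) :=
    ψ.trans (DirectSum.addEquivProd fun i => ZMod (t i ^ e i))
  have hcard : Nat.card A = ∏ i, t i ^ e i := by
    have h1 : Nat.card (Additive A) = Nat.card (∀ i, ZMod (t i ^ e i)) :=
      Nat.card_congr φ.toEquiv
    have h2 : Nat.card A = Nat.card (Additive A) := Nat.card_congr Additive.ofMul
    rw [h2, h1, Nat.card_pi]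
    exact Finset.prod_congr rfl fun i _ => Nat.card_zmod _
  have he : ∀ i, 0 < e i → t i ≠ s := by
    intro i hi hts
    have h1 : t i ∣ Nat.card A := by
      rw [hcard]
      exact (dvd_pow_self _ hi.ne').trans (Finset.dvd_prod_of_mem (fun i => t i ^ e i) (Finset.mem_univ i))
    rw [hts] at h1
    exact hs.one_lt.ne' (Nat.Coprime.eq_one_of_dvd hA.symm h1)
  refine hasDat_mono (DInd_pi hp hq hs hbase ι t e ht he N hN)
    { toFun := fun a i => Multiplicative.ofAdd (φ (Additive.ofMul a) i)
      map_one' := by
        funext i
        rw [ofMul_one, map_zero]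
        rfl
      map_mul' := by
        intro a b
        funext i
        rw [ofMul_mul, map_add]
        rfl } ?_
  intro a b hab
  have h1 : φ (Additive.ofMul a) = φ (Additive.ofMul b) := by
    funext i
    exact Multiplicative.ofAdd.injective (congrFun hab i)
  exact Additive.ofMul.injective (φ.injective h1)

end Pool.Agent.NBA
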