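import Pool.Agent.NBA.Defs

set_option autoImplicit false

/-! NBA-Deep. Every finite `s`-group embeds in deep derived subgroups.
PLAN.  Induction on `k`; `k = 0`: `P₁ = P`.  Step: `P ↪ derivedSeries P' k`; let `W = Wr P' C`, `C = Multiplicative (ZMod (Nat.card P'))` (`Nat.card P' = s ^ n`: `W` is a finite
`s`-group, `IsPGroup.of_card`, `Nat.card W = Nat.card P' ^ Nat.card C * Nat.card C`).  `δ : P' →* W`, `δ x = ⟨fun _ => x, 1⟩` is injective with image in `commutator W = derivedSeries W 1`: modulo `commutator W`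
`Wr.sg c x = Wr.sg 1 x` (`Wr.sg c x = tp c * Wr.sg 1 x * (tp c)⁻¹`), and `δ x` is the product of the `Wr.sg c x` over `c : C`, so its class is `(Wr.sg 1 x) ^ (Nat.card C) = Wr.sg 1 (x ^ Nat.card P') = 1`.
(Work in `Abelianization W`, `Finset.prod` there; `Abelianization.ker_of`.)  So `δ` maps `derivedSeries P' k` into `derivedSeries W (k + 1)`: by induction on `j`: `δ (derivedSeries P' j) ≤ derivedSeries W (j + 1)`
(`derivedSeries_succ`, `Subgroup.map_commutator`, `Subgroup.commutator_mono`). -/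

namespace Pool.Agent.NBA

private theorem Deep_pow {T Q : Type} [Group T] [Group Q] {y : Wr T Q} (hy : y.r = 1) (m : ℕ) :
    (y ^ m).r = 1 ∧ ∀ w, (y ^ m).l w = (y.l w) ^ m := by
  induction m with
  | zero =>
    refine ⟨by simp, fun w => by simp⟩
  | succ m ih =>
    obtain ⟨h1, h2⟩ := ih
    rw [pow_succ]
    refine ⟨?_, fun w => ?_⟩
    · rw [Wr.mul_r, h1, hy, mul_one]
    · rw [Wr.mul_l, h1, h2, inv_one, one_mul, pow_succ]

private theorem Deep_conj {T Q : Type} [Group T] [Group Q] (c : Q) (x : T) :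
    (Wr.sg c x : Wr T Q) = Wr.tp c * Wr.sg 1 x * (Wr.tp c)⁻¹ := by
  classical
  refine Wr.ext ?_ ?_
  · funext w
    rw [Wr.mul_l, Wr.mul_l, Wr.inv_l, Wr.tp_l, Wr.tp_l, one_mul, inv_one, mul_one, Wr.tp_r]
    by_cases h : w = c
    · subst h
      rw [Wr.sg_l_same, inv_mul_cancel, Wr.sg_l_same]
    · rw [Wr.sg_l_ne h, Wr.sg_l_ne]
      intro h2
      exact h (inv_mul_eq_one.1 h2).symm
  · rw [Wr.mul_r, Wr.mul_r, Wr.inv_r, Wr.tp_r, Wr.sg_r, Wr.sg_r, mul_one, mul_inv_cancel]

open Classical in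
private theorem Deep_prod {T Q : Type} [Group T] [Group Q] (x : T) (F : Finset Q) :
    Abelianization.of (⟨fun w => if w ∈ F then x else 1, 1⟩ : Wr T Q) =
      ∏ c ∈ F, Abelianization.of (Wr.sg c x : Wr T Q) := by
  induction F using Finset.induction_on with
  | empty =>
    rw [Finset.prod_empty]
    have h : (⟨fun w => if w ∈ (∅ : Finset Q) then x else 1, 1⟩ : Wr T Q) = 1 := by
      refine Wr.ext ?_ rfl
      funext w
      simp
    rw [h, map_one]
  | insert c F hc ih =>
    rw [Finset.prod_insert hc, ← ih, ← map_mul]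
    congr 1
    refine Wr.ext ?_ ?_
    · funext w
      rw [Wr.mul_l, Wr.sg_r, inv_one, one_mul]
      by_cases h : w = c
      · subst h
        rw [Wr.sg_l_same]
        simp [hc]
      · rw [Wr.sg_l_ne h]
        simp [h]
    · rw [Wr.mul_r, Wr.sg_r, one_mul]

/-- the diagonal embedding -/
private def Deep_dl (T Q : Type) [Group T] [Group Q] : T →* Wr T Q where
  toFun x := ⟨fun _ => x, 1⟩
  map_one' := rfl
  map_mul' x y := by
    refine Wr.ext ?_ ?_
    · funext w
      rw [Wr.mul_l]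
    · rw [Wr.mul_r, mul_one]

private theorem Deep_dl_inj (T Q : Type) [Group T] [Group Q] [Nonempty Q] :
    Function.Injective (Deep_dl T Q) := by
  intro x y h
  have h1 : (Deep_dl T Q x).l = (Deep_dl T Q y).l := congrArg Wr.l h
  obtain ⟨q⟩ := ‹Nonempty Q›
  exact congrFun h1 q

private theorem Deep_com {T Q : Type} [Group T] [Group Q] [Finite Q]
    (h : ∀ x : T, x ^ Nat.card Q = 1) (x : T) : Deep_dl T Q x ∈ commutator (Wr T Q) := by
  classical
  rw [← Abelianization.ker_of, MonoidHom.mem_ker]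
  haveI : Fintype Q := Fintype.ofFinite Q
  have h1 : Deep_dl T Q x = ⟨fun w => if w ∈ (Finset.univ : Finset Q) then x else 1, 1⟩ := by
    refine Wr.ext ?_ rfl
    funext w
    simp [Deep_dl]
  have h2 : ∀ c ∈ (Finset.univ : Finset Q), Abelianization.of (Wr.sg c x : Wr T Q) =
      Abelianization.of (Wr.sg 1 x : Wr T Q) := by
    intro c _
    rw [Deep_conj, map_mul, map_mul, map_inv, mul_comm, inv_mul_cancel_left]
  rw [h1, Deep_prod, Finset.prod_congr rfl h2, Finset.prod_const, Finset.card_univ, ← map_pow]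
  have h3 : (Wr.sg 1 x : Wr T Q) ^ Fintype.card Q = 1 := by
    obtain ⟨h4, h5⟩ := Deep_pow (y := (Wr.sg 1 x : Wr T Q)) (Wr.sg_r 1 x) (Fintype.card Q)
    refine Wr.ext ?_ h4
    funext w
    rw [h5, ← Nat.card_eq_fintype_card, h]
    rfl
  rw [h3, map_one]

private theorem Deep_der {T Q : Type} [Group T] [Group Q] [Finite Q]
    (h : ∀ x : T, x ^ Nat.card Q = 1) (j : ℕ) :
    (derivedSeries T j).map (Deep_dl T Q) ≤ derivedSeries (Wr T Q) (j + 1) := by
  induction j with
  | zero =>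
    rw [derivedSeries_one]
    rintro _ ⟨x, _, rfl⟩
    exact Deep_com h x
  | succ j ih =>
    rw [derivedSeries_succ T j, derivedSeries_succ (Wr T Q) (j + 1), Subgroup.map_commutator]
    exact Subgroup.commutator_mono ih ih

private theorem Deep_pg {s n : ℕ} {T Q : Type} [Group T] [Group Q]
    (hT : Nat.card T = s ^ n) (hQ : Nat.card Q = s ^ n) : IsPGroup s (Wr T Q) := by
  intro x
  refine ⟨n + n, ?_⟩
  have h1 : (x ^ (s ^ n)).r = 1 := by
    have h2 : Wr.rt (x ^ (s ^ n)) = (Wr.rt x) ^ (s ^ n) := map_pow _ _ _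
    have h3 : (Wr.rt x) ^ Nat.card Q = 1 := pow_card_eq_one'
    rw [hQ] at h3
    rw [h3] at h2
    exact h2
  obtain ⟨h4, h5⟩ := Deep_pow h1 (s ^ n)
  rw [pow_add, pow_mul]
  refine Wr.ext ?_ h4
  funext w
  rw [h5, ← hT, pow_card_eq_one']
  rfl

theorem deep {s : ℕ} (hs : s.Prime) (k : ℕ) (P : Type) [Group P] [Finite P]
    (hP : IsPGroup s P) : ∃ (P₁ : Type) (_ : Group P₁) (_ : Finite P₁) (ι : P →* P₁),
      IsPGroup s P₁ ∧ Function.Injective ι ∧ ∀ x, ι x ∈ derivedSeries P₁ k := by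
  haveI : Fact s.Prime := ⟨hs⟩
  induction k with
  | zero =>
    refine ⟨P, inferInstance, inferInstance, MonoidHom.id P, hP, fun x y h => h, fun x => ?_⟩
    rw [derivedSeries_zero]
    exact Subgroup.mem_top _
  | succ k ih =>
    obtain ⟨P', hG, hF, ι, hP', hι, hd⟩ := ih
    obtain ⟨n, hn⟩ := IsPGroup.iff_card.1 hP'
    have hN : Nat.card P' ≠ 0 := Nat.card_pos.ne'
    haveI : NeZero (Nat.card P') := ⟨hN⟩
    have hC : Nat.card (Multiplicative (ZMod (Nat.card P'))) = Nat.card P' := by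
      rw [Nat.card_congr Multiplicative.toAdd, Nat.card_zmod]
    haveI hFC : Finite (Multiplicative (ZMod (Nat.card P'))) :=
      Finite.of_equiv (ZMod (Nat.card P')) Multiplicative.ofAdd
    refine ⟨Wr P' (Multiplicative (ZMod (Nat.card P'))), inferInstance, inferInstance,
      (Deep_dl P' _).comp ι, ?_, ?_, ?_⟩
    · exact Deep_pg hn (hC.trans hn)
    · exact (Deep_dl_inj P' _).comp hι
    · intro x
      refine Deep_der (fun y => ?_) k ⟨ι x, hd x, rfl⟩
      rw [hC]
      exact pow_card_eq_one'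

end Pool.Agent.NBA
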