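import Pool.Agent.NBA.Defs

set_option autoImplicit false

/-! NBA-Sid. The derived subgroup of an `s`-group embeds in a `2`-generator `s`-group.
The elements of `P₁` are placed at the positions `2 ^ i` of a function on a large cyclic `s`-group;
these positions are a Sidon set, so the commutators of two translates are concentrated at `1`. -/

namespace Pool.Agent.NBA

open scoped commutatorElement

private theorem sid_pow : ∀ a b i j : ℕ, 2 ^ a + 2 ^ j = 2 ^ b + 2 ^ i →
    (a = b ∧ j = i) ∨ (a = i ∧ j = b) := by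
  have inj : ∀ x y : ℕ, 2 ^ x = 2 ^ y → x = y := fun x y h => Nat.pow_right_injective le_rfl h
  have pos : ∀ x : ℕ, 1 ≤ 2 ^ x := fun x => Nat.one_le_two_pow
  intro a
  induction a with
  | zero =>
    intro b i j h
    cases b with
    | zero =>
      left
      refine ⟨rfl, inj _ _ ?_⟩
      omega
    | succ b =>
      cases i with
      | zero =>
        right
        refine ⟨rfl, inj _ _ ?_⟩
        omega
      | succ i =>
        cases j with
        | zero =>
          have := pos b
          have := pos i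
          simp only [pow_succ] at h
          omega
        | succ j =>
          simp only [pow_succ, pow_zero] at h
          omega
  | succ a ih =>
    intro b i j h
    cases b with
    | zero =>
      cases i with
      | zero =>
        have := pos a
        have := pos j
        simp only [pow_succ, pow_zero] at h
        omega
      | succ i =>
        cases j with
        | zero =>
          right
          refine ⟨inj _ _ ?_, rfl⟩
          omega
        | succ j =>
          simp only [pow_succ, pow_zero] at h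
          omega
    | succ b =>
      cases i with
      | zero =>
        cases j with
        | zero =>
          left
          refine ⟨inj _ _ ?_, rfl⟩
          omega
        | succ j =>
          simp only [pow_succ, pow_zero] at h
          omega
      | succ i =>
        cases j with
        | zero =>
          simp only [pow_succ, pow_zero] at h
          omega
        | succ j =>
          have h2 : 2 ^ a + 2 ^ j = 2 ^ b + 2 ^ i := by
            simp only [pow_succ] at h
            omega
          rcases ih b i j h2 with ⟨h3, h4⟩ | ⟨h3, h4⟩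
          · left
            exact ⟨by rw [h3], by rw [h4]⟩
          · right
            exact ⟨by rw [h3], by rw [h4]⟩

/-- the embedding of the bottom group at the position `1` -/
private noncomputable def sid_j (T₁ T₂ Q : Type) [Group T₁] [Group T₂] [Group Q] :
    T₁ →* Wr (T₁ × T₂) Q where
  toFun g := Wr.sg 1 (g, 1)
  map_one' := by
    classical
    refine Wr.ext ?_ rfl
    funext w
    by_cases h : w = 1
    · rw [h, Wr.sg_l_same]
      rfl
    · rw [Wr.sg_l_ne h]
      rfl
  map_mul' x y := by
    classical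
    refine Wr.ext ?_ ?_
    · funext w
      rw [Wr.mul_l, Wr.sg_r, inv_one, one_mul]
      by_cases h : w = 1
      · rw [h, Wr.sg_l_same, Wr.sg_l_same, Wr.sg_l_same]
        simp
      · rw [Wr.sg_l_ne h, Wr.sg_l_ne h, Wr.sg_l_ne h, one_mul]
    · rw [Wr.mul_r, Wr.sg_r, Wr.sg_r, Wr.sg_r, one_mul]

private theorem sid_pgroup {s : ℕ} (hs : s.Prime) (T Q : Type) [Group T] [Group Q] [Finite T]
    [Finite Q] (hT : IsPGroup s T) (hQ : IsPGroup s Q) : IsPGroup s (Wr T Q) := by
  have := Fact.mk hs
  obtain ⟨m, hm⟩ := (IsPGroup.iff_card).1 hT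
  obtain ⟨k, hk⟩ := (IsPGroup.iff_card).1 hQ
  have hpow : ∀ (n : ℕ) (y : Wr T Q), y.r = 1 → (∀ w, (y ^ n).l w = y.l w ^ n) ∧ (y ^ n).r = 1 := by
    intro n y hy
    induction n with
    | zero => exact ⟨fun w => by simp, by simp⟩
    | succ n ih =>
      refine ⟨fun w => ?_, ?_⟩
      · rw [pow_succ, Wr.mul_l, ih.1, ih.2, inv_one, one_mul, pow_succ]
      · rw [pow_succ, Wr.mul_r, ih.2, hy, one_mul]
  intro x
  refine ⟨k + m, ?_⟩
  rw [pow_add, pow_mul]
  have h1 : (x ^ (s ^ k)).r = 1 := by
    have h2 : (x ^ (s ^ k)).r = x.r ^ (s ^ k) := map_pow (Wr.rt : Wr T Q →* Q) x (s ^ k)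
    rw [h2, ← hk]
    exact pow_card_eq_one'
  have h3 := hpow (s ^ m) _ h1
  refine Wr.ext ?_ ?_
  · funext w
    rw [h3.1, ← hm]
    exact pow_card_eq_one'
  · exact h3.2

private theorem sid_comm {T Q : Type} [Group T] [Group Q] (x y : Wr T Q) (hx : x.r = 1)
    (hy : y.r = 1) : (∀ w, (⁅x, y⁆).l w = ⁅x.l w, y.l w⁆) ∧ (⁅x, y⁆).r = 1 := by
  rw [commutatorElement_def]
  refine ⟨fun w => ?_, ?_⟩
  · simp [hx, hy, commutatorElement_def]
  · simp [hx, hy]

/-- the map onto the Frattini quotient -/
private noncomputable def sid_pi (s N : ℕ) (h : s ∣ N) [NeZero N] (T : Type) [Group T] :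
    Wr (T × Multiplicative (ZMod s)) (Multiplicative (ZMod N)) →* M2 s where
  toFun x := Multiplicative.ofAdd (ZMod.castHom h (ZMod s) (Multiplicative.toAdd x.r),
    ∑ w : Multiplicative (ZMod N), Multiplicative.toAdd (x.l w).2)
  map_one' := by
    rw [← ofAdd_zero]
    congr 1
    refine Prod.ext ?_ ?_
    · simp
    · simp
  map_mul' x y := by
    rw [← ofAdd_add]
    congr 1
    refine Prod.ext ?_ ?_
    · exact map_add (ZMod.castHom h (ZMod s)) _ _
    · change ∑ w : Multiplicative (ZMod N), Multiplicative.toAdd ((x * y).l w).2 =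
        (∑ w : Multiplicative (ZMod N), Multiplicative.toAdd (x.l w).2) +
          ∑ w : Multiplicative (ZMod N), Multiplicative.toAdd (y.l w).2
      have h1 : (∑ w : Multiplicative (ZMod N), Multiplicative.toAdd (y.l w).2) =
          ∑ w : Multiplicative (ZMod N), Multiplicative.toAdd (y.l (x.r⁻¹ * w)).2 :=
        (Equiv.sum_comp (Equiv.mulLeft x.r⁻¹)
          (fun w => Multiplicative.toAdd (y.l w).2)).symm
      rw [h1, ← Finset.sum_add_distrib]
      rfl

theorem two_gen {s : ℕ} (hs : s.Prime) (P₁ : Type) [Group P₁] [Finite P₁]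
    (hP : IsPGroup s P₁) : ∃ (P₀ : Type) (_ : Group P₀) (_ : Finite P₀) (t f : P₀)
      (π₀ : P₀ →* M2 s) (ι : commutator P₁ →* P₀), IsPGroup s P₀ ∧
      Subgroup.closure {t, f} = ⊤ ∧ π₀ t = Multiplicative.ofAdd (1, 0) ∧
      π₀ f = Multiplicative.ofAdd (0, 1) ∧ Function.Injective ι := by
  classical
  have := Fact.mk hs
  have : NeZero s := ⟨hs.ne_zero⟩
  obtain ⟨K, ⟨e⟩⟩ := Finite.exists_equiv_fin (Option P₁)
  set N : ℕ := s ^ (K + 1) with hN
  have : NeZero N := ⟨pow_ne_zero _ hs.ne_zero⟩
  have hN2 : 2 ^ K + 2 ^ K ≤ N := by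
    have h1 : 2 ^ (K + 1) ≤ s ^ (K + 1) := Nat.pow_le_pow_left hs.two_le _
    rw [pow_succ] at h1
    omega
  have hlt : ∀ o : Option P₁, 2 ^ (e o).val < 2 ^ K := fun o =>
    Nat.pow_lt_pow_right (by norm_num) (e o).isLt
  -- equality of small numbers modulo `N`
  have hcast : ∀ x y : ℕ, x < N → y < N → (x : ZMod N) = (y : ZMod N) → x = y := by
    intro x y hx hy h
    have h1 := (ZMod.natCast_eq_natCast_iff' x y N).1 h
    rwa [Nat.mod_eq_of_lt hx, Nat.mod_eq_of_lt hy] at h1
  let pos : Option P₁ → Multiplicative (ZMod N) :=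
    fun o => Multiplicative.ofAdd ((2 ^ (e o).val : ℕ) : ZMod N)
  have hpos_inj : Function.Injective pos := by
    intro o o' h
    have h1 : ((2 ^ (e o).val : ℕ) : ZMod N) = ((2 ^ (e o').val : ℕ) : ZMod N) :=
      Multiplicative.ofAdd.injective h
    have h2 := hcast _ _ (by have := hlt o; omega) (by have := hlt o'; omega) h1
    have h3 := Nat.pow_right_injective le_rfl h2
    exact e.injective (Fin.ext h3)
  have hsid : ∀ a b i j : Option P₁, pos a * pos j = pos b * pos i →
      (a = b ∧ j = i) ∨ (a = i ∧ j = b) := by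
    intro a b i j h
    have h1 : ((2 ^ (e a).val : ℕ) : ZMod N) + ((2 ^ (e j).val : ℕ) : ZMod N) =
        ((2 ^ (e b).val : ℕ) : ZMod N) + ((2 ^ (e i).val : ℕ) : ZMod N) :=
      Multiplicative.ofAdd.injective h
    rw [← Nat.cast_add, ← Nat.cast_add] at h1
    have h2 := hcast _ _ (by have := hlt a; have := hlt j; omega)
      (by have := hlt b; have := hlt i; omega) h1
    rcases sid_pow _ _ _ _ h2 with ⟨h3, h4⟩ | ⟨h3, h4⟩
    · left
      exact ⟨e.injective (Fin.ext h3), e.injective (Fin.ext h4)⟩
    · right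
      exact ⟨e.injective (Fin.ext h3), e.injective (Fin.ext h4)⟩
  let v : Option P₁ → P₁ × Multiplicative (ZMod s) := fun o =>
    match o with
    | none => (1, Multiplicative.ofAdd 1)
    | some g => (g, 1)
  let fl : Multiplicative (ZMod N) → P₁ × Multiplicative (ZMod s) := fun w =>
    if h : ∃ o, pos o = w then v h.choose else 1
  have hfl : ∀ o, fl (pos o) = v o := by
    intro o
    have h : ∃ o', pos o' = pos o := ⟨o, rfl⟩
    change (if h : ∃ o', pos o' = pos o then v h.choose else 1) = v o
    rw [dif_pos h, hpos_inj h.choose_spec]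
  have hfl1 : ∀ w, (¬ ∃ o, pos o = w) → fl w = 1 := by
    intro w h
    change (if h : ∃ o', pos o' = w then v h.choose else 1) = 1
    rw [dif_neg h]
  let W : Type := Wr (P₁ × Multiplicative (ZMod s)) (Multiplicative (ZMod N))
  let t : W := Wr.tp (Multiplicative.ofAdd (1 : ZMod N))
  let f : W := ⟨fl, 1⟩
  let H : Subgroup W := Subgroup.closure {t, f}
  have ht : t ∈ H := Subgroup.subset_closure (by simp)
  have hf : f ∈ H := Subgroup.subset_closure (by simp)
  have htp : ∀ o, (Wr.tp (pos o) : W) ∈ H := by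
    intro o
    have h1 : (Wr.tp (pos o) : W) = t ^ (2 ^ (e o).val) := by
      change (Wr.tp (pos o) : W) = (Wr.tp (Multiplicative.ofAdd (1 : ZMod N))) ^ (2 ^ (e o).val)
      rw [← map_pow, ← ofAdd_nsmul]
      congr 1
      change Multiplicative.ofAdd ((2 ^ (e o).val : ℕ) : ZMod N) = _
      rw [nsmul_one]
    rw [h1]
    exact H.pow_mem ht _
  let F : Option P₁ → W := fun o => (Wr.tp (pos o))⁻¹ * f * Wr.tp (pos o)
  have hF : ∀ o, F o ∈ H := fun o => H.mul_mem (H.mul_mem (H.inv_mem (htp o)) hf) (htp o)
  have hFr : ∀ o, (F o).r = 1 := by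
    intro o
    change (pos o)⁻¹ * 1 * pos o = 1
    simp
  have hFl : ∀ o w, (F o).l w = fl (pos o * w) := by
    intro o w
    change ((1 : P₁ × Multiplicative (ZMod s)))⁻¹ * fl ((pos o)⁻¹⁻¹ * w) * 1 = fl (pos o * w)
    simp
  have hcom : ∀ i j : Option P₁, i ≠ j → ⁅F i, F j⁆ = Wr.sg 1 ⁅v i, v j⁆ := by
    intro i j hij
    have h1 := sid_comm (F i) (F j) (hFr i) (hFr j)
    refine Wr.ext ?_ (h1.2.trans (Wr.sg_r _ _).symm)
    funext w
    rw [h1.1, hFl, hFl]
    by_cases hw : w = 1
    · rw [hw, mul_one, mul_one, hfl, hfl, Wr.sg_l_same]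
    · rw [Wr.sg_l_ne hw]
      by_cases hi : ∃ o, pos o = pos i * w
      · by_cases hj : ∃ o, pos o = pos j * w
        · exfalso
          obtain ⟨a, ha⟩ := hi
          obtain ⟨b, hb⟩ := hj
          have h2 : pos a * pos j = pos b * pos i := by
            rw [ha, hb, mul_right_comm, mul_comm (pos i) (pos j), mul_right_comm (pos j) w (pos i)]
          rcases hsid a b i j h2 with ⟨h3, h4⟩ | ⟨h3, h4⟩
          · exact hij h4.symm
          · rw [h3] at ha
            exact hw (mul_left_cancel (a := pos i) (by rw [mul_one]; exact ha.symm))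
        · rw [hfl1 _ hj]
          simp
      · rw [hfl1 _ hi]
        simp
  have hle : commutator P₁ ≤ H.comap (sid_j P₁ (Multiplicative (ZMod s))
      (Multiplicative (ZMod N))) := by
    rw [commutator_def, Subgroup.commutator_le]
    intro g _ g' _
    rw [Subgroup.mem_comap]
    by_cases hg : g = g'
    · rw [hg, commutatorElement_self, map_one]
      exact H.one_mem
    · have h1 := hcom (some g) (some g') (fun h => hg (Option.some_injective _ h))
      have h2 : sid_j P₁ (Multiplicative (ZMod s)) (Multiplicative (ZMod N)) ⁅g, g'⁆ =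
          ⁅F (some g), F (some g')⁆ := by
        rw [h1]
        change Wr.sg 1 (⁅g, g'⁆, 1) = Wr.sg 1 ⁅((g, 1) : P₁ × Multiplicative (ZMod s)), (g', 1)⁆
        congr 1
        refine Prod.ext ?_ ?_
        · rfl
        · simp [commutatorElement_def]
      rw [h2, commutatorElement_def]
      exact H.mul_mem (H.mul_mem (H.mul_mem (hF _) (hF _)) (H.inv_mem (hF _))) (H.inv_mem (hF _))
  have hsN : s ∣ N := dvd_pow_self s (Nat.succ_ne_zero K)
  have hPW : IsPGroup s W := by
    refine sid_pgroup hs _ _ ?_ ?_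
    · have h1 : IsPGroup s (Multiplicative (ZMod s)) := by
        refine IsPGroup.iff_card.2 ⟨1, ?_⟩
        rw [pow_one]
        exact Nat.card_zmod s
      obtain ⟨a, ha⟩ := (IsPGroup.iff_card).1 hP
      obtain ⟨b, hb⟩ := (IsPGroup.iff_card).1 h1
      refine IsPGroup.iff_card.2 ⟨a + b, ?_⟩
      rw [Nat.card_prod, ha, hb, pow_add]
    · refine IsPGroup.iff_card.2 ⟨K + 1, ?_⟩
      exact Nat.card_zmod N
  refine ⟨H, inferInstance, inferInstance, ⟨t, ht⟩, ⟨f, hf⟩,
    (sid_pi s N hsN P₁).comp H.subtype,
    ((sid_j P₁ (Multiplicative (ZMod s)) (Multiplicative (ZMod N))).comp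
      (commutator P₁).subtype).codRestrict H (fun c => hle c.2), ?_, ?_, ?_, ?_, ?_⟩
  · exact hPW.to_subgroup H
  · have h1 : ({⟨t, ht⟩, ⟨f, hf⟩} : Set H) = (fun x : H => (x : W)) ⁻¹' {t, f} := by
      ext x
      simp only [Set.mem_insert_iff, Set.mem_singleton_iff, Set.mem_preimage, Subtype.ext_iff]
    rw [h1]
    exact Subgroup.closure_closure_coe_preimage
  · change Multiplicative.ofAdd (ZMod.castHom hsN (ZMod s) (1 : ZMod N),
      ∑ w : Multiplicative (ZMod N), Multiplicative.toAdd
        ((1 : P₁ × Multiplicative (ZMod s))).2) = _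
    congr 1
    refine Prod.ext ?_ ?_
    · exact map_one (ZMod.castHom hsN (ZMod s))
    · simp
  · change Multiplicative.ofAdd (ZMod.castHom hsN (ZMod s) (0 : ZMod N),
      ∑ w : Multiplicative (ZMod N), Multiplicative.toAdd (fl w).2) = _
    congr 1
    refine Prod.ext ?_ ?_
    · simp
    · change ∑ w : Multiplicative (ZMod N), Multiplicative.toAdd (fl w).2 = 1
      rw [Finset.sum_eq_single (pos none)]
      · rw [hfl]
        rfl
      · intro w _ hw
        by_cases h : ∃ o, pos o = w
        · obtain ⟨o, rfl⟩ := h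
          rw [hfl]
          cases o with
          | none => exact absurd rfl hw
          | some g => rfl
        · rw [hfl1 w h]
          rfl
      · intro h
        exact absurd (Finset.mem_univ _) h
  · intro c c' h
    have h1 : (Wr.sg 1 ((c : P₁), (1 : Multiplicative (ZMod s))) :
        Wr (P₁ × Multiplicative (ZMod s)) (Multiplicative (ZMod N))) = Wr.sg 1 ((c' : P₁), 1) :=
      congrArg Subtype.val h
    have h2 := congrFun (congrArg Wr.l h1) 1
    rw [Wr.sg_l_same, Wr.sg_l_same] at h2
    exact Subtype.ext (Prod.ext_iff.1 h2).1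

end Pool.Agent.NBA
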