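import Pool.Agent.NBA.TwoG
import Pool.Agent.NBA.Deep
import Pool.Agent.NBA.Sid

set_option autoImplicit false

/-! NBA-ExP. Every finite `s`-group embeds in a deep derived subgroup of a `2`-generator `s`-group
(composition of the embeddings of Deep, used twice, and Sid). -/

namespace Pool.Agent.NBA

theorem exP {s : ℕ} (hs : s.Prime) (k : ℕ) (P : Type) [Group P] [Finite P]
    (hP : IsPGroup s P) : ∃ (P₀ : Type) (_ : Group P₀) (_ : Finite P₀) (π₀ : P₀ →* M2 s)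
      (ι : P →* P₀), IsPGroup s P₀ ∧ Fr s P₀ π₀ ∧ Function.Injective ι ∧
      ∀ x, ι x ∈ derivedSeries P₀ k := by
  obtain ⟨P₂, hG₂, hF₂, ι₂, hP₂, hι₂, hd₂⟩ := deep hs k P hP
  obtain ⟨P₁, hG₁, hF₁, ι₁, hP₁, hι₁, hd₁⟩ := deep hs 1 P₂ hP₂
  obtain ⟨P₀, hG₀, hF₀, t, f, π₀, ι₀, hP₀, hgen, ht, hf, hι₀⟩ := two_gen hs P₁ hP₁
  have hc : ∀ x, ι₁ x ∈ commutator P₁ := by
    intro x
    have h := hd₁ x
    rw [derivedSeries_one] at h
    exact h
  let κ : P₂ →* commutator P₁ := ι₁.codRestrict (commutator P₁) hc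
  have hκ : Function.Injective κ := by
    intro x y h
    apply hι₁
    exact congrArg (fun z : commutator P₁ => (z : P₁)) h
  refine ⟨P₀, hG₀, hF₀, π₀, (ι₀.comp κ).comp ι₂, hP₀, fr_of_gen hs hP₀ t f hgen π₀ ht hf, ?_, ?_⟩
  · intro x y h
    exact hι₂ (hκ (hι₀ h))
  · intro x
    exact map_derivedSeries_le_derivedSeries (ι₀.comp κ) k (Subgroup.mem_map_of_mem _ (hd₂ x))

end Pool.Agent.NBA
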