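import Pool.Agent.NBA.Defs

set_option autoImplicit false

/-! NBA-WrE. Embedding a wreath product.
PLAN.  For `f : A → P` let `B f : Wr T Q` have `r = 1` and `l w = if w = φ c for some c : A then (σ c).l w * ι (f c) * ((σ c).l w)⁻¹ else 1` (`φ` is injective; write `σ c` for `(σ c : Wr T Q)`).
`B f ∈ X`: it is the product over `c : A` of the `Wr.sg (φ c) (...)` with the value in `Γ` (normal), which are in `X` (finite support: induction on a `Finset` of
`A`, the factors commute / have disjoint support; or show by induction that the restriction of `B f` to `S ⊆ A` is in `X`).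
`B (f * g) = B f * B g`, and `σ a * B f * (σ a)⁻¹ = B (fun c => f (a⁻¹ * c))`: at `w = φ (a c)`: `(σ a).l w * [(σ c).l (φ c) * ι (f c) * ..⁻¹] * ((σ a).l w)⁻¹` and
`(σ (a c)).l w = (σ a).l w * (σ c).l ((φ a)⁻¹ w)`, as `σ` is a homomorphism.  `F x = B x.l * σ x.r`: a homomorphism, injective: `(F x).r = φ x.r`, and
`ι`, conjugation injective. -/

namespace Pool.Agent.NBA

section

variable {T Q P A : Type} [Group T] [Group Q] [Group P] [Group A]

open Classical in
/-- the base part of the embedding -/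
private noncomputable def wreB (ι : P →* T) (φ : A →* Q) (s : A →* Wr T Q) (f : A → P) :
    Wr T Q :=
  ⟨fun w => if h : ∃ c, φ c = w then
    (s h.choose).l w * ι (f h.choose) * ((s h.choose).l w)⁻¹ else 1, 1⟩

private theorem wreB_r (ι : P →* T) (φ : A →* Q) (s : A →* Wr T Q) (f : A → P) :
    (wreB ι φ s f).r = 1 := rfl

private theorem wreB_at (ι : P →* T) {φ : A →* Q} (hφ : Function.Injective φ)
    (s : A →* Wr T Q) (f : A → P) (c : A) :
    (wreB ι φ s f).l (φ c) = (s c).l (φ c) * ι (f c) * ((s c).l (φ c))⁻¹ := by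
  have h : ∃ d, φ d = φ c := ⟨c, rfl⟩
  have h2 : h.choose = c := hφ h.choose_spec
  unfold wreB
  simp only [dif_pos h]
  rw [h2]

private theorem wreB_out (ι : P →* T) (φ : A →* Q) (s : A →* Wr T Q) (f : A → P) {w : Q}
    (h : ¬ ∃ c, φ c = w) : (wreB ι φ s f).l w = 1 := by
  unfold wreB
  simp only [dif_neg h]

private theorem wreB_mul (ι : P →* T) {φ : A →* Q} (hφ : Function.Injective φ)
    (s : A →* Wr T Q) (f g : A → P) :
    wreB ι φ s (fun c => f c * g c) = wreB ι φ s f * wreB ι φ s g := by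
  refine Wr.ext ?_ ?_
  · funext w
    rw [Wr.mul_l, wreB_r, inv_one, one_mul]
    by_cases h : ∃ c, φ c = w
    · obtain ⟨c, rfl⟩ := h
      rw [wreB_at ι hφ, wreB_at ι hφ, wreB_at ι hφ, map_mul]
      group
    · rw [wreB_out ι φ s _ h, wreB_out ι φ s _ h, wreB_out ι φ s _ h, one_mul]
  · rw [Wr.mul_r, wreB_r, wreB_r, wreB_r, one_mul]

private theorem wreB_conj (ι : P →* T) {φ : A →* Q} (hφ : Function.Injective φ)
    (s : A →* Wr T Q) (hs : ∀ a, (s a).r = φ a) (a : A) (g : A → P) :
    s a * wreB ι φ s g * (s a)⁻¹ = wreB ι φ s (fun c => g (a⁻¹ * c)) := by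
  refine Wr.ext ?_ ?_
  · funext w
    rw [Wr.mul_l, Wr.mul_l, Wr.inv_l, Wr.mul_r, wreB_r, hs, mul_one, mul_inv_cancel_left]
    by_cases h : ∃ c, φ c = w
    · obtain ⟨d, rfl⟩ := h
      have h1 : (φ a)⁻¹ * φ d = φ (a⁻¹ * d) := by rw [map_mul, map_inv]
      have h2 : (s d).l (φ d) = (s a).l (φ d) * (s (a⁻¹ * d)).l (φ (a⁻¹ * d)) := by
        have h3 : s d = s a * s (a⁻¹ * d) := by rw [← map_mul, mul_inv_cancel_left]
        rw [← h1, ← hs a, ← Wr.mul_l, ← h3]
      rw [h1, wreB_at ι hφ, wreB_at ι hφ, h2]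
      group
    · have h4 : ¬ ∃ c, φ c = (φ a)⁻¹ * w := by
        rintro ⟨c, hc⟩
        exact h ⟨a * c, by rw [map_mul, hc, mul_inv_cancel_left]⟩
      rw [wreB_out ι φ s _ h, wreB_out ι φ s _ h4, mul_one, mul_inv_cancel]
  · rw [Wr.mul_r, Wr.mul_r, Wr.inv_r, wreB_r, wreB_r, mul_one, mul_inv_cancel]

private theorem wreB_mem (X : Subgroup (Wr T Q)) (Γ : Subgroup T) (hΓ : Γ.Normal)
    (hX : ∀ w, ∀ x ∈ Γ, Wr.sg w x ∈ X) (ι : P →* T) (hιΓ : ∀ x, ι x ∈ Γ)
    {φ : A →* Q} (hφ : Function.Injective φ) (s : A →* Wr T Q) [Finite A] (f : A → P) :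
    wreB ι φ s f ∈ X := by
  classical
  let _ : Fintype A := Fintype.ofFinite A
  have key : ∀ S : Finset A, wreB ι φ s (fun c => if c ∈ S then f c else 1) ∈ X := by
    intro S
    induction S using Finset.induction_on with
    | empty =>
      have h1 : wreB ι φ s (fun c => if c ∈ (∅ : Finset A) then f c else 1) = 1 := by
        refine Wr.ext ?_ rfl
        funext w
        by_cases h : ∃ c, φ c = w
        · obtain ⟨c, rfl⟩ := h
          rw [wreB_at ι hφ, if_neg (Finset.notMem_empty c), map_one, mul_one, mul_inv_cancel,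
            Wr.one_l]
        · rw [wreB_out ι φ s _ h, Wr.one_l]
      rw [h1]
      exact X.one_mem
    | insert d S hd ih =>
      have h1 : wreB ι φ s (fun c => if c ∈ insert d S then f c else 1) =
          wreB ι φ s (fun c => if c ∈ S then f c else 1) *
            Wr.sg (φ d) ((s d).l (φ d) * ι (f d) * ((s d).l (φ d))⁻¹) := by
        refine Wr.ext ?_ ?_
        · funext w
          rw [Wr.mul_l, wreB_r, inv_one, one_mul]
          by_cases h : ∃ c, φ c = w
          · obtain ⟨c, rfl⟩ := h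
            rw [wreB_at ι hφ, wreB_at ι hφ]
            by_cases hcd : c = d
            · subst hcd
              rw [if_pos (Finset.mem_insert_self c S), if_neg hd, Wr.sg_l_same, map_one, mul_one,
                mul_inv_cancel, one_mul]
            · rw [Wr.sg_l_ne (fun h => hcd (hφ h)), mul_one]
              have h2 : (c ∈ insert d S) ↔ c ∈ S := by
                rw [Finset.mem_insert]
                constructor
                · rintro (h | h)
                  · exact absurd h hcd
                  · exact h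
                · exact Or.inr
              simp only [h2]
          · rw [wreB_out ι φ s _ h, wreB_out ι φ s _ h,
              Wr.sg_l_ne (fun h' => h ⟨d, h'.symm⟩), one_mul]
        · rw [Wr.mul_r, wreB_r, wreB_r, Wr.sg_r, one_mul]
      rw [h1]
      exact X.mul_mem ih (hX _ _ (hΓ.conj_mem _ (hιΓ _) _))
  have h := key Finset.univ
  have h2 : (fun c => if c ∈ (Finset.univ : Finset A) then f c else 1) = f := by
    funext c
    rw [if_pos (Finset.mem_univ c)]
  rwa [h2] at h

/-- the embedding into the wreath product -/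
private noncomputable def wreF (ι : P →* T) {φ : A →* Q} (hφ : Function.Injective φ)
    (s : A →* Wr T Q) (hs : ∀ a, (s a).r = φ a) : Wr P A →* Wr T Q :=
  MonoidHom.mk' (fun x => wreB ι φ s x.l * s x.r) (by
    intro x y
    have h1 : wreB ι φ s (x * y).l =
        wreB ι φ s x.l * wreB ι φ s (fun c => y.l (x.r⁻¹ * c)) := by
      rw [← wreB_mul ι hφ]
      rfl
    show wreB ι φ s (x * y).l * s (x * y).r = _
    rw [h1, ← wreB_conj ι hφ s hs, Wr.mul_r, map_mul]
    group)

end

theorem wr_embeds {T Q P A : Type} [Group T] [Group Q] [Group P] [Group A] [Finite A]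
    (X : Subgroup (Wr T Q)) (Γ : Subgroup T) (hΓ : Γ.Normal)
    (hX : ∀ w, ∀ x ∈ Γ, Wr.sg w x ∈ X) (ι : P →* T) (hι : Function.Injective ι)
    (hιΓ : ∀ x, ι x ∈ Γ) (σ : A →* X) (φ : A →* Q) (hφ : Function.Injective φ)
    (hσ : ∀ a, (σ a : Wr T Q).r = φ a) :
    ∃ F : Wr P A →* X, Function.Injective F ∧ ∀ x : Wr P A, (F x : Wr T Q).r = φ x.r := by
  classical
  set s : A →* Wr T Q := X.subtype.comp σ with hsdef
  have hs : ∀ a, (s a).r = φ a := hσ
  have hsX : ∀ a, s a ∈ X := fun a => (σ a).2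
  refine ⟨(wreF ι hφ s hs).codRestrict X (fun x =>
    X.mul_mem (wreB_mem X Γ hΓ hX ι hιΓ hφ s x.l) (hsX x.r)), ?_, ?_⟩
  · intro x y h
    have h1 : wreB ι φ s x.l * s x.r = wreB ι φ s y.l * s y.r := congrArg Subtype.val h
    have h2 : x.r = y.r := by
      have h3 := congrArg Wr.r h1
      rw [Wr.mul_r, Wr.mul_r, wreB_r, wreB_r, one_mul, one_mul, hs, hs] at h3
      exact hφ h3
    rw [h2] at h1
    have h4 := mul_right_cancel h1
    refine Wr.ext ?_ h2
    funext c
    have h5 := congrFun (congrArg Wr.l h4) (φ c)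
    rw [wreB_at ι hφ, wreB_at ι hφ] at h5
    exact hι (mul_left_cancel (mul_right_cancel h5))
  · intro x
    show (wreB ι φ s x.l * s x.r).r = φ x.r
    rw [Wr.mul_r, wreB_r, one_mul, hs]

end Pool.Agent.NBA
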