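import Pool.Agent.NBA.Pull
import Pool.Agent.NBA.Core
import Pool.Agent.NBA.ExP
import Pool.Agent.NBA.WrE
import Pool.Agent.NBA.Lft

set_option autoImplicit false

/-! NBA-LemR. From first-level data to second-level groups.
PLAN.  Unpack `HasDat`; `exP hs (Nat.card Q) P hP`: `P₀`, `π₀`, `ι`; `pull` (the order of `u` is coprime to `s` as `s ∣ N`); `core`: `Wr.sg w x ∈ X` for `x ∈ Γ = derivedSeries P₀ (Nat.card Q)` (normal: `derivedSeries_normal`).
`Wr.rt` restricted to `X` is onto `Q` with kernel a finite `s`-group (functions `Q → P₀`): `exists_section` for the embedding `φ : A →* Q`: `σ : A →* X`.  `wr_embeds`: `F`.  `Z` = the kernel of `Wr.rt` on `X`.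
`a' ≠ 1` as `(a').r ≠ 1`.  `(orderOf u').Coprime N` by `Nat.Coprime.coprime_dvd_left`. -/

namespace Pool.Agent.NBA

open Helper76.IG

private theorem LemR_pow {T Q : Type} [Group T] [Group Q] (y : Wr T Q) (hy : y.r = 1) (n : ℕ) :
    (y ^ n).r = 1 ∧ ∀ w, (y ^ n).l w = (y.l w) ^ n := by
  induction n with
  | zero =>
    refine ⟨by rw [pow_zero, Wr.one_r], fun w => ?_⟩
    rw [pow_zero, pow_zero, Wr.one_l]
  | succ n ih =>
    refine ⟨by rw [pow_succ, Wr.mul_r, ih.1, hy, one_mul], fun w => ?_⟩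
    rw [pow_succ, Wr.mul_l, ih.1, ih.2, inv_one, one_mul, pow_succ]

private theorem LemR_ker {s : ℕ} {T Q : Type} [Group T] [Group Q] [Finite T]
    (hs : s.Prime) (hT : IsPGroup s T) (X : Subgroup (Wr T Q)) :
    IsPGroup s ((Wr.rt : Wr T Q →* Q).comp X.subtype).ker := by
  have hf : Fact s.Prime := ⟨hs⟩
  obtain ⟨k, hk⟩ := IsPGroup.iff_card.1 hT
  intro y
  refine ⟨k, ?_⟩
  have h1 : ((y : X) : Wr T Q).r = 1 := y.2
  have h2 := LemR_pow ((y : X) : Wr T Q) h1 (s ^ k)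
  refine Subtype.ext (Subtype.ext (Wr.ext ?_ ?_))
  · funext w
    show (((y : X) : Wr T Q) ^ s ^ k).l w = (1 : Wr T Q).l w
    rw [h2.2, ← hk, pow_card_eq_one', Wr.one_l]
  · exact h2.1

theorem lemR {p q s N : ℕ} (hp : p.Prime) (hq : q.Prime) (hs : s.Prime) (hN : s ∣ N)
    {P A : Type} [Group P] [Group A] [Finite P] [Finite A] (hP : IsPGroup s P)
    (hA : (Nat.card A).Coprime s) (h : HasDat p q s N A) : HasX p q s N P A := by
  obtain ⟨G, Q, iG, iQ, fG, fQ, π, μ, a, b, u, D, hu, φ, hφ⟩ := h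
  obtain ⟨P₀, iP, fP, π₀, ι, hP0, hF, hι, hιd⟩ := exP hs (Nat.card Q) P hP
  have hus : (orderOf u).Coprime s := Nat.Coprime.coprime_dvd_right hN hu
  obtain ⟨X, a', b', u', hig, ha, hb, har, hbr, htop, h1, h2, hord, hpg, htop2⟩ :=
    pull hp hq hs D hus hP0 hF
  have hX : ∀ w, ∀ x ∈ derivedSeries P₀ (Nat.card Q), Wr.sg w x ∈ X :=
    fun w x hx => core hF X h1 h2 w x hx
  have hsurj : Function.Surjective ((Wr.rt : Wr P₀ Q →* Q).comp X.subtype) := by
    intro w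
    obtain ⟨x, hx, hxw⟩ := htop w
    exact ⟨⟨x, hx⟩, hxw⟩
  have hker := LemR_ker hs hP0 X
  obtain ⟨σ, hσ⟩ := exists_section hs _ hsurj hker hA φ
  obtain ⟨F, hFi, hFr⟩ := wr_embeds X (derivedSeries P₀ (Nat.card Q)) inferInstance hX ι hι hιd σ φ hφ hσ
  refine ⟨X, inferInstance, inferInstance, a', b', u', F, ((Wr.rt : Wr P₀ Q →* Q).comp X.subtype).ker,
    hig, ha, hb, ?_, ?_, Nat.Coprime.coprime_dvd_left hord hu, hpg, htop2, hFi, inferInstance, hker, ?_⟩
  · intro h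
    apply har
    rw [h]
    rfl
  · intro h
    apply hbr
    rw [h]
    rfl
  · intro x hx
    show (F x : Wr P₀ Q).r = 1
    rw [hFr, hx, map_one]

end Pool.Agent.NBA
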