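import Pool.Agent.NBA.Defs
import Mathlib.NumberTheory.LSeries.PrimesInAP

set_option autoImplicit false

/-! NBA-Sel. Choice of the prime `ℓ`.
PLAN.  Dirichlet: `Nat.forall_exists_prime_gt_and_eq_mod`.  `p`, `q` are odd.  Modulus `m₁ = q ^ (e + 1)` with residue `-1`; modulus `m₂`, prime to `q`, with residue `1`: if `s ≠ 2`: `m₂ = 2 * s ^ 2 * p * t ^ e`, if `s = 2` (then `t` is odd): residue `1 + 4 * w` modulo `8 * w`, `w = p * t ^ e` odd; the factor `t ^ e` is dropped if `t = q`.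
Chinese remainder (`Nat.chineseRemainder`).
`l ≡ 5 (mod 8)` gives `4 ∣ l - 1`, so for `s = 2`, `t` odd, `t ≠ q`: `2 * t ^ e ∣ l - 1`.  `l > N`. -/

namespace Pool.Agent.NBA

/-- Dirichlet for two coprime moduli -/
private theorem Sel_dir {m n a b : ℕ} (hm : m ≠ 0) (hn : n ≠ 0) (hmn : m.Coprime n) (ha : a.Coprime m) (hb : b.Coprime n)
    (N : ℕ) : ∃ l, l.Prime ∧ N < l ∧ l ≡ a [MOD m] ∧ l ≡ b [MOD n] := by
  obtain ⟨c, hc1, hc2⟩ := Nat.chineseRemainder hmn a b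
  have h1 : c.Coprime m := by
    rw [Nat.coprime_iff_gcd_eq_one, hc1.gcd_eq]; exact ha
  have h2 : c.Coprime n := by
    rw [Nat.coprime_iff_gcd_eq_one, hc2.gcd_eq]; exact hb
  obtain ⟨l, hl, hlp, hlc⟩ := Nat.forall_exists_prime_gt_and_modEq N (mul_ne_zero hm hn) (Nat.Coprime.mul_right h1 h2)
  exact ⟨l, hlp, hl, (hlc.of_mul_right n).trans hc1, (hlc.of_mul_left m).trans hc2⟩

private theorem Sel_sub {l m : ℕ} (hl : 1 ≤ l) (h : l ≡ 1 [MOD m]) : m ∣ l - 1 :=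
  (Nat.modEq_iff_dvd' hl).1 h.symm

private theorem Sel_add {l m : ℕ} (hm : 1 ≤ m) (h : l ≡ m - 1 [MOD m]) : m ∣ l + 1 := by
  have h2 : l + 1 ≡ m - 1 + 1 [MOD m] := h.add_right 1
  rw [Nat.sub_add_cancel hm] at h2
  exact (Nat.modEq_zero_iff_dvd.1 (h2.trans (by simp [Nat.ModEq])))

private theorem Sel_copr {m : ℕ} (hm : 1 ≤ m) : (m - 1).Coprime m := by
  have h : (m - 1).Coprime (m - 1 + 1) := by simp
  rwa [Nat.sub_add_cancel hm] at h

theorem sel {p q s t e N : ℕ} (hp : p.Prime) (hq : q.Prime) (hs : s.Prime) (ht : t.Prime)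
    (hp2 : p ≠ 2) (hq2 : q ≠ 2) (hpq : p ≠ q) (hsq : s ≠ q) (hts : t ≠ s) :
    ∃ l, l.Prime ∧ N < l ∧ p ∣ l - 1 ∧ q ∣ l + 1 ∧ (s = 2 → l % 8 = 5) ∧
      (s ≠ 2 → s ^ 2 ∣ l - 1) ∧ (2 * t ^ e ∣ l - 1 ∨ (Odd t ∧ t ^ e ∣ l + 1)) := by
  have hpo : Odd p := hp.odd_of_ne_two hp2
  have hqo : Odd q := hq.odd_of_ne_two hq2
  have h2q : Nat.Coprime 2 q := (Nat.coprime_primes Nat.prime_two hq).2 (Ne.symm hq2)
  have hpq' : Nat.Coprime p q := (Nat.coprime_primes hp hq).2 hpq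
  have hsq' : Nat.Coprime s q := (Nat.coprime_primes hs hq).2 hsq
  have hm1 : 1 ≤ q ^ (e + 1) := Nat.one_le_pow _ _ hq.pos
  have hq1 : q ∣ q ^ (e + 1) := dvd_pow_self q (Nat.succ_ne_zero e)
  -- the factor t ^ e
  obtain ⟨w, hw0, hwq, hwo, hwt⟩ : ∃ w : ℕ, w ≠ 0 ∧ Nat.Coprime w q ∧ (t ≠ 2 → Odd w) ∧
      ((w = t ^ e) ∨ (t = q)) := by
    by_cases htq : t = q
    · exact ⟨1, one_ne_zero, Nat.coprime_one_left q, fun _ => odd_one, Or.inr htq⟩
    · exact ⟨t ^ e, pow_ne_zero _ ht.ne_zero, Nat.Coprime.pow_left e ((Nat.coprime_primes ht hq).2 htq),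
        fun h => (ht.odd_of_ne_two h).pow, Or.inl rfl⟩
  have hleft : ∀ l : ℕ, l ≡ q ^ (e + 1) - 1 [MOD q ^ (e + 1)] → q ∣ l + 1 ∧ (t = q → t ^ e ∣ l + 1) := by
    intro l hl
    have h := Sel_add hm1 hl
    refine ⟨hq1.trans h, fun htq => ?_⟩
    rw [htq]
    exact (pow_dvd_pow q (Nat.le_succ e)).trans h
  by_cases hs2 : s = 2
  · -- s = 2
    have ht2 : t ≠ 2 := fun h => hts (h.trans hs2.symm)
    have hwodd : Odd (p * w) := hpo.mul (hwo ht2)
    have hc1 : Nat.Coprime (q ^ (e + 1)) (8 * (p * w)) := by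
      refine Nat.Coprime.pow_left _ (Nat.Coprime.mul_right ?_ (Nat.Coprime.mul_right hpq'.symm hwq.symm))
      have h8 : Nat.Coprime (2 ^ 3) q := Nat.Coprime.pow_left 3 h2q
      exact (by simpa using h8.symm : Nat.Coprime q 8)
    have hc2 : Nat.Coprime (1 + 4 * (p * w)) (8 * (p * w)) := by
      refine Nat.Coprime.mul_right ?_ ?_
      · have h2 : Nat.Coprime (1 + 4 * (p * w)) 2 := by
          rw [Nat.coprime_comm, Nat.coprime_two_left]
          exact ⟨2 * (p * w), by ring⟩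
        have := Nat.Coprime.pow_right 3 h2
        simpa using this
      · simp
    obtain ⟨l, hlp, hlN, hla, hlb⟩ := Sel_dir (m := q ^ (e + 1)) (n := 8 * (p * w)) (by omega)
      (mul_ne_zero (by norm_num) (mul_ne_zero hp.ne_zero hw0)) hc1 (Sel_copr hm1) hc2 N
    have hl1 : 1 ≤ l := hlp.one_lt.le
    obtain ⟨hq3, ht3⟩ := hleft l hla
    have h8 : l % 8 = 5 := by
      have h1 : l ≡ 1 + 4 * (p * w) [MOD 8] := hlb.of_mul_right (p * w)
      obtain ⟨k, hk⟩ := hwodd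
      rw [hk] at h1
      unfold Nat.ModEq at h1
      omega
    have hpw : p * w ∣ l - 1 := by
      refine Sel_sub hl1 ?_
      have h1 : l ≡ 1 + 4 * (p * w) [MOD p * w] := hlb.of_mul_left 8
      refine h1.trans ?_
      have h2 : 1 + 4 * (p * w) ≡ 1 + 0 [MOD p * w] := Nat.ModEq.add_left 1 (Nat.modEq_zero_iff_dvd.2 (Dvd.intro_left 4 rfl))
      simpa using h2
    refine ⟨l, hlp, hlN, (Dvd.intro w rfl).trans hpw, hq3, fun _ => h8, fun h => absurd hs2 h, ?_⟩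
    rcases hwt with hwt | htq
    · left
      refine Nat.Coprime.mul_dvd_of_dvd_of_dvd ?_ ?_ ?_
      · exact Nat.Coprime.pow_right e ((Nat.coprime_primes Nat.prime_two ht).2 (Ne.symm ht2))
      · omega
      · rw [← hwt]; exact (Dvd.intro_left p rfl).trans hpw
    · right
      exact ⟨htq ▸ hqo, ht3 htq⟩
  · -- s ≠ 2
    have hc1 : Nat.Coprime (q ^ (e + 1)) (2 * (s ^ 2 * (p * w))) :=
      Nat.Coprime.pow_left _ (Nat.Coprime.mul_right h2q.symm (Nat.Coprime.mul_right (Nat.Coprime.pow_right 2 hsq'.symm)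
        (Nat.Coprime.mul_right hpq'.symm hwq.symm)))
    obtain ⟨l, hlp, hlN, hla, hlb⟩ := Sel_dir (m := q ^ (e + 1)) (n := 2 * (s ^ 2 * (p * w))) (by omega)
      (mul_ne_zero (by norm_num) (mul_ne_zero (pow_ne_zero _ hs.ne_zero) (mul_ne_zero hp.ne_zero hw0))) hc1 (Sel_copr hm1)
      (Nat.coprime_one_left _) N
    have hl1 : 1 ≤ l := hlp.one_lt.le
    obtain ⟨hq3, ht3⟩ := hleft l hla
    have hd : 2 * (s ^ 2 * (p * w)) ∣ l - 1 := Sel_sub hl1 hlb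
    refine ⟨l, hlp, hlN, ?_, hq3, fun h => absurd h hs2, fun _ => ?_, ?_⟩
    · exact (Dvd.intro (2 * s ^ 2 * w) (by ring)).trans hd
    · exact (Dvd.intro (2 * (p * w)) (by ring)).trans hd
    · rcases hwt with hwt | htq
      · left
        rw [← hwt]
        exact (Dvd.intro (s ^ 2 * p) (by ring)).trans hd
      · right
        exact ⟨htq ▸ hqo, ht3 htq⟩

end Pool.Agent.NBA
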