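import Pool.Agent.NBA.Base
import Pool.Agent.NBA.Sel
import Pool.Agent.NBA.DInd
import Pool.Agent.NBA.LemR

set_option autoImplicit false

/-! NBA-HXa. Second-level groups for all abelian `A`: the case `s ≠ q`, and the case `s = q` by exchanging `p` and `q`. -/

namespace Pool.Agent.NBA

open Helper76.IG

private theorem HXa_ne {p q s N : ℕ} (hp : p.Prime) (hq : q.Prime) (hs : s.Prime) (hne : p ≠ q)
    (hpq : 2 * (p + q) < p * q) (hsq : s ≠ q) (hN : 0 < N) {P A : Type} [Group P] [CommGroup A]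
    [Finite P] [Finite A] (hP : IsPGroup s P) (hA : (Nat.card A).Coprime s) :
    HasX p q s (N * s) P A := by
  have hp2 : p ≠ 2 := by
    rintro rfl
    omega
  have hq2 : q ≠ 2 := by
    rintro rfl
    omega
  have hbase : ∀ t e N : ℕ, t.Prime → t ≠ s → 0 < N →
      HasDat p q s N (Multiplicative (ZMod (t ^ e))) := by
    intro t e N ht hts hN
    obtain ⟨l, hl, hNl, h1, h2, h3, h4, h5⟩ := sel (t := t) (e := e) (N := N + 22154) hp hq hs ht
      hp2 hq2 hne hsq hts
    have : Fact l.Prime := ⟨hl⟩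
    exact base hp hq hs ht hpq hsq (by omega) hN (by omega) h1 h2 h3 h4 h5
  exact lemR hp hq hs (Dvd.intro_left N rfl) hP hA
    (hasDat_ab hp hq hs hbase hA (Nat.mul_pos hN hs.pos))

private theorem HXa_symm {p q s N : ℕ} {P A : Type} [Group P] [Group A]
    (h : HasX q p s N P A) : HasX p q s N P A := by
  obtain ⟨X, iX, fX, a, b, u, F, Z, h1, h2, h3, h4, h5, h6, h7, h8, h9, h10, h11, h12⟩ := h
  exact ⟨X, iX, fX, b, a, u, F, Z, h1.symm, h3, h2, h5, h4, h6, h7, fun e1 e2 => h8 e2 e1, h9, h10,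
    h11, h12⟩

theorem hasX_all {p q s N : ℕ} (hp : p.Prime) (hq : q.Prime) (hs : s.Prime) (hne : p ≠ q)
    (hpq : 2 * (p + q) < p * q) (hN : 0 < N) {P A : Type} [Group P] [CommGroup A] [Finite P]
    [Finite A] (hP : IsPGroup s P) (hA : (Nat.card A).Coprime s) :
    HasX p q s (N * s) P A := by
  by_cases hsq : s = q
  · have hsp : s ≠ p := fun h => hne (h.symm.trans hsq)
    refine HXa_symm (HXa_ne hq hp hs hne.symm ?_ hsp hN hP hA)
    rw [add_comm, mul_comm q p]
    exact hpq
  · exact HXa_ne hp hq hs hne hpq hsq hN hP hA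

end Pool.Agent.NBA
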