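import Pool.Agent.NBA.Prd
import Pool.Agent.NBA.HXa

set_option autoImplicit false

/-! NBA-Cov. Products of second-level groups.
PLAN.  It is enough to treat the finset `insert p (insert q S)` (the condition for a larger finset is stronger).  `hasX_all` with `N = p * q * Nat.card X₀` for the next factor.
(1) `X_p` for `s = p` with `N = p * q`: the order of `u_p` is prime to `q`, `X_p ⧸ normalClosure {u_p}` is a `p`-group, so every `f : X_p →* Multiplicative (ZMod q)` is trivial (`f u_p = 1`, so `f` factors through a `p`-group).  (2) `X_q` for `s = q` with `N = p q * Nat.card X_p`: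
`prod_ig` with `t = q`.  (3) induction on the finset `S` of the other primes: `X × X_s`, `s ≠ p, q`, `normalClosure {u_s} = ⊤`: `prod_ig` with a prime `t` which does not divide `Nat.card X`.
For each prime `s` the homomorphism `H →* X_s` is `f s` followed by `F`: kernel as for `f s`.  The product homomorphism `h ↦ (.., F_s (f s h), ..)`.  In the product the set `Z` = product of the `Z_s` is normal, soluble; record that if all `(f s h).r = 1` for the `s ∈ S` then the image is in `Z`. -/

namespace Pool.Agent.NBA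

open Helper76.IG

/-- `H` maps to a group that is invariably generated by elements of orders `p`, `q`, with the kernel
consisting of elements of order prime to the members of `S`; `H₀` is the part that is mapped into
the nilpotent normal subgroup `Z` -/
def Cov (p q : ℕ) (S : Finset ℕ) (H : Type) [Group H] (H₀ : Set H) : Prop :=
  ∃ (X : Type) (_ : Group X) (_ : Finite X) (a b : X) (F : H →* X) (Z : Subgroup X),
    InvGen a b ∧ a ^ p = 1 ∧ b ^ q = 1 ∧ a ≠ 1 ∧ b ≠ 1 ∧
    (∀ h, F h = 1 → ∀ s ∈ S, (orderOf h).Coprime s) ∧ Z.Normal ∧ Group.IsSolvable Z ∧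
    ∀ h ∈ H₀, F h ∈ Z

/-- one factor -/
private theorem cov_one {p q : ℕ} (hp : p.Prime) (hq : q.Prime) (hne : p ≠ q)
    (hpq : 2 * (p + q) < p * q) {H : Type} [Group H] [Finite H] (H₀ : Set H)
    (h : ∀ s : ℕ, s.Prime → ∃ (P A : Type) (_ : Group P) (_ : CommGroup A) (_ : Finite P)
      (_ : Finite A) (f : H →* Wr P A), IsPGroup s P ∧ (Nat.card A).Coprime s ∧
      (∀ x, f x = 1 → (orderOf x).Coprime s) ∧ ∀ x ∈ H₀, (f x).r = 1)
    {s N : ℕ} (hs : s.Prime) (hN : 0 < N) :
    ∃ (X : Type) (_ : Group X) (_ : Finite X) (a b u : X) (F : H →* X) (Z : Subgroup X),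
      InvGen a b ∧ a ^ p = 1 ∧ b ^ q = 1 ∧ a ≠ 1 ∧ b ≠ 1 ∧ (orderOf u).Coprime (N * s) ∧
      IsPGroup s (X ⧸ Subgroup.normalClosure {u}) ∧
      (s ≠ p → s ≠ q → Subgroup.normalClosure {u} = ⊤) ∧
      (∀ h, F h = 1 → (orderOf h).Coprime s) ∧ Z.Normal ∧ Group.IsSolvable Z ∧
      ∀ h ∈ H₀, F h ∈ Z := by
  obtain ⟨P, A, iP, iA, fP, fA, f, hP, hA, hf, hf0⟩ := h s hs
  obtain ⟨X, iX, fX, a, b, u, F, Z, h1, h2, h3, h4, h5, h6, h7, h8, h9, h10, h11, h12⟩ :=
    hasX_all hp hq hs hne hpq hN hP hA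
  refine ⟨X, iX, fX, a, b, u, F.comp f, Z, h1, h2, h3, h4, h5, h6, h7, h8, ?_, h10, ?_, ?_⟩
  · intro x hx
    refine hf x (h9 ?_)
    rw [map_one]
    exact hx
  · have : Fact s.Prime := ⟨hs⟩
    have : Group.IsNilpotent Z := IsPGroup.isNilpotent h11
    infer_instance
  · intro x hx
    exact h12 _ (hf0 x hx)

/-- the trivial homomorphisms to a group of prime order -/
private theorem cov_hom {p q : ℕ} (hp : p.Prime) (hq : q.Prime) (hne : p ≠ q) {X : Type}
    [Group X] (u : X) (hu : (orderOf u).Coprime q)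
    (hR : IsPGroup p (X ⧸ Subgroup.normalClosure {u}))
    (f : X →* Multiplicative (ZMod q)) : f = 1 := by
  have hcard : Nat.card (Multiplicative (ZMod q)) = q := by
    rw [Nat.card_congr Multiplicative.toAdd, Nat.card_zmod]
  have hq' : ∀ y : Multiplicative (ZMod q), y ^ q = 1 := by
    intro y
    have h1 := pow_card_eq_one' (x := y)
    rw [hcard] at h1
    exact h1
  have hfu : f u = 1 := by
    have h1 : orderOf (f u) ∣ orderOf u := orderOf_map_dvd f u
    have h2 : orderOf (f u) ∣ q := orderOf_dvd_of_pow_eq_one (hq' _)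
    have h3 : orderOf (f u) ∣ 1 := by
      rw [← hu]
      exact Nat.dvd_gcd h1 h2
    exact orderOf_eq_one_iff.1 (Nat.dvd_one.1 h3)
  have hker : Subgroup.normalClosure {u} ≤ f.ker := by
    refine Subgroup.normalClosure_le_normal ?_
    rw [Set.singleton_subset_iff]
    exact hfu
  refine MonoidHom.ext fun x => ?_
  obtain ⟨j, hj⟩ := hR (QuotientGroup.mk x)
  rw [← QuotientGroup.mk_pow, QuotientGroup.eq_one_iff] at hj
  have h1 : f x ^ p ^ j = 1 := by
    rw [← map_pow]
    exact hker hj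
  have h2 : orderOf (f x) ∣ p ^ j := orderOf_dvd_of_pow_eq_one h1
  have h3 : orderOf (f x) ∣ q := orderOf_dvd_of_pow_eq_one (hq' _)
  have h4 : (p ^ j).Coprime q := ((Nat.coprime_primes hp hq).2 hne).pow_left j
  have h5 : orderOf (f x) ∣ 1 := by
    rw [← h4]
    exact Nat.dvd_gcd h2 h3
  rw [MonoidHom.one_apply]
  exact orderOf_eq_one_iff.1 (Nat.dvd_one.1 h5)

/-- the product with one more factor -/
private theorem cov_step {p q : ℕ} (hp : p.Prime) (hq : q.Prime) (hne : p ≠ q)
    (hpq : 2 * (p + q) < p * q) {H : Type} [Group H] [Finite H] (H₀ : Set H)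
    (h : ∀ s : ℕ, s.Prime → ∃ (P A : Type) (_ : Group P) (_ : CommGroup A) (_ : Finite P)
      (_ : Finite A) (f : H →* Wr P A), IsPGroup s P ∧ (Nat.card A).Coprime s ∧
      (∀ x, f x = 1 → (orderOf x).Coprime s) ∧ ∀ x ∈ H₀, (f x).r = 1)
    {s t : ℕ} (hs : s.Prime) (ht : t.Prime)
    {X : Type} [Group X] [Finite X] {a b : X} (F : H →* X) (Z : Subgroup X)
    (T : Finset ℕ) (h1 : InvGen a b) (h2 : a ^ p = 1) (h3 : b ^ q = 1) (h4 : a ≠ 1) (h5 : b ≠ 1)
    (h6 : ∀ h, F h = 1 → ∀ s ∈ T, (orderOf h).Coprime s) (h7 : Z.Normal)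
    (h8 : Group.IsSolvable Z) (h9 : ∀ h ∈ H₀, F h ∈ Z)
    (hst : s = t ∨ (s ≠ p ∧ s ≠ q))
    (hX : ∀ f : X →* Multiplicative (ZMod t), f = 1) :
    Cov p q (insert s T) H H₀ := by
  obtain ⟨X', iX', fX', a', b', u', F', Z', k1, k2, k3, k4, k5, k6, k7, k8, k9, k10, k11, k12⟩ :=
    cov_one hp hq hne hpq H₀ h hs (N := Nat.card X) Nat.card_pos
  have hig : InvGen ((a, a') : X × X') (b, b') := by
    refine prod_ig ht h1 k1 u' (k6.coprime_dvd_right (Dvd.intro _ rfl)) ?_ hX
    rcases hst with rfl | ⟨hsp, hsq⟩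
    · exact k7
    · have htop := k8 hsp hsq
      intro x
      obtain ⟨x, rfl⟩ := QuotientGroup.mk_surjective x
      refine ⟨0, ?_⟩
      rw [pow_zero, pow_one, QuotientGroup.eq_one_iff, htop]
      exact Subgroup.mem_top x
  refine ⟨X × X', inferInstance, inferInstance, (a, a'), (b, b'), F.prod F', Z.prod Z', hig,
    ?_, ?_, ?_, ?_, ?_, ?_, ?_, ?_⟩
  · rw [Prod.pow_mk, h2, k2]
    rfl
  · rw [Prod.pow_mk, h3, k3]
    rfl
  · intro h0
    exact h4 (congrArg Prod.fst h0)
  · intro h0
    exact h5 (congrArg Prod.fst h0)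
  · intro x hx r hr
    have hx1 : F x = 1 := congrArg Prod.fst hx
    have hx2 : F' x = 1 := congrArg Prod.snd hx
    rcases Finset.mem_insert.1 hr with rfl | hr
    · exact k9 x hx2
    · exact h6 x hx1 r hr
  · exact Subgroup.prod_normal Z Z'
  · have e := Subgroup.prodEquiv Z Z'
    exact Group.isSolvable_of_isSolvable_injective (f := e.toMonoidHom) e.injective
  · intro x hx
    exact Subgroup.mem_prod.2 ⟨h9 x hx, k12 x hx⟩

theorem cov_all {p q : ℕ} (hp : p.Prime) (hq : q.Prime) (hne : p ≠ q)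
    (hpq : 2 * (p + q) < p * q) {H : Type} [Group H] [Finite H] (H₀ : Set H)
    (h : ∀ s : ℕ, s.Prime → ∃ (P A : Type) (_ : Group P) (_ : CommGroup A) (_ : Finite P)
      (_ : Finite A) (f : H →* Wr P A), IsPGroup s P ∧ (Nat.card A).Coprime s ∧
      (∀ x, f x = 1 → (orderOf x).Coprime s) ∧ ∀ x ∈ H₀, (f x).r = 1)
    (S : Finset ℕ) (hS : ∀ s ∈ S, s.Prime) : Cov p q S H H₀ := by
  classical
  have base : Cov p q (insert q {p}) H H₀ := by
    obtain ⟨X, iX, fX, a, b, u, F, Z, k1, k2, k3, k4, k5, k6, k7, k8, k9, k10, k11, k12⟩ :=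
      cov_one hp hq hne hpq H₀ h hp (N := q) hq.pos
    refine cov_step hp hq hne hpq H₀ h hq hq F Z {p} k1 k2 k3 k4 k5 ?_ k10 k11 k12 (Or.inl rfl) ?_
    · intro x hx s hs
      rw [Finset.mem_singleton.1 hs]
      exact k9 x hx
    · exact cov_hom hp hq hne u (k6.coprime_dvd_right (Dvd.intro _ rfl)) k7
  have ind : ∀ S : Finset ℕ, (∀ s ∈ S, s.Prime) → Cov p q (S ∪ insert q {p}) H H₀ := by
    intro S
    induction S using Finset.induction_on with
    | empty =>
      intro _
      rw [Finset.empty_union]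
      exact base
    | insert s S hsS ih =>
      intro hS
      have ih' := ih fun r hr => hS r (Finset.mem_insert_of_mem hr)
      rw [Finset.insert_union]
      by_cases hs : s ∈ S ∪ insert q {p}
      · rw [Finset.insert_eq_of_mem hs]
        exact ih'
      · have hsp : s ≠ p := by
          rintro rfl
          exact hs (Finset.mem_union_right _ (Finset.mem_insert_of_mem
            (Finset.mem_singleton_self _)))
        have hsq : s ≠ q := by
          rintro rfl
          exact hs (Finset.mem_union_right _ (Finset.mem_insert_self _ _))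
        obtain ⟨X, iX, fX, a, b, F, Z, k1, k2, k3, k4, k5, k6, k7, k8, k9⟩ := ih'
        obtain ⟨t, htX, ht⟩ := Nat.exists_infinite_primes (Nat.card X + 1)
        refine cov_step hp hq hne hpq H₀ h (hS s (Finset.mem_insert_self _ _)) ht F Z _ k1 k2 k3
          k4 k5 k6 k7 k8 k9 (Or.inr ⟨hsp, hsq⟩) ?_
        intro f
        refine MonoidHom.ext fun x => ?_
        have hcard : Nat.card (Multiplicative (ZMod t)) = t := by
          rw [Nat.card_congr Multiplicative.toAdd, Nat.card_zmod]
        have h1 : orderOf (f x) ∣ Nat.card X :=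
          (orderOf_map_dvd f x).trans (orderOf_dvd_natCard x)
        have h2 : orderOf (f x) ∣ t := by
          have h3 := orderOf_dvd_natCard (f x)
          rw [hcard] at h3
          exact h3
        rw [MonoidHom.one_apply]
        rcases (Nat.dvd_prime ht).1 h2 with h3 | h3
        · exact orderOf_eq_one_iff.1 h3
        · rw [h3] at h1
          have := Nat.le_of_dvd Nat.card_pos h1
          omega
  obtain ⟨X, iX, fX, a, b, F, Z, k1, k2, k3, k4, k5, k6, k7, k8, k9⟩ := ind S hS
  exact ⟨X, iX, fX, a, b, F, Z, k1, k2, k3, k4, k5,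
    fun x hx s hs => k6 x hx s (Finset.mem_union_left _ hs), k7, k8, k9⟩

end Pool.Agent.NBA
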