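import Pool.Agent.NBA.Prd

set_option autoImplicit false

/-! NBA-DPrd. Products of first-level data.
PLAN.  Unpack `h₁` (with `N`) and `h₂ (N * Nat.card G₁ * ...)`: the order of `u₂` is coprime to `N` and to `Nat.card G₁`.  `G = G₁ × G₂`, `Q = Q₁ × Q₂`, `π = π₁.prodMap π₂`, `μ (k₁, k₂) = μ₁ k₁ * μ₂ k₂` (the kernel of `π` consists of the pairs of elements of the kernels), `a = (a₁, a₂)`, `b`, `u` similarly.
`ig`: `prod_ig` with a prime `t` which does not divide `Nat.card G₁` (then every `f : G₁ →* Multiplicative (ZMod t)` is trivial), `normalClosure {u₂} = ⊤`.  `ker`: a product of `s`-groups.  `musurj`: already on `k₁`.  `sep`: for `g = (g₁, g₂)` apply the hypothesis to `k = (k₁, 1)` to get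
the hypothesis of `sep` for `g₁`, and to `(1, k₂)`.  `nc`: the orders of `u₁`, `u₂` are coprime (`orderOf u₁ ∣ Nat.card G₁`), so `(u₁, 1)` and `(1, u₂)` are powers of `u` and `normalClosure {u} ⊇ normalClosure {u₁} × 1` etc.
Order of `u`: `Prod.orderOf`, lcm. -/

namespace Pool.Agent.NBA

open Helper76.IG

/-- first component of an element of the kernel -/
private def dprd_c1 {A B C D : Type} [Group A] [Group B] [Group C] [Group D] (f : A →* C)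
    (g : B →* D) : (f.prodMap g).ker →* f.ker where
  toFun x := ⟨x.1.1, congrArg Prod.fst (MonoidHom.mem_ker.1 x.2)⟩
  map_one' := rfl
  map_mul' _ _ := rfl

/-- second component of an element of the kernel -/
private def dprd_c2 {A B C D : Type} [Group A] [Group B] [Group C] [Group D] (f : A →* C)
    (g : B →* D) : (f.prodMap g).ker →* g.ker where
  toFun x := ⟨x.1.2, congrArg Prod.snd (MonoidHom.mem_ker.1 x.2)⟩
  map_one' := rfl
  map_mul' _ _ := rfl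

private theorem dprd_trivial {t : ℕ} (ht : t.Prime) {X : Type} [Group X] [Finite X]
    (hc : ¬ t ∣ Nat.card X) (f : X →* Multiplicative (ZMod t)) : f = 1 := by
  have : Fact t.Prime := ⟨ht⟩
  refine MonoidHom.ext fun x => ?_
  have h1 : orderOf (f x) ∣ Nat.card X := (orderOf_map_dvd f x).trans (orderOf_dvd_natCard x)
  have h2 : orderOf (f x) ∣ t := by
    have h3 := orderOf_dvd_natCard (f x)
    rwa [Nat.card_congr Multiplicative.toAdd, Nat.card_zmod] at h3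
  rcases (Nat.dvd_prime ht).1 h2 with h | h
  · exact orderOf_eq_one_iff.1 h
  · exact absurd (h ▸ h1) hc

private theorem dprd_pow {A B : Type} [Group A] [Group B] {u : A} {v : B}
    (h : (orderOf u).Coprime (orderOf v)) : ∃ n : ℕ, ((u, v) : A × B) ^ n = (u, 1) := by
  let n := Nat.chineseRemainder h 1 0
  refine ⟨(n : ℕ), ?_⟩
  have h2 : u ^ (n : ℕ) = u := by
    have h3 := pow_eq_pow_iff_modEq.2 n.2.1
    rw [pow_one] at h3
    exact h3
  have h4 : v ^ (n : ℕ) = 1 := by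
    have h3 := pow_eq_pow_iff_modEq.2 n.2.2
    rw [pow_zero] at h3
    exact h3
  rw [Prod.pow_mk, h2, h4]

private theorem dprd_pow' {A B : Type} [Group A] [Group B] {u : A} {v : B}
    (h : (orderOf u).Coprime (orderOf v)) : ∃ n : ℕ, ((u, v) : A × B) ^ n = (1, v) := by
  let n := Nat.chineseRemainder h 0 1
  refine ⟨(n : ℕ), ?_⟩
  have h2 : u ^ (n : ℕ) = 1 := by
    have h3 := pow_eq_pow_iff_modEq.2 n.2.1
    rw [pow_zero] at h3
    exact h3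
  have h4 : v ^ (n : ℕ) = v := by
    have h3 := pow_eq_pow_iff_modEq.2 n.2.2
    rw [pow_one] at h3
    exact h3
  rw [Prod.pow_mk, h2, h4]

private theorem dprd_nc {A B : Type} [Group A] [Group B] {u : A} {v : B}
    (h : (orderOf u).Coprime (orderOf v)) (hu : Subgroup.normalClosure {u} = ⊤)
    (hv : Subgroup.normalClosure {v} = ⊤) :
    Subgroup.normalClosure {((u, v) : A × B)} = ⊤ := by
  set R := Subgroup.normalClosure {((u, v) : A × B)} with hR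
  have h0 : ((u, v) : A × B) ∈ R := Subgroup.subset_normalClosure rfl
  have e1 : ∀ x : A, ((x, 1) : A × B) ∈ R := by
    obtain ⟨n, hn⟩ := dprd_pow h
    have h1 := R.pow_mem h0 n
    rw [hn] at h1
    have h2 : Subgroup.normalClosure {u} ≤ R.comap (MonoidHom.inl A B) := by
      refine Subgroup.normalClosure_le_normal ?_
      rw [Set.singleton_subset_iff]
      exact h1
    intro x
    have h3 : x ∈ Subgroup.normalClosure {u} := by rw [hu]; exact Subgroup.mem_top x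
    exact h2 h3
  have e2 : ∀ y : B, ((1, y) : A × B) ∈ R := by
    obtain ⟨n, hn⟩ := dprd_pow' h
    have h1 := R.pow_mem h0 n
    rw [hn] at h1
    have h2 : Subgroup.normalClosure {v} ≤ R.comap (MonoidHom.inr A B) := by
      refine Subgroup.normalClosure_le_normal ?_
      rw [Set.singleton_subset_iff]
      exact h1
    intro y
    have h3 : y ∈ Subgroup.normalClosure {v} := by rw [hv]; exact Subgroup.mem_top y
    exact h2 h3
  rw [eq_top_iff]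
  rintro ⟨x, y⟩ _
  have h3 := R.mul_mem (e1 x) (e2 y)
  rw [Prod.mk_mul_mk, mul_one, one_mul] at h3
  exact h3

private theorem dprd_dat {t p q s : ℕ} (ht : t.Prime) {G₁ Q₁ G₂ Q₂ : Type} [Group G₁] [Group Q₁]
    [Group G₂] [Group Q₂] [Finite G₁] [Finite G₂] (htc : ¬ t ∣ Nat.card G₁) {π₁ : G₁ →* Q₁}
    {π₂ : G₂ →* Q₂} {μ₁ : π₁.ker →* M2 s} {μ₂ : π₂.ker →* M2 s} {a₁ b₁ u₁ : G₁} {a₂ b₂ u₂ : G₂}
    (h₁ : Dat p q s G₁ Q₁ π₁ μ₁ a₁ b₁ u₁) (h₂ : Dat p q s G₂ Q₂ π₂ μ₂ a₂ b₂ u₂)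
    (hc : (orderOf u₂).Coprime (Nat.card G₁)) :
    Dat p q s (G₁ × G₂) (Q₁ × Q₂) (π₁.prodMap π₂)
      ((μ₁.comp (dprd_c1 π₁ π₂)) * (μ₂.comp (dprd_c2 π₁ π₂))) (a₁, a₂) (b₁, b₂) (u₁, u₂) where
  ig := by
    refine prod_ig ht h₁.ig h₂.ig u₂ hc ?_ (dprd_trivial ht htc)
    intro z
    obtain ⟨x, rfl⟩ := QuotientGroup.mk_surjective z
    refine ⟨0, ?_⟩
    rw [pow_zero, pow_one, QuotientGroup.eq_one_iff, h₂.nc]
    exact Subgroup.mem_top x
  ha := by rw [Prod.pow_mk, h₁.ha, h₂.ha]; rfl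
  hb := by rw [Prod.pow_mk, h₁.hb, h₂.hb]; rfl
  pa := fun h => h₁.pa (congrArg Prod.fst h)
  pb := fun h => h₁.pb (congrArg Prod.fst h)
  surj := by
    rintro ⟨x, y⟩
    obtain ⟨x', rfl⟩ := h₁.surj x
    obtain ⟨y', rfl⟩ := h₂.surj y
    exact ⟨(x', y'), rfl⟩
  ker := by
    intro x
    obtain ⟨m, hm⟩ := h₁.ker (dprd_c1 π₁ π₂ x)
    obtain ⟨n, hn⟩ := h₂.ker (dprd_c2 π₁ π₂ x)
    refine ⟨m + n, ?_⟩
    apply Subtype.ext
    have h3 : x.1.1 ^ s ^ m = 1 := congrArg Subtype.val hm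
    have h4 : x.1.2 ^ s ^ n = 1 := congrArg Subtype.val hn
    apply Prod.ext
    · show x.1.1 ^ s ^ (m + n) = 1
      rw [pow_add, pow_mul, h3, one_pow]
    · show x.1.2 ^ s ^ (m + n) = 1
      rw [add_comm m n, pow_add, pow_mul, h4, one_pow]
  musurj := by
    intro y
    obtain ⟨k, rfl⟩ := h₁.musurj y
    have hk : ((k.1, 1) : G₁ × G₂) ∈ (π₁.prodMap π₂).ker := by
      rw [MonoidHom.mem_ker]
      exact Prod.ext (MonoidHom.mem_ker.1 k.2) (map_one π₂)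
    refine ⟨⟨(k.1, 1), hk⟩, ?_⟩
    show μ₁ (dprd_c1 π₁ π₂ ⟨(k.1, 1), hk⟩) * μ₂ (dprd_c2 π₁ π₂ ⟨(k.1, 1), hk⟩) = μ₁ k
    have e1 : dprd_c1 π₁ π₂ ⟨(k.1, 1), hk⟩ = k := rfl
    have e2 : dprd_c2 π₁ π₂ ⟨(k.1, 1), hk⟩ = 1 := rfl
    rw [e1, e2, map_one, mul_one]
  sep := by
    rintro ⟨g₁, g₂⟩ H
    have hk1 : ∀ k : π₁.ker, ((k.1, 1) : G₁ × G₂) ∈ (π₁.prodMap π₂).ker := fun k => by
      rw [MonoidHom.mem_ker]
      exact Prod.ext (MonoidHom.mem_ker.1 k.2) (map_one π₂)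
    have hk2 : ∀ k : π₂.ker, ((1, k.1) : G₁ × G₂) ∈ (π₁.prodMap π₂).ker := fun k => by
      rw [MonoidHom.mem_ker]
      exact Prod.ext (map_one π₁) (MonoidHom.mem_ker.1 k.2)
    have m1 : ∀ k : π₁.ker, ((μ₁.comp (dprd_c1 π₁ π₂)) * (μ₂.comp (dprd_c2 π₁ π₂)))
        ⟨(k.1, 1), hk1 k⟩ = μ₁ k := fun k => by
      show μ₁ (dprd_c1 π₁ π₂ ⟨(k.1, 1), hk1 k⟩) * μ₂ (dprd_c2 π₁ π₂ ⟨(k.1, 1), hk1 k⟩) = μ₁ k
      have e1 : dprd_c1 π₁ π₂ ⟨(k.1, 1), hk1 k⟩ = k := rfl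
      have e2 : dprd_c2 π₁ π₂ ⟨(k.1, 1), hk1 k⟩ = 1 := rfl
      rw [e1, e2, map_one, mul_one]
    have m2 : ∀ k : π₂.ker, ((μ₁.comp (dprd_c1 π₁ π₂)) * (μ₂.comp (dprd_c2 π₁ π₂)))
        ⟨(1, k.1), hk2 k⟩ = μ₂ k := fun k => by
      show μ₁ (dprd_c1 π₁ π₂ ⟨(1, k.1), hk2 k⟩) * μ₂ (dprd_c2 π₁ π₂ ⟨(1, k.1), hk2 k⟩) = μ₂ k
      have e1 : dprd_c1 π₁ π₂ ⟨(1, k.1), hk2 k⟩ = 1 := rfl
      have e2 : dprd_c2 π₁ π₂ ⟨(1, k.1), hk2 k⟩ = k := rfl
      rw [e1, e2, map_one, one_mul]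
    apply Prod.ext
    · refine h₁.sep g₁ fun k k' hkk hk => ?_
      rw [← m1 k']
      refine H ⟨(k.1, 1), hk1 k⟩ ⟨(k'.1, 1), hk1 k'⟩ ?_ (by rw [m1 k]; exact hk)
      apply Prod.ext
      · exact hkk
      · show (1 : G₂) = g₂⁻¹ * 1 * g₂
        rw [mul_one, inv_mul_cancel]
    · refine h₂.sep g₂ fun k k' hkk hk => ?_
      rw [← m2 k']
      refine H ⟨(1, k.1), hk2 k⟩ ⟨(1, k'.1), hk2 k'⟩ ?_ (by rw [m2 k]; exact hk)
      apply Prod.ext
      · show (1 : G₁) = g₁⁻¹ * 1 * g₁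
        rw [mul_one, inv_mul_cancel]
      · exact hkk
  nc := dprd_nc (Nat.Coprime.coprime_dvd_right (orderOf_dvd_natCard u₁) hc).symm h₁.nc h₂.nc

theorem hasDat_prod {p q s N : ℕ} (hp : p.Prime) (hq : q.Prime) (hs : s.Prime) {A B : Type}
    [Group A] [Group B] (h₁ : HasDat p q s N A) (h₂ : ∀ N', 0 < N' → HasDat p q s N' B)
    (hN : 0 < N) : HasDat p q s N (A × B) := by
  obtain ⟨G₁, Q₁, _, _, _, _, π₁, μ₁, a₁, b₁, u₁, D₁, c₁, f₁, i₁⟩ := h₁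
  obtain ⟨G₂, Q₂, _, _, _, _, π₂, μ₂, a₂, b₂, u₂, D₂, c₂, f₂, i₂⟩ :=
    h₂ (N * Nat.card G₁) (Nat.mul_pos hN Nat.card_pos)
  obtain ⟨t, htl, ht⟩ := Nat.exists_infinite_primes (Nat.card G₁ + 1)
  have htc : ¬ t ∣ Nat.card G₁ := fun h => by
    have := Nat.le_of_dvd Nat.card_pos h
    omega
  refine ⟨G₁ × G₂, Q₁ × Q₂, inferInstance, inferInstance, inferInstance, inferInstance,
    π₁.prodMap π₂, _, (a₁, a₂), (b₁, b₂), (u₁, u₂),
    dprd_dat ht htc D₁ D₂ (Nat.Coprime.coprime_mul_left_right c₂), ?_, f₁.prodMap f₂, ?_⟩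
  · rw [Prod.orderOf]
    exact Nat.Coprime.coprime_dvd_left (Nat.lcm_dvd_mul _ _)
      (Nat.Coprime.mul_left c₁ (Nat.Coprime.coprime_mul_right_right c₂))
  · rintro ⟨x, y⟩ ⟨x', y'⟩ h
    have e1 : f₁ x = f₁ x' := congrArg Prod.fst h
    have e2 : f₂ y = f₂ y' := congrArg Prod.snd h
    rw [i₁ e1, i₂ e2]

theorem hasDat_mono {p q s N : ℕ} {A B : Type} [Group A] [Group B] (h : HasDat p q s N B)
    (f : A →* B) (hf : Function.Injective f) : HasDat p q s N A := by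
  obtain ⟨G, Q, i1, i2, i3, i4, π, μ, a, b, u, D, c, e, he⟩ := h
  exact ⟨G, Q, i1, i2, i3, i4, π, μ, a, b, u, D, c, e.comp f, he.comp hf⟩

end Pool.Agent.NBA
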