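import Pool.Agent.Helper76.IG.Defs

set_option autoImplicit false

/-! Project NBA (MP_c6fb0d_al): every finite group with nilpotent derived subgroup embeds in a finite
group that is invariably generated by elements of orders `p` and `q`, `1/p + 1/q < 1/2`.
Paper proof: /team-store/nba54.md.  Definitions. -/

namespace Pool.Agent.NBA

open Helper76.IG

/-! ### regular wreath products -/

/-- the regular wreath product of `T` and `Q`: functions `Q → T` and elements of `Q` -/
@[ext]
structure Wr (T Q : Type) where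
  l : Q → T
  r : Q

namespace Wr

variable {T Q : Type} [Group T] [Group Q]

instance : Mul (Wr T Q) := ⟨fun x y => ⟨fun w => x.l w * y.l (x.r⁻¹ * w), x.r * y.r⟩⟩
instance : One (Wr T Q) := ⟨⟨fun _ => 1, 1⟩⟩
instance : Inv (Wr T Q) := ⟨fun x => ⟨fun w => (x.l (x.r * w))⁻¹, x.r⁻¹⟩⟩

@[simp] theorem mul_l (x y : Wr T Q) (w : Q) : (x * y).l w = x.l w * y.l (x.r⁻¹ * w) := rfl
@[simp] theorem mul_r (x y : Wr T Q) : (x * y).r = x.r * y.r := rfl
@[simp] theorem one_l (w : Q) : (1 : Wr T Q).l w = 1 := rfl
@[simp] theorem one_r : (1 : Wr T Q).r = 1 := rfl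
@[simp] theorem inv_l (x : Wr T Q) (w : Q) : (x⁻¹).l w = (x.l (x.r * w))⁻¹ := rfl
@[simp] theorem inv_r (x : Wr T Q) : (x⁻¹).r = x.r⁻¹ := rfl

instance : Group (Wr T Q) := Group.ofLeftAxioms
  (by intro x y z
      refine Wr.ext ?_ ?_
      · funext w
        simp [mul_assoc]
      · simp [mul_assoc])
  (by intro x
      refine Wr.ext ?_ ?_
      · funext w
        simp
      · simp)
  (by intro x
      refine Wr.ext ?_ ?_
      · funext w
        simp
      · simp)

instance [Finite T] [Finite Q] : Finite (Wr T Q) :=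
  Finite.of_injective (fun x : Wr T Q => (x.l, x.r)) (by
    intro x y h
    exact Wr.ext (congrArg Prod.fst h) (congrArg Prod.snd h))

/-- the projection onto the top group -/
def rt : Wr T Q →* Q where
  toFun x := x.r
  map_one' := rfl
  map_mul' _ _ := rfl

/-- the embedding of the top group -/
def tp : Q →* Wr T Q where
  toFun q := ⟨fun _ => 1, q⟩
  map_one' := rfl
  map_mul' x y := by
    refine Wr.ext ?_ rfl
    funext w
    simp

open Classical in
/-- the function with value `x` at `w` and `1` elsewhere -/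
noncomputable def sg (w : Q) (x : T) : Wr T Q := ⟨fun v => if v = w then x else 1, 1⟩

@[simp] theorem rt_apply (x : Wr T Q) : rt x = x.r := rfl
@[simp] theorem tp_l (q w : Q) : (tp q : Wr T Q).l w = 1 := rfl
@[simp] theorem tp_r (q : Q) : (tp q : Wr T Q).r = q := rfl
@[simp] theorem sg_r (w : Q) (x : T) : (sg w x).r = 1 := rfl

theorem sg_l_same (w : Q) (x : T) : (sg w x).l w = x := by
  classical
  simp [sg]

theorem sg_l_ne {v w : Q} (h : v ≠ w) (x : T) : (sg w x).l v = 1 := by
  classical
  simp [sg, h]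

/-- functoriality in the bottom group -/
def mp {M : Type} [Group M] (f : T →* M) : Wr T Q →* Wr M Q where
  toFun x := ⟨fun w => f (x.l w), x.r⟩
  map_one' := by
    refine Wr.ext ?_ rfl
    funext w
    simp
  map_mul' x y := by
    refine Wr.ext ?_ rfl
    funext w
    simp

@[simp] theorem mp_l {M : Type} [Group M] (f : T →* M) (x : Wr T Q) (w : Q) :
    (mp f x).l w = f (x.l w) := rfl
@[simp] theorem mp_r {M : Type} [Group M] (f : T →* M) (x : Wr T Q) : (mp f x).r = x.r := rfl

end Wr

/-! ### first-level data -/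

/-- the elementary abelian group of order `s ^ 2` -/
abbrev M2 (s : ℕ) : Type := Multiplicative (ZMod s × ZMod s)

/-- the properties of a `2`-generator `s`-group `P₀` with its map onto the Frattini quotient -/
structure Fr (s : ℕ) (P₀ : Type) [Group P₀] (π₀ : P₀ →* M2 s) : Prop where
  surj : Function.Surjective π₀
  top : ∀ R : Subgroup P₀, R.map π₀ = ⊤ → R = ⊤
  com : ∀ D : Subgroup P₀, D.Normal → ¬ D ≤ π₀.ker → commutator P₀ ≤ D
  hom : ∀ φ : P₀ →* M2 s, ∀ x ∈ π₀.ker, φ x = 1

/-- `G` is invariably generated by `a`, `b` with `a ^ p = b ^ q = 1`; `π` maps `G` onto `Q` with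
kernel an `s`-group `K`, `μ` maps `K` onto the elementary abelian group of order `s ^ 2`, the kernel
of `μ` is stabilised by the elements of `K` only; `u` generates `G` as a normal subgroup -/
structure Dat (p q s : ℕ) (G Q : Type) [Group G] [Group Q] (π : G →* Q) (μ : π.ker →* M2 s)
    (a b u : G) : Prop where
  ig : InvGen a b
  ha : a ^ p = 1
  hb : b ^ q = 1
  pa : π a ≠ 1
  pb : π b ≠ 1
  surj : Function.Surjective π
  ker : IsPGroup s π.ker
  musurj : Function.Surjective μ
  sep : ∀ g : G, (∀ k k' : π.ker, (k' : G) = g⁻¹ * k * g → μ k = 1 → μ k' = 1) → π g = 1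
  nc : Subgroup.normalClosure {u} = ⊤

/-- there are first-level data with `A` inside of `Q` and the order of `u` coprime to `N` -/
def HasDat (p q s N : ℕ) (A : Type) [Group A] : Prop :=
  ∃ (G Q : Type) (_ : Group G) (_ : Group Q) (_ : Finite G) (_ : Finite Q) (π : G →* Q)
    (μ : π.ker →* M2 s) (a b u : G), Dat p q s G Q π μ a b u ∧ (orderOf u).Coprime N ∧ Embeds A Q

/-- the second-level groups: `X` is invariably generated by `a`, `b`, contains `Wr P A` with base
group in a normal `s`-subgroup `Z`, and has an element `u` of order coprime to `N` which generates a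
large normal subgroup -/
def HasX (p q s N : ℕ) (P A : Type) [Group P] [Group A] : Prop :=
  ∃ (X : Type) (_ : Group X) (_ : Finite X) (a b u : X) (F : Wr P A →* X) (Z : Subgroup X),
    InvGen a b ∧ a ^ p = 1 ∧ b ^ q = 1 ∧ a ≠ 1 ∧ b ≠ 1 ∧ (orderOf u).Coprime N ∧
    IsPGroup s (X ⧸ Subgroup.normalClosure {u}) ∧
    (s ≠ p → s ≠ q → Subgroup.normalClosure {u} = ⊤) ∧ Function.Injective F ∧
    Z.Normal ∧ IsPGroup s Z ∧ ∀ x : Wr P A, x.r = 1 → F x ∈ Z

end Pool.Agent.NBA
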