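import Pool.Agent.NBA.Defs

set_option autoImplicit false

/-! NBA-Min. Minimal subgroups: among the subgroups generated by a conjugate of `a` and a conjugate of `b` one with the
smallest number of elements is invariably generated by these conjugates. -/

namespace Pool.Agent.NBA

open Helper76.IG

/-- two elements have conjugates which invariably generate the subgroup that they generate -/
theorem exists_min {E : Type} [Group E] [Finite E] (a b : E) :
    ∃ (X : Subgroup E) (a' b' : X) (g h : E), (a' : E) = g⁻¹ * a * g ∧ (b' : E) = h⁻¹ * b * h ∧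
      InvGen a' b' := by
  obtain ⟨⟨g, h⟩, hmin⟩ := Finite.exists_min
    fun p : E × E => Nat.card (Subgroup.closure {p.1⁻¹ * a * p.1, p.2⁻¹ * b * p.2})
  set X := Subgroup.closure {g⁻¹ * a * g, h⁻¹ * b * h} with hX
  have ha : g⁻¹ * a * g ∈ X := Subgroup.subset_closure (Set.mem_insert _ _)
  have hb : h⁻¹ * b * h ∈ X := Subgroup.subset_closure (Set.mem_insert_of_mem _ rfl)
  refine ⟨X, ⟨_, ha⟩, ⟨_, hb⟩, g, h, rfl, rfl, fun x y => ?_⟩
  set C := Subgroup.closure {x⁻¹ * (⟨g⁻¹ * a * g, ha⟩ : X) * x, y⁻¹ * (⟨h⁻¹ * b * h, hb⟩ : X) * y} with hC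
  have h1 : C.map X.subtype =
      Subgroup.closure {(g * (x : E))⁻¹ * a * (g * (x : E)), (h * (y : E))⁻¹ * b * (h * (y : E))} := by
    rw [hC, MonoidHom.map_closure, Set.image_pair]
    simp only [map_mul, map_inv, Subgroup.subtype_apply, mul_inv_rev, mul_assoc]
  have h2 : Nat.card X ≤ Nat.card C := by
    have h3 := hmin (g * (x : E), h * (y : E))
    have h4 : Nat.card (C.map X.subtype) = Nat.card C :=
      (Nat.card_congr (C.equivMapOfInjective X.subtype X.subtype_injective).toEquiv).symm
    rw [← h4, h1]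
    exact h3
  exact Subgroup.eq_top_of_le_card C h2

theorem map_top {E G : Type} [Group E] [Group G] (π : E →* G) {a b : E}
    (h : InvGen (π a) (π b)) {X : Subgroup E} {g k : E} (ha : g⁻¹ * a * g ∈ X)
    (hb : k⁻¹ * b * k ∈ X) : X.map π = ⊤ := by
  refine h.eq_top (g := π g) (k := π k) ?_ ?_
  · have h1 := Subgroup.mem_map_of_mem π ha
    rwa [map_mul, map_mul, map_inv] at h1
  · have h1 := Subgroup.mem_map_of_mem π hb
    rwa [map_mul, map_mul, map_inv] at h1

end Pool.Agent.NBA
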