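import Pool.Agent.NBA.PFac

set_option autoImplicit false

/-! NBA-ExtK. Extension of scalars.
PLAN.  For `g ∈ PSL F` choose `A` with `act A = g`; `e g = act (A.map (algebraMap F K))`; independent of the choice by `act_one` / `act_of_entries` (if `act A = act B` then `act (A * B⁻¹) = 1`, so the image of `A * B⁻¹` acts trivially).  Use
`QuotientGroup.lift`-free: `MonoidHom` by hand: `e (g h)`: `A B` is a choice for `g h`.  (`Matrix.SpecialLinearGroup.map`; entries of the map are the images of the entries.)  Second property: `(A.map).1 *ᵥ vec (Option.map f w) = f ∘ (A.1 *ᵥ vec w) =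
f (jj A w) • vec (Option.map f (mob A w))` and `mob_jj_unique`. -/

namespace Pool.Agent.NBA

private theorem extK_entry {F K : Type} [Field F] [Field K] [Algebra F K] (A : SL2 F)
    (i j : Fin 2) : (Matrix.SpecialLinearGroup.map (algebraMap F K) A).1 i j =
      algebraMap F K (A.1 i j) := rfl

private theorem extK_one {F K : Type} [Field F] [Field K] [Algebra F K] {A : SL2 F}
    (h : act A = 1) : act (Matrix.SpecialLinearGroup.map (algebraMap F K) A) = 1 := by
  obtain ⟨h1, h2, h3, -⟩ := act_one h
  refine act_of_entries ?_ ?_ ?_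
  · rw [extK_entry, h1, map_zero]
  · rw [extK_entry, h2, map_zero]
  · rw [extK_entry, extK_entry, h3]

private theorem extK_eq {F K : Type} [Field F] [Field K] [Algebra F K] {A B : SL2 F}
    (h : act A = act B) : act (Matrix.SpecialLinearGroup.map (algebraMap F K) A) =
      act (Matrix.SpecialLinearGroup.map (algebraMap F K) B) := by
  have h1 : act (A * B⁻¹) = 1 := by
    rw [map_mul, map_inv, h, mul_inv_cancel]
  have h2 := extK_one (K := K) h1
  rw [map_mul, map_mul, map_inv, map_inv] at h2
  exact mul_inv_eq_one.1 h2

private theorem extK_vec {F K : Type} [Field F] [Field K] [Algebra F K] (w : Option F) :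
    vec (Option.map (algebraMap F K) w) = algebraMap F K ∘ vec w := by
  cases w with
  | none =>
    funext i
    fin_cases i <;> simp [vec]
  | some x =>
    funext i
    fin_cases i <;> simp [vec]

private theorem extK_mob {F K : Type} [Field F] [Field K] [Algebra F K] (A : SL2 F)
    (w : Option F) : mob (Matrix.SpecialLinearGroup.map (algebraMap F K) A)
      (Option.map (algebraMap F K) w) = Option.map (algebraMap F K) (mob A w) := by
  refine (mob_jj_unique _ _ _ (algebraMap F K (jj A w)) ?_).1
  rw [extK_vec, extK_vec]
  funext i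
  have h := RingHom.map_mulVec (algebraMap F K) A.1 (vec w) i
  have h2 : ((Matrix.SpecialLinearGroup.map (algebraMap F K) A).1).mulVec
      (algebraMap F K ∘ vec w) i = ((A.1.map (algebraMap F K)).mulVec
      (algebraMap F K ∘ vec w)) i := rfl
  rw [h2, ← h, jj_spec A w, Pi.smul_apply, Pi.smul_apply, smul_eq_mul, smul_eq_mul, map_mul]
  rfl

theorem exists_ext (F K : Type) [Field F] [Field K] [Algebra F K] :
    ∃ e : PSL F →* Equiv.Perm (Option K),
      (∀ (A : SL2 F) (h : act A ∈ PSL F), e ⟨act A, h⟩ =
        act (Matrix.SpecialLinearGroup.map (algebraMap F K) A)) ∧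
      ∀ (g : PSL F) (w : Option F), e g (Option.map (algebraMap F K) w) =
        Option.map (algebraMap F K) ((g : Equiv.Perm (Option F)) w) := by
  have hc : ∀ g : PSL F, ∃ A : SL2 F, act A = (g : Equiv.Perm (Option F)) := fun g => g.2
  choose c hc using hc
  refine ⟨MonoidHom.mk' (fun g => act (Matrix.SpecialLinearGroup.map (algebraMap F K) (c g)))
    ?_, ?_, ?_⟩
  · intro g h
    rw [← map_mul, ← map_mul]
    refine extK_eq ?_
    rw [hc (g * h), map_mul, hc g, hc h]
    rfl
  · intro A h
    exact extK_eq (hc ⟨act A, h⟩)
  · intro g w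
    have h1 := extK_mob (K := K) (c g) w
    have h2 : mob (c g) w = (g : Equiv.Perm (Option F)) w := by
      rw [← hc g]
      rfl
    rw [← h2]
    exact h1

end Pool.Agent.NBA
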