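import Pool.Agent.NBA.PFac

set_option autoImplicit false

/-! NBA-Fix2. Elements of order prime to `ℓ` have two fixed points over the algebraic closure: the
trace `t` satisfies `t² - 4 ≠ 0` (otherwise `A = e + N` with `e² = 1`, `N² = 0`, and `A ^ l` is a
scalar), and the fixed points are the roots of a quadratic equation of discriminant `t² - 4`. -/

namespace Pool.Agent.NBA

open Polynomial in
private theorem Fix2_root {K : Type} [Field K] [IsAlgClosed K] (a b c : K) (ha : a ≠ 0) :
    ∃ x : K, a * x ^ 2 + b * x + c = 0 := by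
  have h := IsAlgClosed.exists_root (C a * X ^ 2 + C b * X + C c)
    (by rw [degree_quadratic ha]; norm_num)
  obtain ⟨x, hx⟩ := h
  refine ⟨x, ?_⟩
  have h2 := hx
  rw [IsRoot.def] at h2
  simpa using h2

private theorem Fix2_none {K : Type} [Field K] (A : SL2 K) :
    mob A none = none ↔ A.1 1 0 = 0 := by
  classical
  by_cases h : A.1 1 0 = 0
  · simp [mob, h]
  · simp [mob, h]

private theorem Fix2_some {K : Type} [Field K] (A : SL2 K) (x : K) :
    mob A (some x) = some x ↔
      A.1 1 0 * x ^ 2 + (A.1 1 1 - A.1 0 0) * x - A.1 0 1 = 0 := by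
  classical
  by_cases h : A.1 1 0 * x + A.1 1 1 = 0
  · have h1 : mob A (some x) = none := by simp [mob, h]
    rw [h1]
    constructor
    · intro h2
      exact absurd h2 (by simp)
    · intro h2
      exfalso
      have h3 : A.1 0 0 * x + A.1 0 1 = 0 := by linear_combination x * h - h2
      have hd := det2 A
      have h4 : (1 : K) = 0 := by
        linear_combination A.1 0 0 * h - A.1 1 0 * h3 - hd
      exact one_ne_zero h4
  · have h1 : mob A (some x) = some ((A.1 0 0 * x + A.1 0 1) / (A.1 1 0 * x + A.1 1 1)) := by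
      simp [mob, h]
    rw [h1, Option.some.injEq, div_eq_iff h]
    constructor
    · intro h2
      linear_combination -h2
    · intro h2
      linear_combination -h2

private theorem Fix2_two {K : Type} [Field K] [IsAlgClosed K] (A : SL2 K)
    (ht : (A.1 0 0 + A.1 1 1) ^ 2 - 4 ≠ 0) : {w : Option K | mob A w = w}.ncard = 2 := by
  have hd := det2 A
  by_cases hc : A.1 1 0 = 0
  · have had : A.1 1 1 - A.1 0 0 ≠ 0 := by
      intro h
      apply ht
      linear_combination (A.1 1 1 - A.1 0 0) * h + 4 * hd + 4 * A.1 0 1 * hc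
    have hset : {w : Option K | mob A w = w} =
        {none, some (A.1 0 1 / (A.1 1 1 - A.1 0 0))} := by
      ext w
      cases w with
      | none =>
        rw [Set.mem_ofPred_eq, Fix2_none]
        simp [hc]
      | some x =>
        rw [Set.mem_ofPred_eq, Fix2_some, hc]
        simp only [Set.mem_insert_iff, Set.mem_singleton_iff, reduceCtorEq, false_or,
          Option.some.injEq]
        rw [eq_div_iff had]
        constructor
        · intro h
          linear_combination h
        · intro h
          linear_combination h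
    rw [hset, Set.ncard_pair (by simp)]
  · obtain ⟨x, hx⟩ := Fix2_root (A.1 1 0) (A.1 1 1 - A.1 0 0) (-A.1 0 1) hc
    set y : K := (A.1 0 0 - A.1 1 1) / A.1 1 0 - x with hy
    have hy1 : A.1 1 0 * (x + y) = A.1 0 0 - A.1 1 1 := by
      rw [hy]
      field_simp
      ring
    have hxy : x ≠ y := by
      intro h
      apply ht
      rw [← h] at hy1
      linear_combination
        (2 * A.1 1 0 * x + (A.1 1 1 - A.1 0 0)) * hy1 - (4 * A.1 1 0) * hx + 4 * hd
    have hset : {w : Option K | mob A w = w} = {some x, some y} := by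
      ext w
      cases w with
      | none =>
        rw [Set.mem_ofPred_eq, Fix2_none]
        simp [hc]
      | some z =>
        rw [Set.mem_ofPred_eq, Fix2_some]
        simp only [Set.mem_insert_iff, Set.mem_singleton_iff, Option.some.injEq]
        have key : A.1 1 0 * z ^ 2 + (A.1 1 1 - A.1 0 0) * z - A.1 0 1 =
            A.1 1 0 * ((z - x) * (z - y)) := by
          linear_combination (z - x) * hy1 + hx
        rw [key]
        constructor
        · intro h
          rcases mul_eq_zero.1 ((mul_eq_zero.1 h).resolve_left hc) with h1 | h1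
          · exact Or.inl (sub_eq_zero.1 h1)
          · exact Or.inr (sub_eq_zero.1 h1)
        · rintro (h | h)
          · rw [h]; ring
          · rw [h]; ring
    rw [hset, Set.ncard_pair (by simpa using hxy)]

private theorem Fix2_disc {l : ℕ} [hl : Fact l.Prime] (A : SL2 (ZMod l))
    (h : (A.1 0 0 + A.1 1 1) ^ 2 - 4 = 0) : (act A) ^ l = 1 := by
  have hd := det2 A
  obtain ⟨e, he, hte⟩ : ∃ e : ZMod l, e ^ 2 = 1 ∧ A.1 0 0 + A.1 1 1 = 2 * e := by
    have h1 : (A.1 0 0 + A.1 1 1 - 2) * (A.1 0 0 + A.1 1 1 + 2) = 0 := by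
      linear_combination h
    rcases mul_eq_zero.1 h1 with h2 | h2
    · exact ⟨1, by ring, by linear_combination h2⟩
    · exact ⟨-1, by ring, by linear_combination h2⟩
  set N : Matrix (Fin 2) (Fin 2) (ZMod l) := A.1 - Matrix.scalar (Fin 2) e with hN
  have hNN : N ^ 2 = 0 := by
    rw [sq]
    ext i j
    fin_cases i <;> fin_cases j
    · simp [hN, Matrix.mul_apply, Fin.sum_univ_two]
      linear_combination (A.1 0 0) * hte - hd + he
    · simp [hN, Matrix.mul_apply, Fin.sum_univ_two]
      linear_combination (A.1 0 1) * hte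
    · simp [hN, Matrix.mul_apply, Fin.sum_univ_two]
      linear_combination (A.1 1 0) * hte
    · simp [hN, Matrix.mul_apply, Fin.sum_univ_two]
      linear_combination (A.1 1 1) * hte - hd + he
  have hA : A.1 = Matrix.scalar (Fin 2) e + N := by rw [hN]; abel
  have hcomm : Commute (Matrix.scalar (Fin 2) e) N :=
    Matrix.scalar_commute e (fun r => mul_comm _ _) N
  have hpow : A.1 ^ l = Matrix.scalar (Fin 2) (e ^ l) := by
    rw [hA, add_pow_char_of_commute l hcomm]
    have h2 : N ^ l = 0 := pow_eq_zero_of_le hl.out.two_le hNN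
    rw [h2, add_zero, ← map_pow]
  have hcoe : (A ^ l).1 = Matrix.scalar (Fin 2) (e ^ l) := by
    rw [← hpow]
    exact Matrix.SpecialLinearGroup.coe_pow A l
  rw [← map_pow]
  apply act_of_entries
  · rw [hcoe]; simp
  · rw [hcoe]; simp
  · rw [hcoe]; simp

theorem fix2 {l : ℕ} [Fact l.Prime] (A : SL2 (ZMod l)) (h1 : act A ≠ 1)
    (hord : ¬ l ∣ orderOf (act A)) :
    {w : Option (AlgebraicClosure (ZMod l)) |
      mob (Matrix.SpecialLinearGroup.map (algebraMap (ZMod l) (AlgebraicClosure (ZMod l))) A) w
        = w}.ncard = 2 := by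
  apply Fix2_two
  intro h
  have h2 : (algebraMap (ZMod l) (AlgebraicClosure (ZMod l)))
      ((A.1 0 0 + A.1 1 1) ^ 2 - 4) = 0 := by
    rw [← h, map_sub, map_pow, map_add, map_ofNat]
    rfl
  have h3 : (A.1 0 0 + A.1 1 1) ^ 2 - 4 = 0 :=
    (map_eq_zero_iff _ (algebraMap (ZMod l) (AlgebraicClosure (ZMod l))).injective).1 h2
  have h4 := orderOf_dvd_of_pow_eq_one (Fix2_disc A h3)
  rcases (Nat.dvd_prime (Fact.out : l.Prime)).1 h4 with h5 | h5
  · exact h1 (orderOf_eq_one_iff.1 h5)
  · exact hord (by rw [h5])

end Pool.Agent.NBA
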