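import Pool.Agent.NBA.Gen
import Pool.Agent.NBA.Cnt
import Pool.Agent.NBA.ExtK
import Pool.Agent.NBA.Fix2

set_option autoImplicit false

/-! NBA-PIG. Invariable generation of `PSL₂(ℓ)`.
PLAN.  If `l ∣ Nat.card X`: Cauchy (`exists_prime_orderOf_dvd_card'`) and `gen`.  Otherwise let `K` be the algebraic closure, `e` from `exists_ext (ZMod l) K`; `X` acts on `Option K` by `g • w = e g w` (`MulAction.compHom` or a local instance of `MulAction X (Option K)` via
`X → PSL → Perm`).  For `1 ≠ g ∈ X`, `g = act A`, `l` does not divide the order of `g`: `fix2`: exactly two fixed points.  `w₁ = Option.map (algebraMap) w`, `w` the fixed point of `x`: its stabiliser contains `x` of order `p`: has at least `p` elements (`orderOf_dvd_card`,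
`orderOf x = p`).  `y` has a fixed point `w₂` in `Option K` by `fix2` (the set is nonempty); `w₂` is not in the image of `Option (ZMod l)` (`y` has no fixed point there and the embedding is injective, equivariant), the orbit of `w₁` is in this image: `w₂ ∉ orbit`.
The stabiliser of `w₂` has at least `q` elements.  `cnt` for `g = y`: `y • w₁ = w₁`, so `y w = w`: contradiction. -/

namespace Pool.Agent.NBA

private theorem pig_map_inj {F K : Type} [Field F] [Field K] [Algebra F K] {a b : Option F}
    (h : Option.map (algebraMap F K) a = Option.map (algebraMap F K) b) : a = b :=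
  Option.map_injective (algebraMap F K).injective h

private theorem pig_card {X Om : Type} [Group X] [Finite X] [MulAction X Om] {p : ℕ}
    (hp : p.Prime) {x : X} (hxp : x ^ p = 1) (hx1 : x ≠ 1) (w : Om) (hw : x • w = w) :
    p ≤ Nat.card (MulAction.stabilizer X w) := by
  have := Fact.mk hp
  have h1 : orderOf (⟨x, hw⟩ : MulAction.stabilizer X w) = p := by
    apply orderOf_eq_prime
    · apply Subtype.ext
      simpa using hxp
    · intro h
      exact hx1 (congrArg Subtype.val h)
  have h2 : p ∣ Nat.card (MulAction.stabilizer X w) := by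
    rw [← h1]
    exact orderOf_dvd_natCard _
  exact Nat.le_of_dvd Nat.card_pos h2

theorem psl_ig {p q l : ℕ} [Fact l.Prime] (hp : p.Prime) (hq : q.Prime)
    (hpq : 2 * (p + q) < p * q) (X : Subgroup (Equiv.Perm (Option (ZMod l))))
    (hX : X ≤ PSL (ZMod l)) {x y : Equiv.Perm (Option (ZMod l))} (hx : x ∈ X) (hxp : x ^ p = 1)
    (hx1 : x ≠ 1) (hxf : ∃ w, x w = w) (hy : y ∈ X) (hyq : y ^ q = 1) (hy1 : y ≠ 1)
    (hyf : ∀ w, y w ≠ w) : X = PSL (ZMod l) := by
  classical
  have hfin : Finite X := inferInstance
  by_cases hl : l ∣ Nat.card X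
  · obtain ⟨x0, hx0⟩ := exists_prime_orderOf_dvd_card' (G := X) l hl
    exact gen X hX (x := (x0 : Equiv.Perm (Option (ZMod l)))) x0.2
      (by rw [Subgroup.orderOf_coe]; exact hx0) hy hyf
  · exfalso
    obtain ⟨e, he1, he2⟩ := exists_ext (ZMod l) (AlgebraicClosure (ZMod l))
    let f : X →* Equiv.Perm (Option (AlgebraicClosure (ZMod l))) :=
      e.comp (Subgroup.inclusion hX)
    let _ : MulAction X (Option (AlgebraicClosure (ZMod l))) :=
      MulAction.compHom (Option (AlgebraicClosure (ZMod l))) f
    have hsm : ∀ (g : X) (w : Option (AlgebraicClosure (ZMod l))),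
        g • w = e (Subgroup.inclusion hX g) w := fun g w => rfl
    have hmap : ∀ (g : X) (w : Option (ZMod l)),
        g • (Option.map (algebraMap (ZMod l) (AlgebraicClosure (ZMod l))) w) =
          Option.map (algebraMap (ZMod l) (AlgebraicClosure (ZMod l)))
            ((g : Equiv.Perm (Option (ZMod l))) w) := by
      intro g w
      rw [hsm, he2]
      rfl
    have hfix : ∀ g : X, g ≠ 1 →
        {w : Option (AlgebraicClosure (ZMod l)) | g • w = w}.ncard = 2 := by
      intro g hg
      obtain ⟨A, hA⟩ := hX g.2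
      have hA1 : act A ≠ 1 := by
        rw [hA]
        intro h
        exact hg (Subtype.ext h)
      have hord : ¬ l ∣ orderOf (act A) := by
        rw [hA, Subgroup.orderOf_coe]
        intro h
        exact hl (h.trans (orderOf_dvd_natCard g))
      have hmem : act A ∈ PSL (ZMod l) := ⟨A, rfl⟩
      have hg2 : Subgroup.inclusion hX g = ⟨act A, hmem⟩ := by
        apply Subtype.ext
        exact hA.symm
      have hset : {w : Option (AlgebraicClosure (ZMod l)) | g • w = w} =
          {w : Option (AlgebraicClosure (ZMod l)) |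
            mob (Matrix.SpecialLinearGroup.map
              (algebraMap (ZMod l) (AlgebraicClosure (ZMod l))) A) w = w} := by
        ext w
        simp only [Set.mem_ofPred_eq]
        rw [hsm, hg2, he1 A hmem, act_apply]
      rw [hset]
      exact fix2 A hA1 hord
    obtain ⟨w, hw⟩ := hxf
    have hxX : (⟨x, hx⟩ : X) ≠ 1 := fun h => hx1 (congrArg Subtype.val h)
    have hyX : (⟨y, hy⟩ : X) ≠ 1 := fun h => hy1 (congrArg Subtype.val h)
    obtain ⟨w₂, hw₂⟩ : {w : Option (AlgebraicClosure (ZMod l)) |
        (⟨y, hy⟩ : X) • w = w}.Nonempty := by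
      apply Set.nonempty_of_ncard_ne_zero
      rw [hfix _ hyX]
      norm_num
    have hw₂' : (⟨y, hy⟩ : X) • w₂ = w₂ := hw₂
    have h12 : w₂ ∉ MulAction.orbit X
        (Option.map (algebraMap (ZMod l) (AlgebraicClosure (ZMod l))) w) := by
      rintro ⟨g, hg⟩
      have hg' : g • (Option.map (algebraMap (ZMod l) (AlgebraicClosure (ZMod l))) w) = w₂ := hg
      rw [hmap] at hg'
      rw [← hg', hmap] at hw₂'
      exact hyf _ (pig_map_inj hw₂')
    have h₁ : p ≤ Nat.card (MulAction.stabilizer X
        (Option.map (algebraMap (ZMod l) (AlgebraicClosure (ZMod l))) w)) := by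
      apply pig_card hp (x := (⟨x, hx⟩ : X)) (Subtype.ext hxp) hxX
      rw [hmap]
      exact congrArg _ hw
    have h₂ : q ≤ Nat.card (MulAction.stabilizer X w₂) :=
      pig_card hq (x := (⟨y, hy⟩ : X)) (Subtype.ext hyq) hyX w₂ hw₂'
    have hc := cnt hpq hfix _ w₂ h12 h₁ h₂ (⟨y, hy⟩ : X)
    rw [hmap] at hc
    exact hyf w (pig_map_inj hc)

end Pool.Agent.NBA
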