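import Pool.Agent.NBA.Ext
import Pool.Agent.NBA.PIG
import Pool.Agent.NBA.Elt
import Pool.Agent.NBA.Min
import Pool.Agent.NBA.Lft

set_option autoImplicit false

/-! NBA-ExX. The group `X` of the first level.
PLAN.  `ζ : (ZMod l)ˣ` of order `p` (`p ∣ l - 1`, cyclic group).  `χ ζ = 1`: if `s ≠ p` because `(χ ζ) ^ p = 1` in a group of order `s`; if `s = p` because `p ^ 2 ∣ l - 1`: `ζ` is a `p`-th power in the cyclic group `(ZMod l)ˣ` (it is
`g ^ ((l-1)/p)` for a generator, and `p ∣ (l-1)/p`), so `χ ζ = (χ η) ^ p = 1`.  `a₀ = ⟨0, act (dia ζ)⟩ ∈ EE` by `jj_dia_none`, `jj_dia_some` (`cj χ (dia ζ) w = 0`), `a₀ ^ p = 1` (`dia (ζ ^ p) = 1`), `a₀.g ≠ 1` (`ζ² ≠ 1`, `p` odd), fixes `none`, `sm a₀ = 1`.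
`B` from `nonsplit` with `n = q`: lift `act B` to `x ∈ EE` (every `A : SL2` has a lift in `EE`: `red` is surjective, choose preimages) and use `lift_coprime` for `PW.pg` on the group `EE` (its kernel is an `s`-group:
functions with values in the kernel of `red`, of exponent `s ^ k`): `b₀ ∈ EE` with `b₀.g = act B`, `b₀ ^ q = 1`; `sm b₀ = 1` since its `q`-th power is `1` and `Multiplicative (ZMod (s ^ (k+1)))` is an `s`-group, `s ≠ q`.
`exists_min` in the group `EE` for `a₀`, `b₀`; `X` the image in `PW`.  Onto: the image of `X` under `pg` is in `PSL (ZMod l)` and contains conjugates of `act (dia ζ)` (with a fixed point) and of `act B` (without fixed points: `nofix`): `psl_ig`.  Sum: `sm` is trivial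
on conjugates of `a₀`, `b₀`, which generate `X`. -/

namespace Pool.Agent.NBA

open Helper76.IG

private theorem exX_conj_pow {G : Type} [Group G] (g a : G) (n : ℕ) :
    (g⁻¹ * a * g) ^ n = g⁻¹ * a ^ n * g := by
  have h := conj_pow (a := g⁻¹) (b := a) (i := n)
  rwa [inv_inv] at h

/-- an element with coprime exponents -/
private theorem exX_cop {G : Type} [Group G] {x : G} {m n : ℕ} (h : m.Coprime n) (hm : x ^ m = 1)
    (hn : x ^ n = 1) : x = 1 := by
  have h1 : orderOf x ∣ m := orderOf_dvd_of_pow_eq_one hm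
  have h2 : orderOf x ∣ n := orderOf_dvd_of_pow_eq_one hn
  have h3 : orderOf x ∣ 1 := by
    rw [← Nat.Coprime.gcd_eq_one h]
    exact Nat.dvd_gcd h1 h2
  rw [Nat.dvd_one, orderOf_eq_one_iff] at h3
  exact h3

private theorem exX_exp {n : ℕ} (x : Multiplicative (ZMod n)) : x ^ n = 1 := by
  apply Multiplicative.toAdd.injective
  rw [toAdd_pow, toAdd_one, nsmul_eq_mul, ZMod.natCast_self, zero_mul]

/-- the element `ζ` -/
private theorem exX_zeta {p s l : ℕ} [Fact l.Prime] (hp : p.Prime) (hs : s.Prime)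
    (hpl : p ∣ l - 1) (hspl : s = p → p ^ 2 ∣ l - 1) (χ : (ZMod l)ˣ →* Multiplicative (ZMod s)) :
    ∃ ζ : (ZMod l)ˣ, orderOf ζ = p ∧ χ ζ = 1 := by
  have hl1 : 0 < l - 1 := by
    have := (Fact.out : l.Prime).two_le
    omega
  obtain ⟨g, hg⟩ := IsCyclic.exists_ofOrder_eq_natCard (α := (ZMod l)ˣ)
  rw [Nat.card_eq_fintype_card, ZMod.card_units] at hg
  obtain ⟨m, hm⟩ := hpl
  have hm0 : m ≠ 0 := by
    rintro rfl
    omega
  have ho : orderOf (g ^ m) = p := by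
    rw [orderOf_pow' g hm0, hg, hm, Nat.gcd_eq_right (Dvd.intro_left p rfl)]
    exact Nat.mul_div_cancel p (Nat.pos_of_ne_zero hm0)
  refine ⟨g ^ m, ho, ?_⟩
  by_cases hsp : s = p
  · obtain ⟨m', hm'⟩ := hspl hsp
    have h1 : m = m' * p := by
      have h2 : p * m = p * (m' * p) := by
        rw [← hm, hm']
        ring
      exact Nat.eq_of_mul_eq_mul_left hp.pos h2
    rw [h1, pow_mul, map_pow, ← hsp]
    exact exX_exp _
  · refine exX_cop ((Nat.coprime_primes hp hs).2 (Ne.symm hsp)) ?_ (exX_exp _)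
    rw [← map_pow, ← ho, pow_orderOf_eq_one, map_one]

/-- permutations as elements of `PW` -/
private def exX_in (L Om : Type) [AddCommGroup L] : Equiv.Perm Om →* PW L Om where
  toFun g := ⟨fun _ => 0, g⟩
  map_one' := rfl
  map_mul' g h := by
    refine PW.ext ?_ rfl
    funext w
    rw [PW.mul_f, add_zero]

private theorem exX_in_mem {s k l : ℕ} [Fact l.Prime] (χ : (ZMod l)ˣ →* Multiplicative (ZMod s))
    {ζ : (ZMod l)ˣ} (h : χ ζ = 1) :
    exX_in (ZMod (s ^ (k + 1))) (Option (ZMod l)) (act (dia ζ)) ∈ EE s k l χ := by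
  refine ⟨dia ζ, rfl, fun w => ?_⟩
  have h1 : red s k ((exX_in (ZMod (s ^ (k + 1))) (Option (ZMod l)) (act (dia ζ))).f w) = 0 :=
    map_zero _
  rw [h1]
  unfold cj
  cases w with
  | none =>
    have h2 : Units.mk0 (jj (dia ζ) none) (jj_ne (dia ζ) none) = ζ := by
      apply Units.ext
      rw [Units.val_mk0, jj_dia_none]
    rw [h2, h, toAdd_one]
  | some z =>
    have h2 : Units.mk0 (jj (dia ζ) (some z)) (jj_ne (dia ζ) (some z)) = ζ⁻¹ := by
      apply Units.ext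
      rw [Units.val_mk0, jj_dia_some]
    rw [h2, map_inv, h, inv_one, toAdd_one]

private theorem exX_dia_ne {l p : ℕ} [Fact l.Prime] {ζ : (ZMod l)ˣ} (h : orderOf ζ = p)
    (hp : 2 < p) : act (dia ζ) ≠ 1 := by
  intro h1
  have h2 : mob (dia ζ) (some 1) = some 1 := by
    rw [← act_apply, h1]
    rfl
  rw [mob_dia_some, mul_one, Option.some_inj] at h2
  have h3 : ζ ^ 2 = 1 := by
    apply Units.ext
    rw [Units.val_pow_eq_pow_val, h2, Units.val_one]
  have h4 := Nat.le_of_dvd (by norm_num) (orderOf_dvd_of_pow_eq_one h3)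
  omega

private theorem exX_dia_pow {l p : ℕ} [Fact l.Prime] {ζ : (ZMod l)ˣ} (h : orderOf ζ = p) :
    act (dia ζ) ^ p = 1 := by
  have h1 : ∀ n : ℕ, (dia ζ : SL2 (ZMod l)) ^ n = dia (ζ ^ n) := by
    intro n
    induction n with
    | zero => rw [pow_zero, pow_zero, dia_one]
    | succ n ih => rw [pow_succ, pow_succ, ih, dia_mul]
  rw [← map_pow, h1, ← h, pow_orderOf_eq_one, dia_one, map_one]

/-- the projection of `EE` -/
private def exX_pi (s k l : ℕ) [Fact l.Prime] (χ : (ZMod l)ˣ →* Multiplicative (ZMod s)) :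
    EE s k l χ →* Equiv.Perm (Option (ZMod l)) := PW.pg.comp (EE s k l χ).subtype

private theorem exX_pow {L Om : Type} [AddCommGroup L] (x : PW L Om) (hx : x.g = 1) (n : ℕ) :
    x ^ n = ⟨fun w => n • x.f w, 1⟩ := by
  induction n with
  | zero =>
    refine PW.ext ?_ ?_
    · funext w
      rw [pow_zero, PW.one_f]
      exact (zero_smul ℕ _).symm
    · rw [pow_zero, PW.one_g]
  | succ n ih =>
    rw [pow_succ, ih]
    refine PW.ext ?_ ?_
    · funext w
      rw [PW.mul_f, hx]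
      show n • x.f w + x.f w = (n + 1) • x.f w
      rw [succ_nsmul]
    · rw [PW.mul_g, hx, mul_one]

private theorem exX_ker (s k l : ℕ) [Fact l.Prime] (χ : (ZMod l)ˣ →* Multiplicative (ZMod s)) :
    IsPGroup s (exX_pi s k l χ).ker := by
  intro x
  refine ⟨k + 1, ?_⟩
  apply Subtype.ext
  apply Subtype.ext
  have hx : (x.1.1 : PW (ZMod (s ^ (k + 1))) (Option (ZMod l))).g = 1 := x.2
  have h1 : ((((x ^ s ^ (k + 1) : (exX_pi s k l χ).ker) : EE s k l χ)) :
      PW (ZMod (s ^ (k + 1))) (Option (ZMod l))) = x.1.1 ^ s ^ (k + 1) := rfl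
  rw [h1, exX_pow _ hx]
  refine PW.ext ?_ rfl
  funext w
  show s ^ (k + 1) • x.1.1.f w = 0
  rw [nsmul_eq_mul, ZMod.natCast_self, zero_mul]

private theorem exX_lift {s k l : ℕ} [Fact l.Prime]
    (χ : (ZMod l)ˣ →* Multiplicative (ZMod s)) (B : SL2 (ZMod l)) :
    ∃ x : EE s k l χ, exX_pi s k l χ x = act B := by
  have h : ∀ w, ∃ c : ZMod (s ^ (k + 1)), red s k c = cj χ B w := fun w =>
    ZMod.castHom_surjective (dvd_pow_self s (Nat.succ_ne_zero k)) _
  choose f hf using h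
  exact ⟨⟨⟨f, act B⟩, B, rfl, hf⟩, rfl⟩

theorem exX {p q s k l : ℕ} [Fact l.Prime] (hp : p.Prime) (hq : q.Prime) (hs : s.Prime)
    (hpq : 2 * (p + q) < p * q) (hsq : s ≠ q) (hpl : p ∣ l - 1) (hql : q ∣ l + 1)
    (hspl : s = p → p ^ 2 ∣ l - 1) (χ : (ZMod l)ˣ →* Multiplicative (ZMod s)) :
    ∃ (X : Subgroup (PW (ZMod (s ^ (k + 1))) (Option (ZMod l)))) (a b : X),
      Xd s k l χ X ∧ InvGen a b ∧ a ^ p = 1 ∧ b ^ q = 1 ∧
      (a : PW (ZMod (s ^ (k + 1))) (Option (ZMod l))).g ≠ 1 ∧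
      (b : PW (ZMod (s ^ (k + 1))) (Option (ZMod l))).g ≠ 1 := by
  have hp3 : 2 < p := by
    rcases Nat.lt_or_ge 2 p with h | h
    · exact h
    · exfalso
      nlinarith [hp.two_le, hq.two_le]
  have hq3 : 2 < q := by
    rcases Nat.lt_or_ge 2 q with h | h
    · exact h
    · exfalso
      nlinarith [hp.two_le, hq.two_le]
  have hqodd : Odd q := hq.odd_of_ne_two (by omega)
  have hne : NeZero (s ^ (k + 1)) := ⟨pow_ne_zero _ hs.ne_zero⟩
  obtain ⟨ζ, hζ, hχ⟩ := exX_zeta hp hs hpl hspl χ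
  obtain ⟨a₀, ha₀⟩ : ∃ a₀ : EE s k l χ, (a₀ : PW (ZMod (s ^ (k + 1))) (Option (ZMod l))) =
      exX_in (ZMod (s ^ (k + 1))) (Option (ZMod l)) (act (dia ζ)) := ⟨⟨_, exX_in_mem χ hχ⟩, rfl⟩
  have ha₀p : a₀ ^ p = 1 := by
    apply Subtype.ext
    have h1 : ((a₀ ^ p : EE s k l χ) : PW (ZMod (s ^ (k + 1))) (Option (ZMod l))) =
        (a₀ : PW (ZMod (s ^ (k + 1))) (Option (ZMod l))) ^ p := rfl
    rw [h1, ha₀, ← map_pow, exX_dia_pow hζ, map_one]
    rfl
  have hsa₀ : PW.sm (a₀ : PW (ZMod (s ^ (k + 1))) (Option (ZMod l))) = 1 := by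
    rw [ha₀, PW.sm_apply]
    have h1 : ∑ w, (exX_in (ZMod (s ^ (k + 1))) (Option (ZMod l)) (act (dia ζ))).f w = 0 :=
      Finset.sum_eq_zero fun w _ => rfl
    rw [h1, ofAdd_zero]
  obtain ⟨B, hB⟩ := nonsplit hqodd hql
  obtain ⟨x, hx⟩ := exX_lift (s := s) (k := k) χ B
  obtain ⟨b₀, hb₀, hb₀q, -⟩ := lift_coprime hs (exX_pi s k l χ) (exX_ker s k l χ) x (by
    rw [hx, hB]
    exact (Nat.coprime_primes hq hs).2 (Ne.symm hsq))
  rw [hx] at hb₀
  rw [hx, hB] at hb₀q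
  have hb₀1 : b₀ ^ q = 1 := by
    rw [← hb₀q]
    exact pow_orderOf_eq_one b₀
  have hsb₀ : PW.sm (b₀ : PW (ZMod (s ^ (k + 1))) (Option (ZMod l))) = 1 := by
    refine exX_cop (m := q) (n := s ^ (k + 1))
      (Nat.Coprime.pow_right (k + 1) ((Nat.coprime_primes hq hs).2 (Ne.symm hsq))) ?_ (exX_exp _)
    rw [← map_pow]
    have h1 : (b₀ : PW (ZMod (s ^ (k + 1))) (Option (ZMod l))) ^ q =
        ((b₀ ^ q : EE s k l χ) : PW (ZMod (s ^ (k + 1))) (Option (ZMod l))) := rfl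
    rw [h1, hb₀1]
    exact map_one _
  obtain ⟨X₀, a', b', g, h, ha', hb', hinv⟩ := exists_min a₀ b₀
  obtain ⟨X, hX⟩ : ∃ X : Subgroup (PW (ZMod (s ^ (k + 1))) (Option (ZMod l))),
      X = X₀.map (EE s k l χ).subtype := ⟨_, rfl⟩
  have hmem : ∀ y : X₀, (y.1.1 : PW (ZMod (s ^ (k + 1))) (Option (ZMod l))) ∈ X := fun y => by
    rw [hX]
    exact ⟨y.1, y.2, rfl⟩
  let e : X₀ →* X :=
    { toFun := fun y => ⟨y.1.1, hmem y⟩
      map_one' := rfl
      map_mul' := fun _ _ => rfl }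
  have he : Function.Surjective e := by
    rintro ⟨y, hy⟩
    rw [hX] at hy
    obtain ⟨z, hz, rfl⟩ := hy
    exact ⟨⟨z, hz⟩, rfl⟩
  have hig : InvGen (e a') (e b') := hinv.map e he
  have hap : a' ^ p = 1 := by
    apply Subtype.ext
    have h1 : ((a' ^ p : X₀) : EE s k l χ) = (a' : EE s k l χ) ^ p := rfl
    rw [h1, ha', exX_conj_pow, ha₀p, mul_one, inv_mul_cancel]
    rfl
  have hbq : b' ^ q = 1 := by
    apply Subtype.ext
    have h1 : ((b' ^ q : X₀) : EE s k l χ) = (b' : EE s k l χ) ^ q := rfl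
    rw [h1, hb', exX_conj_pow, hb₀1, mul_one, inv_mul_cancel]
    rfl
  have hpa : exX_pi s k l χ a' =
      (exX_pi s k l χ g)⁻¹ * act (dia ζ) * exX_pi s k l χ g := by
    rw [ha', map_mul, map_mul, map_inv]
    have h1 : exX_pi s k l χ a₀ = act (dia ζ) := by
      show (a₀ : PW (ZMod (s ^ (k + 1))) (Option (ZMod l))).g = act (dia ζ)
      rw [ha₀]
      rfl
    rw [h1]
  have hpb : exX_pi s k l χ b' = (exX_pi s k l χ h)⁻¹ * act B * exX_pi s k l χ h := by
    rw [hb', map_mul, map_mul, map_inv, hb₀]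
  have hpa1 : exX_pi s k l χ a' ≠ 1 := by
    rw [hpa]
    intro h1
    apply exX_dia_ne hζ hp3
    have h2 : act (dia ζ) = exX_pi s k l χ g *
        ((exX_pi s k l χ g)⁻¹ * act (dia ζ) * exX_pi s k l χ g) * (exX_pi s k l χ g)⁻¹ := by
      group
    rw [h2, h1, mul_one, mul_inv_cancel]
  have hpb1 : exX_pi s k l χ b' ≠ 1 := by
    rw [hpb]
    intro h1
    have h2 : act B = exX_pi s k l χ h *
        ((exX_pi s k l χ h)⁻¹ * act B * exX_pi s k l χ h) * (exX_pi s k l χ h)⁻¹ := by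
      group
    have h3 : act B = 1 := by rw [h2, h1, mul_one, mul_inv_cancel]
    rw [h3, orderOf_one] at hB
    omega
  have hpap : (exX_pi s k l χ a') ^ p = 1 := by
    have h1 : (a' : EE s k l χ) ^ p = 1 := congrArg Subtype.val hap
    rw [← map_pow, h1, map_one]
  have hpbq : (exX_pi s k l χ b') ^ q = 1 := by
    have h1 : (b' : EE s k l χ) ^ q = 1 := congrArg Subtype.val hbq
    rw [← map_pow, h1, map_one]
  have hle : X ≤ EE s k l χ := by
    rw [hX]
    exact Subgroup.map_subtype_le X₀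
  -- the image in `PSL`
  have hY : X.map PW.pg = PSL (ZMod l) := by
    refine psl_ig hp hq hpq (X.map PW.pg) ?_ (x := exX_pi s k l χ a') (y := exX_pi s k l χ b')
      ⟨_, hmem a', rfl⟩ hpap hpa1 ⟨(exX_pi s k l χ g)⁻¹ none, ?_⟩ ⟨_, hmem b', rfl⟩ hpbq hpb1 ?_
    · rintro _ ⟨y, hy, rfl⟩
      obtain ⟨A, hA, -⟩ := hle hy
      exact ⟨A, hA.symm⟩
    · rw [hpa, Equiv.Perm.mul_apply, Equiv.Perm.mul_apply]
      have h1 : exX_pi s k l χ g ((exX_pi s k l χ g)⁻¹ none) = none :=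
        Equiv.apply_symm_apply (exX_pi s k l χ g) none
      rw [h1, act_apply, mob_dia_none]
    · obtain ⟨A, hA, -⟩ := (b' : EE s k l χ).2
      have h1 : exX_pi s k l χ b' = act A := hA
      rw [h1] at hpb1 hpbq ⊢
      exact nofix hq (by omega) hql A hpb1 hpbq
  refine ⟨X, e a', e b', ⟨hle, ?_, ?_⟩, hig, ?_, ?_, hpa1, hpb1⟩
  · intro A
    have h1 : act A ∈ X.map PW.pg := by
      rw [hY]
      exact ⟨A, rfl⟩
    obtain ⟨y, hy, hyA⟩ := h1
    exact ⟨y, hy, hyA⟩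
  · have hK : (PW.sm.comp X.subtype).ker = ⊤ := by
      refine hig.eq_top (g := 1) (k := 1) ?_ ?_
      · rw [inv_one, one_mul, mul_one, MonoidHom.mem_ker]
        show PW.sm ((a' : EE s k l χ) : PW (ZMod (s ^ (k + 1))) (Option (ZMod l))) = 1
        rw [ha']
        have h1 : ((g⁻¹ * a₀ * g : EE s k l χ) : PW (ZMod (s ^ (k + 1))) (Option (ZMod l))) =
          (g : PW (ZMod (s ^ (k + 1))) (Option (ZMod l)))⁻¹ * a₀ * g := rfl
        rw [h1, map_mul, map_mul, hsa₀, mul_one, map_inv, inv_mul_cancel]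
      · rw [inv_one, one_mul, mul_one, MonoidHom.mem_ker]
        show PW.sm ((b' : EE s k l χ) : PW (ZMod (s ^ (k + 1))) (Option (ZMod l))) = 1
        rw [hb']
        have h1 : ((h⁻¹ * b₀ * h : EE s k l χ) : PW (ZMod (s ^ (k + 1))) (Option (ZMod l))) =
          (h : PW (ZMod (s ^ (k + 1))) (Option (ZMod l)))⁻¹ * b₀ * h := rfl
        rw [h1, map_mul, map_mul, hsb₀, mul_one, map_inv, inv_mul_cancel]
    intro y hy
    have h1 : (⟨y, hy⟩ : X) ∈ (PW.sm.comp X.subtype).ker := by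
      rw [hK]
      exact Subgroup.mem_top _
    have h2 : PW.sm y = 1 := h1
    rw [PW.sm_apply] at h2
    exact ofAdd_eq_one.1 h2
  · rw [← map_pow, hap, map_one]
  · rw [← map_pow, hbq, map_one]

end Pool.Agent.NBA
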