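import Pool.Agent.NBA.PLine

set_option autoImplicit false

/-! NBA: the monomial groups `PW` and the extension `EE` of `PSL₂(ℓ)` by `(s ℤ / s ^ (k + 1)) ^ (ℓ + 1)`. -/

namespace Pool.Agent.NBA

/-- pairs of a function with values in the abelian group `L` and a permutation -/
@[ext]
structure PW (L Om : Type) where
  f : Om → L
  g : Equiv.Perm Om

namespace PW

variable {L Om : Type} [AddCommGroup L]

instance : Mul (PW L Om) := ⟨fun x y => ⟨fun w => x.f (y.g w) + y.f w, x.g * y.g⟩⟩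
instance : One (PW L Om) := ⟨⟨fun _ => 0, 1⟩⟩
instance : Inv (PW L Om) := ⟨fun x => ⟨fun w => -x.f (x.g⁻¹ w), x.g⁻¹⟩⟩

@[simp] theorem mul_f (x y : PW L Om) (w : Om) : (x * y).f w = x.f (y.g w) + y.f w := rfl
@[simp] theorem mul_g (x y : PW L Om) : (x * y).g = x.g * y.g := rfl
@[simp] theorem one_f (w : Om) : (1 : PW L Om).f w = 0 := rfl
@[simp] theorem one_g : (1 : PW L Om).g = 1 := rfl
@[simp] theorem inv_f (x : PW L Om) (w : Om) : (x⁻¹).f w = -x.f (x.g⁻¹ w) := rfl
@[simp] theorem inv_g (x : PW L Om) : (x⁻¹).g = x.g⁻¹ := rfl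

instance : Group (PW L Om) := Group.ofLeftAxioms
  (by intro x y z
      refine PW.ext ?_ ?_
      · funext w
        simp [add_assoc]
      · simp [mul_assoc])
  (by intro x
      refine PW.ext ?_ ?_
      · funext w
        simp
      · simp)
  (by intro x
      refine PW.ext ?_ ?_
      · funext w
        simp
      · simp)

instance [Finite L] [Finite Om] : Finite (PW L Om) :=
  Finite.of_injective (fun x : PW L Om => (x.f, x.g)) (by
    intro x y h
    exact PW.ext (congrArg Prod.fst h) (congrArg Prod.snd h))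

/-- the projection onto the permutations -/
def pg : PW L Om →* Equiv.Perm Om where
  toFun x := x.g
  map_one' := rfl
  map_mul' _ _ := rfl

@[simp] theorem pg_apply (x : PW L Om) : pg x = x.g := rfl

/-- the sum of the values -/
noncomputable def sm [Fintype Om] : PW L Om →* Multiplicative L where
  toFun x := Multiplicative.ofAdd (∑ w, x.f w)
  map_one' := by simp
  map_mul' x y := by
    rw [← ofAdd_add]
    congr 1
    simp only [mul_f, Finset.sum_add_distrib]
    rw [Equiv.sum_comp y.g (fun w => x.f w)]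

@[simp] theorem sm_apply [Fintype Om] (x : PW L Om) :
    sm x = Multiplicative.ofAdd (∑ w, x.f w) := rfl

end PW

/-- reduction -/
def red (s k : ℕ) : ZMod (s ^ (k + 1)) →+* ZMod s :=
  ZMod.castHom (dvd_pow_self s (Nat.succ_ne_zero k)) (ZMod s)

/-- the value of the character `χ` at the cocycle -/
noncomputable def cj {K : Type} [Field K] {s : ℕ} (χ : Kˣ →* Multiplicative (ZMod s)) (A : SL2 K)
    (w : Option K) : ZMod s := (χ (Units.mk0 (jj A w) (jj_ne A w))).toAdd

theorem cj_mul {K : Type} [Field K] {s : ℕ} (χ : Kˣ →* Multiplicative (ZMod s)) (A B : SL2 K)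
    (w : Option K) : cj χ (A * B) w = cj χ A (mob B w) + cj χ B w := by
  unfold cj
  rw [← toAdd_mul, ← map_mul]
  congr 2
  apply Units.ext
  exact jj_mul A B w

theorem cj_one {K : Type} [Field K] {s : ℕ} (χ : Kˣ →* Multiplicative (ZMod s))
    (w : Option K) : cj χ (1 : SL2 K) w = 0 := by
  have h := cj_mul χ 1 1 w
  rw [mul_one, mob_one] at h
  exact left_eq_add.1 h

/-- the extension of `PSL₂(ℓ)` -/
def EE (s k l : ℕ) [Fact l.Prime] (χ : (ZMod l)ˣ →* Multiplicative (ZMod s)) :
    Subgroup (PW (ZMod (s ^ (k + 1))) (Option (ZMod l))) where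
  carrier := {x | ∃ A : SL2 (ZMod l), x.g = act A ∧ ∀ w, red s k (x.f w) = cj χ A w}
  one_mem' := ⟨1, by rw [map_one]; rfl, fun w => by rw [PW.one_f, map_zero, cj_one]⟩
  mul_mem' := by
    rintro x y ⟨A, hA, hA'⟩ ⟨B, hB, hB'⟩
    refine ⟨A * B, by rw [PW.mul_g, hA, hB, map_mul], fun w => ?_⟩
    rw [PW.mul_f, map_add, hA', hB', cj_mul, hB]
    rfl
  inv_mem' := by
    rintro x ⟨A, hA, hA'⟩
    refine ⟨A⁻¹, by rw [PW.inv_g, hA, map_inv], fun w => ?_⟩
    have h := cj_mul χ A A⁻¹ w
    rw [mul_inv_cancel, cj_one] at h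
    rw [PW.inv_f, map_neg, hA', hA, ← map_inv]
    exact (eq_neg_of_add_eq_zero_right h.symm).symm

/-- the functions `v` with `(v, 1) ∈ X` -/
def vX {L Om : Type} [AddCommGroup L] (X : Subgroup (PW L Om)) : AddSubgroup (Om → L) where
  carrier := {v | (⟨v, 1⟩ : PW L Om) ∈ X}
  zero_mem' := X.one_mem
  add_mem' := by
    intro v w hv hw
    have h := X.mul_mem hv hw
    exact h
  neg_mem' := by
    intro v hv
    have h := X.inv_mem hv
    have e : (⟨v, 1⟩ : PW L Om)⁻¹ = ⟨-v, 1⟩ := by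
      refine PW.ext ?_ ?_
      · funext w
        simp
      · simp
    rw [e] at h
    exact h

theorem mem_vX {L Om : Type} [AddCommGroup L] {X : Subgroup (PW L Om)} {v : Om → L} :
    v ∈ vX X ↔ (⟨v, 1⟩ : PW L Om) ∈ X := Iff.rfl

/-- the standing assumptions on the subgroup `X` of `EE` -/
structure Xd (s k l : ℕ) [Fact l.Prime] (χ : (ZMod l)ˣ →* Multiplicative (ZMod s))
    (X : Subgroup (PW (ZMod (s ^ (k + 1))) (Option (ZMod l)))) : Prop where
  le : X ≤ EE s k l χ
  onto : ∀ A : SL2 (ZMod l), ∃ x ∈ X, x.g = act A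
  sum : ∀ x ∈ X, ∑ w, x.f w = 0

/-- division by `s ^ m` (of the multiples of `s ^ m`) -/
def dv (s k m : ℕ) (c : ZMod (s ^ (k + 1))) : ZMod s := ((c.val / s ^ m : ℕ) : ZMod s)

/-- the pairing of a weight and a function -/
noncomputable def pr {s k : ℕ} {Om : Type} [Fintype Om] (m : ℕ) (w : Om → ZMod s) (o : Om)
    (v : Om → ZMod (s ^ (k + 1))) : ZMod s := ∑ z, w z * dv s k m (v z - v o)

/-- the pairing with exponent `m` is defined on `V` and nondegenerate -/
structure Pair (s k : ℕ) {Om : Type} [Fintype Om] (V : AddSubgroup (Om → ZMod (s ^ (k + 1))))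
    (m : ℕ) (o : Om) : Prop where
  le : m ≤ k
  dvd : ∀ v ∈ V, ∀ x y, ∃ c : ZMod (s ^ (k + 1)), v x - v y = (s ^ m : ℕ) • c
  nondeg : ∀ w : Om → ZMod s, ∑ z, w z = 0 → (∀ v ∈ V, pr m w o v = 0) → ∀ x y, w x = w y

/-- the first weight -/
noncomputable def w1 (s l : ℕ) : Option (ZMod l) → ZMod s :=
  Pi.single none 1 - Pi.single (some 0) 1

/-- the second weight -/
noncomputable def w2 (s l : ℕ) : Option (ZMod l) → ZMod s :=
  Pi.single (some 1) 1 - Pi.single (some 2) 1 + Pi.single (some 3) 1 - Pi.single (some 7) 1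

end Pool.Agent.NBA
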