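import Pool.Agent.NBA.PGen

set_option autoImplicit false

/-! NBA-Gen. Subgroups of `PSL₂(ℓ)` with an element of order `ℓ` and an element without fixed points.
PLAN.  `x ∈ X` of order `l` permutes the `l + 1` points: the number of fixed points is `≡ l + 1 ≡ 1 (mod l)` (cycle type or `IsPGroup.card_modEq_card_fixedPoints` for `Subgroup.zpowers x`), so there is a fixed point `w`.  `w' = y w ≠ w` is fixed by `x' = y * x * y⁻¹ ∈ X`.
By `two_trans` there is `A` with `mob A w = none`, `mob A w' = some 0`.  Let `X' = act A * X * (act A)⁻¹` (conjugate subgroup, `≤ PSL`); it is enough that `X'` contains everything.  `x₁ = act A * x * (act A)⁻¹ = act B` with `mob B none = none`: `B 1 0 = 0`, `B = (α β; 0 α⁻¹)`,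
`mob B (some z) = some (α² z + α β)`; `x₁ ^ l = 1` gives `(α²) ^ l = 1` (diagonal entries of `B ^ l`, which is `± 1`), and `α ^ l = α` in `ZMod l` (`ZMod.pow_card`): `α⁴ = 1`... precisely `(α^l)² = 1`, so `α² = 1`: `x₁` is a translation by `τ = α β`,
`τ ≠ 0` as `x₁ ≠ 1`.  Its powers are all translations (`τ` is a unit in the prime field).  In the same way `act A * x' * (act A)⁻¹` fixes `some 0`; conjugating with `act wey` it fixes `none`, so it is a translation: so `X'` contains all
`act wey * act (tra t) * (act wey)⁻¹` or `(act wey)⁻¹ * act (tra t) * act wey` (the same set: `act wey` is an involution).  `gen2`. -/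

namespace Pool.Agent.NBA

private theorem Gen_bor {K : Type} [Field K] {B : SL2 K} (h : mob B none = none) (z : K) :
    mob B (some z) = some ((B.1 0 0) ^ 2 * z + B.1 0 0 * B.1 0 1) := by
  classical
  have hd := det2 B
  have h1 : B.1 1 0 = 0 := by
    by_contra hc
    simp [mob, hc] at h
  have h2 : B.1 0 0 * B.1 1 1 = 1 := by
    rw [h1] at hd
    linear_combination hd
  have h3 : B.1 1 1 ≠ 0 := by
    intro h0
    rw [h0] at h2
    simp at h2
  have h4 : ¬ (B.1 1 0 * z + B.1 1 1 = 0) := by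
    rw [h1]
    simpa using h3
  simp only [mob, h4, if_false]
  congr 1
  rw [h1, div_eq_iff (by simpa using h3)]
  linear_combination (- B.1 0 0 * z - B.1 0 1) * h2

private theorem Gen_it {K : Type} [Field K] {f : Equiv.Perm (Option K)} {a t : K}
    (hf : ∀ z : K, f (some z) = some (a * z + t)) (n : ℕ) :
    ∃ c : K, ∀ z : K, (f ^ n) (some z) = some (a ^ n * z + c) := by
  induction n with
  | zero => exact ⟨0, fun z => by simp⟩
  | succ n ih =>
    obtain ⟨c, hc⟩ := ih
    refine ⟨a * c + t, fun z => ?_⟩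
    rw [pow_succ', Equiv.Perm.mul_apply, hc, hf]
    congr 1
    ring

private theorem Gen_pow {K : Type} [Field K] (t : K) (n : ℕ) :
    act (tra ((n : K) * t)) = act (tra t) ^ n := by
  induction n with
  | zero =>
    rw [Nat.cast_zero, zero_mul, pow_zero]
    have : tra (0 : K) = 1 := by
      apply Subtype.ext
      change !![(1 : K), 0; 0, 1] = 1
      rw [Matrix.one_fin_two]
    rw [this, map_one]
  | succ n ih =>
    rw [pow_succ, ← ih, ← map_mul, ← tra_add]
    congr 2
    push_cast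
    ring

private theorem Gen_tr {l : ℕ} [Fact l.Prime] {X : Subgroup (Equiv.Perm (Option (ZMod l)))}
    {x : Equiv.Perm (Option (ZMod l))} (hx : x ∈ X) (hP : x ∈ PSL (ZMod l)) (hl : x ^ l = 1)
    (h1 : x ≠ 1) {w : Option (ZMod l)} (hw : x w = w) {C : SL2 (ZMod l)}
    (hC : mob C w = none) (t : ZMod l) : (act C)⁻¹ * act (tra t) * act C ∈ X := by
  obtain ⟨B₀, hB₀⟩ := hP
  have hB : act (C * B₀ * C⁻¹) = act C * x * (act C)⁻¹ := by
    rw [map_mul, map_mul, map_inv, hB₀]
  generalize C * B₀ * C⁻¹ = B at hB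
  have hCi : (act C)⁻¹ none = w := by
    rw [Equiv.Perm.inv_eq_iff_eq, act_apply, hC]
  have hBn : mob B none = none := by
    rw [← act_apply, hB, Equiv.Perm.mul_apply, Equiv.Perm.mul_apply, hCi, hw, act_apply, hC]
  have hBl : act B ^ l = 1 := by
    rw [hB, conj_pow, hl, mul_one, mul_inv_cancel]
  have hB1 : act B ≠ 1 := by
    intro h
    rw [hB] at h
    exact h1 (conj_eq_one_iff.1 h)
  have hf : ∀ z : ZMod l, act B (some z) = some ((B.1 0 0) ^ 2 * z + B.1 0 0 * B.1 0 1) :=
    fun z => Gen_bor hBn z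
  obtain ⟨c, hc⟩ := Gen_it hf l
  rw [hBl] at hc
  have h0 := hc 0
  have h2 := hc 1
  rw [Equiv.Perm.one_apply] at h0 h2
  have h0' := Option.some.inj h0
  have h2' := Option.some.inj h2
  rw [ZMod.pow_card] at h0' h2'
  have ha : (B.1 0 0) ^ 2 = 1 := by linear_combination h0' - h2'
  have hBt : act B = act (tra (B.1 0 0 * B.1 0 1)) := by
    apply Equiv.ext
    intro z
    rw [act_apply (tra _)]
    cases z with
    | none => rw [act_apply, hBn, mob_tra_none]
    | some z => rw [hf, ha, one_mul, mob_tra_some]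
  generalize B.1 0 0 * B.1 0 1 = τ at hBt
  have hτ : τ ≠ 0 := by
    intro h
    rw [h] at hBt
    apply hB1
    rw [hBt]
    have : tra (0 : ZMod l) = 1 := by
      apply Subtype.ext
      change !![(1 : ZMod l), 0; 0, 1] = 1
      rw [Matrix.one_fin_two]
    rw [this, map_one]
  have h5 : act (tra t) = act B ^ (t / τ).val := by
    rw [hBt, ← Gen_pow, ZMod.natCast_zmod_val, div_mul_cancel₀ _ hτ]
  have h6 : (act C)⁻¹ * act (tra t) * act C = x ^ (t / τ).val := by
    rw [h5, hB, conj_pow]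
    group
  rw [h6]
  exact pow_mem hx _

theorem gen {l : ℕ} [Fact l.Prime] (X : Subgroup (Equiv.Perm (Option (ZMod l))))
    (hX : X ≤ PSL (ZMod l)) {x y : Equiv.Perm (Option (ZMod l))} (hx : x ∈ X)
    (hxl : orderOf x = l) (hy : y ∈ X) (hyf : ∀ w, y w ≠ w) : X = PSL (ZMod l) := by
  classical
  have hp : l.Prime := Fact.out
  have hl : x ^ l = 1 := orderOf_dvd_iff_pow_eq_one.1 (dvd_of_eq hxl)
  have h1 : x ≠ 1 := by
    intro h
    rw [h, orderOf_one] at hxl
    exact hp.one_lt.ne hxl
  have hcard : ¬ l ∣ Fintype.card (Option (ZMod l)) := by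
    rw [Fintype.card_option, ZMod.card]
    intro h
    exact hp.one_lt.ne' (Nat.dvd_one.1 ((Nat.dvd_add_right (dvd_refl l)).1 h))
  obtain ⟨w, hw⟩ := Equiv.Perm.exists_fixed_point_of_prime (p := l) (n := 1) hcard
    (σ := x) (by rw [pow_one, hl])
  have hne : y w ≠ w := hyf w
  obtain ⟨A, hA1, hA2⟩ := two_trans hne.symm
    (x' := (none : Option (ZMod l))) (y' := some 0) (by simp)
  have hx' : y * x * y⁻¹ ∈ X := mul_mem (mul_mem hy hx) (inv_mem hy)
  have hl' : (y * x * y⁻¹) ^ l = 1 := by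
    rw [conj_pow, hl, mul_one, mul_inv_cancel]
  have h1' : y * x * y⁻¹ ≠ 1 := fun h => h1 (conj_eq_one_iff.1 h)
  have hw' : (y * x * y⁻¹) (y w) = y w := by
    rw [Equiv.Perm.mul_apply, Equiv.Perm.mul_apply, (Equiv.Perm.inv_eq_iff_eq).2 rfl, hw]
  have hC : mob (wey⁻¹ * A) (y w) = none := by
    rw [mob_mul, hA2, ← act_apply, map_inv, Equiv.Perm.inv_eq_iff_eq, act_apply, mob_wey_none]
  apply le_antisymm hX
  have key : ∀ B : SL2 (ZMod l), act B ∈ X.map (MulAut.conj (act A)).toMonoidHom := by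
    apply gen2
    · intro t
      refine ⟨_, Gen_tr hx (hX hx) hl h1 hw hA1 t, ?_⟩
      change act A * ((act A)⁻¹ * act (tra t) * act A) * (act A)⁻¹ = _
      group
    · intro t
      refine ⟨_, Gen_tr hx' (hX hx') hl' h1' hw' hC t, ?_⟩
      change act A * ((act (wey⁻¹ * A))⁻¹ * act (tra t) * act (wey⁻¹ * A)) * (act A)⁻¹ = _
      rw [map_mul, map_inv]
      group
  rintro _ ⟨D, rfl⟩
  obtain ⟨g, hg, hg2⟩ := key (A * D * A⁻¹)
  change act A * g * (act A)⁻¹ = _ at hg2
  rw [map_mul, map_mul, map_inv] at hg2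
  have hg3 : g = act D := by
    have := congrArg (fun z => (act A)⁻¹ * z * act A) hg2
    simpa [mul_assoc] using this
  rw [← hg3]
  exact hg

end Pool.Agent.NBA
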