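import Pool.Agent.NBA.Defs

set_option autoImplicit false

/-! NBA-Ind. Induced homomorphisms into wreath products and the embedding of Kaloujnine and Krasner. -/

namespace Pool.Agent.NBA

open Helper76.IG

section ind

variable {G Q M : Type} [Group G] [Group Q] [Group M]

theorem ind_mem (π : G →* Q) (hπ : Function.Surjective π) (g : G) (w : Q) :
    (Function.surjInv hπ w)⁻¹ * g * Function.surjInv hπ ((π g)⁻¹ * w) ∈ π.ker := by
  rw [MonoidHom.mem_ker, map_mul, map_mul, map_inv, Function.surjInv_eq hπ w,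
    Function.surjInv_eq hπ ((π g)⁻¹ * w)]
  group

/-- the homomorphism induced by a homomorphism `μ` on the kernel of `π` -/
noncomputable def ind (π : G →* Q) (hπ : Function.Surjective π) (μ : π.ker →* M) :
    G →* Wr M Q where
  toFun g := ⟨fun w => μ ⟨_, ind_mem π hπ g w⟩, π g⟩
  map_one' := by
    refine Wr.ext ?_ (map_one π)
    funext w
    have h : (⟨_, ind_mem π hπ 1 w⟩ : π.ker) = 1 := by
      apply Subtype.ext
      change (Function.surjInv hπ w)⁻¹ * 1 * Function.surjInv hπ ((π 1)⁻¹ * w) = 1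
      rw [map_one, inv_one, one_mul, mul_one, inv_mul_cancel]
    change μ _ = 1
    rw [h, map_one]
  map_mul' g h := by
    refine Wr.ext ?_ (map_mul π g h)
    funext w
    have e : (⟨_, ind_mem π hπ (g * h) w⟩ : π.ker) =
        ⟨_, ind_mem π hπ g w⟩ * ⟨_, ind_mem π hπ h ((π g)⁻¹ * w)⟩ := by
      apply Subtype.ext
      change (Function.surjInv hπ w)⁻¹ * (g * h) * Function.surjInv hπ ((π (g * h))⁻¹ * w) =
        (Function.surjInv hπ w)⁻¹ * g * Function.surjInv hπ ((π g)⁻¹ * w) *
        ((Function.surjInv hπ ((π g)⁻¹ * w))⁻¹ * h *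
          Function.surjInv hπ ((π h)⁻¹ * ((π g)⁻¹ * w)))
      rw [map_mul, mul_inv_rev, mul_assoc (π h)⁻¹]
      group
    change μ _ = μ _ * μ _
    rw [e, map_mul]

theorem ind_r (π : G →* Q) (hπ : Function.Surjective π) (μ : π.ker →* M) (g : G) :
    (ind π hπ μ g).r = π g := rfl

theorem ind_conj_mem (π : G →* Q) (k : π.ker) (g : G) : g⁻¹ * (k : G) * g ∈ π.ker := by
  rw [MonoidHom.mem_ker, map_mul, map_mul, MonoidHom.mem_ker.1 k.2, mul_one, map_inv,
    inv_mul_cancel]

/-- the values of the induced homomorphism on the kernel -/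
theorem ind_ker (π : G →* Q) (hπ : Function.Surjective π) (μ : π.ker →* M) (k : π.ker) (w : Q) :
    (ind π hπ μ (k : G)).l w = μ ⟨_, ind_conj_mem π k (Function.surjInv hπ w)⟩ := by
  have h : π (k : G) = 1 := MonoidHom.mem_ker.1 k.2
  change μ _ = μ _
  congr 1
  apply Subtype.ext
  change (Function.surjInv hπ w)⁻¹ * (k : G) * Function.surjInv hπ ((π (k : G))⁻¹ * w) = _
  rw [h, inv_one, one_mul]

end ind

/-- a group embeds in the wreath product of a normal subgroup and the quotient -/
theorem kk {G : Type} [Group G] (N : Subgroup G) [N.Normal] : Embeds G (Wr N (G ⧸ N)) := by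
  have hk : (QuotientGroup.mk' N).ker = N := QuotientGroup.ker_mk' N
  let μ : (QuotientGroup.mk' N).ker →* N := (MulEquiv.subgroupCongr hk).toMonoidHom
  refine ⟨ind (QuotientGroup.mk' N) (QuotientGroup.mk'_surjective N) μ, ?_⟩
  rw [injective_iff_map_eq_one]
  intro g hg
  have h1 : (QuotientGroup.mk' N) g = 1 := congrArg Wr.r hg
  let k : (QuotientGroup.mk' N).ker := ⟨g, h1⟩
  have h2 := congrArg (fun x => x.l 1) hg
  have h3 := ind_ker (QuotientGroup.mk' N) (QuotientGroup.mk'_surjective N) μ k 1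
  have h4 : μ ⟨_, ind_conj_mem (QuotientGroup.mk' N) k
      (Function.surjInv (QuotientGroup.mk'_surjective N) 1)⟩ = 1 := h3.symm.trans h2
  have h5 := congrArg (fun x : N => (x : G)) h4
  have h6 : (Function.surjInv (QuotientGroup.mk'_surjective N) 1)⁻¹ * g *
      Function.surjInv (QuotientGroup.mk'_surjective N) 1 = 1 := h5
  have h7 : g = Function.surjInv (QuotientGroup.mk'_surjective N) 1 *
      ((Function.surjInv (QuotientGroup.mk'_surjective N) 1)⁻¹ * g *
      Function.surjInv (QuotientGroup.mk'_surjective N) 1) *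
      (Function.surjInv (QuotientGroup.mk'_surjective N) 1)⁻¹ := by group
  rw [h7, h6]
  group

end Pool.Agent.NBA
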