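import Pool.Agent.NBA.Defs

set_option autoImplicit false

/-! NBA-RedA. The `s`-part of a group with nilpotent derived subgroup.
PLAN.  `D = commutator H` is finite nilpotent.  `N = {x ∈ D | (orderOf x).Coprime s}` is a subgroup: by `Group.isNilpotent_of_finite_tfae` all Sylow subgroups of `D` are
normal / `D` is the direct product of its Sylow subgroups; the projection of `D` onto its Sylow `s`-subgroup has kernel the elements of order
coprime to `s`.  (If `s` does not divide `Nat.card D` then `N = D`.)  `N` is normal in `H`: conjugation preserves `D` and orders.  `H' = H ⧸ N`, `f` the quotient map: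
`f x = 1` iff `x ∈ N`.  `commutator H'` is the image of `D` (`Subgroup.map_commutator`); for `x ∈ D` of order `s ^ j * n`, `n` coprime to `s`, `x ^ (s ^ j)` has order `n`, so is in `N`:
the image is an `s`-group. -/

namespace Pool.Agent.NBA

private theorem redA_char {ι : Type} {T : ι → Type} [∀ i, Group (T i)] (p : ι → ℕ)
    (hp : ∀ i, (p i).Prime) (hT : ∀ i, IsPGroup (p i) (T i)) [Finite (∀ i, T i)] {s : ℕ} (hs : s.Prime)
    (g : ∀ i, T i) : (orderOf g).Coprime s ↔ ∀ i, p i = s → g i = 1 := by
  have hord : ∀ i (x : T i), ∃ k, orderOf x = p i ^ k := by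
    intro i x
    haveI := Fact.mk (hp i)
    exact IsPGroup.iff_orderOf.1 (hT i) x
  constructor
  · intro h i hi
    obtain ⟨k, hk⟩ := hord i (g i)
    have h1 : orderOf (g i) ∣ orderOf g := by
      apply orderOf_dvd_of_pow_eq_one
      have h2 := congrFun (pow_orderOf_eq_one g) i
      simpa using h2
    rw [hk, hi] at h1
    have h3 : (s ^ k).Coprime s := Nat.Coprime.coprime_dvd_left h1 h
    rcases Nat.eq_zero_or_pos k with rfl | hk0
    · rw [pow_zero] at hk
      exact orderOf_eq_one_iff.1 hk
    · exfalso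
      have h4 := (Nat.coprime_pow_left_iff hk0 s s).1 h3
      rw [Nat.coprime_self] at h4
      exact hs.ne_one h4
  · intro h
    rw [Nat.coprime_comm, hs.coprime_iff_not_dvd]
    intro hdvd
    have hn : 0 < orderOf g := orderOf_pos g
    obtain ⟨m, hm⟩ := hdvd
    have hm0 : m ≠ 0 := by
      rintro rfl
      omega
    have hml : m < orderOf g := by
      rw [hm]
      exact lt_mul_of_one_lt_left (Nat.pos_of_ne_zero hm0) hs.one_lt
    have hgm : g ^ m ≠ 1 := pow_ne_one_of_lt_orderOf hm0 hml
    obtain ⟨i, hi⟩ : ∃ i, (g i) ^ m ≠ 1 := by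
      by_contra hcon
      push Not at hcon
      apply hgm
      funext i
      simpa using hcon i
    have h1 : ((g i) ^ m) ^ s = 1 := by
      rw [← pow_mul, mul_comm, ← hm]
      have h2 := congrFun (pow_orderOf_eq_one g) i
      simpa using h2
    have h2 : orderOf ((g i) ^ m) ∣ s := orderOf_dvd_of_pow_eq_one h1
    have h3 : orderOf ((g i) ^ m) = s := by
      rcases (Nat.dvd_prime hs).1 h2 with h3 | h3
      · exact absurd (orderOf_eq_one_iff.1 h3) hi
      · exact h3
    obtain ⟨k, hk⟩ := hord i ((g i) ^ m)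
    rw [h3] at hk
    have h4 : s ∣ p i := hs.dvd_of_dvd_pow (dvd_of_eq hk)
    have h5 : s = p i := (Nat.prime_dvd_prime_iff_eq hs (hp i)).1 h4
    apply hi
    rw [h i h5.symm, one_pow]

private theorem redA_mul {G : Type} [Group G] [Finite G] (hG : Group.IsNilpotent G) {s : ℕ}
    (hs : s.Prime) (x y : G) (hx : (orderOf x).Coprime s) (hy : (orderOf y).Coprime s) :
    (orderOf (x * y)).Coprime s := by
  obtain ⟨e⟩ := ((Group.isNilpotent_of_finite_tfae (G := G)).out 0 4).mp hG
  let ι : Type := Σ p : (Nat.card G).primeFactors, Sylow p G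
  let T : ι → Type := fun i => (i.2 : Subgroup G)
  let F : (∀ i : ι, T i) ≃* (∀ p : (Nat.card G).primeFactors, ∀ P : Sylow p G, (P : Subgroup G)) :=
    { toFun := fun g p P => g ⟨p, P⟩
      invFun := fun g i => g i.1 i.2
      left_inv := fun g => rfl
      right_inv := fun g => rfl
      map_mul' := fun g h => rfl }
  let E : (∀ i : ι, T i) ≃* G := F.trans e
  haveI : Finite (∀ i : ι, T i) := Finite.of_equiv G E.symm.toEquiv
  have hch := fun g : (∀ i : ι, T i) => redA_char (T := T) (fun i => ((i.1 : ℕ)))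
    (fun i => Nat.prime_of_mem_primeFactors i.1.2) (fun i => i.2.isPGroup') hs g
  obtain ⟨g, rfl⟩ := E.surjective x
  obtain ⟨h, rfl⟩ := E.surjective y
  rw [MulEquiv.orderOf_eq] at hx hy
  rw [← map_mul, MulEquiv.orderOf_eq, hch]
  rw [hch] at hx hy
  intro i hi
  rw [Pi.mul_apply, hx i hi, hy i hi, one_mul]

private def redA_N {H : Type} [Group H] [Finite H] (hH : Group.IsNilpotent (commutator H)) {s : ℕ}
    (hs : s.Prime) : Subgroup H where
  carrier := {x | x ∈ commutator H ∧ (orderOf x).Coprime s}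
  one_mem' := ⟨one_mem _, by rw [orderOf_one]; exact Nat.coprime_one_left s⟩
  inv_mem' := fun {x} hx => ⟨inv_mem hx.1, by rw [orderOf_inv]; exact hx.2⟩
  mul_mem' := by
    rintro x y ⟨hx1, hx2⟩ ⟨hy1, hy2⟩
    refine ⟨mul_mem hx1 hy1, ?_⟩
    have h := redA_mul hH hs (⟨x, hx1⟩ : commutator H) ⟨y, hy1⟩
      (by rw [Subgroup.orderOf_mk]; exact hx2) (by rw [Subgroup.orderOf_mk]; exact hy2)
    rw [← Subgroup.orderOf_coe] at h
    exact h

private theorem redA_normal {H : Type} [Group H] [Finite H] (hH : Group.IsNilpotent (commutator H)) {s : ℕ}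
    (hs : s.Prime) : (redA_N hH hs).Normal := by
  constructor
  rintro x ⟨hx1, hx2⟩ g
  refine ⟨(inferInstance : (commutator H).Normal).conj_mem x hx1 g, ?_⟩
  have h : orderOf (MulAut.conj g x) = orderOf x := MulEquiv.orderOf_eq _ _
  rw [MulAut.conj_apply] at h
  rw [h]
  exact hx2

theorem red_hom {H : Type} [Group H] [Finite H] (hH : Group.IsNilpotent (commutator H)) {s : ℕ}
    (hs : s.Prime) : ∃ (H' : Type) (_ : Group H') (_ : Finite H') (f : H →* H'),
      (∀ x, f x = 1 → (orderOf x).Coprime s) ∧ IsPGroup s (commutator H') := by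
  haveI hN := redA_normal hH hs
  refine ⟨H ⧸ redA_N hH hs, inferInstance, inferInstance, QuotientGroup.mk' (redA_N hH hs), ?_, ?_⟩
  · intro x hx
    have h1 : x ∈ redA_N hH hs := (QuotientGroup.eq_one_iff x).1 hx
    exact h1.2
  · have hcomm : commutator (H ⧸ redA_N hH hs) =
        (commutator H).map (QuotientGroup.mk' (redA_N hH hs)) := by
      rw [commutator_def, commutator_def, Subgroup.map_commutator,
        Subgroup.map_top_of_surjective _ (QuotientGroup.mk'_surjective _)]
    rintro ⟨y, hy⟩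
    rw [hcomm] at hy
    obtain ⟨x, hx, rfl⟩ := hy
    obtain ⟨j, n, hn, hjn⟩ := Nat.exists_eq_pow_mul_and_not_dvd (orderOf_pos x).ne' s hs.ne_one
    refine ⟨j, ?_⟩
    apply Subtype.ext
    change (QuotientGroup.mk' (redA_N hH hs) x) ^ s ^ j = 1
    rw [← map_pow]
    refine (QuotientGroup.eq_one_iff _).2 ⟨pow_mem hx _, ?_⟩
    have h1 : orderOf (x ^ s ^ j) ∣ n := by
      apply orderOf_dvd_of_pow_eq_one
      rw [← pow_mul, ← hjn, pow_orderOf_eq_one]
    have h2 : n.Coprime s := by
      rw [Nat.coprime_comm, hs.coprime_iff_not_dvd]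
      exact hn
    exact Nat.Coprime.coprime_dvd_left h1 h2

end Pool.Agent.NBA
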