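import Pool.Agent.NBA.Ind

set_option autoImplicit false

/-! NBA-RedB. Groups whose derived subgroup is an `s`-group.
PLAN.  Let `S` be a Sylow `s`-subgroup of `H'`.  `commutator H'` is a normal `s`-subgroup, so it is inside of `S` (`IsPGroup.le_sylow` or: `commutator H' ⊔ S` is an
`s`-group by `IsPGroup.to_sup_of_normal_left`, maximality of `S`).  So `S` is normal (it contains the commutator subgroup) and
`A = H' ⧸ S` is abelian (give it the `CommGroup` structure; or `Abelianization`-type argument: `Subgroup.Normal.commutator_le_of_self_sup_commutative_eq_top`,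
`Subgroup.Normal.quotient_commutative_iff_commutator_le`), of order the index of `S`, coprime to `s` (`Sylow.not_dvd_index`).  `kk S` of module Ind. -/

namespace Pool.Agent.NBA

open Helper76.IG

theorem pab_embeds {s : ℕ} (hs : s.Prime) (H' : Type) [Group H'] [Finite H']
    (h : IsPGroup s (commutator H')) :
    ∃ (S A : Type) (_ : Group S) (_ : CommGroup A) (_ : Finite S) (_ : Finite A),
      IsPGroup s S ∧ (Nat.card A).Coprime s ∧ Embeds H' (Wr S A) := by
  have : Fact s.Prime := ⟨hs⟩
  obtain ⟨P, hP⟩ := h.exists_le_sylow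
  let N : Subgroup H' := (P : Subgroup H')
  have hc : ∀ x y : H', x * y * x⁻¹ * y⁻¹ ∈ N := fun x y =>
    hP (Subgroup.commutator_mem_commutator (Subgroup.mem_top x) (Subgroup.mem_top y))
  have hN : N.Normal := by
    refine ⟨fun n hn g => ?_⟩
    have h1 : g * n * g⁻¹ = g * n * g⁻¹ * n⁻¹ * n := by group
    rw [h1]
    exact N.mul_mem (hc g n) hn
  let cg : CommGroup (H' ⧸ N) :=
    { (inferInstance : Group (H' ⧸ N)) with
      mul_comm := by
        intro a b
        obtain ⟨x, rfl⟩ := QuotientGroup.mk_surjective a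
        obtain ⟨y, rfl⟩ := QuotientGroup.mk_surjective b
        refine (QuotientGroup.eq (s := N)).2 ?_
        have h1 : (x * y)⁻¹ * (y * x) = y⁻¹ * x⁻¹ * (y⁻¹)⁻¹ * (x⁻¹)⁻¹ := by group
        rw [h1]
        exact hc y⁻¹ x⁻¹ }
  refine ⟨N, H' ⧸ N, inferInstance, cg, inferInstance, inferInstance, P.isPGroup', ?_, kk N⟩
  have h2 : Nat.card (H' ⧸ N) = N.index := rfl
  rw [h2]
  exact ((Nat.Prime.coprime_iff_not_dvd hs).2 P.not_dvd_index).symm

end Pool.Agent.NBA
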