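import Pool.Agent.NBA.Cov
import Pool.Agent.NBA.RedA
import Pool.Agent.NBA.RedB

set_option autoImplicit false

/-! NBA-Main. The main theorem T1: `red_hom` and `pab_embeds` give the homomorphisms `H →* Wr P A` for every prime, then
`cov_all` for the prime factors of `Nat.card H`. -/

namespace Pool.Agent.NBA

open Helper76.IG

private theorem nba_Main_key (H : Type) [Group H] [Finite H]
    (hH : Group.IsNilpotent (commutator H)) (s : ℕ) (hs : s.Prime) :
    ∃ (P A : Type) (_ : Group P) (_ : CommGroup A) (_ : Finite P)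
      (_ : Finite A) (f : H →* Wr P A), IsPGroup s P ∧ (Nat.card A).Coprime s ∧
      (∀ x, f x = 1 → (orderOf x).Coprime s) ∧ ∀ x ∈ (∅ : Set H), (f x).r = 1 := by
  obtain ⟨H', iG, iF, f1, hf1, hc⟩ := red_hom hH hs
  obtain ⟨P, A, gP, cA, fP, fA, hP, hA, e, he⟩ := pab_embeds hs H' hc
  refine ⟨P, A, gP, cA, fP, fA, e.comp f1, hP, hA, fun x hx => hf1 x ?_, fun x hx => ?_⟩
  · apply he
    rw [map_one]
    exact hx
  · exact absurd hx (Set.notMem_empty x)

theorem main {p q : ℕ} (hp : p.Prime) (hq : q.Prime) (hne : p ≠ q)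
    (hpq : 2 * (p + q) < p * q) (H : Type) [Group H] [Finite H]
    (hH : Group.IsNilpotent (commutator H)) :
    ∃ (G : Type) (_ : Group G) (_ : Finite G), IsIG p q G ∧ Embeds H G := by
  obtain ⟨X, gX, fX, a, b, F, Z, ig, ha, hb, ha1, hb1, hker, -⟩ :=
    cov_all hp hq hne hpq (∅ : Set H) (fun s hs => nba_Main_key H hH s hs)
      (Nat.card H).primeFactors (fun s hs => Nat.prime_of_mem_primeFactors hs)
  have : Fact p.Prime := ⟨hp⟩
  have : Fact q.Prime := ⟨hq⟩
  refine ⟨X, gX, fX, ⟨a, b, orderOf_eq_prime ha ha1, orderOf_eq_prime hb hb1, ig⟩, F, ?_⟩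
  rw [injective_iff_map_eq_one]
  intro h hh
  by_contra hne1
  have h1 : orderOf h ≠ 1 := fun h2 => hne1 (orderOf_eq_one_iff.1 h2)
  obtain ⟨s, hs, hsd⟩ := Nat.exists_prime_and_dvd h1
  have h2 : s ∈ (Nat.card H).primeFactors :=
    Nat.mem_primeFactors.2 ⟨hs, hsd.trans (orderOf_dvd_natCard h), Nat.card_pos.ne'⟩
  have h3 := hker h hh s h2
  rw [Nat.coprime_comm, hs.coprime_iff_not_dvd] at h3
  exact h3 hsd

end Pool.Agent.NBA
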