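import Pool.Agent.NBA.Defs

set_option autoImplicit false

/-! NBA: the action of `SL₂(K)` on the projective line `Option K` (`none` is the point at infinity)
and its cocycle `jj`. -/

namespace Pool.Agent.NBA

open Matrix

/-- `SL₂` -/
abbrev SL2 (K : Type) [Field K] : Type := Matrix.SpecialLinearGroup (Fin 2) K

section field

variable {K : Type} [Field K]

/-- the standard vector of a point -/
def vec : Option K → Fin 2 → K
  | none => ![1, 0]
  | some x => ![x, 1]

@[simp] theorem vec_none : (vec (none : Option K)) = ![1, 0] := rfl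
@[simp] theorem vec_some (x : K) : vec (some x) = ![x, 1] := rfl

open Classical in
/-- the action -/
noncomputable def mob (A : SL2 K) : Option K → Option K
  | none => if A.1 1 0 = 0 then none else some (A.1 0 0 / A.1 1 0)
  | some x => if A.1 1 0 * x + A.1 1 1 = 0 then none
      else some ((A.1 0 0 * x + A.1 0 1) / (A.1 1 0 * x + A.1 1 1))

open Classical in
/-- the cocycle -/
noncomputable def jj (A : SL2 K) : Option K → K
  | none => if A.1 1 0 = 0 then A.1 0 0 else A.1 1 0
  | some x => if A.1 1 0 * x + A.1 1 1 = 0 then A.1 0 0 * x + A.1 0 1 else A.1 1 0 * x + A.1 1 1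

theorem det2 (A : SL2 K) : A.1 0 0 * A.1 1 1 - A.1 0 1 * A.1 1 0 = 1 := by
  have h := A.2
  rw [Matrix.det_fin_two] at h
  exact h

theorem mul_vec_none (A : SL2 K) : A.1 *ᵥ vec none = ![A.1 0 0, A.1 1 0] := by
  funext i
  fin_cases i <;> simp [Matrix.mulVec, dotProduct, Fin.sum_univ_two]

theorem mul_vec_some (A : SL2 K) (x : K) :
    A.1 *ᵥ vec (some x) = ![A.1 0 0 * x + A.1 0 1, A.1 1 0 * x + A.1 1 1] := by
  funext i
  fin_cases i <;> simp [Matrix.mulVec, dotProduct, Fin.sum_univ_two]

/-- the defining property of `mob` and `jj` -/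
theorem jj_spec (A : SL2 K) (x : Option K) : A.1 *ᵥ vec x = jj A x • vec (mob A x) := by
  classical
  have hd := det2 A
  cases x with
  | none =>
    rw [mul_vec_none]
    by_cases h : A.1 1 0 = 0
    · simp [jj, mob, h]
    · simp only [jj, mob, h, if_false, vec_some]
      funext i
      fin_cases i
      · simp [mul_div_cancel₀, h]
      · simp
  | some x =>
    rw [mul_vec_some]
    by_cases h : A.1 1 0 * x + A.1 1 1 = 0
    · simp [jj, mob, h]
    · simp only [jj, mob, h, if_false, vec_some]
      funext i
      fin_cases i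
      · simp [mul_div_cancel₀, h]
      · simp

theorem jj_ne (A : SL2 K) (x : Option K) : jj A x ≠ 0 := by
  classical
  have hd := det2 A
  cases x with
  | none =>
    by_cases h : A.1 1 0 = 0
    · simp only [jj, h, if_true]
      intro h0
      rw [h0, h] at hd
      simp at hd
    · simp only [jj, h, if_false]
      exact h
  | some x =>
    by_cases h : A.1 1 0 * x + A.1 1 1 = 0
    · simp only [jj, h, if_true]
      intro h0
      have : A.1 0 0 * A.1 1 1 - A.1 0 1 * A.1 1 0 = 0 := by
        linear_combination A.1 0 0 * h - A.1 1 0 * h0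
      rw [this] at hd
      exact zero_ne_one hd
    · simp only [jj, h, if_false]
      exact h

theorem vec_inj {x y : Option K} {c d : K} (hc : c ≠ 0) (h : c • vec x = d • vec y) :
    x = y ∧ c = d := by
  have h0 := congrFun h 0
  have h1 := congrFun h 1
  cases x with
  | none =>
    cases y with
    | none =>
      simp at h0
      exact ⟨rfl, h0⟩
    | some y =>
      simp at h0 h1
      rw [← h1, zero_mul] at h0
      exact absurd h0 hc
  | some x =>
    cases y with
    | none =>
      simp at h1
      exact absurd h1 hc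
    | some y =>
      simp at h0 h1
      subst h1
      exact ⟨congrArg some (mul_left_cancel₀ hc h0), rfl⟩

theorem mob_jj_unique (A : SL2 K) (x y : Option K) (c : K)
    (h : A.1 *ᵥ vec x = c • vec y) : mob A x = y ∧ jj A x = c :=
  vec_inj (jj_ne A x) ((jj_spec A x).symm.trans h)

theorem mob_one (x : Option K) : mob (1 : SL2 K) x = x :=
  (mob_jj_unique 1 x x 1 (by
    rw [Matrix.SpecialLinearGroup.coe_one, Matrix.one_mulVec, one_smul])).1

theorem mul_aux (A B : SL2 K) (x : Option K) :
    (A * B).1 *ᵥ vec x = (jj A (mob B x) * jj B x) • vec (mob A (mob B x)) := by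
  rw [Matrix.SpecialLinearGroup.coe_mul, ← Matrix.mulVec_mulVec, jj_spec B x, Matrix.mulVec_smul,
    jj_spec A, smul_smul, mul_comm]

theorem mob_mul (A B : SL2 K) (x : Option K) : mob (A * B) x = mob A (mob B x) :=
  (mob_jj_unique _ _ _ _ (mul_aux A B x)).1

/-- the cocycle identity -/
theorem jj_mul (A B : SL2 K) (x : Option K) : jj (A * B) x = jj A (mob B x) * jj B x :=
  (mob_jj_unique _ _ _ _ (mul_aux A B x)).2

/-- the action of `SL₂(K)` on the projective line -/
noncomputable def act : SL2 K →* Equiv.Perm (Option K) where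
  toFun A :=
    { toFun := mob A
      invFun := mob A⁻¹
      left_inv := by
        intro x
        rw [← mob_mul, inv_mul_cancel, mob_one]
      right_inv := by
        intro x
        rw [← mob_mul, mul_inv_cancel, mob_one] }
  map_one' := by
    ext1 x
    exact mob_one x
  map_mul' A B := by
    ext1 x
    exact mob_mul A B x

@[simp] theorem act_apply (A : SL2 K) (x : Option K) : act A x = mob A x := rfl

/-- `PSL₂(K)` as a group of permutations -/
noncomputable def PSL (K : Type) [Field K] : Subgroup (Equiv.Perm (Option K)) := (act (K := K)).range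

/-- matrices with given entries -/
def mk2 (a b c d : K) (h : a * d - b * c = 1) : SL2 K :=
  ⟨!![a, b; c, d], by rw [Matrix.det_fin_two_of]; exact h⟩

@[simp] theorem mk2_00 (a b c d : K) (h : a * d - b * c = 1) : (mk2 a b c d h).1 0 0 = a := rfl
@[simp] theorem mk2_01 (a b c d : K) (h : a * d - b * c = 1) : (mk2 a b c d h).1 0 1 = b := rfl
@[simp] theorem mk2_10 (a b c d : K) (h : a * d - b * c = 1) : (mk2 a b c d h).1 1 0 = c := rfl
@[simp] theorem mk2_11 (a b c d : K) (h : a * d - b * c = 1) : (mk2 a b c d h).1 1 1 = d := rfl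

/-- the translation `z ↦ z + t` -/
def tra (t : K) : SL2 K := mk2 1 t 0 1 (by ring)

/-- `z ↦ -1 / z` -/
def wey : SL2 K := mk2 0 (-1) 1 0 (by ring)

/-- the diagonal matrix: `z ↦ x ^ 2 z` -/
def dia (x : Kˣ) : SL2 K := mk2 (x : K) 0 0 (x⁻¹ : Kˣ) (by simp)

theorem mob_tra_none (t : K) : mob (tra t) none = none := by
  classical
  simp [mob, tra]

theorem mob_tra_some (t x : K) : mob (tra t) (some x) = some (x + t) := by
  classical
  simp [mob, tra]

theorem mob_wey_none : mob (wey : SL2 K) none = some 0 := by
  classical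
  simp [mob, wey]

theorem mob_wey_zero : mob (wey : SL2 K) (some 0) = none := by
  classical
  simp [mob, wey]

theorem mob_wey_some {x : K} (hx : x ≠ 0) : mob wey (some x) = some (-x⁻¹) := by
  classical
  simp [mob, wey, hx, neg_div]

theorem mob_dia_none (x : Kˣ) : mob (dia x) none = none := by
  classical
  simp [mob, dia]

theorem mob_dia_some (x : Kˣ) (z : K) : mob (dia x) (some z) = some ((x : K) ^ 2 * z) := by
  classical
  simp only [mob, dia, mk2_00, mk2_01, mk2_10, mk2_11, zero_mul, zero_add, add_zero,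
    Units.ne_zero, if_false]
  congr 1
  rw [Units.val_inv_eq_inv_val, div_inv_eq_mul]
  ring

theorem jj_dia_none (x : Kˣ) : jj (dia x) none = x := by
  classical
  simp [jj, dia]

theorem jj_dia_some (x : Kˣ) (z : K) : jj (dia x) (some z) = (x⁻¹ : Kˣ) := by
  classical
  simp only [jj, dia, mk2_00, mk2_01, mk2_10, mk2_11, zero_mul, zero_add, add_zero,
    Units.ne_zero, if_false]

theorem dia_mul (x y : Kˣ) : (dia (x * y) : SL2 K) = dia x * dia y := by
  apply Subtype.ext
  change !![((x * y : Kˣ) : K), 0; 0, (((x * y)⁻¹ : Kˣ) : K)] =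
    !![(x : K), 0; 0, ((x⁻¹ : Kˣ) : K)] * !![(y : K), 0; 0, ((y⁻¹ : Kˣ) : K)]
  rw [Matrix.mul_fin_two]
  simp [mul_comm]

theorem dia_one : (dia (1 : Kˣ) : SL2 K) = 1 := by
  apply Subtype.ext
  change !![((1 : Kˣ) : K), 0; 0, (((1 : Kˣ)⁻¹ : Kˣ) : K)] = 1
  rw [Matrix.one_fin_two]
  simp

end field

end Pool.Agent.NBA
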