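import Pool.Agent.NBA.Defs

set_option autoImplicit false

/-! NBA-Prd. Products of invariably generated groups: Goursat's lemma, with the elements of `X₂`
of order prime to the order of `X₁` and the `t`-groups which are quotients of `X₁`. -/

namespace Pool.Agent.NBA

open Helper76.IG

/-- a nontrivial finite `t`-group has a nontrivial homomorphism to the cyclic group of order `t` -/
private theorem prd_hom {t : ℕ} (ht : t.Prime) {Q : Type} [Group Q] [Finite Q] [Nontrivial Q]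
    (hQ : IsPGroup t Q) : ∃ f : Q →* Multiplicative (ZMod t), f ≠ 1 := by
  have : Fact t.Prime := ⟨ht⟩
  obtain ⟨n, hn⟩ := hQ.exists_card_eq
  have hn0 : n ≠ 0 := by
    rintro rfl
    rw [pow_zero] at hn
    exact absurd hn (ne_of_gt Finite.one_lt_card)
  obtain ⟨m, rfl⟩ := Nat.exists_eq_succ_of_ne_zero hn0
  obtain ⟨H, hH⟩ := Sylow.exists_subgroup_card_pow_prime (G := Q) t (n := m)
    (by rw [hn]; exact pow_dvd_pow t (Nat.le_succ m))
  have hidx : H.index = t := by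
    have h1 := H.card_mul_index
    rw [hH, hn, Nat.succ_eq_add_one, pow_succ] at h1
    exact Nat.eq_of_mul_eq_mul_left (pow_pos ht.pos m) h1
  have hnorm : H.Normal := by
    refine Subgroup.normal_of_index_eq_minFac_card ?_
    rw [hidx, hn, ht.pow_minFac hn0]
  have hc : Nat.card (Q ⧸ H) = t := by
    rw [← Subgroup.index_eq_card, hidx]
  have hc' : Nat.card (Multiplicative (ZMod t)) = t := by
    rw [Nat.card_congr Multiplicative.toAdd, Nat.card_zmod]
  let e : (Q ⧸ H) ≃* Multiplicative (ZMod t) := mulEquivOfPrimeCardEq hc hc'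
  refine ⟨e.toMonoidHom.comp (QuotientGroup.mk' H), fun h0 => ?_⟩
  have h1 : H = ⊤ := by
    rw [eq_top_iff]
    intro x _
    have h2 : e (QuotientGroup.mk' H x) = 1 := DFunLike.congr_fun h0 x
    rw [map_eq_one_iff e e.injective, QuotientGroup.mk'_apply, QuotientGroup.eq_one_iff] at h2
    exact h2
  rw [h1, Subgroup.index_top] at hidx
  exact ht.one_lt.ne hidx

theorem prod_ig {t : ℕ} (ht : t.Prime) {X₁ X₂ : Type} [Group X₁] [Group X₂] [Finite X₁]
    [Finite X₂] {a₁ b₁ : X₁} {a₂ b₂ : X₂} (h₁ : InvGen a₁ b₁) (h₂ : InvGen a₂ b₂) (u : X₂)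
    (hu : (orderOf u).Coprime (Nat.card X₁))
    (hR : IsPGroup t (X₂ ⧸ Subgroup.normalClosure {u}))
    (hX : ∀ f : X₁ →* Multiplicative (ZMod t), f = 1) :
    InvGen ((a₁, a₂) : X₁ × X₂) (b₁, b₂) := by
  intro g k
  set M : Subgroup (X₁ × X₂) :=
    Subgroup.closure {g⁻¹ * (a₁, a₂) * g, k⁻¹ * (b₁, b₂) * k} with hM
  have hMa : g⁻¹ * (a₁, a₂) * g ∈ M := Subgroup.subset_closure (Set.mem_insert _ _)
  have hMb : k⁻¹ * (b₁, b₂) * k ∈ M :=
    Subgroup.subset_closure (Set.mem_insert_of_mem _ (Set.mem_singleton _))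
  have p1 : M.map (MonoidHom.fst X₁ X₂) = ⊤ :=
    h₁.eq_top (Subgroup.mem_map_of_mem (MonoidHom.fst X₁ X₂) hMa)
      (Subgroup.mem_map_of_mem (MonoidHom.fst X₁ X₂) hMb)
  have p2 : M.map (MonoidHom.snd X₁ X₂) = ⊤ :=
    h₂.eq_top (Subgroup.mem_map_of_mem (MonoidHom.snd X₁ X₂) hMa)
      (Subgroup.mem_map_of_mem (MonoidHom.snd X₁ X₂) hMb)
  have q1 : ∀ x : X₁, ∃ y : X₂, (x, y) ∈ M := by
    intro x
    have h : x ∈ M.map (MonoidHom.fst X₁ X₂) := by rw [p1]; exact Subgroup.mem_top x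
    obtain ⟨⟨x', y⟩, hz, hx⟩ := Subgroup.mem_map.1 h
    have hx' : x' = x := hx
    exact ⟨y, hx' ▸ hz⟩
  have q2 : ∀ y : X₂, ∃ x : X₁, (x, y) ∈ M := by
    intro y
    have h : y ∈ M.map (MonoidHom.snd X₁ X₂) := by rw [p2]; exact Subgroup.mem_top y
    obtain ⟨⟨x, y'⟩, hz, hy⟩ := Subgroup.mem_map.1 h
    have hy' : y' = y := hy
    exact ⟨x, hy' ▸ hz⟩
  have hn2 : (M.comap (MonoidHom.inr X₁ X₂)).Normal := by
    refine ⟨fun r hr y => ?_⟩
    obtain ⟨x, hx⟩ := q2 y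
    have h1 : ((1 : X₁), r) ∈ M := hr
    have h2 := M.mul_mem (M.mul_mem hx h1) (M.inv_mem hx)
    have h3 : (x, y) * (1, r) * (x, y)⁻¹ = ((1 : X₁), y * r * y⁻¹) := by
      rw [Prod.inv_mk, Prod.mk_mul_mk, Prod.mk_mul_mk, mul_one, mul_inv_cancel]
    rw [h3] at h2
    exact h2
  have hn1 : (M.comap (MonoidHom.inl X₁ X₂)).Normal := by
    refine ⟨fun r hr x => ?_⟩
    obtain ⟨y, hy⟩ := q1 x
    have h1 : (r, (1 : X₂)) ∈ M := hr
    have h2 := M.mul_mem (M.mul_mem hy h1) (M.inv_mem hy)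
    have h3 : (x, y) * (r, 1) * (x, y)⁻¹ = (x * r * x⁻¹, (1 : X₂)) := by
      rw [Prod.inv_mk, Prod.mk_mul_mk, Prod.mk_mul_mk, mul_one, mul_inv_cancel]
    rw [h3] at h2
    exact h2
  have hu1 : ((1 : X₁), u) ∈ M := by
    obtain ⟨y, hy⟩ := q2 u
    let n := Nat.chineseRemainder hu 1 0
    have h1 := M.pow_mem hy (n : ℕ)
    have h2 : u ^ (n : ℕ) = u := by
      have h3 := pow_eq_pow_iff_modEq.2 n.2.1
      rw [pow_one] at h3
      exact h3
    have h4 : y ^ (n : ℕ) = 1 := by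
      obtain ⟨c, hc⟩ := (Nat.modEq_zero_iff_dvd.1 n.2.2)
      rw [hc, pow_mul, pow_card_eq_one', one_pow]
    rw [Prod.pow_mk, h2, h4] at h1
    exact h1
  have hRM : ∀ r ∈ Subgroup.normalClosure {u}, ((1 : X₁), r) ∈ M := by
    intro r hr
    have h1 : Subgroup.normalClosure {u} ≤ M.comap (MonoidHom.inr X₁ X₂) := by
      refine Subgroup.normalClosure_le_normal ?_
      rw [Set.singleton_subset_iff]
      exact hu1
    exact h1 hr
  have key : M.comap (MonoidHom.inl X₁ X₂) = ⊤ := by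
    by_contra hne
    have hpg : IsPGroup t (X₁ ⧸ M.comap (MonoidHom.inl X₁ X₂)) := by
      intro z
      obtain ⟨x, rfl⟩ := QuotientGroup.mk_surjective z
      obtain ⟨y, hy⟩ := q1 x
      obtain ⟨j, hj⟩ := hR (QuotientGroup.mk y)
      refine ⟨j, ?_⟩
      rw [← QuotientGroup.mk_pow, QuotientGroup.eq_one_iff] at hj ⊢
      have h1 := M.pow_mem hy (t ^ j)
      have h2 := M.mul_mem h1 (M.inv_mem (hRM _ hj))
      have h3 : (x, y) ^ t ^ j * (1, y ^ t ^ j)⁻¹ = (x ^ t ^ j, (1 : X₂)) := by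
        rw [Prod.pow_mk, Prod.inv_mk, Prod.mk_mul_mk, inv_one, mul_one, mul_inv_cancel]
      rw [h3] at h2
      exact h2
    have : Nontrivial (X₁ ⧸ M.comap (MonoidHom.inl X₁ X₂)) := by
      rw [QuotientGroup.nontrivial_iff]
      exact hne
    obtain ⟨f, hf⟩ := prd_hom ht hpg
    apply hf
    have h1 := hX (f.comp (QuotientGroup.mk' _))
    refine QuotientGroup.monoidHom_ext _ ?_
    rw [h1]
    rfl
  rw [eq_top_iff]
  rintro ⟨x, y⟩ _
  obtain ⟨x', hx'⟩ := q2 y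
  have h1 : (x * x'⁻¹, (1 : X₂)) ∈ M := by
    have h2 : x * x'⁻¹ ∈ M.comap (MonoidHom.inl X₁ X₂) := by rw [key]; exact Subgroup.mem_top _
    exact h2
  have h3 := M.mul_mem h1 hx'
  rw [Prod.mk_mul_mk, inv_mul_cancel_right, one_mul] at h3
  exact h3

end Pool.Agent.NBA
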