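import Pool.Agent.NBA.Defs

set_option autoImplicit false

/-! NBA-Semi. Elements of prime order with semiregular top part.
PLAN.  `C = Subgroup.zpowers x.r`, of order `p` (`x.r ^ p = 1`, `x.r ≠ 1`).  `x ^ p = 1` says, for all `w`: `x.l w * x.l (α⁻¹ w) * ... * x.l (α⁻⁽ᵖ⁻¹⁾ w) = 1`, `α = x.r`
(`(x ^ n).l w = ∏_{i < n} x.l (α⁻ⁱ w)`, ordered product, by induction).  Choose representatives `r` of the orbits of `C` on `Q` (left multiplication), every `w` is
`α ^ i r` with a unique `i : ZMod p` (or `i < p`).  Define `k (α ^ i r) = (x.l (α ^ i r) * ... * x.l (α r))⁻¹`, that is `k (α ^ (i+1) r) = k (α ^ i r) * x.l (α ^ (i+1) r)⁻¹`; consistent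
at `i = p` by the above.  Then `k w * x.l w * (k (α⁻¹ w))⁻¹ = 1`.  With `(x ^ n).l` : `k (α ^ i r) = ((x ^ i).l (α ^ i r))⁻¹`, and `(x ^ (n + 1)).l w = x.l w * (x ^ n).l (α⁻¹ w)`. -/

namespace Pool.Agent.NBA

/-- (auxiliary) the recursion for powers -/
private theorem semi_succ {T Q : Type} [Group T] [Group Q] (x : Wr T Q) (n : ℤ) (w : Q) :
    (x ^ (n + 1)).l w = x.l w * (x ^ n).l (x.r⁻¹ * w) := by
  rw [add_comm n 1, zpow_one_add, Wr.mul_l]

/-- (auxiliary) if two powers of the top part agree then the powers agree -/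
private theorem semi_pow {p : ℕ} (hp : p.Prime) {T Q : Type} [Group T] [Group Q] (x : Wr T Q)
    (hx : x ^ p = 1) (hr : x.r ≠ 1) (m n : ℤ) (h : x.r ^ m = x.r ^ n) : x ^ m = x ^ n := by
  have hrp : x.r ^ p = 1 := by
    have := congrArg Wr.rt hx
    rwa [map_pow, map_one, Wr.rt_apply] at this
  have ho : orderOf x.r = p := by
    have : Fact p.Prime := ⟨hp⟩
    exact orderOf_eq_prime hrp hr
  have h1 : x.r ^ (m - n) = 1 := by
    rw [zpow_sub, h, mul_inv_cancel]
  have h2 : (p : ℤ) ∣ m - n := by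
    rw [← ho]
    exact orderOf_dvd_iff_zpow_eq_one.2 h1
  obtain ⟨c, hc⟩ := h2
  have h3 : x ^ (m - n) = 1 := by
    rw [hc, zpow_mul, zpow_natCast, hx, one_zpow]
  rw [zpow_sub] at h3
  exact mul_inv_eq_one.1 h3

theorem semireg {p : ℕ} (hp : p.Prime) {T Q : Type} [Group T] [Group Q] (x : Wr T Q)
    (hx : x ^ p = 1) (hr : x.r ≠ 1) : ∃ k : Wr T Q, k.r = 1 ∧ k * x * k⁻¹ = Wr.tp x.r := by
  classical
  let C : Subgroup Q := Subgroup.zpowers x.r
  let S : Setoid Q := QuotientGroup.rightRel C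
  let rep : Q → Q := fun w => (Quotient.mk S w).out
  have hrep : ∀ w, ∃ n : ℤ, x.r ^ n * rep w = w := by
    intro w
    have h1 : S.r (rep w) w := Quotient.exact (Quotient.out_eq (Quotient.mk S w))
    have h2 : w * (rep w)⁻¹ ∈ C := QuotientGroup.rightRel_apply.1 h1
    obtain ⟨n, hn⟩ := Subgroup.mem_zpowers_iff.1 h2
    exact ⟨n, by rw [hn, inv_mul_cancel_right]⟩
  choose n hn using hrep
  have hsame : ∀ w, rep (x.r⁻¹ * w) = rep w := by
    intro w
    have : Quotient.mk S (x.r⁻¹ * w) = Quotient.mk S w := by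
      apply Quotient.sound
      show S.r _ _
      refine QuotientGroup.rightRel_apply.2 ?_
      rw [mul_inv_rev, inv_inv, mul_inv_cancel_left]
      exact Subgroup.mem_zpowers _
    show (Quotient.mk S (x.r⁻¹ * w)).out = (Quotient.mk S w).out
    rw [this]
  refine ⟨⟨fun w => ((x ^ n w).l w)⁻¹, 1⟩, rfl, ?_⟩
  refine Wr.ext ?_ ?_
  · funext w
    have h1 : x.r ^ (n (x.r⁻¹ * w) + 1) = x.r ^ n w := by
      have h2 := hn (x.r⁻¹ * w)
      rw [hsame w] at h2
      have h3 := hn w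
      have h4 : x.r ^ (n (x.r⁻¹ * w) + 1) * rep w = x.r ^ n w * rep w := by
        rw [h3, add_comm _ (1 : ℤ), zpow_one_add, mul_assoc, h2, mul_inv_cancel_left]
      exact mul_right_cancel h4
    have h5 := semi_pow hp x hx hr _ _ h1
    have h6 := semi_succ x (n (x.r⁻¹ * w)) w
    rw [h5] at h6
    simp only [Wr.mul_l, Wr.mul_r, Wr.inv_l, Wr.tp_l, one_mul, inv_one, inv_inv]
    rw [h6]
    group
  · simp

end Pool.Agent.NBA
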