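import Pool.Agent.NBA.Min
import Pool.Agent.NBA.Idx
import Pool.Agent.NBA.Lft
import Pool.Agent.NBA.Semi
import Pool.Agent.NBA.Ind

set_option autoImplicit false

/-! NBA-Pull. The minimal subgroup of the pullback.
PLAN.  `Θ = ind π D.surj μ : G →* Wr (M2 s) Q` (module Ind), `E = (Θ.range).comap (Wr.mp π₀)`, a subgroup of `Wr P₀ Q`.  `Wr.mp π₀` is surjective (`hF.surj`) with kernel an `s`-group (functions with values in `π₀.ker`, a finite power).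
`Θ a` has `(Θ a) ^ p = 1` and `(Θ a).r = π a ≠ 1`: by `semireg` there is `k` with `k.r = 1`, `k * Θ a * k⁻¹ = tp (π a)`; lift `k` to `k' : Wr P₀ Q` with `mp π₀ k' = k`, `k'.r = 1`; `a₁ = k'⁻¹ * tp (π a) * k'`: `mp π₀ a₁ = Θ a`, `a₁ ^ p = 1`.
The same for `b₁`.  Both are in `E`.  `exists_min` in the group `E`: `X₁`, `a₂`, `b₂`; `X = X₁.map E.subtype` (the type `X₁` is isomorphic to `X`: `Subgroup.equivMapOfInjective`; transport `InvGen` with `InvGen.map`).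
The restriction of `mp π₀` to `E` is a homomorphism onto `Θ.range`, which is invariably generated by `Θ a`, `Θ b` (`InvGen.map` for `Θ.rangeRestrict`): `map_top`: so for every `g : G` there is `x ∈ X` with `mp π₀ x = Θ g`.  (*)
First: from (*) `x.r = π g`, `D.surj`.  Second: `D.musurj` and `ind_ker`: for `m` take `k₀ : π.ker` with `μ k₀ = m` and `g = t w * k₀ * (t w)⁻¹`, `t = Function.surjInv D.surj`; `(Θ g).l w = μ k₀`.  Third: `w ≠ v`: by `D.sep` for `g = (t v)⁻¹ * t w`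
(`π g ≠ 1`) there are `k k' : π.ker` with `k' = g⁻¹ k g`, `μ k = 1`, `μ k' ≠ 1`; take `t v * k * (t v)⁻¹ ∈ π.ker`: value `μ k` at `v` and `μ k'` at `w`.
`u'`: `x ∈ X` with `mp π₀ x = Θ u`; the restriction of `mp π₀` to `X` has kernel an `s`-group, `orderOf (Θ u) ∣ orderOf u` is coprime to `s`: `lift_coprime`: `u' : X` with `orderOf u' = orderOf (Θ u)`.  `R = normalClosure {u'}` in `X`:
`R` maps onto `Θ.range` (`D.nc`: `Subgroup.map_normalClosure`, `Subgroup.normalClosure` of `Θ u` in the range is `⊤`), so `X = R * kernel`, `X ⧸ R` is an `s`-group, and `top_of_ker` if `s ≠ p`, `s ≠ q`. -/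

namespace Pool.Agent.NBA

open Helper76.IG

private theorem pull_base {T Q : Type} [Group T] [Group Q] (x : Wr T Q) (hx : x.r = 1) (n : ℕ) :
    (x ^ n).r = 1 ∧ ∀ w, (x ^ n).l w = x.l w ^ n := by
  induction n with
  | zero => exact ⟨by rw [pow_zero]; rfl, fun w => by rw [pow_zero, pow_zero]; rfl⟩
  | succ n ih =>
    refine ⟨?_, fun w => ?_⟩
    · rw [pow_succ, Wr.mul_r, ih.1, hx, one_mul]
    · rw [pow_succ, Wr.mul_l, ih.1, inv_one, one_mul, ih.2 w, pow_succ]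

private theorem pull_pow {s : ℕ} (hs : s.Prime) {P₀ Q M : Type} [Group P₀] [Finite P₀] [Group Q]
    [Group M] (hP : IsPGroup s P₀) (f : P₀ →* M) :
    ∃ n : ℕ, ∀ x : Wr P₀ Q, Wr.mp f x = 1 → x ^ (s ^ n) = 1 := by
  have := Fact.mk hs
  obtain ⟨n, hn⟩ := IsPGroup.iff_card.1 hP
  refine ⟨n, fun x hx => ?_⟩
  have h1 : x.r = 1 := congrArg Wr.r hx
  have h2 := pull_base x h1 (s ^ n)
  refine Wr.ext ?_ h2.1
  funext w
  rw [h2.2 w, ← hn, pow_card_eq_one']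
  rfl

private theorem pull_lift {p : ℕ} (hp : p.Prime) {T M Q : Type} [Group T] [Group M] [Group Q]
    (f : T →* M) (hf : Function.Surjective f) (x : Wr M Q) (hx : x ^ p = 1) (hr : x.r ≠ 1) :
    ∃ y : Wr T Q, Wr.mp f y = x ∧ y ^ p = 1 := by
  obtain ⟨k, hk1, hk2⟩ := semireg hp x hx hr
  let k' : Wr T Q := ⟨fun w => Function.surjInv hf (k.l w), 1⟩
  have hk' : Wr.mp f k' = k := by
    refine Wr.ext ?_ hk1.symm
    funext w
    exact Function.surjInv_eq hf (k.l w)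
  have ht : Wr.mp f (Wr.tp x.r : Wr T Q) = Wr.tp x.r := by
    refine Wr.ext ?_ rfl
    funext w
    show f 1 = 1
    exact map_one f
  refine ⟨k'⁻¹ * Wr.tp x.r * k', ?_, ?_⟩
  · rw [map_mul, map_mul, map_inv, hk', ht, ← hk2]
    group
  · have h1 : (Wr.tp x.r : Wr T Q) ^ p = 1 := by
      rw [← map_pow]
      have h2 : x.r ^ p = 1 := by
        have h3 := congrArg Wr.rt hx
        rw [map_pow, map_one] at h3
        exact h3
      rw [h2, map_one]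
    have h4 : k'⁻¹ * Wr.tp x.r * k' = k'⁻¹ * Wr.tp x.r * (k'⁻¹)⁻¹ := by rw [inv_inv]
    rw [h4, conj_pow, h1]
    group

private theorem pull_quot {s : ℕ} {X M : Type} [Group X] [Group M] (φ : X →* M)
    (hk : IsPGroup s φ.ker) (R : Subgroup X) [R.Normal] (hR : ∀ x : X, ∃ r ∈ R, φ r = φ x) :
    IsPGroup s (X ⧸ R) := by
  intro y
  obtain ⟨x, rfl⟩ := QuotientGroup.mk_surjective y
  obtain ⟨r, hr, hrx⟩ := hR x
  have h1 : r⁻¹ * x ∈ φ.ker := by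
    rw [MonoidHom.mem_ker, map_mul, map_inv, hrx, inv_mul_cancel]
  obtain ⟨n, hn⟩ := hk ⟨_, h1⟩
  have h2 : (r⁻¹ * x) ^ s ^ n = 1 := congrArg Subtype.val hn
  refine ⟨n, ?_⟩
  have h3 : ((r⁻¹ * x : X) : X ⧸ R) = (x : X ⧸ R) := by
    rw [QuotientGroup.mk_mul, (QuotientGroup.eq_one_iff _).2 (R.inv_mem hr), one_mul]
  have h4 : (x : X ⧸ R) ^ s ^ n = (((r⁻¹ * x) ^ s ^ n : X) : X ⧸ R) := by
    rw [QuotientGroup.mk_pow, h3]
  rw [h4, h2]
  rfl

theorem pull {p q s : ℕ} (hp : p.Prime) (hq : q.Prime) (hs : s.Prime) {G Q : Type} [Group G]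
    [Group Q] [Finite G] [Finite Q] {π : G →* Q} {μ : π.ker →* M2 s} {a b u : G}
    (D : Dat p q s G Q π μ a b u) (hu : (orderOf u).Coprime s) {P₀ : Type} [Group P₀]
    [Finite P₀] (hP : IsPGroup s P₀) {π₀ : P₀ →* M2 s} (hF : Fr s P₀ π₀) :
    ∃ (X : Subgroup (Wr P₀ Q)) (a' b' u' : X), InvGen a' b' ∧ a' ^ p = 1 ∧ b' ^ q = 1 ∧
      (a' : Wr P₀ Q).r ≠ 1 ∧ (b' : Wr P₀ Q).r ≠ 1 ∧ (∀ w : Q, ∃ x ∈ X, x.r = w) ∧
      (∀ (w : Q) (m : M2 s), ∃ z ∈ X, z.r = 1 ∧ π₀ (z.l w) = m) ∧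
      (∀ w v : Q, w ≠ v → ∃ z ∈ X, z.r = 1 ∧ π₀ (z.l v) = 1 ∧ π₀ (z.l w) ≠ 1) ∧
      orderOf u' ∣ orderOf u ∧ IsPGroup s (X ⧸ Subgroup.normalClosure {u'}) ∧
      (s ≠ p → s ≠ q → Subgroup.normalClosure {u'} = ⊤) := by
  classical
  have hsF := Fact.mk hs
  set t : Q → G := Function.surjInv D.surj with ht
  have htπ : ∀ w, π (t w) = w := fun w => Function.surjInv_eq D.surj w
  set Θ : G →* Wr (M2 s) Q := ind π D.surj μ with hΘ
  have hΘr : ∀ g, (Θ g).r = π g := fun g => rfl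
  set f : Wr P₀ Q →* Wr (M2 s) Q := Wr.mp π₀ with hf
  have hfr : ∀ x, (f x).r = x.r := fun x => rfl
  have hfl : ∀ x w, (f x).l w = π₀ (x.l w) := fun x w => rfl
  have hΘa : (Θ a) ^ p = 1 := by rw [← map_pow, D.ha, map_one]
  have hΘb : (Θ b) ^ q = 1 := by rw [← map_pow, D.hb, map_one]
  obtain ⟨a₁, ha1, ha2⟩ := pull_lift hp π₀ hF.surj (Θ a) hΘa D.pa
  obtain ⟨b₁, hb1, hb2⟩ := pull_lift hq π₀ hF.surj (Θ b) hΘb D.pb
  obtain ⟨E, hE⟩ : ∃ E : Subgroup (Wr P₀ Q), E = Θ.range.comap f := ⟨_, rfl⟩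
  have hmE : ∀ x, x ∈ E ↔ f x ∈ Θ.range := fun x => by rw [hE, Subgroup.mem_comap]
  have haE : a₁ ∈ E := (hmE _).2 ⟨a, ha1.symm⟩
  have hbE : b₁ ∈ E := (hmE _).2 ⟨b, hb1.symm⟩
  obtain ⟨X₁, a₂, b₂, g, h, hga, hgb, hig⟩ := exists_min (⟨a₁, haE⟩ : E) (⟨b₁, hbE⟩ : E)
  let ρ : E →* Θ.range := (f.comp E.subtype).codRestrict Θ.range (fun x => (hmE _).1 x.2)
  have hρ : ∀ x : E, ((ρ x : Θ.range) : Wr (M2 s) Q) = f (x : Wr P₀ Q) := fun x => rfl
  have hρa : ρ ⟨a₁, haE⟩ = Θ.rangeRestrict a := Subtype.ext ha1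
  have hρb : ρ ⟨b₁, hbE⟩ = Θ.rangeRestrict b := Subtype.ext hb1
  have hInv : InvGen (ρ ⟨a₁, haE⟩) (ρ ⟨b₁, hbE⟩) := by
    rw [hρa, hρb]
    exact D.ig.map Θ.rangeRestrict Θ.rangeRestrict_surjective
  have hX1 : X₁.map ρ = ⊤ := map_top ρ hInv (g := g) (k := h) (hga ▸ a₂.2) (hgb ▸ b₂.2)
  let X : Subgroup (Wr P₀ Q) := X₁.map E.subtype
  have hXdef : X = X₁.map E.subtype := rfl
  have hstar : ∀ y : G, ∃ x ∈ X, f x = Θ y := by
    intro y
    have h1 : Θ.rangeRestrict y ∈ X₁.map ρ := by rw [hX1]; exact Subgroup.mem_top _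
    obtain ⟨z, hz1, hz2⟩ := h1
    exact ⟨z, ⟨z, hz1, rfl⟩, congrArg Subtype.val hz2⟩
  have hXE : ∀ x ∈ X, f x ∈ Θ.range := by
    rintro x ⟨z, _, rfl⟩
    exact (hmE _).1 z.2
  let e : X₁ ≃* X := X₁.equivMapOfInjective E.subtype E.subtype_injective
  have he : ∀ x : X₁, ((e x : X) : Wr P₀ Q) = ((x : E) : Wr P₀ Q) := fun x => rfl
  have higX : InvGen (e a₂) (e b₂) := hig.map e.toMonoidHom e.surjective
  have hap : (e a₂) ^ p = 1 := by
    rw [← map_pow]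
    have h1 : a₂ ^ p = 1 := by
      apply Subtype.ext
      apply Subtype.ext
      have h2 : (((a₂ : E) : Wr P₀ Q)) = ((g : Wr P₀ Q))⁻¹ * a₁ * ((g : Wr P₀ Q)⁻¹)⁻¹ := by
        rw [hga, inv_inv]
        rfl
      show (((a₂ : E) : Wr P₀ Q)) ^ p = 1
      rw [h2, conj_pow, ha2]
      group
    rw [h1, map_one]
  have hbq : (e b₂) ^ q = 1 := by
    rw [← map_pow]
    have h1 : b₂ ^ q = 1 := by
      apply Subtype.ext
      apply Subtype.ext
      have h2 : (((b₂ : E) : Wr P₀ Q)) = ((h : Wr P₀ Q))⁻¹ * b₁ * ((h : Wr P₀ Q)⁻¹)⁻¹ := by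
        rw [hgb, inv_inv]
        rfl
      show (((b₂ : E) : Wr P₀ Q)) ^ q = 1
      rw [h2, conj_pow, hb2]
      group
    rw [h1, map_one]
  have har : ((e a₂ : X) : Wr P₀ Q).r ≠ 1 := by
    intro h1
    have h2 : ((a₂ : E) : Wr P₀ Q) = (g : Wr P₀ Q)⁻¹ * a₁ * (g : Wr P₀ Q) := by
      rw [hga]
      rfl
    rw [he, h2, Wr.mul_r, Wr.mul_r, Wr.inv_r] at h1
    have h3 : a₁.r = π a := by
      have h4 := congrArg Wr.r ha1
      exact h4
    apply D.pa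
    rw [← h3]
    have h5 : a₁.r = (g : Wr P₀ Q).r * ((g : Wr P₀ Q).r⁻¹ * a₁.r * (g : Wr P₀ Q).r) *
        ((g : Wr P₀ Q).r)⁻¹ := by group
    rw [h5, h1]
    group
  have hbr : ((e b₂ : X) : Wr P₀ Q).r ≠ 1 := by
    intro h1
    have h2 : ((b₂ : E) : Wr P₀ Q) = (h : Wr P₀ Q)⁻¹ * b₁ * (h : Wr P₀ Q) := by
      rw [hgb]
      rfl
    rw [he, h2, Wr.mul_r, Wr.mul_r, Wr.inv_r] at h1
    have h3 : b₁.r = π b := by
      have h4 := congrArg Wr.r hb1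
      exact h4
    apply D.pb
    rw [← h3]
    have h5 : b₁.r = (h : Wr P₀ Q).r * ((h : Wr P₀ Q).r⁻¹ * b₁.r * (h : Wr P₀ Q).r) *
        ((h : Wr P₀ Q).r)⁻¹ := by group
    rw [h5, h1]
    group
  let φ : X →* Wr (M2 s) Q := f.comp X.subtype
  have hφ : ∀ x : X, φ x = f (x : Wr P₀ Q) := fun x => rfl
  obtain ⟨N, hN⟩ := pull_pow (Q := Q) hs hP π₀
  have hker : IsPGroup s φ.ker := by
    rintro ⟨x, hx⟩
    refine ⟨N, ?_⟩
    apply Subtype.ext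
    apply Subtype.ext
    exact hN (x : Wr P₀ Q) hx
  obtain ⟨x₀, hx0, hx0'⟩ := hstar u
  have hcop : (orderOf (φ (⟨x₀, hx0⟩ : X))).Coprime s := by
    have h1 : φ (⟨x₀, hx0⟩ : X) = Θ u := hx0'
    rw [h1]
    exact Nat.Coprime.coprime_dvd_left (orderOf_map_dvd Θ u) hu
  obtain ⟨u', hu1, hu2, _⟩ := lift_coprime hs φ hker (⟨x₀, hx0⟩ : X) hcop
  have hu3 : φ u' = Θ u := hu1.trans hx0'
  have hu4 : orderOf u' ∣ orderOf u := by
    have h1 : φ (⟨x₀, hx0⟩ : X) = Θ u := hx0'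
    rw [hu2, h1]
    exact orderOf_map_dvd Θ u
  let φ' : X →* Θ.range := φ.codRestrict Θ.range (fun x => hXE _ x.2)
  have hφ' : ∀ x : X, ((φ' x : Θ.range) : Wr (M2 s) Q) = φ x := fun x => rfl
  have hφs : Function.Surjective φ' := by
    rintro ⟨y, z, rfl⟩
    obtain ⟨x, hx, hx'⟩ := hstar z
    exact ⟨⟨x, hx⟩, Subtype.ext hx'⟩
  have hmap : (Subgroup.normalClosure {u'}).map φ' = ⊤ := by
    rw [Subgroup.map_normalClosure _ _ hφs, Set.image_singleton]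
    have h1 : φ' u' = Θ.rangeRestrict u := Subtype.ext hu3
    rw [h1, ← Set.image_singleton, ← Subgroup.map_normalClosure _ _ Θ.rangeRestrict_surjective,
      D.nc, ← MonoidHom.range_eq_map, MonoidHom.range_eq_top]
    exact Θ.rangeRestrict_surjective
  have hR : ∀ x : X, ∃ r ∈ Subgroup.normalClosure {u'}, φ r = φ x := by
    intro x
    have h1 : φ' x ∈ (Subgroup.normalClosure {u'}).map φ' := by
      rw [hmap]
      exact Subgroup.mem_top _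
    obtain ⟨r, hr, hr'⟩ := h1
    exact ⟨r, hr, congrArg Subtype.val hr'⟩
  have hval : ∀ (w : Q) (k : π.ker) (v : Q) (k' : π.ker),
      (k' : G) = (t v)⁻¹ * (t w * (k : G) * (t w)⁻¹) * t v →
      (Θ (t w * (k : G) * (t w)⁻¹)).l v = μ k' := by
    intro w k v k' hk'
    have hm : t w * (k : G) * (t w)⁻¹ ∈ π.ker := by
      rw [MonoidHom.mem_ker, map_mul, map_mul, MonoidHom.mem_ker.1 k.2, mul_one, map_inv,
        mul_inv_cancel]
    have h1 := ind_ker π D.surj μ ⟨_, hm⟩ v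
    refine h1.trans ?_
    congr 1
    exact Subtype.ext hk'.symm
  have hker1 : ∀ (w : Q) (k : π.ker), π (t w * (k : G) * (t w)⁻¹) = 1 := by
    intro w k
    rw [map_mul, map_mul, MonoidHom.mem_ker.1 k.2, mul_one, map_inv, mul_inv_cancel]
  refine ⟨X, e a₂, e b₂, u', higX, hap, hbq, har, hbr, ?_, ?_, ?_, hu4,
    pull_quot φ hker _ hR, fun hsp hsq => ?_⟩
  · intro w
    obtain ⟨x, hx, hx'⟩ := hstar (t w)
    refine ⟨x, hx, ?_⟩
    have h1 := congrArg Wr.r hx'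
    have h2 : x.r = π (t w) := h1
    rw [h2, htπ]
  · intro w m
    obtain ⟨k₀, hk₀⟩ := D.musurj m
    obtain ⟨x, hx, hx'⟩ := hstar (t w * (k₀ : G) * (t w)⁻¹)
    refine ⟨x, hx, ?_, ?_⟩
    · have h2 : x.r = π (t w * (k₀ : G) * (t w)⁻¹) := congrArg Wr.r hx'
      rw [h2, hker1]
    · have h2 : π₀ (x.l w) = (Θ (t w * (k₀ : G) * (t w)⁻¹)).l w := by
        rw [← hx']
        rfl
      rw [h2, hval w k₀ w k₀ (by group), hk₀]
  · intro w v hwv
    have h1 : ¬ ∀ k k' : π.ker, (k' : G) = ((t v)⁻¹ * t w)⁻¹ * k * ((t v)⁻¹ * t w) → μ k = 1 →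
        μ k' = 1 := by
      intro h2
      have h3 := D.sep ((t v)⁻¹ * t w) h2
      rw [map_mul, map_inv, htπ, htπ] at h3
      exact hwv (inv_mul_eq_one.1 h3).symm
    push Not at h1
    obtain ⟨k, k', hk1, hk2, hk3⟩ := h1
    obtain ⟨x, hx, hx'⟩ := hstar (t v * (k : G) * (t v)⁻¹)
    refine ⟨x, hx, ?_, ?_, ?_⟩
    · have h2 : x.r = π (t v * (k : G) * (t v)⁻¹) := congrArg Wr.r hx'
      rw [h2, hker1]
    · have h2 : π₀ (x.l v) = (Θ (t v * (k : G) * (t v)⁻¹)).l v := by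
        rw [← hx']
        rfl
      rw [h2, hval v k v k (by group), hk2]
    · have h2 : π₀ (x.l w) = (Θ (t v * (k : G) * (t v)⁻¹)).l w := by
        rw [← hx']
        rfl
      rw [h2, hval v k w k' (by rw [hk1]; group)]
      exact hk3
  · exact top_of_ker hp hq hs hsp hsq φ hker hap hbq higX _ hR

end Pool.Agent.NBA
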