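import Pool.Agent.NBA.RadN

set_option autoImplicit false

/-! NBA-RadQ. Subgroups of order prime to `p q` of a soluble normal subgroup `N` are nilpotent.  The quotient of `N` by a
largest normal `{p, q}`-subgroup `M ≤ N` is nilpotent by `radN`, and a group of order prime to `p q` which embeds in `N` embeds
in this quotient. -/

namespace Pool.Agent.NBA

open Helper76.IG

private theorem radQ_card {G : Type} [Group G] [Finite G] (M : Subgroup G) [M.Normal] (M' : Subgroup (G ⧸ M)) :
    Nat.card (M'.comap (QuotientGroup.mk' M)) = Nat.card M' * Nat.card M := by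
  have h1 : (M'.comap (QuotientGroup.mk' M)).index = M'.index :=
    Subgroup.index_comap_of_surjective M' (QuotientGroup.mk'_surjective M)
  have h2 := Subgroup.card_mul_index (M'.comap (QuotientGroup.mk' M))
  have h3 := Subgroup.card_mul_index M'
  have h4 : Nat.card (G ⧸ M) * Nat.card M = Nat.card G := by
    have h5 := Subgroup.card_mul_index M
    rw [Subgroup.index] at h5
    rw [mul_comm]
    exact h5
  rw [h1] at h2
  have h6 : 0 < M'.index := Nat.pos_of_ne_zero Subgroup.index_ne_zero_of_finite
  refine Nat.eq_of_mul_eq_mul_right h6 ?_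
  calc Nat.card (M'.comap (QuotientGroup.mk' M)) * M'.index = Nat.card G := h2
    _ = Nat.card (G ⧸ M) * Nat.card M := h4.symm
    _ = Nat.card M' * M'.index * Nat.card M := by rw [h3]
    _ = Nat.card M' * Nat.card M * M'.index := by ring

theorem radQ {p q : ℕ} (hp : p.Prime) (hq : q.Prime) {G : Type} [Group G] [Finite G] {a b : G}
    (ha : a ^ p = 1) (hb : b ^ q = 1) (hab : InvGen a b) (N : Subgroup G) (hN : N.Normal)
    (hs : Group.IsSolvable N) {H : Type} [Group H] [Finite H]
    (hH : (Nat.card H).Coprime (p * q)) (h : Embeds H N) : Group.IsNilpotent H := by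
  obtain ⟨f, hf⟩ := h
  obtain ⟨M, hM, hmax⟩ := Set.exists_max_image
    {M : Subgroup G | M.Normal ∧ M ≤ N ∧ ∀ r : ℕ, r.Prime → r ∣ Nat.card M → r = p ∨ r = q}
    (fun M => Nat.card M) (Set.toFinite _)
    ⟨⊥, inferInstance, bot_le, fun r hr hd => by
      rw [Subgroup.card_bot] at hd
      exact absurd (Nat.dvd_one.1 hd) hr.ne_one⟩
  obtain ⟨hMn, hMN, hMr⟩ := hM
  have hN' : (N.map (QuotientGroup.mk' M)).Normal := hN.map _ (QuotientGroup.mk'_surjective M)
  have hs' : Group.IsSolvable (N.map (QuotientGroup.mk' M)) :=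
    Group.isSolvable_of_surjective (MonoidHom.subgroupMap_surjective (QuotientGroup.mk' M) N)
  have ha' : (QuotientGroup.mk' M a) ^ p = 1 := by rw [← map_pow, ha, map_one]
  have hb' : (QuotientGroup.mk' M b) ^ q = 1 := by rw [← map_pow, hb, map_one]
  have hab' : InvGen (QuotientGroup.mk' M a) (QuotientGroup.mk' M b) :=
    hab.map (QuotientGroup.mk' M) (QuotientGroup.mk'_surjective M)
  have hnil : Group.IsNilpotent (N.map (QuotientGroup.mk' M)) := by
    refine radN hp hq ha' hb' hab' _ hN' hs' fun M' hM' hMN' hr' => ?_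
    have hc := radQ_card M M'
    have hle : M'.comap (QuotientGroup.mk' M) ≤ N := by
      intro x hx
      obtain ⟨y, hy, hxy⟩ := hMN' (show QuotientGroup.mk' M x ∈ M' from hx)
      have h1 : y⁻¹ * x ∈ M := QuotientGroup.eq.1 hxy
      have h2 : y * (y⁻¹ * x) ∈ N := N.mul_mem hy (hMN h1)
      rwa [mul_inv_cancel_left] at h2
    have h3 := hmax (M'.comap (QuotientGroup.mk' M)) ⟨hM'.comap _, hle, fun r hr hd => by
      rw [hc] at hd
      rcases (Nat.Prime.dvd_mul hr).1 hd with h4 | h4
      · exact hr' r hr h4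
      · exact hMr r hr h4⟩
    have h4 : Nat.card M' * Nat.card M ≤ 1 * Nat.card M := by
      rw [one_mul, ← hc]
      exact h3
    have h5 : Nat.card M' ≤ 1 := Nat.le_of_mul_le_mul_right h4 Nat.card_pos
    exact Subgroup.eq_bot_of_card_le M' h5
  have hg : Function.Injective (((QuotientGroup.mk' M).subgroupMap N).comp f) := by
    rw [injective_iff_map_eq_one]
    intro x hx
    have h1 : ((f x : N) : G) ∈ M := by
      have h2 : QuotientGroup.mk' M ((f x : N) : G) = 1 := congrArg Subtype.val hx
      exact (QuotientGroup.eq_one_iff _).1 h2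
    have h3 : orderOf ((f x : N) : G) = orderOf x := by
      have h4 : orderOf ((f x : N) : G) = orderOf (f x) := Subgroup.orderOf_coe (f x)
      rw [h4, orderOf_injective f hf]
    have h5 : orderOf x ∣ Nat.card M := by
      rw [← h3]
      exact Subgroup.orderOf_dvd_natCard M h1
    have h6 : orderOf x ∣ Nat.card H := orderOf_dvd_natCard x
    by_contra hne
    have h7 : orderOf x ≠ 1 := fun h8 => hne (orderOf_eq_one_iff.1 h8)
    obtain ⟨r, hr, hrd⟩ := Nat.exists_prime_and_dvd h7
    have h8 : r ∣ p * q := by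
      rcases hMr r hr (hrd.trans h5) with h9 | h9
      · rw [h9]
        exact dvd_mul_right p q
      · rw [h9]
        exact dvd_mul_left q p
    exact hr.one_lt.ne' (Nat.dvd_one.1 (hH ▸ Nat.dvd_gcd (hrd.trans h6) h8))
  have h1 : Group.IsNilpotent (((QuotientGroup.mk' M).subgroupMap N).comp f).range :=
    Subgroup.isNilpotent _
  exact Group.nilpotent_of_mulEquiv (MonoidHom.ofInjective hg).symm

end Pool.Agent.NBA
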