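import Pool.Agent.NBA.RadS
import Pool.Agent.NBA.RadQ

set_option autoImplicit false

/-! NBA-Rad. Theorem T2: soluble radicals. -/

namespace Pool.Agent.NBA

open Helper76.IG

theorem rad {p q : ℕ} (hp : p.Prime) (hq : q.Prime) (hne : p ≠ q)
    (hpq : 2 * (p + q) < p * q) (H : Type) [Group H] [Finite H]
    (hH : (Nat.card H).Coprime (p * q)) :
    (∃ (G : Type) (_ : Group G) (_ : Finite G) (N : Subgroup G), IsIG p q G ∧ N.Normal ∧
      Group.IsSolvable N ∧ Embeds H N) ↔ Group.IsNilpotent H := by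
  constructor
  · rintro ⟨G, _, _, N, ⟨a, b, ha, hb, hab⟩, hN, hs, he⟩
    exact radQ hp hq (ha ▸ pow_orderOf_eq_one a) (hb ▸ pow_orderOf_eq_one b) hab N hN hs hH he
  · exact radS hp hq hne hpq H

end Pool.Agent.NBA
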