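import Pool.Agent.NBA.Defs
import Pool.Agent.Helper76.PQ.Nec

set_option autoImplicit false

/-! NBA-RadN. Soluble normal subgroups without normal `{p, q}`-subgroups are nilpotent.
PLAN.  Claim: every `T ≤ N`, `T` normal in `G`, is nilpotent.  Strong induction on `Nat.card T`; `T = ⊥` clear.  Otherwise let `F` be maximal among the proper subgroups of `T` which are normal in `G`; `F` is nilpotent by induction.  Its Sylow `p`- and `q`-subgroups are characteristic in `F`, so normal in `G`, so
trivial by `h`: `p`, `q` do not divide `Nat.card F`.  `T ⧸ F` (or the subgroup `T.map (mk' F)` of `G ⧸ F`) is soluble, nontrivial: it has a nontrivial normal subgroup of prime power order `r ^ n` (`Helper76.PQ.Nec_normal`), more precisely take the largest normal `r`-subgroup (characteristic, e.g. the intersection of the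
Sylow `r`-subgroups, or the join of all normal `r`-subgroups), so it is normal in `G ⧸ F`, and by the maximality of `F` it is all of `T ⧸ F`: `T ⧸ F` is an `r`-group, `r` prime.  (Or: the last nontrivial term of the derived series of `T ⧸ F` is normal in `G ⧸ F`, so `T ⧸ F` is abelian, and its elements of order dividing `r`
form a nontrivial characteristic subgroup.)  Let `T₀` be a Sylow `r`-subgroup of `T`.  Frattini: `Sylow.normalizer_sup_eq_top` (for the normal subgroup `T` of `G`: `normalizer (T₀ in G) ⊔ T = ⊤`), `T = F T₀`, so `normalizer T₀ ⊔ F = ⊤`: the index of the normalizer divides `Nat.card F`, is prime to `p` and `q`: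
`Helper76.PQ.Nec_conj` for `a`, `p` and for `b`, `q`, and `hab.eq_top`: `normalizer T₀ = ⊤`: `T₀` is normal in `G`.  For a prime `t ≠ r` a Sylow `t`-subgroup of `T` lies in `F` (`T ⧸ F` is an `r`-group), it is the normal Sylow `t`-subgroup of the nilpotent group `F`, characteristic, normal in `G`.
So all Sylow subgroups of `T` are normal: `T` is nilpotent (`Group.isNilpotent_of_finite_tfae`). -/

namespace Pool.Agent.NBA

open Helper76.IG

/-- Sylow subgroups of a nilpotent normal subgroup are normal. -/
private theorem RadN_syl {G : Type} [Group G] [Finite G] (K : Subgroup G) (hK : K.Normal)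
    (hn : Group.IsNilpotent K) {t : ℕ} (ht : Fact t.Prime) (P : Sylow t K) :
    ((P : Subgroup K).map K.subtype).Normal := by
  have h0 : ∀ (p : ℕ), Fact (Nat.Prime p) → ∀ (P : Sylow p K), (P : Subgroup K).Normal :=
    ((Group.isNilpotent_of_finite_tfae (G := K)).out 0 3).1 hn
  have h1 : (P : Subgroup K).Normal := h0 t ht P
  have h2 : (P : Subgroup K).Characteristic := P.characteristic_of_normal h1
  exact ConjAct.normal_of_characteristic_of_normal

/-- primes without normal subgroups do not divide the order of a nilpotent normal subgroup -/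
private theorem RadN_ndvd {G : Type} [Group G] [Finite G] (K : Subgroup G) (hK : K.Normal)
    (hn : Group.IsNilpotent K) {t : ℕ} (ht : t.Prime)
    (h : ∀ M : Subgroup G, M.Normal → M ≤ K → (∀ r : ℕ, r.Prime → r ∣ Nat.card M → r = t) → M = ⊥) :
    ¬ t ∣ Nat.card K := by
  intro hd
  have hf : Fact t.Prime := ⟨ht⟩
  obtain ⟨P⟩ : Nonempty (Sylow t K) := inferInstance
  have h1 := h _ (RadN_syl K hK hn hf P) (Subgroup.map_subtype_le _) (by
    intro r hr hd'
    rw [Subgroup.card_map_of_injective (Subgroup.subtype_injective K), P.card_eq_multiplicity] at hd'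
    exact (Nat.prime_dvd_prime_iff_eq hr ht).1 (hr.dvd_of_dvd_pow hd'))
  have h2 : Nat.card ((P : Subgroup K).map K.subtype) = 1 := by
    rw [h1, Subgroup.card_bot]
  rw [Subgroup.card_map_of_injective (Subgroup.subtype_injective K), P.card_eq_multiplicity] at h2
  have h3 : (Nat.card K).factorization t ≠ 0 := by
    intro h4
    rw [Nat.factorization_eq_zero_iff] at h4
    rcases h4 with h4 | h4 | h4
    · exact h4 ht
    · exact h4 hd
    · have := Nat.card_pos (α := K)
      omega
  have h5 := Nat.one_lt_pow h3 ht.one_lt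
  omega

/-- a nontrivial soluble subgroup is not perfect -/
private theorem RadN_perf {G : Type} [Group G] (T : Subgroup G) (hs : Group.IsSolvable T)
    (hT : T ≠ ⊥) : ⁅T, T⁆ ≠ T := by
  intro h
  have h1 : Nontrivial T := (Subgroup.nontrivial_iff_ne_bot T).2 hT
  have h2 := Group.IsSolvable.commutator_lt_top_of_nontrivial T
  have h3 := Subgroup.map_subtype_commutator T
  rw [h] at h3
  have h4 : (commutator T).map T.subtype = (⊤ : Subgroup T).map T.subtype := by
    rw [h3, ← MonoidHom.range_eq_map, Subgroup.range_subtype]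
  have h5 := Subgroup.map_injective (Subgroup.subtype_injective T) h4
  exact h2.ne h5

/-- the index of a supplement of a normal subgroup divides the order of the normal subgroup -/
private theorem RadN_idx {G : Type} [Group G] [Finite G] (H F : Subgroup G) (hF : F.Normal)
    (h : H ⊔ F = ⊤) : H.index ∣ Nat.card F := by
  have h1 := Subgroup.relIndex_sup_right H F
  rw [h, Subgroup.relIndex_top_right] at h1
  have h2 := Subgroup.card_mul_index F
  have h3 := Subgroup.card_mul_index H
  have h4 : Nat.card (F.subgroupOf H) * F.relIndex H = Nat.card H :=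
    Subgroup.card_mul_index (F.subgroupOf H)
  rw [← h1] at h4
  refine ⟨Nat.card (F.subgroupOf H), ?_⟩
  have h5 : Nat.card F * F.index = H.index * Nat.card (F.subgroupOf H) * F.index := by
    rw [h2, ← h3, ← h4]
    ring
  exact Nat.eq_of_mul_eq_mul_right (Nat.pos_of_ne_zero Subgroup.index_ne_zero_of_finite) h5

/-- above a maximal normal subgroup everything is an `r`-group -/
private theorem RadN_step {G : Type} [Group G] [Finite G] (T : Subgroup G) (hT : T.Normal)
    (hs : Group.IsSolvable T) (hT0 : T ≠ ⊥) :
    ∃ (F : Subgroup G) (r : ℕ), F.Normal ∧ F < T ∧ r.Prime ∧ ∀ x ∈ T, ∃ k : ℕ, x ^ r ^ k ∈ F := by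
  obtain ⟨F, hF, hmax⟩ := Set.Finite.exists_maximal
    (s := {F : Subgroup G | F.Normal ∧ F < T}) (Set.toFinite _)
    ⟨⊥, Subgroup.normal_bot, bot_lt_iff_ne_bot.2 hT0⟩
  obtain ⟨hFn, hFT⟩ := hF
  have hcomm : ⁅T, T⁆ ≤ F := by
    have h0 : ⁅T, T⁆ ≤ T := Subgroup.commutator_le_left T T
    have h1 : (⁅T, T⁆ ⊔ F).Normal := inferInstance
    have h2 : ⁅T, T⁆ ⊔ F ≤ T := sup_le h0 hFT.le
    by_cases h3 : ⁅T, T⁆ ⊔ F = T
    · exfalso
      have h4 : Group.IsSolvable (T.map (QuotientGroup.mk' F)) :=
        Group.isSolvable_of_surjective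
          (MonoidHom.subgroupMap_surjective (QuotientGroup.mk' F) T)
      have h5 : T.map (QuotientGroup.mk' F) ≠ ⊥ := by
        intro h6
        rw [Subgroup.map_eq_bot_iff, QuotientGroup.ker_mk'] at h6
        exact absurd (le_antisymm h6 hFT.le) hFT.ne'
      apply RadN_perf _ h4 h5
      rw [← Subgroup.map_commutator]
      conv_rhs => rw [← h3]
      rw [Subgroup.map_sup]
      have h7 : F.map (QuotientGroup.mk' F) = ⊥ := by
        rw [Subgroup.map_eq_bot_iff, QuotientGroup.ker_mk']
      rw [h7, sup_bot_eq]
    · exact le_sup_left.trans (hmax ⟨h1, lt_of_le_of_ne h2 h3⟩ le_sup_right)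
  have hq : ∀ x ∈ T, ∀ y ∈ T, Commute (x : G ⧸ F) (y : G ⧸ F) := by
    intro x hx y hy
    have h1 : x * y * x⁻¹ * y⁻¹ ∈ F := hcomm (Subgroup.commutator_mem_commutator hx hy)
    have h2 : ((x * y * x⁻¹ * y⁻¹ : G) : G ⧸ F) = 1 := (QuotientGroup.eq_one_iff _).2 h1
    have h3 : (x : G ⧸ F) * (y : G ⧸ F) * (x : G ⧸ F)⁻¹ * (y : G ⧸ F)⁻¹ = 1 := h2
    exact mul_inv_eq_iff_eq_mul.1 (mul_inv_eq_one.1 h3)
  obtain ⟨x₀, hx₀, hx₀'⟩ := SetLike.exists_of_lt hFT
  have ho : orderOf (x₀ : G ⧸ F) ≠ 1 := by
    intro h1
    rw [orderOf_eq_one_iff, QuotientGroup.eq_one_iff] at h1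
    exact hx₀' h1
  obtain ⟨r, hr, m, hm⟩ := Nat.exists_prime_and_dvd ho
  have hm0 : 0 < orderOf (x₀ : G ⧸ F) := orderOf_pos _
  refine ⟨F, r, hFn, hFT, hr, ?_⟩
  let R : Subgroup G :=
    { carrier := {x | x ∈ T ∧ ∃ k : ℕ, x ^ r ^ k ∈ F}
      one_mem' := ⟨T.one_mem, 0, by rw [one_pow]; exact F.one_mem⟩
      mul_mem' := by
        rintro x y ⟨hx, k, hk⟩ ⟨hy, l, hl⟩
        refine ⟨T.mul_mem hx hy, k + l, ?_⟩
        rw [← QuotientGroup.eq_one_iff] at hk hl ⊢
        have h1 : (((x * y) ^ r ^ (k + l) : G) : G ⧸ F) =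
            ((x : G ⧸ F) * (y : G ⧸ F)) ^ r ^ (k + l) := rfl
        have hk' : (x : G ⧸ F) ^ r ^ k = 1 := hk
        have hl' : (y : G ⧸ F) ^ r ^ l = 1 := hl
        have h2 : (x : G ⧸ F) ^ r ^ (k + l) = 1 := by
          rw [pow_add, pow_mul, hk', one_pow]
        have h3 : (y : G ⧸ F) ^ r ^ (k + l) = 1 := by
          rw [add_comm, pow_add, pow_mul, hl', one_pow]
        rw [h1, (hq x hx y hy).mul_pow, h2, h3, one_mul]
      inv_mem' := by
        rintro x ⟨hx, k, hk⟩
        exact ⟨T.inv_mem hx, k, by rw [inv_pow]; exact F.inv_mem hk⟩ }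
  have hRT : R ≤ T := fun x hx => hx.1
  have hFR : F ≤ R := fun x hx => ⟨hFT.le hx, 0, by rw [pow_zero, pow_one]; exact hx⟩
  have hRn : R.Normal := by
    refine ⟨?_⟩
    rintro x ⟨hx, k, hk⟩ g
    refine ⟨hT.conj_mem x hx g, k, ?_⟩
    rw [conj_pow]
    exact hFn.conj_mem _ hk g
  have hR : R = T := by
    by_contra hne
    have h1 : R ≤ F := hmax ⟨hRn, lt_of_le_of_ne hRT hne⟩ hFR
    have h2 : x₀ ^ m ∈ R := by
      refine ⟨T.pow_mem hx₀ m, 1, ?_⟩
      rw [pow_one, ← pow_mul, mul_comm, ← hm, ← QuotientGroup.eq_one_iff]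
      exact pow_orderOf_eq_one (x₀ : G ⧸ F)
    have h3 := h1 h2
    rw [← QuotientGroup.eq_one_iff] at h3
    have h4 : (x₀ : G ⧸ F) ^ m = 1 := h3
    have h5 := orderOf_dvd_of_pow_eq_one h4
    have hm1 : 0 < m := by
      rcases Nat.eq_zero_or_pos m with h6 | h6
      · rw [h6, mul_zero] at hm
        omega
      · exact h6
    have h7 := Nat.le_of_dvd hm1 h5
    rw [hm] at h7
    have h8 := hr.two_le
    nlinarith
  intro x hx
  rw [← hR] at hx
  exact hx.2

/-- a subgroup of `T` that is both a `t`-group and an `r`-group modulo `F` lies in `F` -/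
private theorem RadN_cop {G : Type} [Group G] (F : Subgroup G) {r t : ℕ} (hr : r.Prime)
    (ht : t.Prime) (hrt : t ≠ r) {x : G} {j k : ℕ} (h1 : x ^ t ^ j = 1) (h2 : x ^ r ^ k ∈ F) :
    x ∈ F := by
  have h3 : Nat.Coprime (t ^ j) (r ^ k) :=
    Nat.Coprime.pow _ _ ((Nat.coprime_primes ht hr).2 hrt)
  have h4 : (r ^ k).Coprime (orderOf x) := (h3.coprime_dvd_left (orderOf_dvd_of_pow_eq_one h1)).symm
  have h5 : x ∈ Subgroup.zpowers (x ^ r ^ k) := by
    obtain ⟨m, hm⟩ := exists_pow_eq_self_of_coprime h4
    exact ⟨m, by simpa using hm⟩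
  exact (Subgroup.zpowers_le.2 h2) h5

theorem radN {p q : ℕ} (hp : p.Prime) (hq : q.Prime) {G : Type} [Group G] [Finite G] {a b : G}
    (ha : a ^ p = 1) (hb : b ^ q = 1) (hab : InvGen a b) (N : Subgroup G) (hN : N.Normal)
    (hs : Group.IsSolvable N)
    (h : ∀ M : Subgroup G, M.Normal → M ≤ N →
      (∀ r : ℕ, r.Prime → r ∣ Nat.card M → r = p ∨ r = q) → M = ⊥) :
    Group.IsNilpotent N := by
  have key : ∀ (n : ℕ) (T : Subgroup G), Nat.card T ≤ n → T.Normal → T ≤ N →
      Group.IsNilpotent T := by
    intro n
    induction n with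
    | zero =>
      intro T hc
      have := Nat.card_pos (α := T)
      omega
    | succ n ih =>
      intro T hc hT hTN
      by_cases hT0 : T = ⊥
      · subst hT0
        infer_instance
      have hsT : Group.IsSolvable T :=
        Group.isSolvable_of_isSolvable_injective (Subgroup.inclusion_injective hTN)
      obtain ⟨F, r, hFn, hFT, hr, hpow⟩ := RadN_step T hT hsT hT0
      have hFc : Nat.card F ≤ n := by
        have h1 : Nat.card F < Nat.card T := by
          have h2 := Set.Finite.card_lt_card (Set.toFinite (T : Set G))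
            (show (F : Set G) ⊂ (T : Set G) from hFT)
          exact h2
        omega
      have hFnil : Group.IsNilpotent F := ih F hFc hFn (hFT.le.trans hTN)
      have hpF : ¬ p ∣ Nat.card F := by
        refine RadN_ndvd F hFn hFnil hp ?_
        intro M hM hMF hM'
        exact h M hM (hMF.trans (hFT.le.trans hTN)) (fun s hs1 hs2 => Or.inl (hM' s hs1 hs2))
      have hqF : ¬ q ∣ Nat.card F := by
        refine RadN_ndvd F hFn hFnil hq ?_
        intro M hM hMF hM'
        exact h M hM (hMF.trans (hFT.le.trans hTN)) (fun s hs1 hs2 => Or.inr (hM' s hs1 hs2))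
      apply ((Group.isNilpotent_of_finite_tfae (G := T)).out 0 3).2
      intro t ht P
      have hPG : ((P : Subgroup T).map T.subtype).Normal := by
        by_cases htr : t = r
        · subst htr
          -- the Frattini argument
          set T₀ := (P : Subgroup T).map T.subtype with hT₀
          have h1 : Subgroup.normalizer (T₀ : Set G) ⊔ T = ⊤ := Sylow.normalizer_sup_eq_top P
          have h2 : F.subgroupOf T ⊔ (P : Subgroup T) = ⊤ := by
            rw [← Subgroup.index_eq_one]
            have h3 : (F.subgroupOf T ⊔ (P : Subgroup T)).index ∣ (F.subgroupOf T).index :=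
              Subgroup.index_dvd_of_le le_sup_left
            have h4 : (F.subgroupOf T ⊔ (P : Subgroup T)).index ∣ (P : Subgroup T).index :=
              Subgroup.index_dvd_of_le le_sup_right
            have h5 : IsPGroup t (T ⧸ F.subgroupOf T) := by
              intro y
              obtain ⟨x, rfl⟩ := QuotientGroup.mk_surjective y
              obtain ⟨k, hk⟩ := hpow x x.2
              refine ⟨k, ?_⟩
              rw [← QuotientGroup.mk_pow, QuotientGroup.eq_one_iff, Subgroup.mem_subgroupOf]
              exact hk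
            obtain ⟨e, he⟩ := IsPGroup.iff_card.1 h5
            have h6 : (F.subgroupOf T).index = t ^ e := he
            rw [h6] at h3
            obtain ⟨i, hi, h7⟩ := (Nat.dvd_prime_pow hr).1 h3
            rcases Nat.eq_zero_or_pos i with h8 | h8
            · rw [h7, h8, pow_zero]
            · exfalso
              refine P.not_dvd_index (Dvd.dvd.trans ?_ h4)
              rw [h7]
              exact dvd_pow_self t h8.ne'
          have h3 : F ⊔ T₀ = T := by
            have h4 := congrArg (Subgroup.map T.subtype) h2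
            rw [Subgroup.map_sup, ← MonoidHom.range_eq_map, Subgroup.range_subtype,
              Subgroup.subgroupOf_map_subtype, inf_eq_left.2 hFT.le] at h4
            exact h4
          have h4 : Subgroup.normalizer (T₀ : Set G) ⊔ F = ⊤ := by
            rw [← top_le_iff, ← h1]
            refine sup_le le_sup_left ?_
            rw [← h3]
            exact sup_le le_sup_right (Subgroup.le_normalizer.trans le_sup_left)
          have h5 := RadN_idx _ F hFn h4
          obtain ⟨g, hg⟩ := Helper76.PQ.Nec_conj hp ha (Subgroup.normalizer (T₀ : Set G))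
            (fun h6 => hpF (h6.trans h5))
          obtain ⟨k, hk⟩ := Helper76.PQ.Nec_conj hq hb (Subgroup.normalizer (T₀ : Set G))
            (fun h6 => hqF (h6.trans h5))
          have h6 := hab.eq_top hg hk
          exact Subgroup.normalizer_eq_top_iff.1 h6
        · -- the other primes
          have hPF : (P : Subgroup T).map T.subtype ≤ F := by
            rintro _ ⟨x, hx, rfl⟩
            obtain ⟨j, hj⟩ := P.isPGroup' ⟨x, hx⟩
            obtain ⟨k, hk⟩ := hpow x x.2
            have h1 : (x : G) ^ t ^ j = 1 := by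
              have h2 := congrArg (fun z : (P : Subgroup T) => (((z : T) : G))) hj
              simpa using h2
            exact RadN_cop F hr ht.out htr h1 hk
          have hP1 : IsPGroup t (((P : Subgroup T).map T.subtype).subgroupOf F) := by
            have h1 : IsPGroup t ((P : Subgroup T).map T.subtype) := P.isPGroup'.map _
            exact h1.comap_subtype
          obtain ⟨Q, hQ⟩ := hP1.exists_le_sylow
          have h2 : (P : Subgroup T).map T.subtype ≤ (Q : Subgroup F).map F.subtype := by
            have h3 := Subgroup.map_mono (f := F.subtype) hQ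
            rw [Subgroup.subgroupOf_map_subtype, inf_eq_left.2 hPF] at h3
            exact h3
          have h3 : (Q : Subgroup F).map F.subtype ≤ T := (Subgroup.map_subtype_le _).trans hFT.le
          have h4 : IsPGroup t (((Q : Subgroup F).map F.subtype).subgroupOf T) := by
            have h5 : IsPGroup t ((Q : Subgroup F).map F.subtype) := Q.isPGroup'.map _
            exact h5.comap_subtype
          have h5 : (P : Subgroup T) ≤ ((Q : Subgroup F).map F.subtype).subgroupOf T := by
            intro x hx
            rw [Subgroup.mem_subgroupOf]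
            exact h2 ⟨x, hx, rfl⟩
          have h6 := P.is_maximal' h4 h5
          have h7 : (P : Subgroup T).map T.subtype = (Q : Subgroup F).map F.subtype := by
            rw [← h6, Subgroup.subgroupOf_map_subtype, inf_eq_left.2 h3]
          rw [h7]
          exact RadN_syl F hFn hFnil ht Q
      have h8 := hPG.comap T.subtype
      rwa [Subgroup.comap_map_eq_self_of_injective (Subgroup.subtype_injective T)] at h8
  exact key _ N le_rfl hN le_rfl

end Pool.Agent.NBA
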