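import Pool.Agent.NBA.Cov

set_option autoImplicit false

/-! NBA-RadS. Nilpotent groups embed in soluble radicals. For every prime `s` the elements of order
coprime to `s` form a normal subgroup of a nilpotent group, with quotient an `s`-group. -/

namespace Pool.Agent.NBA

open Helper76.IG

private theorem radS_char {ι : Type} {T : ι → Type} [∀ i, Group (T i)] (p : ι → ℕ)
    (hp : ∀ i, (p i).Prime) (hT : ∀ i, IsPGroup (p i) (T i)) [Finite (∀ i, T i)] {s : ℕ} (hs : s.Prime)
    (g : ∀ i, T i) : (orderOf g).Coprime s ↔ ∀ i, p i = s → g i = 1 := by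
  have hord : ∀ i (x : T i), ∃ k, orderOf x = p i ^ k := by
    intro i x
    have := Fact.mk (hp i)
    exact IsPGroup.iff_orderOf.1 (hT i) x
  constructor
  · intro h i hi
    obtain ⟨k, hk⟩ := hord i (g i)
    have h1 : orderOf (g i) ∣ orderOf g := by
      apply orderOf_dvd_of_pow_eq_one
      have h2 := congrFun (pow_orderOf_eq_one g) i
      simpa using h2
    rw [hk, hi] at h1
    have h3 : (s ^ k).Coprime s := Nat.Coprime.coprime_dvd_left h1 h
    rcases Nat.eq_zero_or_pos k with rfl | hk0
    · rw [pow_zero] at hk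
      exact orderOf_eq_one_iff.1 hk
    · exfalso
      have h4 := (Nat.coprime_pow_left_iff hk0 s s).1 h3
      rw [Nat.coprime_self] at h4
      exact hs.ne_one h4
  · intro h
    rw [Nat.coprime_comm, hs.coprime_iff_not_dvd]
    intro hdvd
    have hn : 0 < orderOf g := orderOf_pos g
    obtain ⟨m, hm⟩ := hdvd
    have hm0 : m ≠ 0 := by
      rintro rfl
      omega
    have hml : m < orderOf g := by
      rw [hm]
      exact lt_mul_of_one_lt_left (Nat.pos_of_ne_zero hm0) hs.one_lt
    have hgm : g ^ m ≠ 1 := pow_ne_one_of_lt_orderOf hm0 hml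
    obtain ⟨i, hi⟩ : ∃ i, (g i) ^ m ≠ 1 := by
      by_contra hcon
      push Not at hcon
      apply hgm
      funext i
      simpa using hcon i
    have h1 : ((g i) ^ m) ^ s = 1 := by
      rw [← pow_mul, mul_comm, ← hm]
      have h2 := congrFun (pow_orderOf_eq_one g) i
      simpa using h2
    have h2 : orderOf ((g i) ^ m) ∣ s := orderOf_dvd_of_pow_eq_one h1
    have h3 : orderOf ((g i) ^ m) = s := by
      rcases (Nat.dvd_prime hs).1 h2 with h3 | h3
      · exact absurd (orderOf_eq_one_iff.1 h3) hi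
      · exact h3
    obtain ⟨k, hk⟩ := hord i ((g i) ^ m)
    rw [h3] at hk
    have h4 : s ∣ p i := hs.dvd_of_dvd_pow (dvd_of_eq hk)
    have h5 : s = p i := (Nat.prime_dvd_prime_iff_eq hs (hp i)).1 h4
    apply hi
    rw [h i h5.symm, one_pow]

private theorem radS_mul {G : Type} [Group G] [Finite G] (hG : Group.IsNilpotent G) {s : ℕ}
    (hs : s.Prime) (x y : G) (hx : (orderOf x).Coprime s) (hy : (orderOf y).Coprime s) :
    (orderOf (x * y)).Coprime s := by
  obtain ⟨e⟩ := ((Group.isNilpotent_of_finite_tfae (G := G)).out 0 4).mp hG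
  let ι : Type := Σ p : (Nat.card G).primeFactors, Sylow p G
  let T : ι → Type := fun i => (i.2 : Subgroup G)
  let F : (∀ i : ι, T i) ≃* (∀ p : (Nat.card G).primeFactors, ∀ P : Sylow p G, (P : Subgroup G)) :=
    { toFun := fun g p P => g ⟨p, P⟩
      invFun := fun g i => g i.1 i.2
      left_inv := fun g => rfl
      right_inv := fun g => rfl
      map_mul' := fun g h => rfl }
  let E : (∀ i : ι, T i) ≃* G := F.trans e
  have : Finite (∀ i : ι, T i) := Finite.of_equiv G E.symm.toEquiv
  have hch := fun g : (∀ i : ι, T i) => radS_char (T := T) (fun i => ((i.1 : ℕ)))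
    (fun i => Nat.prime_of_mem_primeFactors i.1.2) (fun i => i.2.isPGroup') hs g
  obtain ⟨g, rfl⟩ := E.surjective x
  obtain ⟨h, rfl⟩ := E.surjective y
  rw [MulEquiv.orderOf_eq] at hx hy
  rw [← map_mul, MulEquiv.orderOf_eq, hch]
  rw [hch] at hx hy
  intro i hi
  rw [Pi.mul_apply, hx i hi, hy i hi, one_mul]

private def radS_N {H : Type} [Group H] [Finite H] (hH : Group.IsNilpotent H) {s : ℕ}
    (hs : s.Prime) : Subgroup H where
  carrier := {x | (orderOf x).Coprime s}
  one_mem' := by
    change (orderOf (1 : H)).Coprime s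
    rw [orderOf_one]
    exact Nat.coprime_one_left s
  inv_mem' := by
    intro x hx
    change (orderOf x⁻¹).Coprime s
    rw [orderOf_inv]
    exact hx
  mul_mem' := by
    intro x y hx hy
    exact radS_mul hH hs x y hx hy

private theorem radS_normal {H : Type} [Group H] [Finite H] (hH : Group.IsNilpotent H) {s : ℕ}
    (hs : s.Prime) : (radS_N hH hs).Normal := by
  constructor
  intro x hx g
  change (orderOf (g * x * g⁻¹)).Coprime s
  have h : orderOf (MulAut.conj g x) = orderOf x := MulEquiv.orderOf_eq _ _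
  rw [MulAut.conj_apply] at h
  rw [h]
  exact hx

private def radS_f (P : Type) [Group P] : P →* Wr P PUnit where
  toFun x := ⟨fun _ => x, 1⟩
  map_one' := rfl
  map_mul' _ _ := rfl

theorem radS {p q : ℕ} (hp : p.Prime) (hq : q.Prime) (hne : p ≠ q)
    (hpq : 2 * (p + q) < p * q) (H : Type) [Group H] [Finite H] (hH : Group.IsNilpotent H) :
    ∃ (G : Type) (_ : Group G) (_ : Finite G) (N : Subgroup G), IsIG p q G ∧ N.Normal ∧
      Group.IsSolvable N ∧ Embeds H N := by
  have h : ∀ s : ℕ, s.Prime → ∃ (P A : Type) (_ : Group P) (_ : CommGroup A) (_ : Finite P)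
      (_ : Finite A) (f : H →* Wr P A), IsPGroup s P ∧ (Nat.card A).Coprime s ∧
      (∀ x, f x = 1 → (orderOf x).Coprime s) ∧ ∀ x ∈ (Set.univ : Set H), (f x).r = 1 := by
    intro s hs
    have hN := radS_normal hH hs
    refine ⟨H ⧸ radS_N hH hs, PUnit, inferInstance, inferInstance, inferInstance, inferInstance,
      (radS_f (H ⧸ radS_N hH hs)).comp (QuotientGroup.mk' (radS_N hH hs)), ?_, ?_, ?_, ?_⟩
    · intro y
      obtain ⟨x, rfl⟩ := QuotientGroup.mk'_surjective (radS_N hH hs) y
      obtain ⟨j, n, hn, hjn⟩ := Nat.exists_eq_pow_mul_and_not_dvd (orderOf_pos x).ne' s hs.ne_one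
      refine ⟨j, ?_⟩
      rw [← map_pow]
      refine (QuotientGroup.eq_one_iff _).2 ?_
      change (orderOf (x ^ s ^ j)).Coprime s
      have h1 : orderOf (x ^ s ^ j) ∣ n := by
        apply orderOf_dvd_of_pow_eq_one
        rw [← pow_mul, ← hjn, pow_orderOf_eq_one]
      have h2 : n.Coprime s := by
        rw [Nat.coprime_comm, hs.coprime_iff_not_dvd]
        exact hn
      exact Nat.Coprime.coprime_dvd_left h1 h2
    · rw [Nat.card_unique]
      exact Nat.coprime_one_left s
    · intro x hx
      have h1 : ((QuotientGroup.mk' (radS_N hH hs)) x) = 1 :=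
        congrFun (congrArg Wr.l hx) PUnit.unit
      exact (QuotientGroup.eq_one_iff x).1 h1
    · intro x _
      rfl
  obtain ⟨X, _, _, a, b, F, Z, hab, ha, hb, ha1, hb1, hF, hZ, hZs, hFZ⟩ :=
    cov_all hp hq hne hpq (Set.univ : Set H) h (Nat.card H).primeFactors
      (fun s hs => Nat.prime_of_mem_primeFactors hs)
  have hfp := Fact.mk hp
  have hfq := Fact.mk hq
  refine ⟨X, inferInstance, inferInstance, Z, ⟨a, b, orderOf_eq_prime ha ha1,
    orderOf_eq_prime hb hb1, hab⟩, hZ, hZs, F.codRestrict Z (fun x => hFZ x (Set.mem_univ x)), ?_⟩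
  rw [injective_iff_map_eq_one]
  intro x hx
  have h1 : F x = 1 := congrArg Subtype.val hx
  have h2 := hF x h1
  rw [← orderOf_eq_one_iff]
  by_contra h3
  obtain ⟨s, hs, hsx⟩ := Nat.exists_prime_and_dvd h3
  have h4 : s ∈ (Nat.card H).primeFactors :=
    Nat.mem_primeFactors.2 ⟨hs, hsx.trans (orderOf_dvd_natCard x), Nat.card_pos.ne'⟩
  have h5 := h2 s h4
  rw [Nat.coprime_comm, hs.coprime_iff_not_dvd] at h5
  exact h5 hsx

end Pool.Agent.NBA
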