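import Pool.Agent.NBA.Defs

set_option autoImplicit false

/-! NBA-TwoG. Two-generator `s`-groups.
PLAN.  `top`: if `R ≠ ⊤` let `R ≤ R'`, `R'` a maximal subgroup (coatom; the group is finite), normal of index `s` (finite `s`-group is nilpotent: `IsPGroup.isNilpotent`,
`normalizerCondition_of_isNilpotent`, `NormalizerCondition.normal_of_coatom`; the quotient is a simple `s`-group, so of order `s`, isomorphic to `Multiplicative (ZMod s)`).  So there is a
surjective `ρ : P₀ →* Multiplicative (ZMod s)` with kernel `R'`.  On the generators, hence everywhere, `ρ x = (ρ t) ^ (π₀ x).1 * (ρ f) ^ (π₀ x).2` (additively: `ρ = ρ(t) * fst + ρ(f) * snd` composed with `π₀`;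
two homomorphisms which agree on `{t, f}`: `MonoidHom.eq_of_eqOn_topM` / `MonoidHom.eqOn_closure`).  So `π₀.ker ≤ R'`; as `π₀ R = ⊤`, `⊤ = R ⊔ ker ≤ R'`: contradiction.
`hom`: `φ x` is the same combination of `φ t`, `φ f`.  `surj`: `π₀ t`, `π₀ f` generate.  `com`: let `d ∈ D`, `π₀ d ≠ 1`.  There is `y : P₀` with `Subgroup.closure {π₀ d, π₀ y} = ⊤`
(a nonzero vector of `(ZMod s)²` is part of a basis); `R = Subgroup.zpowers y ⊔ D` has `π₀ R = ⊤`, so `R = ⊤` and `P₀ ⧸ D` is generated by the class of `y`: cyclic, commutative: commutators are in `D`. -/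

namespace Pool.Agent.NBA

open scoped commutatorElement

/-- a homomorphism to a commutative group of exponent `s` is determined by the coordinates -/
private theorem twoG_key {s : ℕ} {P₀ A : Type} [Group P₀] [Group A]
    (hcomm : ∀ a b : A, a * b = b * a) (hA : ∀ a : A, a ^ s = 1)
    (t f : P₀) (hgen : Subgroup.closure {t, f} = ⊤) (π₀ : P₀ →* M2 s)
    (ht : π₀ t = Multiplicative.ofAdd (1, 0)) (hf : π₀ f = Multiplicative.ofAdd (0, 1))
    (φ : P₀ →* A) (x : P₀) (hx : π₀ x = 1) : φ x = 1 := by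
  have key : ∀ y : P₀, ∃ m n : ℤ, π₀ y = Multiplicative.ofAdd ((m : ZMod s), (n : ZMod s)) ∧
      φ y = φ t ^ m * φ f ^ n := by
    intro y
    have hy : y ∈ Subgroup.closure {t, f} := by rw [hgen]; trivial
    induction hy using Subgroup.closure_induction with
    | mem z hz =>
      rcases hz with rfl | hz
      · exact ⟨1, 0, by rw [ht]; simp, by simp⟩
      · have hz' : z = f := hz
        subst hz'
        exact ⟨0, 1, by rw [hf]; simp, by simp⟩
    | one => exact ⟨0, 0, by simp; rfl, by simp⟩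
    | mul a b _ _ ha hb =>
      obtain ⟨m, n, h1, h2⟩ := ha
      obtain ⟨m', n', h1', h2'⟩ := hb
      refine ⟨m + m', n + n', ?_, ?_⟩
      · rw [map_mul, h1, h1', ← ofAdd_add]
        simp
      · rw [map_mul, h2, h2', zpow_add, zpow_add]
        have hc : φ f ^ n * φ t ^ m' = φ t ^ m' * φ f ^ n := hcomm _ _
        calc φ t ^ m * φ f ^ n * (φ t ^ m' * φ f ^ n')
            = φ t ^ m * (φ f ^ n * φ t ^ m') * φ f ^ n' := by group
          _ = φ t ^ m * (φ t ^ m' * φ f ^ n) * φ f ^ n' := by rw [hc]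
          _ = φ t ^ m * φ t ^ m' * (φ f ^ n * φ f ^ n') := by group
    | inv a _ ha =>
      obtain ⟨m, n, h1, h2⟩ := ha
      refine ⟨-m, -n, ?_, ?_⟩
      · rw [map_inv, h1, ← ofAdd_neg]
        simp
      · rw [map_inv, h2, mul_inv_rev, zpow_neg, zpow_neg]
        exact hcomm _ _
  obtain ⟨m, n, h1, h2⟩ := key x
  rw [hx] at h1
  have h3 : ((m : ZMod s), (n : ZMod s)) = (0, 0) := by
    have := congrArg Multiplicative.toAdd h1
    simpa using this.symm
  have hm : (m : ZMod s) = 0 := congrArg Prod.fst h3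
  have hn : (n : ZMod s) = 0 := congrArg Prod.snd h3
  rw [ZMod.intCast_zmod_eq_zero_iff_dvd] at hm hn
  obtain ⟨m', rfl⟩ := hm
  obtain ⟨n', rfl⟩ := hn
  rw [h2, zpow_mul, zpow_mul, zpow_natCast, zpow_natCast, hA, hA]
  simp

/-- a maximal subgroup of an `s`-group is normal with commutative quotient of exponent `s` -/
private theorem twoG_max {s : ℕ} (hs : s.Prime) {P₀ : Type} [Group P₀] [Finite P₀]
    (hP : IsPGroup s P₀) (R : Subgroup P₀) (hR : IsCoatom R) :
    ∃ _ : R.Normal, (∀ a b : P₀ ⧸ R, a * b = b * a) ∧ (∀ a : P₀ ⧸ R, a ^ s = 1) := by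
  have : Fact s.Prime := ⟨hs⟩
  have := hP.isNilpotent
  have hN : R.Normal := Subgroup.NormalizerCondition.normal_of_coatom
    (H := R) Group.normalizerCondition_of_isNilpotent hR
  refine ⟨hN, ?_⟩
  have hsub : ∀ H : Subgroup (P₀ ⧸ R), H = ⊥ ∨ H = ⊤ := by
    intro H
    have h1 : R ≤ H.comap (QuotientGroup.mk' R) := by
      intro x hx
      rw [Subgroup.mem_comap]
      have : QuotientGroup.mk' R x = 1 := by simpa using hx
      rw [this]
      exact H.one_mem
    rcases eq_or_lt_of_le h1 with h | h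
    · left
      rw [eq_bot_iff]
      intro z hz
      obtain ⟨x, rfl⟩ := QuotientGroup.mk'_surjective R z
      have hx : x ∈ H.comap (QuotientGroup.mk' R) := hz
      rw [← h] at hx
      simpa using hx
    · right
      have h2 := hR.2 _ h
      rw [eq_top_iff]
      intro z _
      obtain ⟨x, rfl⟩ := QuotientGroup.mk'_surjective R z
      have hx : x ∈ H.comap (QuotientGroup.mk' R) := by rw [h2]; trivial
      exact hx
  constructor
  · intro a b
    by_cases ha : a = 1
    · subst ha; simp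
    · rcases hsub (Subgroup.zpowers a) with h | h
      · rw [Subgroup.zpowers_eq_bot] at h
        exact absurd h ha
      · have hb : b ∈ Subgroup.zpowers a := by rw [h]; trivial
        obtain ⟨k, rfl⟩ := hb
        show a * a ^ k = a ^ k * a
        rw [← zpow_one_add, ← zpow_add_one, add_comm]
  · intro a
    rcases hsub (Subgroup.zpowers (a ^ s)) with h | h
    · rwa [Subgroup.zpowers_eq_bot] at h
    · have ha : a ∈ Subgroup.zpowers (a ^ s) := by rw [h]; trivial
      have hQ : IsPGroup s (P₀ ⧸ R) := hP.to_quotient R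
      have h1 : Subgroup.zpowers (a ^ s) = Subgroup.zpowers a := by
        apply le_antisymm
        · rw [Subgroup.zpowers_le]
          exact ⟨(s : ℤ), by simp⟩
        · rw [Subgroup.zpowers_le]
          exact ha
      have h2 : orderOf (a ^ s) = orderOf a := by
        rw [← Nat.card_zpowers, ← Nat.card_zpowers, h1]
      obtain ⟨k, hk⟩ := hQ a
      rcases (Nat.dvd_prime_pow hs).1 (orderOf_dvd_of_pow_eq_one hk) with ⟨j, _, hj⟩
      rcases Nat.eq_zero_or_pos j with rfl | hj0
      · have : a = 1 := by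
          rw [← orderOf_eq_one_iff, hj]; simp
        rw [this]; simp
      · exfalso
        have h3 : orderOf (a ^ s) = orderOf a / (orderOf a).gcd s := orderOf_pow' a hs.ne_zero
        have h4 : (orderOf a).gcd s = s := by
          apply Nat.gcd_eq_right
          rw [hj]
          exact dvd_pow_self s hj0.ne'
        rw [h4, h2] at h3
        have h5 : 0 < orderOf a := orderOf_pos a
        have h6 : orderOf a / s < orderOf a := Nat.div_lt_self h5 hs.one_lt
        omega

/-- a subgroup containing two independent vectors is everything -/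
private theorem twoG_span {s : ℕ} (hs : s.Prime) {P₀ : Type} [Group P₀] (π₀ : P₀ →* M2 s)
    (R : Subgroup P₀) (d y : P₀) (hd : d ∈ R) (hy : y ∈ R) (a b c e : ZMod s)
    (h1 : π₀ d = Multiplicative.ofAdd (a, b)) (h2 : π₀ y = Multiplicative.ofAdd (c, e))
    (hdet : a * e - b * c ≠ 0) : R.map π₀ = ⊤ := by
  have : Fact s.Prime := ⟨hs⟩
  rw [eq_top_iff]
  intro z _
  obtain ⟨⟨u, v⟩, rfl⟩ := Multiplicative.ofAdd.surjective z
  have hex : ∃ k l : ZMod s, k * a + l * c = u ∧ k * b + l * e = v := by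
    refine ⟨(u * e - v * c) * (a * e - b * c)⁻¹, (a * v - b * u) * (a * e - b * c)⁻¹, ?_, ?_⟩
    · calc (u * e - v * c) * (a * e - b * c)⁻¹ * a + (a * v - b * u) * (a * e - b * c)⁻¹ * c
          = u * ((a * e - b * c) * (a * e - b * c)⁻¹) := by ring
        _ = u := by rw [mul_inv_cancel₀ hdet, mul_one]
    · calc (u * e - v * c) * (a * e - b * c)⁻¹ * b + (a * v - b * u) * (a * e - b * c)⁻¹ * e
          = v * ((a * e - b * c) * (a * e - b * c)⁻¹) := by ring
        _ = v := by rw [mul_inv_cancel₀ hdet, mul_one]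
  obtain ⟨k, l, h3, h4⟩ := hex
  refine ⟨d ^ k.val * y ^ l.val, R.mul_mem (R.pow_mem hd _) (R.pow_mem hy _), ?_⟩
  rw [map_mul, map_pow, map_pow, h1, h2, ← ofAdd_nsmul, ← ofAdd_nsmul, ← ofAdd_add]
  congr 1
  refine Prod.ext ?_ ?_
  · simp [h3]
  · simp [h4]

theorem fr_of_gen {s : ℕ} (hs : s.Prime) {P₀ : Type} [Group P₀] [Finite P₀]
    (hP : IsPGroup s P₀) (t f : P₀) (hgen : Subgroup.closure {t, f} = ⊤) (π₀ : P₀ →* M2 s)
    (ht : π₀ t = Multiplicative.ofAdd (1, 0)) (hf : π₀ f = Multiplicative.ofAdd (0, 1)) :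
    Fr s P₀ π₀ := by
  have : Fact s.Prime := ⟨hs⟩
  have top : ∀ R : Subgroup P₀, R.map π₀ = ⊤ → R = ⊤ := by
    intro R hR
    rcases eq_top_or_exists_le_coatom R with h | ⟨R', hR', hle⟩
    · exact h
    · exfalso
      obtain ⟨hN, hc, he⟩ := twoG_max hs hP R' hR'
      have hker : ∀ x : P₀, π₀ x = 1 → x ∈ R' := by
        intro x hx
        have := twoG_key hc he t f hgen π₀ ht hf (QuotientGroup.mk' R') x hx
        simpa using this
      apply hR'.1
      rw [eq_top_iff]
      intro x _
      have hx : π₀ x ∈ R.map π₀ := by rw [hR]; trivial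
      obtain ⟨r, hr, hrx⟩ := hx
      have h1 : π₀ (r⁻¹ * x) = 1 := by
        rw [map_mul, map_inv, hrx]; simp
      have h2 := R'.mul_mem (hle hr) (hker _ h1)
      simpa using h2
  refine ⟨?_, top, ?_, ?_⟩
  · have h := twoG_span hs π₀ (⊤ : Subgroup P₀) t f trivial trivial 1 0 0 1 ht hf (by simp)
    intro z
    have hz : z ∈ (⊤ : Subgroup P₀).map π₀ := by rw [h]; trivial
    obtain ⟨x, _, hx⟩ := hz
    exact ⟨x, hx⟩
  · intro D hD hnot
    obtain ⟨d, hd, hdk⟩ := SetLike.not_le_iff_exists.1 hnot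
    rw [MonoidHom.mem_ker] at hdk
    obtain ⟨⟨a, b⟩, hab⟩ := Multiplicative.ofAdd.surjective (π₀ d)
    have hy : ∃ y : P₀, Subgroup.zpowers y ⊔ D = ⊤ := by
      by_cases ha : a = 0
      · have hb : b ≠ 0 := by
          rintro rfl
          apply hdk
          rw [← hab, ha]
          rfl
        refine ⟨t, top _ ?_⟩
        refine twoG_span hs π₀ _ d t (Subgroup.mem_sup_right hd)
          (Subgroup.mem_sup_left (Subgroup.mem_zpowers t)) a b 1 0 hab.symm ht ?_
        simpa using hb
      · refine ⟨f, top _ ?_⟩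
        refine twoG_span hs π₀ _ d f (Subgroup.mem_sup_right hd)
          (Subgroup.mem_sup_left (Subgroup.mem_zpowers f)) a b 0 1 hab.symm hf ?_
        simpa using ha
    obtain ⟨y, hy⟩ := hy
    have hform : ∀ x : P₀, ∃ k : ℤ, QuotientGroup.mk' D x = QuotientGroup.mk' D y ^ k := by
      intro x
      have hx : x ∈ Subgroup.zpowers y ⊔ D := by rw [hy]; trivial
      rw [Subgroup.mem_sup_of_normal_right] at hx
      obtain ⟨z, ⟨k, hk⟩, w, hw, hzw⟩ := hx
      refine ⟨k, ?_⟩
      have hw1 : QuotientGroup.mk' D w = 1 := by simpa using hw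
      have hk' : y ^ k = z := hk
      rw [← hzw, map_mul, hw1, mul_one, ← hk', map_zpow]
    rw [commutator_def, Subgroup.commutator_le]
    intro g _ h _
    have h1 : QuotientGroup.mk' D ⁅g, h⁆ = 1 := by
      obtain ⟨k, hk⟩ := hform g
      obtain ⟨l, hl⟩ := hform h
      rw [map_commutatorElement, hk, hl, commutatorElement_eq_one_iff_mul_comm, ← zpow_add,
        ← zpow_add, add_comm]
    exact (QuotientGroup.eq_one_iff _).1 h1
  · intro φ x hx
    have hexp : ∀ a : M2 s, a ^ s = 1 := by
      intro a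
      obtain ⟨⟨u, v⟩, rfl⟩ := Multiplicative.ofAdd.surjective a
      rw [← ofAdd_nsmul]
      simp
    exact twoG_key (fun a b => mul_comm a b) hexp t f hgen π₀ ht hf φ x hx

end Pool.Agent.NBA
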